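import Mathlib

/-!
Embeddings of countable fields into uncountable algebraically closed fields.
-/

namespace Pool.Agent.H.MP_df1c3e_lc

open Cardinal

theorem exists_emb (k L Ω : Type*) [Field k] [Field L] [Field Ω] [Algebra k L] [Algebra k Ω]
    [Countable L] [IsAlgClosed Ω] (hΩ : ℵ₀ < #Ω) : Nonempty (L →ₐ[k] Ω) := by
  obtain ⟨s, hs⟩ := exists_isTranscendenceBasis k L
  obtain ⟨t, ht⟩ := exists_isTranscendenceBasis k Ω
  have hk : Countable k := (algebraMap k L).injective.countable
  have h1 := IsAlgClosed.cardinal_eq_cardinal_transcendence_basis_of_aleph0_lt _ ht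
    (Cardinal.mk_le_aleph0) hΩ
  have ht' : Infinite t := by
    rw [Cardinal.infinite_iff]
    simp only [Cardinal.lift_id] at h1
    rw [← h1]
    exact hΩ.le
  have hsc : Countable s := inferInstance
  obtain ⟨⟨φ, hφ⟩⟩ : Nonempty (s ↪ t) := by
    obtain ⟨f, hf⟩ := Countable.exists_injective_nat s
    exact ⟨⟨fun a => Infinite.natEmbedding t (f a), fun a b hab =>
      hf ((Infinite.natEmbedding t).injective hab)⟩⟩
  have hy : AlgebraicIndependent k (fun a : s => ((φ a : t) : Ω)) := ht.1.comp φ hφ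
  have halg := hs.isAlgebraic
  let S' := Algebra.adjoin k (Set.range ((↑) : s → L))
  let F : S' →ₐ[k] Ω := (MvPolynomial.aeval (fun a : s => ((φ a : t) : Ω))).comp
    (hs.1.aevalEquiv.symm : S' →ₐ[k] MvPolynomial s k)
  have hF : Function.Injective F := by
    have h2 : Function.Injective (MvPolynomial.aeval (R := k) (fun a : s => ((φ a : t) : Ω))) := hy
    intro a b hab
    exact hs.1.aevalEquiv.symm.injective (h2 hab)
  let _ : Algebra S' Ω := F.toRingHom.toAlgebra
  have : FaithfulSMul S' Ω := (faithfulSMul_iff_algebraMap_injective S' Ω).2 hF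
  have : IsScalarTower k S' Ω := IsScalarTower.of_algebraMap_eq fun a => (F.commutes a).symm
  have : Module.IsTorsionFree S' Ω := inferInstance
  exact ⟨(IsAlgClosed.lift (R := S') (S := L) (M := Ω)).restrictScalars k⟩

/-- embedding with a prescribed image of a transcendental element -/
theorem exists_emb_transc (k L Ω : Type*) [Field k] [Field L] [Field Ω] [Algebra k L]
    [Algebra k Ω] [Countable L] [IsAlgClosed Ω] (hΩ : ℵ₀ < #Ω) {x : L} {y : Ω}
    (hx : Transcendental k x) (hy : Transcendental k y) :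
    ∃ θ : L →+* Ω, θ x = y := by
  have hxi : Function.Injective (Polynomial.aeval (R := k) x) :=
    transcendental_iff_injective.1 hx
  have hyi : Function.Injective (Polynomial.aeval (R := k) y) :=
    transcendental_iff_injective.1 hy
  let k₁ := FractionRing (Polynomial k)
  let _ : Algebra k₁ L := (IsFractionRing.lift (A := Polynomial k) (K := k₁)
    (g := (Polynomial.aeval (R := k) x).toRingHom) hxi).toAlgebra
  let _ : Algebra k₁ Ω := (IsFractionRing.lift (A := Polynomial k) (K := k₁)
    (g := (Polynomial.aeval (R := k) y).toRingHom) hyi).toAlgebra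
  obtain ⟨θ⟩ := exists_emb k₁ L Ω hΩ
  refine ⟨θ.toRingHom, ?_⟩
  have h1 : algebraMap k₁ L (algebraMap (Polynomial k) k₁ Polynomial.X) = x := by
    change IsFractionRing.lift _ _ = _
    rw [IsFractionRing.lift_algebraMap]
    simp
  have h2 : algebraMap k₁ Ω (algebraMap (Polynomial k) k₁ Polynomial.X) = y := by
    change IsFractionRing.lift _ _ = _
    rw [IsFractionRing.lift_algebraMap]
    simp
  change θ x = y
  rw [← h1, θ.commutes, h2]

/-- embedding with a prescribed image of an algebraic element -/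
theorem exists_emb_alg (k L Ω : Type*) [Field k] [Field L] [Field Ω] [Algebra k L]
    [Algebra k Ω] [Countable L] [IsAlgClosed Ω] (hΩ : ℵ₀ < #Ω) {x : L} {y : Ω}
    (hx : IsIntegral k x) (hy : Polynomial.aeval y (minpoly k x) = 0) :
    ∃ θ : L →+* Ω, θ x = y := by
  have hirr : Fact (Irreducible (minpoly k x)) := ⟨minpoly.irreducible hx⟩
  let k₁ := AdjoinRoot (minpoly k x)
  have hx' : Polynomial.eval₂ (algebraMap k L) x (minpoly k x) = 0 := minpoly.aeval k x
  have hy' : Polynomial.eval₂ (algebraMap k Ω) y (minpoly k x) = 0 := hy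
  let _ : Algebra k₁ L := (AdjoinRoot.lift (algebraMap k L) x hx').toAlgebra
  let _ : Algebra k₁ Ω := (AdjoinRoot.lift (algebraMap k Ω) y hy').toAlgebra
  obtain ⟨θ⟩ := exists_emb k₁ L Ω hΩ
  refine ⟨θ.toRingHom, ?_⟩
  have h1 : algebraMap k₁ L (AdjoinRoot.root (minpoly k x)) = x := by
    change AdjoinRoot.lift _ _ _ _ = _
    rw [AdjoinRoot.lift_root]
  have h2 : algebraMap k₁ Ω (AdjoinRoot.root (minpoly k x)) = y := by
    change AdjoinRoot.lift _ _ _ _ = _
    rw [AdjoinRoot.lift_root]
  change θ x = y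
  calc θ x = θ (algebraMap k₁ L (AdjoinRoot.root (minpoly k x))) := by rw [h1]
    _ = algebraMap k₁ Ω (AdjoinRoot.root (minpoly k x)) := θ.commutes _
    _ = y := h2

/-- extension of an embedding of a subfield -/
theorem exists_emb_ext {F L Ω : Type*} [Field F] [Field L] [Field Ω] [Algebra F L]
    [Countable L] [IsAlgClosed Ω] (hΩ : ℵ₀ < #Ω) (φ : F →+* Ω) :
    ∃ θ : L →+* Ω, ∀ a, θ (algebraMap F L a) = φ a := by
  let _ : Algebra F Ω := φ.toAlgebra
  obtain ⟨θ⟩ := exists_emb F L Ω hΩ
  exact ⟨θ.toRingHom, fun a => θ.commutes a⟩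

end Pool.Agent.H.MP_df1c3e_lc
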