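import Pool.Agent.H.MP_df1c3e_lc.FinP
import Pool.Agent.H.MP_df1c3e_lc.Emb

/-!
Characteristic zero: enough places.
-/

namespace Pool.Agent.H.MP_df1c3e_lc

open Polynomial

lemma fg_of_le {M : Type*} [CommGroup M] {G H : Subgroup M} (hG : G.FG) (h : H ≤ G) : H.FG := by
  rw [Subgroup.fg_iff_add_fg] at hG ⊢
  have h1 : (AddSubgroup.toIntSubmodule (Subgroup.toAddSubgroup G)).FG := by
    rw [Submodule.fg_iff_addSubgroup_fg]
    simpa using hG
  have h2 := isNoetherian_of_fg_of_noetherian _ h1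
  rw [isNoetherian_submodule] at h2
  have h3 := h2 (AddSubgroup.toIntSubmodule (Subgroup.toAddSubgroup H)) (by
    intro x hx
    exact h hx)
  rw [Submodule.fg_iff_addSubgroup_fg] at h3
  simpa using h3

/-- local field data on `ℚ_[p]` -/
noncomputable def lfPadic (p : ℕ) [hp : Fact p.Prime] : LF ℚ_[p] where
  p := p
  hp1 := hp.1.one_le
  hp := Padic.norm_p_lt_one
  S := (fun x : Fin p => ((x : ℕ) : ℚ_[p])) '' Set.univ
  hS := Set.toFinite _
  cov a ha := by
    obtain ⟨z, hz⟩ : ∃ z : ℤ_[p], (z : ℚ_[p]) = a := ⟨⟨a, ha⟩, rfl⟩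
    obtain ⟨n, hn, hlt⟩ := PadicInt.exists_mem_range z
    refine ⟨((n : ℕ) : ℚ_[p]), ⟨⟨n, hn⟩, trivial, rfl⟩, ?_⟩
    rw [IsLocalRing.mem_maximalIdeal, PadicInt.mem_nonunits, PadicInt.norm_def,
      PadicInt.coe_sub, PadicInt.coe_natCast, hz] at hlt
    exact hlt
  q := p
  hq := by exact_mod_cast hp.1.one_lt
  dsc a ha := ⟨-a.valuation, Padic.norm_eq_zpow_neg_valuation ha⟩

lemma aleph0_lt_card (K : Type*) [NontriviallyNormedField K] [CompleteSpace K] :
    Cardinal.aleph0 < Cardinal.mk K :=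
  Cardinal.aleph0_lt_continuum.trans_le (continuum_le_cardinal_of_nontriviallyNormedField K)

lemma aleph0_lt_card_ext {K Ω : Type*} [Field K] [Field Ω] [Algebra K Ω]
    (hK : Cardinal.aleph0 < Cardinal.mk K) : Cardinal.aleph0 < Cardinal.mk Ω := by
  rw [Cardinal.aleph0_lt_mk_iff] at hK ⊢
  exact (algebraMap K Ω).injective.uncountable

lemma norm_gt_one {p : ℕ} [hp : Fact p.Prime] {c : ℚ} (h : p ∣ c.den) :
    1 < ‖((c : ℚ) : ℚ_[p])‖ := by
  have h1 : ‖((c.den : ℤ) : ℚ_[p])‖ < 1 := by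
    rw [Padic.norm_intCast_lt_one_iff]
    exact_mod_cast h
  have h2 : ¬ ‖((c.num : ℤ) : ℚ_[p])‖ < 1 := by
    rw [Padic.norm_intCast_lt_one_iff]
    intro h3
    have h4 : p ∣ c.num.natAbs := Int.natCast_dvd.1 h3
    have h5 := Nat.dvd_gcd h4 h
    rw [c.reduced] at h5
    exact hp.1.one_lt.ne' (Nat.dvd_one.1 h5)
  have h3 : (((c : ℚ) : ℚ_[p])) * ((c.den : ℤ) : ℚ_[p]) = ((c.num : ℤ) : ℚ_[p]) := by
    have := Rat.mul_den_eq_num c
    exact_mod_cast this
  have h4 := congrArg norm h3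
  rw [norm_mul] at h4
  by_contra hcon
  push Not at hcon
  apply h2
  rw [← h4]
  have h5 : 0 ≤ ‖((c.den : ℤ) : ℚ_[p])‖ := norm_nonneg _
  nlinarith [norm_nonneg ((c : ℚ) : ℚ_[p])]

lemma big_place_zero {L : Type*} [Field L] [CharZero L] [Countable L] {x : L}
    (hx : ¬ IsIntegral ℤ x) : ∃ P : NPl L, 1 < P.v x := by
  by_cases hxt : Transcendental ℚ x
  · obtain ⟨y, hy, hy1⟩ := exists_big_transc ℚ_[2] ℚ (aleph0_lt_card ℚ_[2])
    have hΩ : Cardinal.aleph0 < Cardinal.mk (AlgebraicClosure ℚ_[2]) :=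
      aleph0_lt_card_ext (K := ℚ_[2]) (aleph0_lt_card ℚ_[2])
    have hy' : Transcendental ℚ (algebraMap ℚ_[2] (AlgebraicClosure ℚ_[2]) y) :=
      (transcendental_algebraMap_iff (algebraMap ℚ_[2] (AlgebraicClosure ℚ_[2])).injective).2 hy
    obtain ⟨θ, hθ⟩ := exists_emb_transc ℚ L (AlgebraicClosure ℚ_[2]) hΩ hxt hy'
    refine ⟨(lfPadic 2).toNPl θ, ?_⟩
    rw [LF.toNPl_v, hθ, sAV_alg]
    exact hy1
  · have hxa : IsAlgebraic ℚ x := by
      by_contra h
      exact hxt h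
    have hxi : IsIntegral ℚ x := hxa.isIntegral
    obtain ⟨i, hi⟩ : ∃ i, ((minpoly ℚ x).coeff i).den ≠ 1 := by
      by_contra hcon
      push Not at hcon
      apply hx
      have h1 : minpoly ℚ x ∈ Polynomial.lifts (Int.castRingHom ℚ) := by
        rw [Polynomial.lifts_iff_coeff_lifts]
        intro n
        exact ⟨((minpoly ℚ x).coeff n).num, by
          have := (Rat.den_eq_one_iff _).1 (hcon n)
          simpa using this⟩
      obtain ⟨q, hq, -, hqm⟩ := Polynomial.lifts_and_natDegree_eq_and_monic h1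
        (minpoly.monic hxi)
      refine ⟨q, hqm, ?_⟩
      have h2 := minpoly.aeval ℚ x
      rw [← hq, ← algebraMap_int_eq, Polynomial.aeval_map_algebraMap] at h2
      exact h2
    set p := ((minpoly ℚ x).coeff i).den.minFac with hp
    have hpp : Fact p.Prime := ⟨Nat.minFac_prime hi⟩
    have h1 : 1 < ‖((minpoly ℚ x).map (algebraMap ℚ ℚ_[p])).coeff i‖ := by
      rw [Polynomial.coeff_map]
      exact norm_gt_one (Nat.minFac_dvd _)
    obtain ⟨y, hy, hy1⟩ := exists_big_root (Ω := AlgebraicClosure ℚ_[p])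
      ((minpoly.monic hxi).map (algebraMap ℚ ℚ_[p])) h1
    rw [Polynomial.aeval_map_algebraMap] at hy
    have hΩ : Cardinal.aleph0 < Cardinal.mk (AlgebraicClosure ℚ_[p]) :=
      aleph0_lt_card_ext (K := ℚ_[p]) (aleph0_lt_card ℚ_[p])
    obtain ⟨θ, hθ⟩ := exists_emb_alg ℚ L (AlgebraicClosure ℚ_[p]) hΩ hxi hy
    refine ⟨(lfPadic p).toNPl θ, ?_⟩
    rw [LF.toNPl_v, hθ]
    exact hy1

/-- enough places in characteristic zero -/
theorem exists_places_zero {L : Type*} [Field L] [CharZero L] [Countable L]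
    {G : Subgroup Lˣ} (hG : G.FG) :
    ∃ (n : ℕ) (P : Fin n → GPlace (csPoly L)),
      ∀ B : ℝ, {g : Lˣ | g ∈ G ∧ ∀ k, |Real.log ((P k).v (g : L))| ≤ B}.Finite := by
  classical
  obtain ⟨n, P, hP⟩ := exists_finite_places L hG
  -- the kernel
  let G' : Subgroup Lˣ :=
    { carrier := {g | g ∈ G ∧ ∀ i, (P i).v (g : L) = 1}
      mul_mem' := fun {a b} ha hb => ⟨G.mul_mem ha.1 hb.1, fun i => by
        rw [Units.val_mul, map_mul, ha.2 i, hb.2 i, one_mul]⟩
      one_mem' := ⟨G.one_mem, fun i => by simp⟩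
      inv_mem' := fun {a} ha => ⟨G.inv_mem ha.1, fun i => by
        rw [Units.val_inv_eq_inv_val, map_inv₀, ha.2 i, inv_one]⟩ }
  have hG' : G'.FG := fg_of_le hG fun g hg => hg.1
  have hint : ∀ g ∈ G', IsIntegral ℤ ((g : Lˣ) : L) := by
    intro g hg
    by_contra hcon
    obtain ⟨Q, hQ⟩ := big_place_zero hcon
    have := hP g hg.1 hg.2 Q
    linarith
  obtain ⟨S, hS⟩ := hG'
  let F : IntermediateField ℚ L := IntermediateField.adjoin ℚ
    ((fun g : Lˣ => (g : L)) '' (S : Set Lˣ))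
  have hSG : ∀ s ∈ S, s ∈ G' := fun s hs => by
    rw [← hS]
    exact Subgroup.subset_closure hs
  have hFfin : FiniteDimensional ℚ F := by
    refine IntermediateField.finiteDimensional_adjoin ?_
    rintro _ ⟨g, hg, rfl⟩
    exact (hint g (hSG g hg)).tower_top
  have hFmem : ∀ g ∈ G', ((g : Lˣ) : L) ∈ F := by
    intro g hg
    rw [← hS] at hg
    induction hg using Subgroup.closure_induction with
    | mem x hx => exact IntermediateField.subset_adjoin ℚ _ ⟨x, hx, rfl⟩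
    | one => simp
    | mul x y _ _ hx hy => simpa using F.mul_mem hx hy
    | inv x _ hx => simpa using F.inv_mem hx
  have hNF : NumberField F := ⟨⟩
  have hΩ : Cardinal.aleph0 < Cardinal.mk ℂ := aleph0_lt_card ℂ
  choose θ hθ using fun φ : F →+* ℂ => exists_emb_ext (F := F) (L := L) hΩ φ
  have hker : ∀ B : ℝ, {g : Lˣ | g ∈ G ∧ (∀ i, (P i).v (g : L) = 1) ∧
      ∀ j, |Real.log (avC (θ j) (g : L))| ≤ B}.Finite := by
    intro B
    have h1 := NumberField.Embeddings.finite_of_norm_le F ℂ (Real.exp B)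
    refine Set.Finite.of_injOn
      (f := fun g : Lˣ => if h : (g : L) ∈ F then (⟨(g : L), h⟩ : F) else 0) ?_ ?_ h1
    · rintro g ⟨hg, hgP, hgB⟩
      have hgG' : g ∈ G' := ⟨hg, hgP⟩
      have hgF := hFmem g hgG'
      simp only [hgF, dif_pos]
      refine ⟨?_, fun φ => ?_⟩
      · have h2 := hint g hgG'
        have h3 : algebraMap F L ⟨(g : L), hgF⟩ = (g : L) := rfl
        rw [← h3] at h2
        exact (isIntegral_algebraMap_iff (algebraMap F L).injective).1 h2
      · have h2 := hgB φ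
        have h3 : algebraMap F L ⟨(g : L), hgF⟩ = (g : L) := rfl
        have h4 := hθ φ ⟨(g : L), hgF⟩
        rw [h3] at h4
        rw [← h4]
        have h5 : 0 < avC (θ φ) (g : L) := (avC (θ φ)).pos g.ne_zero
        have h6 : Real.log (avC (θ φ) (g : L)) ≤ B := (le_abs_self _).trans h2
        exact (Real.log_le_iff_le_exp h5).1 h6
    · intro a ha b hb hab
      have haF := hFmem a ⟨ha.1, ha.2.1⟩
      have hbF := hFmem b ⟨hb.1, hb.2.1⟩
      simp only [haF, hbF, dif_pos] at hab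
      exact Units.ext (congrArg Subtype.val hab)
  have hfin := finite_of_kernel hG P (fun j => avC (θ j)) hker
  obtain ⟨e⟩ : Nonempty (Fin n ⊕ (F →+* ℂ) ≃ Fin (Fintype.card (Fin n ⊕ (F →+* ℂ)))) :=
    ⟨Fintype.equivFin _⟩
  let R : Fin n ⊕ (F →+* ℂ) → GPlace (csPoly L) :=
    Sum.elim (fun i => (P i).toPoly) (fun φ => placeC (θ φ))
  refine ⟨_, fun k => R (e.symm k), fun B => (hfin B).subset ?_⟩
  rintro g ⟨hg, hk⟩
  refine ⟨hg, fun i => ?_, fun j => ?_⟩
  · have := hk (e (Sum.inl i))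
    simpa [R, NPl.toPoly] using this
  · have := hk (e (Sum.inr j))
    simpa [R, placeC] using this

end Pool.Agent.H.MP_df1c3e_lc
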