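import Pool.Agent.H.MP_df1c3e_lc.Hull

/-!
Subrepresentations and quotient representations.
-/

namespace Pool.Agent.H.MP_df1c3e_lc

open Module

variable {L : Type*} [Field L] {σ : Type*}

section sub

variable {V : Type*} [AddCommGroup V] [Module L V] (ρ : σ → Module.End L V) (U : Submodule L V)
  (hU : ∀ a, ∀ u ∈ U, ρ a u ∈ U)

/-- subrepresentation -/
def rhoU : σ → Module.End L U := fun a => (ρ a).restrict (hU a)

/-- quotient representation -/
def rhoQ : σ → Module.End L (V ⧸ U) := fun a => U.mapQ U (ρ a) (hU a)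

lemma Rw_rhoU (w : List σ) (u : U) : ((Rw (rhoU ρ U hU) w u : U) : V) = Rw ρ w (u : V) := by
  induction w with
  | nil => rfl
  | cons a w ih =>
    rw [Rw_cons, Rw_cons, Module.End.mul_apply, Module.End.mul_apply, ← ih]
    rfl

lemma Rw_rhoQ (w : List σ) (v : V) : Rw (rhoQ ρ U hU) w (U.mkQ v) = U.mkQ (Rw ρ w v) := by
  induction w with
  | nil => rfl
  | cons a w ih =>
    rw [Rw_cons, Rw_cons, Module.End.mul_apply, Module.End.mul_apply, ih]
    rfl

lemma eig_rhoU (w : List σ) {μ : L} (h : (Rw (rhoU ρ U hU) w).HasEigenvalue μ) :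
    (Rw ρ w).HasEigenvalue μ := by
  obtain ⟨u, hu, hu0⟩ := h.exists_hasEigenvector
  rw [Module.End.mem_eigenspace_iff] at hu
  refine Module.End.hasEigenvalue_of_hasEigenvector (x := (u : V)) ⟨?_, fun h0 => hu0 (Subtype.ext h0)⟩
  rw [Module.End.mem_eigenspace_iff, ← Rw_rhoU ρ U hU, hu]
  rfl

lemma eig_rhoQ [FiniteDimensional L V] (w : List σ) {μ : L}
    (h : (Rw (rhoQ ρ U hU) w).HasEigenvalue μ) : (Rw ρ w).HasEigenvalue μ := by
  by_contra hno
  set T : Module.End L V := Rw ρ w - μ • (1 : Module.End L V) with hT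
  have hinj : Function.Injective T := by
    rw [← LinearMap.ker_eq_bot]
    by_contra h1
    apply hno
    rw [Module.End.hasEigenvalue_iff, Module.End.eigenspace_def]
    exact h1
  have hsurj : Function.Surjective T := LinearMap.injective_iff_surjective.1 hinj
  set T' : Module.End L (V ⧸ U) := Rw (rhoQ ρ U hU) w - μ • (1 : Module.End L (V ⧸ U)) with hT'
  have hcomm : ∀ v, T' (U.mkQ v) = U.mkQ (T v) := by
    intro v
    rw [hT', hT, LinearMap.sub_apply, LinearMap.sub_apply, Rw_rhoQ, map_sub,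
      LinearMap.smul_apply, LinearMap.smul_apply, map_smul]
    rfl
  have hsurj' : Function.Surjective T' := by
    intro z
    obtain ⟨v, rfl⟩ := U.mkQ_surjective z
    obtain ⟨v', rfl⟩ := hsurj v
    exact ⟨U.mkQ v', hcomm v'⟩
  have hinj' : Function.Injective T' := LinearMap.injective_iff_surjective.2 hsurj'
  obtain ⟨z, hz, hz0⟩ := h.exists_hasEigenvector
  rw [Module.End.mem_eigenspace_iff] at hz
  apply hz0
  apply hinj'
  rw [map_zero, hT', LinearMap.sub_apply, hz, LinearMap.smul_apply, Module.End.one_apply,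
    sub_self]

end sub

end Pool.Agent.H.MP_df1c3e_lc
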