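import Pool.Agent.H.MP_df1c3e_lc.IrrBlock
import Pool.Agent.H.MP_df1c3e_lc.SubRep

/-!
Assembly along invariant subspaces.
-/

namespace Pool.Agent.H.MP_df1c3e_lc

open Module Matrix Polynomial

section mp

variable {K L : Type*} [Field K] [Field L] [Algebra K L] {σ : Type*} [DecidableEq σ]

lemma mprod_add_left (b : σ) (f f' g : List σ → L) :
    mprod b (f + f') g = mprod b f g + mprod b f' g := by
  funext w
  simp only [mprod, Pi.add_apply, ← Finset.sum_add_distrib]
  refine Finset.sum_congr rfl fun i _ => ?_
  split_ifs
  · ring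
  · ring

lemma mprod_add_right (b : σ) (f g g' : List σ → L) :
    mprod b f (g + g') = mprod b f g + mprod b f g' := by
  funext w
  simp only [mprod, Pi.add_apply, ← Finset.sum_add_distrib]
  refine Finset.sum_congr rfl fun i _ => ?_
  split_ifs
  · ring
  · ring

lemma mprod_smul_left (b : σ) (c : L) (f g : List σ → L) :
    mprod b (c • f) g = c • mprod b f g := by
  funext w
  simp only [mprod, Pi.smul_apply, smul_eq_mul, Finset.mul_sum]
  refine Finset.sum_congr rfl fun i _ => ?_
  split_ifs
  · ring
  · ring

lemma mprod_smul_right (b : σ) (c : L) (f g : List σ → L) :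
    mprod b f (c • g) = c • mprod b f g := by
  funext w
  simp only [mprod, Pi.smul_apply, smul_eq_mul, Finset.mul_sum]
  refine Finset.sum_congr rfl fun i _ => ?_
  split_ifs
  · ring
  · ring

lemma mprod_zero_left (b : σ) (g : List σ → L) : mprod b 0 g = 0 := by
  funext w; simp [mprod]

lemma mprod_zero_right (b : σ) (f : List σ → L) : mprod b f 0 = 0 := by
  funext w; simp [mprod]

lemma Dsp_mprod (b : σ) {F F' : List σ → L} (hF : F ∈ Dsp K L σ) (hF' : F' ∈ Dsp K L σ) :
    mprod b F F' ∈ Dsp K L σ := by
  unfold Dsp at hF
  induction hF using Submodule.span_induction with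
  | mem F hF =>
    obtain ⟨f, hf, rfl⟩ := hF
    unfold Dsp at hF'
    induction hF' using Submodule.span_induction with
    | mem F' hF' =>
      obtain ⟨g, hg, rfl⟩ := hF'
      have : mprod b (fun w => algebraMap K L (f w)) (fun w => algebraMap K L (g w)) =
          fun w => algebraMap K L (mprod b f g w) := by
        funext w
        simp only [mprod, map_sum]
        refine Finset.sum_congr rfl fun i _ => ?_
        split_ifs
        · rw [map_mul]
        · rw [map_zero]
      rw [this]
      exact mem_Dsp (isPA_mprod b hf hg)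
    | zero => rw [mprod_zero_right]; exact Submodule.zero_mem _
    | add g g' _ _ h h' => rw [mprod_add_right]; exact Submodule.add_mem _ h h'
    | smul c g _ h => rw [mprod_smul_right]; exact Submodule.smul_mem _ _ h
  | zero => rw [mprod_zero_left]; exact Submodule.zero_mem _
  | add f f' _ _ h h' => rw [mprod_add_left]; exact Submodule.add_mem _ h h'
  | smul c f _ h => rw [mprod_smul_left]; exact Submodule.smul_mem _ _ h

end mp

variable {K L : Type*} [Field K] [Field L] [Algebra K L] {A : Type*} [CommRing A]
  {G : Subgroup Lˣ} {σ : Type*}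


universe u

theorem all_mem [IsAlgClosed L] [Finite σ] {cs : CS L A}
    (hctx : HasCtx cs) (hG : G.FG) {e : ℕ} (he : 1 ≤ e) (n : ℕ) :
    ∀ (V : Type u) [AddCommGroup V] [Module L V] [FiniteDimensional L V], finrank L V = n →
      ∀ (ρ : σ → Module.End L V), (∀ w μ, (Rw ρ w).HasEigenvalue μ → μ = 0 ∨ InG G μ) →
      (∀ w μ, (Rw ρ w).HasEigenvalue μ → ∃ b : K, algebraMap K L b = μ ^ e) →
      ∀ (x : Module.Dual L V) (y : V), (fun w => x (Rw ρ w y)) ∈ Dsp K L σ := by
  classical
  induction n using Nat.strong_induction_on with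
  | _ n ih =>
    intro V _ _ _ hn ρ hρ hK x y
    by_cases hnt : Nontrivial V
    · by_cases hirr : ∀ U : Submodule L V, (∀ a, ∀ u ∈ U, ρ a u ∈ U) → U = ⊥ ∨ U = ⊤
      · exact irr_mem hctx hG ρ hirr hρ he hK x y
      · push Not at hirr
        obtain ⟨U, hU, hbot, htop⟩ := hirr
        let _ : Fintype σ := Fintype.ofFinite σ
        have hdimU : finrank L U < n := by
          rw [← hn]; exact Submodule.finrank_lt htop
        have hdimQ : finrank L (V ⧸ U) < n := by
          have h1 := Submodule.finrank_quotient_add_finrank U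
          have h2 : 0 < finrank L U := by
            rw [Module.finrank_pos_iff]
            exact Submodule.nontrivial_iff_ne_bot.2 hbot
          omega
        have ihU := ih _ hdimU U rfl (rhoU ρ U hU)
          (fun w μ h => hρ w μ (eig_rhoU ρ U hU w h)) (fun w μ h => hK w μ (eig_rhoU ρ U hU w h))
        have ihQ := ih _ hdimQ (V ⧸ U) rfl (rhoQ ρ U hU)
          (fun w μ h => hρ w μ (eig_rhoQ ρ U hU w h)) (fun w μ h => hK w μ (eig_rhoQ ρ U hU w h))
        obtain ⟨s, hs⟩ := LinearMap.exists_rightInverse_of_surjective U.mkQ (U.range_mkQ)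
        have hs' : ∀ z, U.mkQ (s z) = z := fun z => congrArg (fun f => f z) hs
        let r : V →ₗ[L] U := LinearMap.codRestrict U (LinearMap.id - s ∘ₗ U.mkQ) (by
          intro v
          rw [← Submodule.Quotient.mk_eq_zero]
          show U.mkQ (v - s (U.mkQ v)) = 0
          rw [map_sub, hs', sub_self])
        have hr : ∀ v, ((r v : U) : V) = v - s (U.mkQ v) := fun v => rfl
        have hrU : ∀ u : U, r (u : V) = u := by
          intro u
          apply Subtype.ext
          rw [hr]
          have : U.mkQ (u : V) = 0 := (Submodule.Quotient.mk_eq_zero U).2 u.2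
          rw [this, map_zero, sub_zero]
        let β : σ → (V ⧸ U) →ₗ[L] U := fun a => r ∘ₗ ρ a ∘ₗ s
        let bU := Module.finBasis L U
        let bQ := Module.finBasis L (V ⧸ U)
        have hβ : ∀ (a : σ) (x' : Module.Dual L U) (z : V ⧸ U), x' (β a z) =
            ∑ i, ∑ j, bU.coord i (β a (bQ j)) * (x' (bU i) * bQ.coord j z) := by
          intro a x' z
          have e1 : β a z = ∑ j, bQ.coord j z • β a (bQ j) := by
            conv_lhs => rw [← bQ.sum_repr z]
            rw [map_sum]
            refine Finset.sum_congr rfl fun j _ => ?_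
            rw [map_smul]; rfl
          rw [e1, map_sum, Finset.sum_comm]
          refine Finset.sum_congr rfl fun j _ => ?_
          rw [map_smul, smul_eq_mul]
          have e2 : x' (β a (bQ j)) = ∑ i, bU.coord i (β a (bQ j)) * x' (bU i) := by
            conv_lhs => rw [← bU.sum_repr (β a (bQ j))]
            rw [map_sum]
            refine Finset.sum_congr rfl fun i _ => ?_
            rw [map_smul, smul_eq_mul]; rfl
          rw [e2, Finset.mul_sum]
          refine Finset.sum_congr rfl fun i _ => ?_
          ring
        have hform : ∀ (w : List σ) (x' : Module.Dual L U), x' (r (Rw ρ w y)) =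
            x' (Rw (rhoU ρ U hU) w (r y)) + ∑ b : σ, ∑ i, ∑ j, bU.coord i (β b (bQ j)) *
              mprod b (fun u => x' (Rw (rhoU ρ U hU) u (bU i)))
                (fun v => bQ.coord j (Rw (rhoQ ρ U hU) v (U.mkQ y))) w := by
          intro w
          induction w with
          | nil =>
            intro x'
            simp only [mprod_nil, mul_zero, Finset.sum_const_zero, add_zero]
            rfl
          | cons a w ihw =>
            intro x'
            have e1 : r (Rw ρ (a :: w) y) = rhoU ρ U hU a (r (Rw ρ w y)) +
                β a (Rw (rhoQ ρ U hU) w (U.mkQ y)) := by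
              have h1 : Rw ρ w y = ((r (Rw ρ w y) : U) : V) + s (U.mkQ (Rw ρ w y)) := by
                rw [hr]; abel
              have h2 : ρ a ((r (Rw ρ w y) : U) : V) =
                  ((rhoU ρ U hU a (r (Rw ρ w y)) : U) : V) := rfl
              rw [Rw_cons, Module.End.mul_apply]
              conv_lhs => rw [h1, map_add, map_add, h2, hrU, ← Rw_rhoQ ρ U hU]
              rfl
            have e2 := ihw (x' ∘ₗ rhoU ρ U hU a)
            have e3 : x' (rhoU ρ U hU a (r (Rw ρ w y))) =
                (x' ∘ₗ rhoU ρ U hU a) (r (Rw ρ w y)) := rfl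
            rw [e1, map_add, e3, e2, hβ]
            have e4 : (x' ∘ₗ rhoU ρ U hU a) (Rw (rhoU ρ U hU) w (r y)) =
                x' (Rw (rhoU ρ U hU) (a :: w) (r y)) := by
              rw [Rw_cons]; rfl
            have e5 : ∀ (b : σ) i j, mprod b (fun u => x' (Rw (rhoU ρ U hU) u (bU i)))
                (fun v => bQ.coord j (Rw (rhoQ ρ U hU) v (U.mkQ y))) (a :: w) =
                (if a = b then x' (bU i) * bQ.coord j (Rw (rhoQ ρ U hU) w (U.mkQ y)) else 0) +
                mprod b (fun u => (x' ∘ₗ rhoU ρ U hU a) (Rw (rhoU ρ U hU) u (bU i)))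
                (fun v => bQ.coord j (Rw (rhoQ ρ U hU) v (U.mkQ y))) w := by
              intro b i j
              rw [mprod_cons]
              have : (fun u => x' (Rw (rhoU ρ U hU) (a :: u) (bU i))) =
                  fun u => (x' ∘ₗ rhoU ρ U hU a) (Rw (rhoU ρ U hU) u (bU i)) := by
                funext u
                rw [Rw_cons]; rfl
              rw [this]
              rfl
            simp only [e5, mul_add, Finset.sum_add_distrib, mul_ite, mul_zero]
            have e6 : ∑ b : σ, ∑ i, ∑ j, (if a = b then bU.coord i (β b (bQ j)) *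
                (x' (bU i) * bQ.coord j (Rw (rhoQ ρ U hU) w (U.mkQ y))) else 0) =
                ∑ i, ∑ j, bU.coord i (β a (bQ j)) *
                (x' (bU i) * bQ.coord j (Rw (rhoQ ρ U hU) w (U.mkQ y))) := by
              rw [Finset.sum_eq_single a]
              · simp
              · intro b _ hb
                refine Finset.sum_eq_zero fun i _ => Finset.sum_eq_zero fun j _ => ?_
                rw [if_neg (Ne.symm hb)]
              · intro h; exact absurd (Finset.mem_univ _) h
            rw [e6, e4]
            ring
        have hfin : (fun w => x (Rw ρ w y)) =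
            ((fun w => (x ∘ₗ U.subtype) (Rw (rhoU ρ U hU) w (r y))) +
            ∑ b : σ, ∑ i, ∑ j, bU.coord i (β b (bQ j)) •
              mprod b (fun u => (x ∘ₗ U.subtype) (Rw (rhoU ρ U hU) u (bU i)))
                (fun v => bQ.coord j (Rw (rhoQ ρ U hU) v (U.mkQ y)))) +
            (fun w => (x ∘ₗ s) (Rw (rhoQ ρ U hU) w (U.mkQ y))) := by
          funext w
          simp only [Pi.add_apply, Finset.sum_apply, Pi.smul_apply, smul_eq_mul]
          rw [← hform w (x ∘ₗ U.subtype), Rw_rhoQ]
          have h1 : Rw ρ w y = ((r (Rw ρ w y) : U) : V) + s (U.mkQ (Rw ρ w y)) := by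
            rw [hr]; abel
          conv_lhs => rw [h1, map_add]
          rfl
        rw [hfin]
        refine Submodule.add_mem _ (Submodule.add_mem _ (ihU _ _) ?_) (ihQ _ _)
        exact Submodule.sum_mem _ fun b _ => Submodule.sum_mem _ fun i _ =>
          Submodule.sum_mem _ fun j _ => Submodule.smul_mem _ _
            (Dsp_mprod b (ihU _ _) (ihQ _ _))
    · have hsub : Subsingleton V := not_nontrivial_iff_subsingleton.1 hnt
      have : (fun w : List σ => x (Rw ρ w y)) = 0 := by
        funext w
        rw [Subsingleton.elim (Rw ρ w y) 0, map_zero]; rfl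
      rw [this]
      exact Submodule.zero_mem _

end Pool.Agent.H.MP_df1c3e_lc
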