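import Mathlib

/-!
Weighted automata over a field, accepting runs and polynomial ambiguity.
-/

namespace Pool.Agent.H.MP_df1c3e_lc

open Matrix

/-- A weighted automaton over `K` with alphabet `σ`, with states `Fin d`, initial vector
`init`, final vector `fin` and a transition matrix `step a` for every letter `a`. -/
structure WA (K : Type*) (σ : Type*) where
  /-- dimension -/
  d : ℕ
  /-- initial vector -/
  init : Fin d → K
  /-- final vector -/
  fin : Fin d → K
  /-- transition matrices of the letters -/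
  step : σ → Matrix (Fin d) (Fin d) K

/-- The morphism `M : Σ^* → K^{d×d}`: `M(a₁⋯aₙ) = M(a₁)⋯M(aₙ)`. -/
def WA.mat {K σ : Type*} [Field K] (A : WA K σ) (w : List σ) :
    Matrix (Fin A.d) (Fin A.d) K :=
  (w.map A.step).prod

/-- The value `A(w) = Iᵀ M(w) F`. -/
def WA.value {K σ : Type*} [Field K] (A : WA K σ) (w : List σ) : K :=
  A.init ⬝ᵥ (A.mat w).mulVec A.fin

/-- Accepting runs of `A` on `w`: state sequences `q₀,…,qₙ` (`n = |w|`) such that
`I[q₀]`, all `M(aᵢ)[qᵢ₋₁,qᵢ]` and `F[qₙ]` are nonzero. -/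
def WA.IsAcceptingRun {K σ : Type*} [Field K] (A : WA K σ) (w : List σ)
    (q : Fin (w.length + 1) → Fin A.d) : Prop :=
  A.init (q 0) ≠ 0 ∧
    (∀ i : Fin w.length, A.step (w.get i) (q i.castSucc) (q i.succ) ≠ 0) ∧
    A.fin (q (Fin.last w.length)) ≠ 0

/-- `A` is polynomially ambiguous: some polynomial `p` bounds the number of accepting runs
on every word `w` by `p(|w|)`. -/
def WA.PolyAmbiguous {K σ : Type*} [Field K] (A : WA K σ) : Prop :=
  ∃ p : Polynomial ℕ, ∀ w : List σ,
    Nat.card {q : Fin (w.length + 1) → Fin A.d // A.IsAcceptingRun w q} ≤ p.eval w.length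

end Pool.Agent.H.MP_df1c3e_lc
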