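import Pool.Agent.H.MP_df1c3e_lc.Desc

/-!
Descent of bideterministic weighted automata to a subfield: the automaton over the subfield.
-/

namespace Pool.Agent.H.MP_df1c3e_lc

open Matrix

variable {K L : Type*} [Field K] [Field L] [Algebra K L] {σ : Type*}

open scoped Classical in
variable (K) in
/-- a preimage in the subfield -/
noncomputable def kk (z : L) : K := if h : ∃ b : K, algebraMap K L b = z then h.choose else 0

lemma kk_spec {z : L} (h : ∃ b : K, algebraMap K L b = z) : algebraMap K L (kk K z) = z := by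
  rw [kk, dif_pos h]; exact h.choose_spec

variable [Finite σ] {np nq : ℕ} (δ : Fin np → σ → Fin np) (δ' : σ → Fin nq → Fin nq)
  (ω : Fin np → σ → Fin nq → L)

theorem descent {e : ℕ} (he : 1 ≤ e)
    (hcyc : ∀ p q w, w.foldl δ p = p → w.foldr δ' q = q → Wt δ δ' ω p w q ≠ 0 →
      ∃ b : K, algebraMap K L b = (Wt δ δ' ω p w q) ^ e)
    (p0 p' : Fin np) (q0 q' : Fin nq) :
    (fun w : List σ => if w.foldl δ p0 = p' ∧ w.foldr δ' q0 = q' then Wt δ δ' ω p0 w q0 else 0) ∈
      Dsp K L σ := by
  classical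
  set Cl : Set (UQ K L) :=
    {c : UQ K L | ∃ p w q, Wt δ δ' ω p w q ≠ 0 ∧ c = cl K (Wt δ δ' ω p w q)} with hCl
  have hCfin : Cl.Finite := finite_classes δ δ' ω he hcyc
  have : Finite Cl := hCfin
  let _ : Fintype Cl := Fintype.ofFinite Cl
  have hone : (1 : UQ K L) ∈ Cl := ⟨p0, [], q0, by rw [Wt]; exact one_ne_zero, by rw [Wt, cl_one]⟩
  choose hc hhc using fun c : Cl => mkQ_surjective (K := K) (L := L) (c : UQ K L)
  have hclh : ∀ c : Cl, cl K ((hc c : Lˣ) : L) = (c : UQ K L) := fun c => by
    rw [cl_unit, hhc]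
  let M : σ → Matrix (Fin np × Fin nq × Cl) (Fin np × Fin nq × Cl) K := fun a =>
    Matrix.of fun s t => if t.1 = δ s.1 a ∧ s.2.1 = δ' a t.2.1 ∧ ω s.1 a t.2.1 ≠ 0 ∧
      (t.2.2 : UQ K L) = s.2.2 * cl K (ω s.1 a t.2.1) then
      kk K ((hc s.2.2 : L) * ω s.1 a t.2.1 / (hc t.2.2 : L)) else 0
  let c0 : Cl := ⟨1, hone⟩
  let s0 : Fin np × Fin nq × Cl := (p0, q', c0)
  have hM : ∀ a s t, algebraMap K L (M a s t) = if t.1 = δ s.1 a ∧ s.2.1 = δ' a t.2.1 ∧
      ω s.1 a t.2.1 ≠ 0 ∧ (t.2.2 : UQ K L) = s.2.2 * cl K (ω s.1 a t.2.1) then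
      (hc s.2.2 : L) * ω s.1 a t.2.1 / (hc t.2.2 : L) else 0 := by
    intro a s t
    simp only [M, Matrix.of_apply]
    split_ifs with h
    · apply kk_spec
      obtain ⟨_, _, h3, h4⟩ := h
      have hne : (hc s.2.2 : L) * ω s.1 a t.2.1 ≠ 0 := mul_ne_zero (Units.ne_zero _) h3
      refine exists_of_cl_eq_one (div_ne_zero hne (Units.ne_zero _)) ?_
      have h5 : cl K ((hc s.2.2 : L) * ω s.1 a t.2.1) =
          cl K ((hc s.2.2 : L) * ω s.1 a t.2.1 / (hc t.2.2 : L)) * cl K (hc t.2.2 : L) := by
        rw [← cl_mul (div_ne_zero hne (Units.ne_zero _)) (Units.ne_zero _),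
          div_mul_cancel₀ _ (Units.ne_zero _)]
      rw [cl_mul (Units.ne_zero _) h3, hclh, hclh, h4] at h5
      exact right_eq_mul.1 h5
    · rw [map_zero]
  have hrow : ∀ (w : List σ) (t : Fin np × Fin nq × Cl), algebraMap K L (wmat M w s0 t) =
      if t.1 = w.foldl δ p0 ∧ q' = w.foldr δ' t.2.1 ∧ Wt δ δ' ω p0 w t.2.1 ≠ 0 ∧
        (t.2.2 : UQ K L) = cl K (Wt δ δ' ω p0 w t.2.1) then
        (hc c0 : L) * Wt δ δ' ω p0 w t.2.1 / (hc t.2.2 : L) else 0 := by
    intro w
    induction w using List.reverseRecOn with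
    | nil =>
      rintro ⟨p₁, q₁, c₁⟩
      rw [wmat_nil, Matrix.one_apply]
      simp only [List.foldl_nil, List.foldr_nil, Wt, cl_one]
      by_cases h : s0 = (p₁, q₁, c₁)
      · rw [if_pos h]
        simp only [s0, Prod.mk.injEq] at h
        obtain ⟨h1, h2, h3⟩ := h
        rw [if_pos ⟨h1.symm, h2, one_ne_zero, by rw [← h3]⟩, ← h3, map_one, mul_one, div_self]
        exact Units.ne_zero _
      · rw [if_neg h, map_zero, if_neg]
        rintro ⟨h1, h2, _, h3⟩
        apply h
        simp only [s0, Prod.mk.injEq]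
        exact ⟨h1.symm, h2, Subtype.ext h3.symm⟩
    | append_singleton w a ih =>
      intro t
      have e0 : wmat M [a] = M a := by simp [wmat]
      rw [wmat_append, e0, Matrix.mul_apply, map_sum]
      simp only [map_mul, ih, hM]
      rw [List.foldl_append, List.foldl_cons, List.foldl_nil, List.foldr_append,
        List.foldr_cons, List.foldr_nil, Wt_append, Wt_single, List.foldr_cons, List.foldr_nil]
      set p₁ := w.foldl δ p0 with hp₁
      set q₁ := δ' a t.2.1 with hq₁
      by_cases hW : Wt δ δ' ω p0 w q₁ = 0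
      · rw [hW, if_neg (by simp)]
        refine Finset.sum_eq_zero fun s _ => ?_
        by_cases h1 : s.2.1 = q₁
        · rw [h1, hW, if_neg (by simp), zero_mul]
        · exact mul_eq_zero_of_right _ (if_neg (fun h => h1 h.2.1))
      · let c₁ : Cl := ⟨cl K (Wt δ δ' ω p0 w q₁), p0, w, q₁, hW, rfl⟩
        rw [Finset.sum_eq_single (p₁, q₁, c₁)]
        · dsimp only
          by_cases hq : q' = w.foldr δ' q₁
          · rw [if_pos ⟨rfl, hq, hW, rfl⟩]
            by_cases hcond : t.1 = δ p₁ a ∧ ω p₁ a t.2.1 ≠ 0 ∧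
                (t.2.2 : UQ K L) = c₁ * cl K (ω p₁ a t.2.1)
            · obtain ⟨h1, h2, h3⟩ := hcond
              rw [if_pos ⟨h1, hq₁, h2, h3⟩, if_pos ⟨h1, hq, mul_ne_zero hW h2,
                by rw [cl_mul hW h2]; exact h3⟩]
              have n1 : (hc c₁ : L) ≠ 0 := Units.ne_zero _
              have n2 : (hc t.2.2 : L) ≠ 0 := Units.ne_zero _
              field_simp
            · rw [if_neg, mul_zero, if_neg]
              · rintro ⟨h1, _, h2, h3⟩
                have h4 := right_ne_zero_of_mul h2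
                rw [cl_mul hW h4] at h3
                exact hcond ⟨h1, h4, h3⟩
              · rintro ⟨h1, _, h2, h3⟩
                exact hcond ⟨h1, h2, h3⟩
          · rw [if_neg (fun h => hq h.2.1), zero_mul, if_neg (fun h => hq h.2.1)]
        · rintro ⟨p₂, q₂, c₂⟩ _ hne
          by_cases h1 : q₂ = q₁
          · subst h1
            by_cases h2 : p₂ = p₁ ∧ (c₂ : UQ K L) = cl K (Wt δ δ' ω p0 w q₁)
            · exfalso
              apply hne
              rw [Prod.mk.injEq, Prod.mk.injEq]
              exact ⟨h2.1, rfl, Subtype.ext h2.2⟩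
            · rw [if_neg, zero_mul]
              rintro ⟨h3, _, _, h4⟩
              exact h2 ⟨h3, h4⟩
          · exact mul_eq_zero_of_right _ (if_neg (fun h => h1 h.2.1))
        · intro h; exact absurd (Finset.mem_univ _) h
  have hinj : Function.Injective (algebraMap K L) := (algebraMap K L).injective
  have hrow0 : ∀ (w : List σ) (t : Fin np × Fin nq × Cl), wmat M w s0 t ≠ 0 →
      t.1 = w.foldl δ p0 ∧ (t.2.2 : UQ K L) = cl K (Wt δ δ' ω p0 w t.2.1) := by
    intro w t ht
    by_contra hcon
    apply ht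
    apply hinj
    rw [hrow, map_zero, if_neg]
    rintro ⟨h1, _, _, h2⟩
    exact hcon ⟨h1, h2⟩
  have hM0 : ∀ a s t, M a s t ≠ 0 → s.2.1 = δ' a t.2.1 := by
    intro a s t ht
    by_contra hcon
    apply ht
    apply hinj
    rw [hM, map_zero, if_neg]
    rintro ⟨_, h1, _⟩
    exact hcon h1
  have hcnt : ∀ (w : List σ) (t : Fin np × Fin nq × Cl),
      wmat (indM M) w s0 t = ind (wmat M w s0 t) := by
    intro w
    induction w using List.reverseRecOn with
    | nil =>
      intro t
      rw [wmat_nil, wmat_nil, Matrix.one_apply, Matrix.one_apply]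
      split_ifs
      · rw [ind_ne one_ne_zero]
      · rw [ind_zero]
    | append_singleton w a ih =>
      intro t
      have e0 : wmat M [a] = M a := by simp [wmat]
      have e1 : wmat (indM M) [a] = indM M a := by simp [wmat]
      rw [wmat_append, wmat_append, e0, e1, Matrix.mul_apply, Matrix.mul_apply, ind_sum]
      · refine Finset.sum_congr rfl fun s _ => ?_
        rw [ih]
        simp only [indM, Matrix.map_apply]
        by_cases h1 : wmat M w s0 s = 0
        · rw [h1, zero_mul, ind_zero, zero_mul]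
        · by_cases h2 : M a s t = 0
          · rw [h2, mul_zero, ind_zero, mul_zero]
          · rw [ind_ne h1, ind_ne h2, ind_ne (mul_ne_zero h1 h2), mul_one]
      · intro s s' h h'
        obtain ⟨h1, h2⟩ := hrow0 w s (left_ne_zero_of_mul h)
        obtain ⟨h1', h2'⟩ := hrow0 w s' (left_ne_zero_of_mul h')
        have h3 := hM0 a s t (right_ne_zero_of_mul h)
        have h3' := hM0 a s' t (right_ne_zero_of_mul h')
        have h4 : s.2.1 = s'.2.1 := by rw [h3, h3']
        refine Prod.ext (by rw [h1, h1']) (Prod.ext h4 (Subtype.ext ?_))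
        rw [h2, h2', h4]
  have hPA : ∀ t : Fin np × Fin nq × Cl, IsPA fun w => wmat M w s0 t := by
    intro t
    refine isPA_of (Pi.single s0 1) (Pi.single t 1) M 1 0 (fun w => ?_) (fun w => ?_)
    · simp
    · have h1 : (fun i => ind ((Pi.single s0 1 : Fin np × Fin nq × Cl → K) i)) =
          Pi.single s0 1 := by
        funext i
        by_cases h : i = s0
        · subst h; simp [ind]
        · rw [Pi.single_eq_of_ne h, Pi.single_eq_of_ne h, ind_zero]
      have h2 : (fun i => ind ((Pi.single t 1 : Fin np × Fin nq × Cl → K) i)) =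
          Pi.single t 1 := by
        funext i
        by_cases h : i = t
        · subst h; simp [ind]
        · rw [Pi.single_eq_of_ne h, Pi.single_eq_of_ne h, ind_zero]
      unfold cnt
      rw [h1, h2]
      have h3 := hcnt w t
      have h4 := ind_le_one (wmat M w s0 t)
      simp only [single_dotProduct, one_mul, mulVec_single_one]
      show wmat (indM M) w s0 t ≤ _
      rw [h3]
      simpa using h4
  have hfinal : (fun w : List σ => if w.foldl δ p0 = p' ∧ w.foldr δ' q0 = q' then
      Wt δ δ' ω p0 w q0 else 0) = ∑ c : Cl, ((hc c : L) / (hc c0 : L)) •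
        (fun w => algebraMap K L (wmat M w s0 (p', q0, c))) := by
    funext w
    rw [Finset.sum_apply]
    simp only [Pi.smul_apply, smul_eq_mul, hrow]
    by_cases hcond : w.foldl δ p0 = p' ∧ w.foldr δ' q0 = q'
    · rw [if_pos hcond]
      by_cases hW : Wt δ δ' ω p0 w q0 = 0
      · rw [hW, Finset.sum_eq_zero]
        intro c _
        rw [if_neg (by simp), mul_zero]
      · let c₁ : Cl := ⟨cl K (Wt δ δ' ω p0 w q0), p0, w, q0, hW, rfl⟩
        rw [Finset.sum_eq_single c₁]
        · rw [if_pos ⟨hcond.1.symm, hcond.2.symm, hW, rfl⟩]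
          have n1 : (hc c₁ : L) ≠ 0 := Units.ne_zero _
          have n2 : (hc c0 : L) ≠ 0 := Units.ne_zero _
          field_simp
        · intro c _ hne
          rw [if_neg, mul_zero]
          rintro ⟨_, _, _, h⟩
          exact hne (Subtype.ext h)
        · intro h; exact absurd (Finset.mem_univ _) h
    · rw [if_neg hcond, Finset.sum_eq_zero]
      intro c _
      rw [if_neg, mul_zero]
      rintro ⟨h1, h2, _⟩
      exact hcond ⟨h1.symm, h2.symm⟩
  rw [hfinal]
  exact Submodule.sum_mem _ fun c _ => Submodule.smul_mem _ _ (mem_Dsp (hPA _))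

end Pool.Agent.H.MP_df1c3e_lc
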