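import Pool.Agent.H.MP_df1c3e_lc.RankOne
import Pool.Agent.H.MP_df1c3e_lc.Desc2

/-!
Matrix coefficients with values in a finitely generated group, and irreducible blocks.
-/

namespace Pool.Agent.H.MP_df1c3e_lc

open Module Matrix Polynomial

variable {K L : Type*} [Field K] [Field L] [Algebra K L] {A : Type*} [CommRing A]
  {G : Subgroup Lˣ} {cs : CS L A} {σ : Type*} {V : Type*} [AddCommGroup V] [Module L V]

theorem values_mem [IsAlgClosed L] [FiniteDimensional L V] [Finite σ] {N : ℕ} (C : Ctx cs G N)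
    (hN : finrank L V ≤ N) (hL2 : ∀ k ≤ N, LTwo G C.Λ.D k) (ρ : σ → Module.End L V)
    (x₀ : Module.Dual L V) (y₀ : V)
    (hρ : ∀ w μ, (Rw ρ w).HasEigenvalue μ → μ = 0 ∨ InG G μ)
    (hval : ∀ w, x₀ (Rw ρ w y₀) = 0 ∨ InG G (x₀ (Rw ρ w y₀))) {e : ℕ} (he : 1 ≤ e)
    (hK : ∀ w μ, (Rw ρ w).HasEigenvalue μ → ∃ b : K, algebraMap K L b = μ ^ e) :
    (fun w => x₀ (Rw ρ w y₀)) ∈ Dsp K L σ := by
  classical
  obtain ⟨H⟩ := exists_hull ρ x₀ y₀
  have hmax := rank_le_one C hN hL2 hρ hval H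
  let xx : Fin H.np → Fin H.nq → Module.Dual L V := fun p q =>
    if h : Nonempty (DSys (H.A p) (H.B q) 1) then
      (Obj.d (⟨(p, q), h⟩ : Obj H 1)).x 0 else 0
  let yy : Fin H.np → Fin H.nq → V := fun p q =>
    if h : Nonempty (DSys (H.A p) (H.B q) 1) then
      (Obj.d (⟨(p, q), h⟩ : Obj H 1)).y 0 else 0
  have hxx : ∀ p q, xx p q ∈ H.A p := by
    intro p q
    simp only [xx]
    split_ifs with h
    · exact (Obj.d (⟨(p, q), h⟩ : Obj H 1)).hx 0
    · exact (H.A p).zero_mem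
  have hyy : ∀ p q, yy p q ∈ H.B q := by
    intro p q
    simp only [yy]
    split_ifs with h
    · exact (Obj.d (⟨(p, q), h⟩ : Obj H 1)).hy 0
    · exact (H.B q).zero_mem
  have hDB : ∀ p q, ∀ x ∈ H.A p, ∀ y ∈ H.B q, x y = x (yy p q) * xx p q y := by
    intro p q x hx y hy
    by_cases h : Nonempty (DSys (H.A p) (H.B q) 1)
    · simp only [xx, yy]
      rw [dif_pos h, dif_pos h]
      have := (Obj.d (⟨(p, q), h⟩ : Obj H 1)).expand (hmax p q) hx hy
      rw [Fin.sum_univ_one] at this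
      exact this
    · simp only [xx, yy]
      rw [dif_neg h, dif_neg h]
      have := (DSys.zero (H.A p) (H.B q)).expand (not_nonempty_iff.1 h) hx hy
      rw [this]; simp
  let ω : Fin H.np → σ → Fin H.nq → L := fun p a q => xx p (H.δ' a q) (ρ a (yy (H.δ p a) q))
  have hWt : ∀ (w : List σ), w ≠ [] → ∀ p q, Wt H.δ H.δ' ω p w q =
      xx p (w.foldr H.δ' q) (Rw ρ w (yy (w.foldl H.δ p) q)) := by
    intro w
    induction w with
    | nil => intro h; exact absurd rfl h
    | cons a w ih =>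
      intro _ p q
      rw [Wt, List.foldr_cons, List.foldl_cons, Rw_cons]
      by_cases hw : w = []
      · subst hw
        simp only [Wt, List.foldr_nil, List.foldl_nil, mul_one, Rw_nil]
        rfl
      · rw [ih hw]
        have h1 := hDB (H.δ p a) (w.foldr H.δ' q) (xx p (H.δ' a (w.foldr H.δ' q)) ∘ₗ ρ a)
          (H.hδ p a _ (hxx _ _)) (Rw ρ w (yy (w.foldl H.δ (H.δ p a)) q))
          (H.B_mem w q (hyy _ _))
        exact h1.symm
  have hform : ∀ (w : List σ) (p : Fin H.np) (x : Module.Dual L V), x ∈ H.A p →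
      x (Rw ρ w y₀) = x (yy p (w.foldr H.δ' H.q0)) * Wt H.δ H.δ' ω p w H.q0 *
        xx (w.foldl H.δ p) H.q0 y₀ := by
    intro w
    induction w with
    | nil =>
      intro p x hx
      simp only [Wt, List.foldr_nil, List.foldl_nil, mul_one, Rw_nil]
      exact hDB p H.q0 x hx y₀ H.hq0
    | cons a w ih =>
      intro p x hx
      rw [Wt, List.foldr_cons, List.foldl_cons, Rw_cons]
      have h1 := ih (H.δ p a) (x ∘ₗ ρ a) (H.hδ p a x hx)
      have h2 : (x ∘ₗ ρ a) (Rw ρ w y₀) = x ((ρ a * Rw ρ w) y₀) := rfl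
      have h3 : (x ∘ₗ ρ a) (yy (H.δ p a) (w.foldr H.δ' H.q0)) =
          x (yy p (H.δ' a (w.foldr H.δ' H.q0))) * ω p a (w.foldr H.δ' H.q0) :=
        hDB p (H.δ' a (w.foldr H.δ' H.q0)) x hx (ρ a (yy (H.δ p a) (w.foldr H.δ' H.q0)))
          (H.hδ' a _ _ (hyy _ _))
      rw [← h2, h1, h3]
      ring
  have hcyc : ∀ p q w, w.foldl H.δ p = p → w.foldr H.δ' q = q → Wt H.δ H.δ' ω p w q ≠ 0 →
      ∃ b : K, algebraMap K L b = (Wt H.δ H.δ' ω p w q) ^ e := by
    intro p q w hp hq hne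
    by_cases hw : w = []
    · subst hw
      exact ⟨1, by rw [Wt]; simp⟩
    · rw [hWt w hw, hp, hq] at hne ⊢
      have h1 : Nonempty (DSys (H.A p) (H.B q) 1) := by
        by_contra h
        apply hne
        simp only [xx]
        rw [dif_neg h]; rfl
      let o : Obj H 1 := ⟨(p, q), h1⟩
      have h2 : xx p q = o.d.x 0 := by simp only [xx]; rw [dif_pos h1]
      have h3 : yy p q = o.d.y 0 := by simp only [yy]; rw [dif_pos h1]
      have hP : Pth o o w := ⟨hp, hq⟩
      have hroot : (Mv o o w).charpoly.IsRoot (xx p q (Rw ρ w (yy p q))) := by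
        rw [← hasEigenvalue_toLin']
        refine Module.End.hasEigenvalue_of_hasEigenvector (x := fun _ => 1) ⟨?_, ?_⟩
        · rw [Module.End.mem_eigenspace_iff, Matrix.toLin'_apply]
          ext i
          rw [Subsingleton.elim i 0]
          simp only [mulVec, dotProduct, Fin.sum_univ_one, mul_one, Pi.smul_apply, smul_eq_mul]
          rw [h2, h3]; rfl
        · intro h0
          have := congrFun h0 0
          exact one_ne_zero this
      exact hK w _ (loop_eig hmax hP hroot)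
  have hfinal : (fun w => x₀ (Rw ρ w y₀)) = ∑ p' : Fin H.np, ∑ q' : Fin H.nq,
      (x₀ (yy H.p0 q') * xx p' H.q0 y₀) • (fun w : List σ =>
        if w.foldl H.δ H.p0 = p' ∧ w.foldr H.δ' H.q0 = q' then Wt H.δ H.δ' ω H.p0 w H.q0
        else 0) := by
    funext w
    rw [Finset.sum_apply]
    simp only [Finset.sum_apply, Pi.smul_apply, smul_eq_mul]
    rw [Finset.sum_eq_single (w.foldl H.δ H.p0), Finset.sum_eq_single (w.foldr H.δ' H.q0)]
    · rw [if_pos ⟨rfl, rfl⟩, hform w H.p0 x₀ H.hp0]; ring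
    · intro q' _ hne
      rw [if_neg (fun h => hne h.2.symm), mul_zero]
    · intro h; exact absurd (Finset.mem_univ _) h
    · intro p' _ hne
      refine Finset.sum_eq_zero fun q' _ => ?_
      rw [if_neg (fun h => hne h.1.symm), mul_zero]
    · intro h; exact absurd (Finset.mem_univ _) h
  rw [hfinal]
  exact Submodule.sum_mem _ fun p' _ => Submodule.sum_mem _ fun q' _ =>
    Submodule.smul_mem _ _ (descent H.δ H.δ' ω he hcyc H.p0 p' H.q0 q')

end Pool.Agent.H.MP_df1c3e_lc
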