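import Mathlib

/-!
Burnside's theorem.
-/

namespace Pool.Agent.H.MP_df1c3e_lc

open Module

variable {L : Type*} [Field L] {V : Type*} [AddCommGroup V] [Module L V]

/-- Burnside's theorem -/
theorem burnside [IsAlgClosed L] [FiniteDimensional L V] [Nontrivial V]
    (R : Subalgebra L (Module.End L V))
    (hirr : ∀ U : Submodule L V, (∀ f ∈ R, ∀ u ∈ U, f u ∈ U) → U = ⊥ ∨ U = ⊤) : R = ⊤ := by
  classical
  have hsimple : IsSimpleModule R V := by
    have hnt : Nontrivial (Submodule R V) := by
      refine ⟨⊥, ⊤, fun h => ?_⟩
      obtain ⟨v, hv⟩ := exists_ne (0 : V)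
      have : v ∈ (⊤ : Submodule R V) := trivial
      rw [← h] at this
      exact hv (by simpa using this)
    have hso : ∀ U : Submodule R V, U = ⊥ ∨ U = ⊤ := by
      intro U
      have h1 := hirr (U.restrictScalars L) (fun f hf u hu => U.smul_mem ⟨f, hf⟩ hu)
      rcases h1 with h1 | h1
      · left
        rw [eq_bot_iff]
        intro u hu
        have : u ∈ U.restrictScalars L := hu
        rw [h1] at this
        simpa using this
      · right
        rw [eq_top_iff]
        intro u _
        have : u ∈ U.restrictScalars L := by rw [h1]; trivial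
        exact this
    have hord : IsSimpleOrder (Submodule R V) := ⟨hso⟩
    exact IsSimpleModule.mk
  have hb := IsSimpleModule.algebraMap_end_bijective_of_isAlgClosed (A := R) (V := V) L
  rw [eq_top_iff]
  intro f _
  let f' : Module.End (Module.End R V) V :=
    { toFun := f
      map_add' := f.map_add
      map_smul' := by
        intro φ v
        obtain ⟨c, rfl⟩ := hb.2 φ
        show f (c • v) = c • f v
        rw [map_smul] }
  let b := Module.finBasis L V
  obtain ⟨r, hr⟩ := jacobson_density (R := R) (M := V) f' (Finset.univ.image b)
  have : f = (r : Module.End L V) := by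
    refine b.ext fun i => ?_
    exact hr (b i) (Finset.mem_image_of_mem _ (Finset.mem_univ i))
  rw [this]
  exact r.2

end Pool.Agent.H.MP_df1c3e_lc
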