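import Mathlib

/-!
Formal exponential polynomials: elements of the monoid algebra `C[Γ]`, where `Γ` is a group of
nonzero elements of a field `L` and `C` is a ring of coefficient functions (polynomials in
characteristic zero, constants in positive characteristic).
-/

namespace Pool.Agent.H.MP_df1c3e_lc

/-- A system of coefficient functions `ℕ → L`. -/
structure CS (L : Type*) [Field L] (C : Type*) [CommRing C] where
  /-- evaluation at `n` -/
  e : ℕ → C →+* L
  /-- constants -/
  k : L →+* C
  /-- affine substitution `x ↦ n + h x` -/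
  sub : ℕ → ℕ → C →+* C
  /-- degree -/
  deg : C → ℕ
  /-- leading coefficient -/
  lc : C → L
  e_k : ∀ n a, e n (k a) = a
  e_sub : ∀ n h j c, e j (sub n h c) = e (n + h * j) c
  sub_k : ∀ n h a, sub n h (k a) = k a
  deg_k : ∀ a, deg (k a) = 0
  lc_k : ∀ a, lc (k a) = a
  deg_const : ∀ c, deg c = 0 → c = k (lc c)
  lc_ne : ∀ c, c ≠ 0 → lc c ≠ 0
  deg_add : ∀ a b, deg (a + b) ≤ max (deg a) (deg b)
  deg_mul : ∀ a b, deg (a * b) ≤ deg a + deg b
  deg_sub : ∀ n h c, deg (sub n h c) ≤ deg c
  deg_sub_eq : ∀ n h c, 1 ≤ h → deg (sub n h c) = deg c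
  dif : ∀ c, deg c ≠ 0 → deg (sub 1 1 c - c) < deg c
  per : ∀ c, sub 1 1 c = c → deg c = 0
  uniq : ∀ (a b : L) (c : C), a ≠ b → k a * sub 1 1 c = k b * c → c = 0

variable {L : Type*} [Field L] {C : Type*} [CommRing C]

lemma comp_eq_taylor (c : Polynomial L) :
    c.comp (Polynomial.C ((1 : ℕ) : L) + Polynomial.C ((1 : ℕ) : L) * Polynomial.X) =
      Polynomial.taylor 1 c := by
  rw [Polynomial.taylor_apply]
  congr 1
  simp [add_comm]

/-- polynomials in characteristic zero -/
noncomputable def csPoly (L : Type*) [Field L] [CharZero L] : CS L (Polynomial L) where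
  e n := Polynomial.evalRingHom (n : L)
  k := Polynomial.C
  sub n h := Polynomial.compRingHom (Polynomial.C (n : L) + Polynomial.C (h : L) * Polynomial.X)
  deg := Polynomial.natDegree
  lc := Polynomial.leadingCoeff
  e_k n a := by simp
  e_sub n h j c := by simp
  sub_k n h a := by simp
  deg_k a := by simp
  lc_k a := by simp
  deg_const c h := by
    rw [Polynomial.leadingCoeff, h]
    exact Polynomial.eq_C_of_natDegree_eq_zero h
  lc_ne c h := by simpa using h
  deg_add a b := Polynomial.natDegree_add_le a b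
  deg_mul a b := Polynomial.natDegree_mul_le
  deg_sub n h c := by
    simp only [Polynomial.coe_compRingHom_apply]
    refine le_trans Polynomial.natDegree_comp_le ?_
    have : (Polynomial.C (n : L) + Polynomial.C (h : L) * Polynomial.X).natDegree ≤ 1 := by
      compute_degree
    calc _ ≤ c.natDegree * 1 := Nat.mul_le_mul_left _ this
      _ = _ := by simp
  deg_sub_eq n h c hh := by
    simp only [Polynomial.coe_compRingHom_apply]
    rw [Polynomial.natDegree_comp]
    have h0 : (h : L) ≠ 0 := by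
      have : h ≠ 0 := by omega
      exact_mod_cast this
    have h1 : (Polynomial.C (n : L) + Polynomial.C (h : L) * Polynomial.X).natDegree = 1 := by
      compute_degree!
      omega
    rw [h1, mul_one]
  dif c hc := by
    simp only [Polynomial.coe_compRingHom_apply]
    rw [comp_eq_taylor]
    have hc0 : c ≠ 0 := by
      rintro rfl
      simp at hc
    have h1 : (Polynomial.taylor 1 c - c).degree < (Polynomial.taylor 1 c).degree := by
      apply Polynomial.degree_sub_lt_left
      · exact Polynomial.degree_taylor c 1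
      · intro h
        exact hc0 ((Polynomial.taylor_eq_zero _ _).1 h)
      · exact Polynomial.leadingCoeff_taylor _ _
    rw [Polynomial.degree_taylor] at h1
    by_cases h0 : Polynomial.taylor 1 c - c = 0
    · rw [h0]
      simp only [Polynomial.natDegree_zero]
      omega
    · exact Polynomial.natDegree_lt_natDegree h0 h1
  per c hc := by
    simp only [Polynomial.coe_compRingHom_apply] at hc
    rw [comp_eq_taylor] at hc
    have h1 : ∀ n : ℕ, c.eval (n : L) = c.eval 0 := by
      intro n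
      induction n with
      | zero => simp
      | succ n ih =>
        rw [← ih]
        conv_rhs => rw [← hc]
        rw [Polynomial.taylor_eval]
        push_cast
        rfl
    have h2 : c = Polynomial.C (c.eval 0) := by
      apply Polynomial.eq_of_infinite_eval_eq
      refine Set.Infinite.mono (s := Set.range (fun n : ℕ => (n : L))) ?_
        (Set.infinite_range_of_injective Nat.cast_injective)
      rintro _ ⟨n, rfl⟩
      simp [h1]
    rw [h2]; simp
  uniq a b c hab h := by
    simp only [Polynomial.coe_compRingHom_apply] at h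
    rw [comp_eq_taylor] at h
    have h1 := congrArg Polynomial.leadingCoeff h
    rw [Polynomial.leadingCoeff_mul, Polynomial.leadingCoeff_mul,
      Polynomial.leadingCoeff_taylor] at h1
    simp only [Polynomial.leadingCoeff_C] at h1
    have h2 : (a - b) * c.leadingCoeff = 0 := by rw [sub_mul, h1, sub_self]
    rcases mul_eq_zero.1 h2 with h3 | h3
    · exact absurd (sub_eq_zero.1 h3) hab
    · simpa using h3

/-- constants, in any characteristic -/
noncomputable def csConst (L : Type*) [Field L] : CS L L where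
  e _ := RingHom.id L
  k := RingHom.id L
  sub _ _ := RingHom.id L
  deg _ := 0
  lc := id
  e_k _ _ := rfl
  e_sub _ _ _ _ := rfl
  sub_k _ _ _ := rfl
  deg_k _ := rfl
  lc_k _ := rfl
  deg_const _ _ := rfl
  lc_ne _ h := h
  deg_add _ _ := by simp
  deg_mul _ _ := by simp
  deg_sub _ _ _ := le_rfl
  deg_sub_eq _ _ _ _ := rfl
  dif _ h := absurd rfl h
  per _ _ := rfl
  uniq a b c hab h := by
    have h' : a * c = b * c := h
    have h2 : (a - b) * c = 0 := by rw [sub_mul, h', sub_self]
    rcases mul_eq_zero.1 h2 with h3 | h3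
    · exact absurd (sub_eq_zero.1 h3) hab
    · exact h3

open MonoidAlgebra

variable (cs : CS L C) (Γ : Subgroup Lˣ)

/-- evaluation at `n` of a formal exponential polynomial -/
noncomputable def CS.ev (n : ℕ) : MonoidAlgebra C Γ →+* L :=
  MonoidAlgebra.liftNCRingHom (cs.e n)
    ((powMonoidHom n).comp ((Units.coeHom L).comp Γ.subtype)) (fun _ _ => Commute.all _ _)

lemma CS.ev_single (n : ℕ) (γ : Γ) (c : C) :
    cs.ev Γ n (single γ c) = cs.e n c * ((γ : Lˣ) : L) ^ n := by
  simp [CS.ev]

lemma CS.ev_apply (n : ℕ) (f : MonoidAlgebra C Γ) :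
    cs.ev Γ n f = f.coeff.sum fun γ c => cs.e n c * ((γ : Lˣ) : L) ^ n := by
  conv_lhs => rw [← MonoidAlgebra.sum_coeff_single f]
  rw [map_finsuppSum]
  refine Finsupp.sum_congr fun γ _ => ?_
  rw [CS.ev_single]

/-- the constant `a` as a formal exponential polynomial -/
noncomputable def CS.cst (a : L) : MonoidAlgebra C Γ := single 1 (cs.k a)

lemma CS.ev_cst (n : ℕ) (a : L) : cs.ev Γ n (cs.cst Γ a) = a := by
  rw [CS.cst, CS.ev_single, cs.e_k]; simp

/-- the formal exponential function `a γⁿ` -/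
noncomputable def CS.mon (γ : Γ) (a : L) : MonoidAlgebra C Γ := single γ (cs.k a)

lemma CS.ev_mon (n : ℕ) (γ : Γ) (a : L) :
    cs.ev Γ n (cs.mon Γ γ a) = a * ((γ : Lˣ) : L) ^ n := by
  rw [CS.mon, CS.ev_single, cs.e_k]

/-- affine substitution in formal exponential polynomials -/
noncomputable def CS.sg (n h : ℕ) : MonoidAlgebra C Γ →+* MonoidAlgebra C Γ :=
  MonoidAlgebra.liftNCRingHom (MonoidAlgebra.singleOneRingHom.comp (cs.sub n h))
    { toFun := fun γ => single (γ ^ h) (cs.k (((γ : Lˣ) : L) ^ n))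
      map_one' := by simp [MonoidAlgebra.one_def]
      map_mul' := fun x y => by
        simp [MonoidAlgebra.single_mul_single, mul_pow] } (fun _ _ => Commute.all _ _)

lemma CS.sg_single (n h : ℕ) (γ : Γ) (c : C) :
    cs.sg Γ n h (single γ c) = single (γ ^ h) (cs.sub n h c * cs.k (((γ : Lˣ) : L) ^ n)) := by
  simp [CS.sg, MonoidAlgebra.single_mul_single]

lemma CS.ev_sg (n h j : ℕ) (f : MonoidAlgebra C Γ) :
    cs.ev Γ j (cs.sg Γ n h f) = cs.ev Γ (n + h * j) f := by
  have : (cs.ev Γ j).comp (cs.sg Γ n h) = cs.ev Γ (n + h * j) := by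
    apply MonoidAlgebra.ringHom_ext
    · intro c
      simp only [RingHom.coe_comp, Function.comp_apply, CS.sg_single, CS.ev_single]
      simp [cs.e_sub]
    · intro γ
      simp only [RingHom.coe_comp, Function.comp_apply, CS.sg_single, CS.ev_single]
      simp only [map_one, one_mul, cs.e_k, SubgroupClass.coe_pow, Units.val_pow_eq_pow_val]
      rw [← pow_mul, ← pow_add]
  exact congrArg (fun g : MonoidAlgebra C Γ →+* L => g f) this

lemma CS.deg_zero : cs.deg 0 = 0 := by
  have := cs.deg_k 0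
  rwa [map_zero] at this

lemma CS.deg_neg (a : C) : cs.deg (-a) ≤ cs.deg a := by
  have h : -a = cs.k (-1) * a := by simp
  rw [h]
  refine le_trans (cs.deg_mul _ _) ?_
  rw [cs.deg_k, zero_add]

lemma CS.deg_sum {ι : Type*} (s : Finset ι) (f : ι → C) (d : ℕ) (h : ∀ i ∈ s, cs.deg (f i) ≤ d) :
    cs.deg (∑ i ∈ s, f i) ≤ d := by
  classical
  induction s using Finset.induction_on with
  | empty => simp [cs.deg_zero]
  | insert a s ha ih =>
    rw [Finset.sum_insert ha]
    refine le_trans (cs.deg_add _ _) (max_le (h a (by simp)) (ih fun i hi => h i (by simp [hi])))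

/-- support of size at most `s`, degrees at most `d` -/
def CS.Bd (s d : ℕ) (f : MonoidAlgebra C Γ) : Prop :=
  f.coeff.support.card ≤ s ∧ ∀ γ, cs.deg (f.coeff γ) ≤ d

variable {Γ}

lemma CS.Bd.mono {s d s' d' : ℕ} {f : MonoidAlgebra C Γ} (h : cs.Bd Γ s d f) (h1 : s ≤ s')
    (h2 : d ≤ d') : cs.Bd Γ s' d' f :=
  ⟨h.1.trans h1, fun γ => (h.2 γ).trans h2⟩

lemma CS.Bd_exists (f : MonoidAlgebra C Γ) : ∃ s d, cs.Bd Γ s d f := by
  refine ⟨f.coeff.support.card, f.coeff.support.sup fun γ => cs.deg (f.coeff γ), le_rfl,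
    fun γ => ?_⟩
  by_cases h : γ ∈ f.coeff.support
  · exact Finset.le_sup (f := fun γ => cs.deg (f.coeff γ)) h
  · rw [Finsupp.notMem_support_iff.1 h, cs.deg_zero]; exact Nat.zero_le _

lemma CS.Bd.add {s d s' d' : ℕ} {f g : MonoidAlgebra C Γ} (hf : cs.Bd Γ s d f)
    (hg : cs.Bd Γ s' d' g) : cs.Bd Γ (s + s') (max d d') (f + g) := by
  classical
  refine ⟨?_, fun γ => ?_⟩
  · rw [MonoidAlgebra.coeff_add]
    refine le_trans (Finset.card_le_card Finsupp.support_add) ?_
    exact le_trans (Finset.card_union_le _ _) (add_le_add hf.1 hg.1)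
  · rw [MonoidAlgebra.coeff_add, Finsupp.add_apply]
    exact le_trans (cs.deg_add _ _) (max_le_max (hf.2 γ) (hg.2 γ))

lemma CS.Bd.neg {s d : ℕ} {f : MonoidAlgebra C Γ} (hf : cs.Bd Γ s d f) : cs.Bd Γ s d (-f) := by
  refine ⟨?_, fun γ => ?_⟩
  · rw [MonoidAlgebra.coeff_neg, Finsupp.support_neg]; exact hf.1
  · rw [MonoidAlgebra.coeff_neg, Finsupp.neg_apply]; exact (cs.deg_neg _).trans (hf.2 γ)

lemma CS.Bd.sub' {s d s' d' : ℕ} {f g : MonoidAlgebra C Γ} (hf : cs.Bd Γ s d f)
    (hg : cs.Bd Γ s' d' g) : cs.Bd Γ (s + s') (max d d') (f - g) := by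
  rw [sub_eq_add_neg]; exact hf.add cs (hg.neg cs)

lemma CS.Bd.mul {s d s' d' : ℕ} {f g : MonoidAlgebra C Γ} (hf : cs.Bd Γ s d f)
    (hg : cs.Bd Γ s' d' g) : cs.Bd Γ (s * s') (d + d') (f * g) := by
  classical
  refine ⟨?_, fun γ => ?_⟩
  · refine le_trans (Finset.card_le_card (MonoidAlgebra.support_coeff_mul_subset f g)) ?_
    exact le_trans (Finset.card_mul_le) (Nat.mul_le_mul hf.1 hg.1)
  · rw [MonoidAlgebra.coeff_mul]
    simp only [Finsupp.sum]
    refine cs.deg_sum _ _ _ fun a _ => cs.deg_sum _ _ _ fun b _ => ?_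
    split_ifs
    · exact le_trans (cs.deg_mul _ _) (add_le_add (hf.2 a) (hg.2 b))
    · rw [cs.deg_zero]; exact Nat.zero_le _

lemma CS.Bd_single (γ : Γ) (a : L) : cs.Bd Γ 1 0 (cs.mon Γ γ a) := by
  classical
  refine ⟨?_, fun γ' => ?_⟩
  · rw [CS.mon, MonoidAlgebra.coeff_single]
    refine le_trans (Finset.card_le_card Finsupp.support_single_subset) (by simp)
  · rw [CS.mon, MonoidAlgebra.coeff_single, Finsupp.single_apply]
    split_ifs
    · rw [cs.deg_k]
    · rw [cs.deg_zero]

lemma CS.Bd_one : cs.Bd Γ 1 0 1 := by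
  have : (1 : MonoidAlgebra C Γ) = cs.mon Γ 1 1 := by
    rw [CS.mon, map_one, MonoidAlgebra.one_def]
  rw [this]; exact cs.Bd_single 1 1

lemma CS.Bd.prod {ι : Type*} (t : Finset ι) (f : ι → MonoidAlgebra C Γ) {s d : ℕ}
    (hf : ∀ i ∈ t, cs.Bd Γ s d (f i)) : cs.Bd Γ (s ^ t.card) (t.card * d) (∏ i ∈ t, f i) := by
  classical
  induction t using Finset.induction_on with
  | empty => simpa using cs.Bd_one
  | insert a t ha ih =>
    rw [Finset.prod_insert ha, Finset.card_insert_of_notMem ha]
    have h1 := (hf a (by simp)).mul cs (ih fun i hi => hf i (by simp [hi]))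
    refine h1.mono cs (le_of_eq (by ring)) (le_of_eq (by ring))

lemma CS.sg_apply (n h : ℕ) (f : MonoidAlgebra C Γ) :
    cs.sg Γ n h f = f.coeff.sum fun γ c =>
      single (γ ^ h) (cs.sub n h c * cs.k (((γ : Lˣ) : L) ^ n)) := by
  conv_lhs => rw [← MonoidAlgebra.sum_coeff_single f]
  rw [map_finsuppSum]
  refine Finsupp.sum_congr fun γ _ => ?_
  rw [CS.sg_single]

lemma CS.Bd.sg {s d : ℕ} {f : MonoidAlgebra C Γ} (hf : cs.Bd Γ s d f) (n h : ℕ) :
    cs.Bd Γ s d (cs.sg Γ n h f) := by
  classical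
  rw [CS.sg_apply]
  refine ⟨?_, fun γ => ?_⟩
  · refine le_trans ?_ hf.1
    refine le_trans (Finset.card_le_card (t := f.coeff.support.image fun γ => γ ^ h) ?_)
      Finset.card_image_le
    intro γ hγ
    rw [Finsupp.mem_support_iff, MonoidAlgebra.coeff_finsuppSum, Finsupp.sum_apply] at hγ
    by_contra hc
    apply hγ
    apply Finset.sum_eq_zero
    intro a ha
    dsimp only
    rw [MonoidAlgebra.coeff_single, Finsupp.single_apply, if_neg]
    rintro rfl
    exact hc (Finset.mem_image_of_mem _ ha)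
  · rw [MonoidAlgebra.coeff_finsuppSum, Finsupp.sum_apply]
    refine cs.deg_sum _ _ _ fun a _ => ?_
    dsimp only
    rw [MonoidAlgebra.coeff_single, Finsupp.single_apply]
    split_ifs
    · refine le_trans (cs.deg_mul _ _) ?_
      rw [cs.deg_k, add_zero]
      exact (cs.deg_sub _ _ _).trans (hf.2 a)
    · rw [cs.deg_zero]; exact Nat.zero_le _

lemma CS.coeff_shift (f : MonoidAlgebra C Γ) (γ : Γ) :
    (cs.sg Γ 1 1 f).coeff γ = cs.sub 1 1 (f.coeff γ) * cs.k ((γ : Lˣ) : L) := by
  classical
  rw [CS.sg_apply, MonoidAlgebra.coeff_finsuppSum, Finsupp.sum_apply]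
  simp only [MonoidAlgebra.coeff_single, pow_one, Finsupp.single_apply]
  rw [Finsupp.sum, Finset.sum_ite_eq']
  split_ifs with h
  · rfl
  · rw [Finsupp.notMem_support_iff.1 h]; simp

lemma CS.vanish_aux (N : ℕ) : ∀ (S : Finset Γ) (d : Γ → ℕ) (f : MonoidAlgebra C Γ) (j0 : ℕ),
    f.coeff.support ⊆ S → (∀ γ ∈ S, cs.deg (f.coeff γ) ≤ d γ) → ∑ γ ∈ S, (d γ + 1) ≤ N →
    (∀ i < N, cs.ev Γ (j0 + i) f = 0) → f = 0 := by
  classical
  induction N with
  | zero =>
    intro S d f j0 hS _ hN _
    have : S = ∅ := by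
      by_contra hne
      obtain ⟨γ, hγ⟩ := Finset.nonempty_iff_ne_empty.2 hne
      have h1 : d γ + 1 ≤ ∑ γ ∈ S, (d γ + 1) :=
        Finset.single_le_sum (f := fun γ => d γ + 1) (fun i _ => Nat.zero_le _) hγ
      omega
    rw [this, Finset.subset_empty, Finsupp.support_eq_empty] at hS
    exact MonoidAlgebra.coeff_eq_zero.1 hS
  | succ N ih =>
    intro S d f j0 hS hd hN hv
    by_cases hSe : S = ∅
    · rw [hSe, Finset.subset_empty, Finsupp.support_eq_empty] at hS
      exact MonoidAlgebra.coeff_eq_zero.1 hS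
    obtain ⟨γ₁, hγ₁⟩ := Finset.nonempty_iff_ne_empty.2 hSe
    set g : MonoidAlgebra C Γ := cs.sg Γ 1 1 f - cs.cst Γ ((γ₁ : Lˣ) : L) * f with hg
    have hgc : ∀ γ, g.coeff γ = cs.sub 1 1 (f.coeff γ) * cs.k ((γ : Lˣ) : L) -
        cs.k ((γ₁ : Lˣ) : L) * f.coeff γ := by
      intro γ
      rw [hg, MonoidAlgebra.coeff_sub, Finsupp.sub_apply, CS.coeff_shift]
      congr 1
      rw [CS.cst, MonoidAlgebra.coeff_single_one_mul]
    have hgv : ∀ i < N, cs.ev Γ (j0 + i) g = 0 := by
      intro i hi
      rw [hg, map_sub, map_mul, CS.ev_sg, CS.ev_cst, hv i (by omega)]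
      have : 1 + 1 * (j0 + i) = j0 + (i + 1) := by ring
      rw [this, hv (i + 1) (by omega)]
      simp
    have hf0 : ∀ γ, γ ∉ S → f.coeff γ = 0 := by
      intro γ hγ
      by_contra h
      exact hγ (hS (Finsupp.mem_support_iff.2 h))
    have hg0 : g = 0 := by
      by_cases h1 : d γ₁ = 0
      · have hc1 : g.coeff γ₁ = 0 := by
          have hdeg : cs.deg (f.coeff γ₁) = 0 := by
            have := hd γ₁ hγ₁
            omega
          rw [hgc, cs.deg_const _ hdeg, cs.sub_k, mul_comm, sub_self]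
        refine ih (S.erase γ₁) d g j0 ?_ ?_ ?_ hgv
        · intro γ hγ
          rw [Finset.mem_erase]
          rw [Finsupp.mem_support_iff] at hγ
          refine ⟨?_, ?_⟩
          · rintro rfl; exact hγ hc1
          · by_contra h
            apply hγ
            rw [hgc, hf0 γ h]; simp
        · intro γ hγ
          rw [hgc, sub_eq_add_neg]
          refine (cs.deg_add _ _).trans (max_le ?_ ?_)
          · refine (cs.deg_mul _ _).trans ?_
            rw [cs.deg_k, add_zero]
            exact (cs.deg_sub _ _ _).trans (hd γ (Finset.mem_of_mem_erase hγ))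
          · refine (cs.deg_neg _).trans ((cs.deg_mul _ _).trans ?_)
            rw [cs.deg_k, zero_add]
            exact hd γ (Finset.mem_of_mem_erase hγ)
        · have h2 : (d γ₁ + 1) + ∑ x ∈ S.erase γ₁, (d x + 1) = ∑ x ∈ S, (d x + 1) :=
            Finset.add_sum_erase S (fun γ => d γ + 1) hγ₁
          omega
      · refine ih S (Function.update d γ₁ (d γ₁ - 1)) g j0 ?_ ?_ ?_ hgv
        · intro γ hγ
          rw [Finsupp.mem_support_iff] at hγ
          by_contra h
          apply hγ
          rw [hgc, hf0 γ h]; simp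
        · intro γ hγ
          by_cases hγγ : γ = γ₁
          · subst hγγ
            rw [Function.update_self, hgc]
            have e1 : cs.sub 1 1 (f.coeff γ) * cs.k ((γ : Lˣ) : L) -
                cs.k ((γ : Lˣ) : L) * f.coeff γ =
                cs.k ((γ : Lˣ) : L) * (cs.sub 1 1 (f.coeff γ) - f.coeff γ) := by ring
            rw [e1]
            refine (cs.deg_mul _ _).trans ?_
            rw [cs.deg_k, zero_add]
            by_cases h0 : cs.deg (f.coeff γ) = 0
            · rw [cs.deg_const _ h0, cs.sub_k, sub_self, cs.deg_zero]; exact Nat.zero_le _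
            · have := cs.dif _ h0
              have := hd γ hγ
              omega
          · rw [Function.update_of_ne hγγ, hgc, sub_eq_add_neg]
            refine (cs.deg_add _ _).trans (max_le ?_ ?_)
            · refine (cs.deg_mul _ _).trans ?_
              rw [cs.deg_k, add_zero]
              exact (cs.deg_sub _ _ _).trans (hd γ hγ)
            · refine (cs.deg_neg _).trans ((cs.deg_mul _ _).trans ?_)
              rw [cs.deg_k, zero_add]
              exact hd γ hγ
        · have e1 := Finset.add_sum_erase S (fun γ => d γ + 1) hγ₁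
          have e2 := Finset.add_sum_erase S
            (fun γ => Function.update d γ₁ (d γ₁ - 1) γ + 1) hγ₁
          have e3 : ∑ x ∈ S.erase γ₁, (Function.update d γ₁ (d γ₁ - 1) x + 1) =
              ∑ x ∈ S.erase γ₁, (d x + 1) := by
            refine Finset.sum_congr rfl fun x hx => ?_
            rw [Function.update_of_ne (Finset.ne_of_mem_erase hx)]
          simp only [Function.update_self] at e1 e2
          omega
    -- now `g = 0`
    have hcoef : ∀ γ, γ ≠ γ₁ → f.coeff γ = 0 := by
      intro γ hγ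
      have h1 := hgc γ
      rw [hg0] at h1
      simp only [MonoidAlgebra.coeff_zero, Finsupp.coe_zero, Pi.zero_apply] at h1
      refine cs.uniq ((γ : Lˣ) : L) ((γ₁ : Lˣ) : L) _ ?_ ?_
      · intro h
        exact hγ (Subtype.ext (Units.ext h))
      · rw [mul_comm]; exact sub_eq_zero.1 h1.symm
    have hper : cs.deg (f.coeff γ₁) = 0 := by
      apply cs.per
      have h1 := hgc γ₁
      rw [hg0] at h1
      simp only [MonoidAlgebra.coeff_zero, Finsupp.coe_zero, Pi.zero_apply] at h1
      have h2 : cs.k ((γ₁ : Lˣ) : L) * (cs.sub 1 1 (f.coeff γ₁) - f.coeff γ₁) = 0 := by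
        rw [h1]; ring
      have h3 : cs.k (((γ₁ : Lˣ) : L)⁻¹) * (cs.k ((γ₁ : Lˣ) : L) *
          (cs.sub 1 1 (f.coeff γ₁) - f.coeff γ₁)) = 0 := by rw [h2, mul_zero]
      rw [← mul_assoc, ← map_mul, inv_mul_cancel₀ (Units.ne_zero _), map_one, one_mul] at h3
      exact sub_eq_zero.1 h3
    have hfe : f = single γ₁ (cs.k (cs.lc (f.coeff γ₁))) := by
      rw [← cs.deg_const _ hper]
      ext γ
      rw [MonoidAlgebra.coeff_single, Finsupp.single_apply]
      split_ifs with h
      · rw [h]
      · exact hcoef γ (Ne.symm h)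
    have h0 := hv 0 (Nat.succ_pos _)
    rw [hfe, CS.ev_single, cs.e_k] at h0
    have : cs.lc (f.coeff γ₁) = 0 := by
      rcases mul_eq_zero.1 h0 with h | h
      · exact h
      · exact absurd h (pow_ne_zero _ (Units.ne_zero _))
    rw [hfe, this]; simp

/-- a formal exponential polynomial that vanishes at sufficiently many consecutive integers
is zero -/
lemma CS.vanish {s d : ℕ} {f : MonoidAlgebra C Γ} (hf : cs.Bd Γ s d f) (j0 : ℕ)
    (hv : ∀ i < s * (d + 1), cs.ev Γ (j0 + i) f = 0) : f = 0 := by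
  refine cs.vanish_aux (s * (d + 1)) f.coeff.support (fun _ => d) f j0 (subset_refl _)
    (fun γ _ => hf.2 γ) ?_ hv
  rw [Finset.sum_const, smul_eq_mul]
  exact Nat.mul_le_mul_right _ hf.1

lemma CS.ev_injective {f g : MonoidAlgebra C Γ} (j0 : ℕ)
    (h : ∀ j, j0 ≤ j → cs.ev Γ j f = cs.ev Γ j g) : f = g := by
  rw [← sub_eq_zero]
  obtain ⟨s, d, hb⟩ := cs.Bd_exists (f - g)
  refine cs.vanish hb j0 fun i _ => ?_
  rw [map_sub, h _ (by omega), sub_self]

end Pool.Agent.H.MP_df1c3e_lc
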