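import Pool.Agent.H.MP_df1c3e_lc.Grp
import Pool.Agent.H.MP_df1c3e_lc.ExpPoly

/-!
Closed forms for the powers of a matrix.
-/

namespace Pool.Agent.H.MP_df1c3e_lc

open MonoidAlgebra Polynomial Module

variable {L : Type*} [Field L] {A : Type*} [CommRing A]

/-- closed form for the powers of an endomorphism -/
def CF (cs : CS L A) (Γ : Subgroup Lˣ) {V : Type*} [AddCommGroup V] [Module L V]
    (T : Module.End L V) : Prop :=
  ∀ (x : V →ₗ[L] L) (y : V), ∃ f : MonoidAlgebra A Γ,
    (∀ m, (finrank L V ≤ m ∨ ¬ T.HasEigenvalue 0) → x ((T ^ m) y) = cs.ev Γ m f) ∧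
    ∀ γ : Γ, f.coeff γ ≠ 0 → T.HasEigenvalue ((γ : Lˣ) : L)

lemma CF_of [IsAlgClosed L] (cs : CS L A) (Γ : Subgroup Lˣ) {V : Type*} [AddCommGroup V]
    [Module L V] [FiniteDimensional L V] (T : Module.End L V)
    (hT : ∀ μ, T.HasEigenvalue μ → μ ≠ 0 → InG Γ μ)
    (h : ∀ μ, μ ≠ 0 → ∀ y ∈ T.maxGenEigenspace μ, ∀ x : V →ₗ[L] L,
      ∃ c : A, ∀ m, x ((T ^ m) y) = cs.e m c * μ ^ m) : CF cs Γ T := by
  classical
  intro x y
  have hy : y ∈ ⨆ μ, T.maxGenEigenspace μ := by
    rw [Module.End.iSup_maxGenEigenspace_eq_top]; trivial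
  refine Submodule.iSup_induction (T.maxGenEigenspace) (motive := fun y => ∃ f : MonoidAlgebra A Γ,
    (∀ m, (finrank L V ≤ m ∨ ¬ T.HasEigenvalue 0) → x ((T ^ m) y) = cs.ev Γ m f) ∧
    ∀ γ : Γ, f.coeff γ ≠ 0 → T.HasEigenvalue ((γ : Lˣ) : L)) hy ?_ ?_ ?_
  · intro μ y hy
    by_cases hy0 : y = 0
    · refine ⟨0, fun m _ => ?_, fun γ hγ => ?_⟩
      · rw [hy0, map_zero, map_zero, map_zero]
      · simp at hγ
    have hev : T.HasEigenvalue μ := by
      by_contra hne
      have h1 : T.eigenspace μ = ⊥ := by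
        by_contra h2
        exact hne h2
      have h2 : ∀ k : ℕ, ∀ z, ((T - μ • (1 : Module.End L V)) ^ k) z = 0 → z = 0 := by
        intro k
        induction k with
        | zero => intro z hz; simpa using hz
        | succ k ih =>
          intro z hz
          rw [pow_succ, Module.End.mul_apply] at hz
          have h3 := ih _ hz
          have h4 : z ∈ T.eigenspace μ := by
            rw [Module.End.mem_eigenspace_iff]
            simpa [sub_eq_zero] using h3
          rw [h1] at h4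
          simpa using h4
      obtain ⟨k, hk⟩ := (Module.End.mem_maxGenEigenspace T μ y).1 hy
      exact hy0 (h2 k y hk)
    by_cases hμ : μ = 0
    · refine ⟨0, fun m hm => ?_, fun γ hγ => ?_⟩
      · rcases hm with hm | hm
        · rw [Module.End.maxGenEigenspace_eq_genEigenspace_finrank] at hy
          rw [Module.End.mem_genEigenspace_nat, hμ, zero_smul, sub_zero,
            LinearMap.mem_ker] at hy
          obtain ⟨k, rfl⟩ := Nat.exists_eq_add_of_le hm
          rw [add_comm, pow_add, Module.End.mul_apply, hy]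
          simp
        · rw [hμ] at hev
          exact absurd hev hm
      · simp at hγ
    · obtain ⟨c, hc⟩ := h μ hμ y hy x
      obtain ⟨γ, hγ, hγe⟩ := hT μ hev hμ
      refine ⟨single ⟨γ, hγ⟩ c, fun m _ => ?_, fun γ' hγ' => ?_⟩
      · rw [CS.ev_single, hc m, ← hγe]
      · rw [MonoidAlgebra.coeff_single, Finsupp.single_apply] at hγ'
        split_ifs at hγ' with h5
        · rw [← h5]
          show T.HasEigenvalue (γ : L)
          rw [hγe]; exact hev
        · exact absurd rfl hγ'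
  · refine ⟨0, fun m _ => ?_, fun γ hγ => ?_⟩
    · rw [map_zero, map_zero, map_zero]
    · simp at hγ
  · rintro y z ⟨f, hf1, hf2⟩ ⟨g, hg1, hg2⟩
    refine ⟨f + g, fun m hm => ?_, fun γ hγ => ?_⟩
    · rw [map_add, map_add, map_add, hf1 m hm, hg1 m hm]
    · by_contra hne
      apply hγ
      rw [MonoidAlgebra.coeff_add, Finsupp.add_apply]
      have h1 : f.coeff γ = 0 := by
        by_contra h; exact hne (hf2 γ h)
      have h2 : g.coeff γ = 0 := by
        by_contra h; exact hne (hg2 γ h)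
      rw [h1, h2, add_zero]

/-- characteristic zero -/
lemma CF_charZero [IsAlgClosed L] [CharZero L] (Γ : Subgroup Lˣ) {V : Type*} [AddCommGroup V]
    [Module L V] [FiniteDimensional L V] (T : Module.End L V)
    (hT : ∀ μ, T.HasEigenvalue μ → μ ≠ 0 → InG Γ μ) : CF (csPoly L) Γ T := by
  classical
  refine CF_of _ Γ T hT fun μ hμ y hy x => ?_
  set n := finrank L V with hn
  set N := T - μ • (1 : Module.End L V) with hN
  have hNy : ∀ j, n ≤ j → (N ^ j) y = 0 := by
    intro j hj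
    rw [Module.End.maxGenEigenspace_eq_genEigenspace_finrank, Module.End.mem_genEigenspace_nat,
      LinearMap.mem_ker] at hy
    obtain ⟨k, rfl⟩ := Nat.exists_eq_add_of_le hj
    rw [add_comm, pow_add, Module.End.mul_apply]
    have : (N ^ n) y = 0 := hy
    rw [this, map_zero]
  refine ⟨∑ j ∈ Finset.range n, C ((μ ^ j)⁻¹ * x ((N ^ j) y) * ((j.factorial : L))⁻¹) *
    descPochhammer L j, fun m => ?_⟩
  have hT' : T = N + μ • (1 : Module.End L V) := by rw [hN]; abel
  have hcomm : Commute N (μ • (1 : Module.End L V)) := by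
    rw [Commute, SemiconjBy]
    simp
  have h1 : x ((T ^ m) y) = ∑ j ∈ Finset.range (m + 1), (m.choose j : L) * μ ^ (m - j) *
      x ((N ^ j) y) := by
    conv_lhs => rw [hT', hcomm.add_pow]
    rw [LinearMap.sum_apply, map_sum]
    refine Finset.sum_congr rfl fun j _ => ?_
    rw [_root_.smul_pow, one_pow]
    have : (N ^ j * μ ^ (m - j) • (1 : Module.End L V) * (m.choose j : Module.End L V)) y =
        ((m.choose j : L) * μ ^ (m - j)) • ((N ^ j) y) := by
      rw [mul_smul_comm, mul_one, ← nsmul_eq_mul', LinearMap.smul_apply, LinearMap.smul_apply,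
        ← Nat.cast_smul_eq_nsmul L, smul_smul]
    rw [this, map_smul, smul_eq_mul]
  have h2 : ∀ M, m ≤ M → n ≤ M → ∑ j ∈ Finset.range (M + 1), (m.choose j : L) * μ ^ (m - j) *
      x ((N ^ j) y) = ∑ j ∈ Finset.range (m + 1), (m.choose j : L) * μ ^ (m - j) *
      x ((N ^ j) y) := by
    intro M hM _
    symm
    refine Finset.sum_subset ?_ ?_
    · intro j hj; rw [Finset.mem_range] at *; omega
    · intro j _ hj
      rw [Finset.mem_range] at hj
      rw [Nat.choose_eq_zero_of_lt (by omega)]; simp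
  have h3 : ∀ M, m ≤ M → n ≤ M → ∑ j ∈ Finset.range (M + 1), (m.choose j : L) * μ ^ (m - j) *
      x ((N ^ j) y) = ∑ j ∈ Finset.range n, (m.choose j : L) * μ ^ (m - j) *
      x ((N ^ j) y) := by
    intro M _ hM
    symm
    refine Finset.sum_subset ?_ ?_
    · intro j hj; rw [Finset.mem_range] at *; omega
    · intro j _ hj
      rw [Finset.mem_range] at hj
      rw [hNy j (by omega)]; simp
  rw [h1, ← h2 (m + n) (by omega) (by omega), h3 (m + n) (by omega) (by omega)]
  show _ = (Polynomial.evalRingHom (m : L)) _ * _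
  rw [map_sum, Finset.sum_mul]
  refine Finset.sum_congr rfl fun j _ => ?_
  rw [Polynomial.coe_evalRingHom, eval_mul, eval_C, descPochhammer_eval_eq_descFactorial]
  by_cases hj : j ≤ m
  · have h4 : (m.descFactorial j : L) = (j.factorial : L) * (m.choose j : L) := by
      rw [Nat.descFactorial_eq_factorial_mul_choose]; push_cast; ring
    have h5 : (j.factorial : L) ≠ 0 := by exact_mod_cast j.factorial_ne_zero
    have h6 : μ ^ m = μ ^ (m - j) * μ ^ j := by rw [← pow_add]; congr 1; omega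
    have h7 : μ ^ j ≠ 0 := pow_ne_zero _ hμ
    rw [h4, h6]
    field_simp
  · rw [Nat.choose_eq_zero_of_lt (by omega), Nat.descFactorial_eq_zero_iff_lt.2 (by omega)]
    simp

/-- positive characteristic: powers with exponent a large power of `p` -/
lemma CF_charP [IsAlgClosed L] {p : ℕ} [hp : Fact p.Prime] [CharP L p] (Γ : Subgroup Lˣ)
    {V : Type*} [AddCommGroup V] [Module L V] [FiniteDimensional L V] (U : Module.End L V)
    (e : ℕ) (he : finrank L V ≤ p ^ e)
    (hT : ∀ μ, (U ^ (p ^ e)).HasEigenvalue μ → μ ≠ 0 → InG Γ μ) :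
    CF (csConst L) Γ (U ^ (p ^ e)) := by
  classical
  refine CF_of _ Γ _ hT fun μ hμ y hy x => ⟨x y, fun m => ?_⟩
  set T := U ^ (p ^ e) with hTdef
  obtain ⟨ν, hν⟩ := IsAlgClosed.exists_pow_nat_eq μ (pow_pos hp.out.pos e)
  have hpoly : (X - C ν : L[X]) ^ (p ^ e) = X ^ (p ^ e) - C μ := by
    rw [sub_pow_char_pow, ← C_pow, hν]
  have h1 : (U - ν • (1 : Module.End L V)) ^ (p ^ e) = T - μ • (1 : Module.End L V) := by
    have h2 := congrArg (aeval U) hpoly
    rw [map_pow, map_sub, map_sub, aeval_X, aeval_C, aeval_C, map_pow, aeval_X] at h2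
    rw [Algebra.algebraMap_eq_smul_one, Algebra.algebraMap_eq_smul_one] at h2
    exact h2
  obtain ⟨k, hk⟩ := (Module.End.mem_maxGenEigenspace T μ y).1 hy
  rw [← h1, ← pow_mul] at hk
  have h3 : y ∈ U.maxGenEigenspace ν := (Module.End.mem_maxGenEigenspace U ν y).2 ⟨_, hk⟩
  rw [Module.End.maxGenEigenspace_eq_genEigenspace_finrank, Module.End.mem_genEigenspace_nat,
    LinearMap.mem_ker] at h3
  have h4 : ((U - ν • (1 : Module.End L V)) ^ (p ^ e)) y = 0 := by
    obtain ⟨k, hk⟩ := Nat.exists_eq_add_of_le he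
    rw [hk, add_comm, pow_add, Module.End.mul_apply, h3, map_zero]
  rw [h1] at h4
  have h5 : T y = μ • y := by
    simpa [sub_eq_zero] using h4
  have h6 : ∀ m, (T ^ m) y = μ ^ m • y := by
    intro m
    induction m with
    | zero => simp
    | succ m ih => rw [pow_succ, Module.End.mul_apply, h5, map_smul, ih, smul_smul, pow_succ']
  rw [h6, map_smul, smul_eq_mul, mul_comm]
  rfl

/-- closed form for the powers of a matrix -/
def MCF (cs : CS L A) (Γ : Subgroup Lˣ) {r : ℕ} (T : Matrix (Fin r) (Fin r) L) : Prop :=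
  ∃ Θ : Matrix (Fin r) (Fin r) (MonoidAlgebra A Γ),
    (∀ m, (r ≤ m ∨ ¬ T.charpoly.IsRoot 0) → Θ.map (cs.ev Γ m) = T ^ m) ∧
    ∀ i j (γ : Γ), (Θ i j).coeff γ ≠ 0 → T.charpoly.IsRoot ((γ : Lˣ) : L)

lemma hasEigenvalue_toLin' {r : ℕ} (T : Matrix (Fin r) (Fin r) L) (μ : L) :
    Module.End.HasEigenvalue (Matrix.toLin' T) μ ↔ T.charpoly.IsRoot μ := by
  rw [Module.End.hasEigenvalue_iff_isRoot_charpoly, Matrix.charpoly_toLin']

lemma MCF_of_CF (cs : CS L A) (Γ : Subgroup Lˣ) {r : ℕ} (T : Matrix (Fin r) (Fin r) L)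
    (h : CF cs Γ (Matrix.toLin' T)) : MCF cs Γ T := by
  classical
  choose f hf1 hf2 using fun i j : Fin r =>
    h (LinearMap.proj i : (Fin r → L) →ₗ[L] L) (Pi.single j 1)
  refine ⟨Matrix.of f, fun m hm => ?_, fun i j γ hγ => ?_⟩
  · ext i j
    rw [Matrix.map_apply, Matrix.of_apply, ← hf1 i j m, LinearMap.proj_apply, ← Matrix.toLin'_pow,
      Matrix.toLin'_apply, Matrix.mulVec_single_one]
    · rfl
    · rw [hasEigenvalue_toLin', Module.finrank_fin_fun]; exact hm
  · rw [← hasEigenvalue_toLin']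
    exact hf2 i j γ hγ

lemma MCF_charZero [IsAlgClosed L] [CharZero L] (Γ : Subgroup Lˣ) {r : ℕ}
    (T : Matrix (Fin r) (Fin r) L) (hT : ∀ μ, T.charpoly.IsRoot μ → μ ≠ 0 → InG Γ μ) :
    MCF (csPoly L) Γ T :=
  MCF_of_CF _ Γ T (CF_charZero Γ _ fun μ h1 h2 => hT μ ((hasEigenvalue_toLin' T μ).1 h1) h2)

lemma MCF_charP [IsAlgClosed L] {p : ℕ} [hp : Fact p.Prime] [CharP L p] (Γ : Subgroup Lˣ)
    {r : ℕ} (U : Matrix (Fin r) (Fin r) L) (e : ℕ) (he : r ≤ p ^ e)
    (hT : ∀ μ, (U ^ (p ^ e)).charpoly.IsRoot μ → μ ≠ 0 → InG Γ μ) :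
    MCF (csConst L) Γ (U ^ (p ^ e)) := by
  refine MCF_of_CF _ Γ _ ?_
  rw [Matrix.toLin'_pow]
  refine CF_charP Γ _ e (by rw [Module.finrank_fin_fun]; exact he) fun μ h1 h2 => hT μ ?_ h2
  rw [← Matrix.toLin'_pow] at h1
  exact (hasEigenvalue_toLin' _ μ).1 h1

end Pool.Agent.H.MP_df1c3e_lc
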