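import Pool.Agent.H.MP_df1c3e_lc.Auto

/-!
The class of functions recognised by polynomially ambiguous automata, with the number of
runs counted by the indicator automaton over `ℕ`.
-/

namespace Pool.Agent.H.MP_df1c3e_lc

open Matrix

section Words

variable {R : Type*} [Semiring R] {ι : Type*} [Fintype ι] [DecidableEq ι] {σ : Type*}

/-- product of the letter matrices along a word -/
def wmat (M : σ → Matrix ι ι R) (w : List σ) : Matrix ι ι R := (w.map M).prod

@[simp] lemma wmat_nil (M : σ → Matrix ι ι R) : wmat M [] = 1 := rfl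

@[simp] lemma wmat_cons (M : σ → Matrix ι ι R) (a : σ) (w : List σ) :
    wmat M (a :: w) = M a * wmat M w := by simp [wmat]

lemma wmat_append (M : σ → Matrix ι ι R) (u w : List σ) :
    wmat M (u ++ w) = wmat M u * wmat M w := by simp [wmat]

end Words

variable {K : Type*} [Field K] {σ : Type*}

open Classical in
/-- indicator of nonzero elements -/
noncomputable def ind (x : K) : ℕ := if x = 0 then 0 else 1

lemma ind_le_one (x : K) : ind x ≤ 1 := by
  unfold ind; split_ifs <;> simp

@[simp] lemma ind_zero : ind (0 : K) = 0 := by simp [ind]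

lemma ind_ne {x : K} (h : x ≠ 0) : ind x = 1 := by simp [ind, h]

section

variable {ι : Type*} [Fintype ι] [DecidableEq ι]

/-- indicator matrices -/
noncomputable def indM (M : σ → Matrix ι ι K) : σ → Matrix ι ι ℕ := fun a => (M a).map ind

/-- number of accepting runs computed by the indicator automaton -/
noncomputable def cnt (I F : ι → K) (M : σ → Matrix ι ι K) (w : List σ) : ℕ :=
  (fun i => ind (I i)) ⬝ᵥ (wmat (indM M) w).mulVec (fun i => ind (F i))

end

/-- sum over all paths of the products of the indicators -/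
lemma mulVec_eq_sum_paths {ι : Type*} [Fintype ι] [DecidableEq ι]
    (N : σ → Matrix ι ι ℕ) (F : ι → ℕ) (w : List σ) (i : ι) :
    (wmat N w).mulVec F i =
      ∑ q : Fin (w.length + 1) → ι, (if q 0 = i then
        (∏ k : Fin w.length, N (w.get k) (q k.castSucc) (q k.succ)) *
          F (q (Fin.last w.length)) else 0) := by
  induction w generalizing i with
  | nil =>
    simp only [wmat_nil, one_mulVec, List.length_nil, Finset.univ_eq_empty, Finset.prod_empty,
      one_mul]
    rw [Finset.sum_eq_single (fun _ => i)]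
    · simp
    · intro q _ hq
      rw [if_neg]
      intro h
      apply hq
      funext k
      have : k = 0 := by
        have h0 : (k : ℕ) < 0 + 1 := k.isLt
        apply Fin.ext
        show (k : ℕ) = 0
        omega
      rw [this, h]
    · simp
  | cons a w ih =>
    rw [wmat_cons, ← mulVec_mulVec]
    simp only [mulVec, dotProduct] at ih ⊢
    have key : ∀ (f : (Fin ((a :: w).length + 1) → ι) → ℕ),
        ∑ q, f q = ∑ p : ι × (Fin (w.length + 1) → ι), f (Fin.cons p.1 p.2) := by
      intro f
      exact (Fintype.sum_equiv (Fin.consEquiv (fun _ => ι)) _ _ (fun p => rfl)).symm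
    rw [key, Fintype.sum_prod_type]
    symm
    rw [Finset.sum_eq_single i]
    · symm
      calc (∑ x, N a i x * ∑ x_1, wmat N w x x_1 * F x_1)
          = ∑ x, N a i x * ∑ q : Fin (w.length + 1) → ι, (if q 0 = x then
            (∏ k : Fin w.length, N (w.get k) (q k.castSucc) (q k.succ)) *
              F (q (Fin.last w.length)) else 0) := by
            refine Finset.sum_congr rfl fun x _ => ?_
            rw [ih x]
        _ = ∑ q : Fin (w.length + 1) → ι, ∑ x, N a i x * (if q 0 = x then
            (∏ k : Fin w.length, N (w.get k) (q k.castSucc) (q k.succ)) *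
              F (q (Fin.last w.length)) else 0) := by
            simp_rw [Finset.mul_sum]
            exact Finset.sum_comm
        _ = _ := by
            refine Finset.sum_congr rfl fun q _ => ?_
            rw [Finset.sum_eq_single (q 0)]
            · rw [if_pos rfl]
              simp only [Fin.cons_zero, if_true]
              rw [← mul_assoc]
              congr 1
              have : (∏ k : Fin (a :: w).length, N ((a :: w).get k)
                  ((Fin.cons i q : Fin ((a :: w).length + 1) → ι) k.castSucc)
                  ((Fin.cons i q : Fin ((a :: w).length + 1) → ι) k.succ))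
                = N a i (q 0) * ∏ k : Fin w.length, N (w.get k) (q k.castSucc) (q k.succ) := by
                have h1 := Fin.prod_univ_succ (n := w.length)
                  (f := fun k : Fin (w.length + 1) => N ((a :: w).get k)
                  ((Fin.cons i q : Fin ((a :: w).length + 1) → ι) k.castSucc)
                  ((Fin.cons i q : Fin ((a :: w).length + 1) → ι) k.succ))
                refine h1.trans ?_
                rfl
              rw [this]
            · intro x _ hx
              rw [if_neg (Ne.symm hx), mul_zero]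
            · simp
    · intro j _ hj
      apply Finset.sum_eq_zero
      intro q _
      rw [if_neg]
      simpa using hj
    · simp

/-- The number of accepting runs is the value of the indicator automaton. -/
lemma card_runs (A : WA K σ) (w : List σ) :
    Nat.card {q : Fin (w.length + 1) → Fin A.d // A.IsAcceptingRun w q} =
      cnt A.init A.fin A.step w := by
  classical
  rw [Nat.card_eq_fintype_card, Fintype.card_subtype]
  rw [Finset.card_eq_sum_ones, Finset.sum_filter]
  unfold cnt
  simp only [dotProduct]
  simp_rw [mulVec_eq_sum_paths, Finset.mul_sum]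
  rw [Finset.sum_comm]
  refine Finset.sum_congr rfl fun q _ => ?_
  rw [Finset.sum_eq_single (q 0)]
  · rw [if_pos rfl]
    split_ifs with h
    · obtain ⟨h1, h2, h3⟩ := h
      rw [ind_ne h1, ind_ne h3]
      have : ∀ k : Fin w.length, indM A.step (w.get k) (q k.castSucc) (q k.succ) = 1 := by
        intro k
        simp only [indM, Matrix.map_apply]
        exact ind_ne (h2 k)
      rw [Finset.prod_congr rfl fun k _ => this k]
      simp
    · unfold WA.IsAcceptingRun at h
      push Not at h
      by_cases h1 : A.init (q 0) = 0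
      · simp [h1]
      · by_cases h2 : ∀ i : Fin w.length, A.step (w.get i) (q i.castSucc) (q i.succ) ≠ 0
        · simp [h h1 h2]
        · push Not at h2
          obtain ⟨i, hi⟩ := h2
          have : (∏ k : Fin w.length, indM A.step (w.get k) (q k.castSucc) (q k.succ)) = 0 := by
            apply Finset.prod_eq_zero (Finset.mem_univ i)
            simp only [indM, Matrix.map_apply]
            rw [hi]
            simp
          rw [this]; simp
  · intro j _ hj
    rw [if_neg (Ne.symm hj), mul_zero]
  · simp

/-- Functions recognised by a polynomially ambiguous automaton. -/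
def IsPA (f : List σ → K) : Prop :=
  ∃ (n : ℕ) (I F : Fin n → K) (M : σ → Matrix (Fin n) (Fin n) K) (C k : ℕ),
    (∀ w, f w = I ⬝ᵥ (wmat M w).mulVec F) ∧ ∀ w, cnt I F M w ≤ C * (w.length + 1) ^ k

lemma wmat_reindex {R : Type*} [Semiring R] {ι κ : Type*} [Fintype ι] [DecidableEq ι]
    [Fintype κ] [DecidableEq κ] (e : ι ≃ κ) (M : σ → Matrix ι ι R) (w : List σ) :
    wmat (fun a => Matrix.submatrix (M a) e.symm e.symm) w =
      Matrix.submatrix (wmat M w) e.symm e.symm := by
  induction w with
  | nil => simp
  | cons a w ih => rw [wmat_cons, wmat_cons, ih, Matrix.submatrix_mul_equiv]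

lemma dot_reindex {R : Type*} [Semiring R] {ι κ : Type*} [Fintype ι] [DecidableEq ι]
    [Fintype κ] [DecidableEq κ] (e : ι ≃ κ) (I F : ι → R) (M : Matrix ι ι R) :
    (I ∘ e.symm) ⬝ᵥ (Matrix.submatrix M e.symm e.symm).mulVec (F ∘ e.symm) =
      I ⬝ᵥ M.mulVec F := by
  simp only [dotProduct, mulVec]
  rw [← Equiv.sum_comp e.symm (fun i => I i * ∑ j, M i j * F j)]
  refine Finset.sum_congr rfl fun i _ => ?_
  rw [← Equiv.sum_comp e.symm (fun j => M (e.symm i) j * F j)]
  rfl

/-- arbitrary finite state sets are allowed -/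
lemma isPA_of {ι : Type*} [Fintype ι] [DecidableEq ι] {f : List σ → K} (I F : ι → K)
    (M : σ → Matrix ι ι K) (C k : ℕ) (h1 : ∀ w, f w = I ⬝ᵥ (wmat M w).mulVec F)
    (h2 : ∀ w, cnt I F M w ≤ C * (w.length + 1) ^ k) : IsPA f := by
  let e := Fintype.equivFin ι
  refine ⟨Fintype.card ι, I ∘ e.symm, F ∘ e.symm,
    fun a => Matrix.submatrix (M a) e.symm e.symm, C, k, fun w => ?_, fun w => ?_⟩
  · rw [h1, wmat_reindex, dot_reindex]
  · refine le_trans (le_of_eq ?_) (h2 w)
    unfold cnt
    have : indM (fun a => Matrix.submatrix (M a) e.symm e.symm) =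
        fun a => Matrix.submatrix (indM M a) e.symm e.symm := by
      funext a
      rfl
    rw [this, wmat_reindex]
    exact dot_reindex e (fun i => ind (I i)) (fun i => ind (F i)) _

lemma isPA_zero : IsPA (fun _ : List σ => (0 : K)) := by
  refine isPA_of (ι := Fin 0) (fun _ => 0) (fun _ => 0) (fun _ => 0) 0 0 (fun w => ?_)
    (fun w => ?_)
  · simp
  · simp [cnt]

lemma wmat_fromBlocks {R : Type*} [Semiring R] {ι κ : Type*} [Fintype ι] [DecidableEq ι]
    [Fintype κ] [DecidableEq κ] (M : σ → Matrix ι ι R) (N : σ → Matrix κ κ R) (w : List σ) :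
    wmat (fun a => Matrix.fromBlocks (M a) 0 0 (N a)) w =
      Matrix.fromBlocks (wmat M w) 0 0 (wmat N w) := by
  induction w with
  | nil => simp
  | cons a w ih => rw [wmat_cons, wmat_cons, wmat_cons, ih, Matrix.fromBlocks_multiply]; simp

lemma sumElim_dot {R : Type*} [Semiring R] {ι κ : Type*} [Fintype ι] [Fintype κ]
    (I F : ι → R) (I' F' : κ → R) (A : Matrix ι ι R) (B : Matrix ι κ R) (D : Matrix κ κ R) :
    (Sum.elim I I') ⬝ᵥ (Matrix.fromBlocks A B 0 D).mulVec (Sum.elim F F') =
      I ⬝ᵥ A.mulVec F + I ⬝ᵥ B.mulVec F' + I' ⬝ᵥ D.mulVec F' := by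
  rw [Matrix.fromBlocks_mulVec]
  simp [dotProduct_add, add_assoc]

lemma indM_fromBlocks {ι κ : Type*} (M : σ → Matrix ι ι K) (B : σ → Matrix ι κ K)
    (N : σ → Matrix κ κ K) :
    (indM (fun a => Matrix.fromBlocks (M a) (B a) 0 (N a)) : σ → Matrix (ι ⊕ κ) (ι ⊕ κ) ℕ) =
      fun a => Matrix.fromBlocks (indM M a) ((B a).map ind) 0 (indM N a) := by
  funext a
  ext i j
  rcases i with i | i <;> rcases j with j | j <;> simp [indM, Matrix.map_apply]

lemma isPA_add {f g : List σ → K} (hf : IsPA f) (hg : IsPA g) : IsPA (fun w => f w + g w) := by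
  obtain ⟨n, I, F, M, C, k, h1, h2⟩ := hf
  obtain ⟨n', I', F', M', C', k', h1', h2'⟩ := hg
  refine isPA_of (ι := Fin n ⊕ Fin n') (Sum.elim I I') (Sum.elim F F')
    (fun a => Matrix.fromBlocks (M a) 0 0 (M' a)) (C + C') (k + k') (fun w => ?_)
    (fun w => ?_)
  · rw [h1, h1', wmat_fromBlocks, sumElim_dot]; simp
  · unfold cnt at *
    rw [indM_fromBlocks (fun a => M a) (fun _ => 0) M']
    have h0 : ((0 : Matrix (Fin n) (Fin n') K).map ind : Matrix (Fin n) (Fin n') ℕ) = 0 := by
      ext i j; simp
    simp only [h0]
    rw [wmat_fromBlocks]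
    have e1 : (fun i : Fin n ⊕ Fin n' => ind (Sum.elim I I' i)) =
        Sum.elim (fun i => ind (I i)) (fun i => ind (I' i)) := by
      funext i; rcases i with i | i <;> rfl
    have e2 : (fun i : Fin n ⊕ Fin n' => ind (Sum.elim F F' i)) =
        Sum.elim (fun i => ind (F i)) (fun i => ind (F' i)) := by
      funext i; rcases i with i | i <;> rfl
    rw [e1, e2, sumElim_dot]
    simp only [zero_mulVec, dotProduct_zero, add_zero]
    have a1 : (w.length + 1) ^ k ≤ (w.length + 1) ^ (k + k') :=
      Nat.pow_le_pow_right (by omega) (by omega)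
    have a2 : (w.length + 1) ^ k' ≤ (w.length + 1) ^ (k + k') :=
      Nat.pow_le_pow_right (by omega) (by omega)
    calc _ ≤ C * (w.length + 1) ^ k + C' * (w.length + 1) ^ k' := add_le_add (h2 w) (h2' w)
      _ ≤ C * (w.length + 1) ^ (k + k') + C' * (w.length + 1) ^ (k + k') :=
        add_le_add (Nat.mul_le_mul_left _ a1) (Nat.mul_le_mul_left _ a2)
      _ = _ := by ring

lemma isPA_smul {f : List σ → K} (c : K) (hf : IsPA f) : IsPA (fun w => c * f w) := by
  obtain ⟨n, I, F, M, C, k, h1, h2⟩ := hf
  refine ⟨n, c • I, F, M, C, k, fun w => ?_, fun w => ?_⟩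
  · show c * f w = _
    rw [h1, smul_dotProduct, smul_eq_mul]
  · refine le_trans ?_ (h2 w)
    unfold cnt
    simp only [dotProduct]
    refine Finset.sum_le_sum fun i _ => ?_
    refine Nat.mul_le_mul_right _ ?_
    by_cases hI : I i = 0
    · simp [hI]
    · rw [ind_ne hI]; exact ind_le_one _

/-- marked Cauchy product of `f` and `g` at the letter `b` -/
noncomputable def mprod {R : Type*} [CommSemiring R] [DecidableEq σ] (b : σ) (f g : List σ → R)
    (w : List σ) : R :=
  ∑ i : Fin w.length, if w.get i = b then f (w.take i) * g (w.drop (i + 1)) else 0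

lemma mprod_nil {R : Type*} [CommSemiring R] [DecidableEq σ] (b : σ) (f g : List σ → R) :
    mprod b f g [] = 0 := by
  simp [mprod]

lemma mprod_cons {R : Type*} [CommSemiring R] [DecidableEq σ] (b : σ) (f g : List σ → R)
    (a : σ) (w : List σ) :
    mprod b f g (a :: w) = (if a = b then f [] * g w else 0) +
      mprod b (fun u => f (a :: u)) g w := by
  unfold mprod
  have h1 := Fin.sum_univ_succ (n := w.length)
    (f := fun i : Fin (w.length + 1) => if (a :: w).get i = b then
      f ((a :: w).take i) * g ((a :: w).drop (i + 1)) else 0)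
  refine h1.trans ?_
  congr 1

/-- block matrices of the marked product -/
def mblock {R : Type*} [CommSemiring R] {ι κ : Type*} [DecidableEq σ] (b : σ)
    (M : σ → Matrix ι ι R) (N : σ → Matrix κ κ R) (F : ι → R) (I' : κ → R) :
    σ → Matrix (ι ⊕ κ) (ι ⊕ κ) R :=
  fun a => Matrix.fromBlocks (M a) (if a = b then Matrix.vecMulVec F I' else 0) 0 (N a)

lemma mblock_form {R : Type*} [CommSemiring R] {ι κ : Type*} [Fintype ι] [DecidableEq ι]
    [Fintype κ] [DecidableEq κ] [DecidableEq σ] (b : σ)
    (M : σ → Matrix ι ι R) (N : σ → Matrix κ κ R) (F : ι → R) (I' : κ → R) (w : List σ) :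
    ∃ U : Matrix ι κ R, wmat (mblock b M N F I') w =
      Matrix.fromBlocks (wmat M w) U 0 (wmat N w) ∧
      ∀ (v : ι → R) (F' : κ → R), v ⬝ᵥ U.mulVec F' =
        mprod b (fun u => v ⬝ᵥ (wmat M u).mulVec F) (fun u => I' ⬝ᵥ (wmat N u).mulVec F') w := by
  induction w with
  | nil =>
    refine ⟨0, by simp, fun v F' => ?_⟩
    rw [mprod_nil]; simp
  | cons a w ih =>
    obtain ⟨U, hU, hv⟩ := ih
    refine ⟨M a * U + (if a = b then Matrix.vecMulVec F I' else 0) * wmat N w, ?_, ?_⟩
    · rw [wmat_cons, hU, mblock, Matrix.fromBlocks_multiply]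
      simp
    · intro v F'
      rw [mprod_cons, add_mulVec, dotProduct_add, add_comm]
      congr 1
      · split_ifs with h
        · rw [← mulVec_mulVec]
          simp only [wmat_nil, one_mulVec]
          rw [Matrix.vecMulVec_mulVec]
          simp [mul_comm]
        · simp
      · rw [← mulVec_mulVec, dotProduct_mulVec, hv]
        congr 1
        funext u
        rw [wmat_cons, ← mulVec_mulVec, dotProduct_mulVec v (M a)]

lemma isPA_mprod [DecidableEq σ] (b : σ) {f g : List σ → K} (hf : IsPA f) (hg : IsPA g) :
    IsPA (mprod b f g) := by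
  obtain ⟨n, I, F, M, C, k, h1, h2⟩ := hf
  obtain ⟨n', I', F', M', C', k', h1', h2'⟩ := hg
  have hfe : f = fun u => I ⬝ᵥ (wmat M u).mulVec F := funext h1
  have hge : g = fun u => I' ⬝ᵥ (wmat M' u).mulVec F' := funext h1'
  refine isPA_of (ι := Fin n ⊕ Fin n') (Sum.elim I 0) (Sum.elim 0 F')
    (mblock b M M' F I') (C * C') (k + k' + 1) (fun w => ?_) (fun w => ?_)
  · obtain ⟨U, hU, hv⟩ := mblock_form b M M' F I' w
    rw [hU, sumElim_dot, hv, hfe, hge]
    simp
  · unfold cnt
    have e0 : (indM (mblock b M M' F I') : σ → Matrix (Fin n ⊕ Fin n') (Fin n ⊕ Fin n') ℕ) =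
        mblock b (indM M) (indM M') (fun i => ind (F i)) (fun i => ind (I' i)) := by
      unfold mblock
      rw [indM_fromBlocks]
      funext a
      congr 1
      split_ifs with h
      · ext i j
        simp only [Matrix.map_apply, Matrix.vecMulVec_apply]
        by_cases h1 : F i = 0
        · simp [h1]
        · by_cases h2 : I' j = 0
          · simp [h2]
          · rw [ind_ne h1, ind_ne h2, ind_ne (mul_ne_zero h1 h2), mul_one]
      · ext i j; simp
    obtain ⟨U, hU, hv⟩ := mblock_form b (indM M) (indM M') (fun i => ind (F i))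
      (fun i => ind (I' i)) w
    have e1 : (fun i : Fin n ⊕ Fin n' => ind (Sum.elim I 0 i)) =
        Sum.elim (fun i => ind (I i)) 0 := by
      funext i; rcases i with i | i <;> simp
    have e2 : (fun i : Fin n ⊕ Fin n' => ind (Sum.elim (0 : Fin n → K) F' i)) =
        Sum.elim (0 : Fin n → ℕ) (fun i => ind (F' i)) := by
      funext i; rcases i with i | i <;> simp
    rw [e0, hU, e1, e2, sumElim_dot, hv]
    simp only [mulVec_zero, dotProduct_zero, zero_dotProduct, zero_add, add_zero]
    unfold mprod
    have hbound : ∀ i : Fin w.length, (if w.get i = b then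
        ((fun i => ind (I i)) ⬝ᵥ (wmat (indM M) (w.take i)).mulVec fun i => ind (F i)) *
        ((fun i => ind (I' i)) ⬝ᵥ (wmat (indM M') (w.drop (i + 1))).mulVec fun i => ind (F' i))
        else 0) ≤ C * C' * (w.length + 1) ^ (k + k') := by
      intro i
      split_ifs
      · have b1 := h2 (w.take i)
        have b2 := h2' (w.drop (i + 1))
        unfold cnt at b1 b2
        have c1 : ((w.take i).length + 1) ^ k ≤ (w.length + 1) ^ k :=
          Nat.pow_le_pow_left (by simp) k
        have c2 : ((w.drop (i + 1)).length + 1) ^ k' ≤ (w.length + 1) ^ k' :=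
          Nat.pow_le_pow_left (by simp) k'
        calc _ ≤ (C * ((w.take i).length + 1) ^ k) * (C' * ((w.drop (i + 1)).length + 1) ^ k') :=
              Nat.mul_le_mul b1 b2
          _ ≤ (C * (w.length + 1) ^ k) * (C' * (w.length + 1) ^ k') :=
              Nat.mul_le_mul (Nat.mul_le_mul_left _ c1) (Nat.mul_le_mul_left _ c2)
          _ = _ := by ring
      · exact Nat.zero_le _
    calc _ ≤ ∑ _i : Fin w.length, C * C' * (w.length + 1) ^ (k + k') :=
          Finset.sum_le_sum fun i _ => hbound i
      _ = w.length * (C * C' * (w.length + 1) ^ (k + k')) := by simp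
      _ ≤ (w.length + 1) * (C * C' * (w.length + 1) ^ (k + k')) :=
          Nat.mul_le_mul_right _ (Nat.le_succ _)
      _ = C * C' * (w.length + 1) ^ (k + k' + 1) := by ring

end Pool.Agent.H.MP_df1c3e_lc
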