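import Pool.Agent.H.MP_df1c3e_lc.Ele
import Pool.Agent.H.MP_df1c3e_lc.CF

/-!
The context used in the structural part of the proof.
-/

namespace Pool.Agent.H.MP_df1c3e_lc

open MonoidAlgebra Polynomial Module

variable {L : Type*} [Field L] {A : Type*} [CommRing A] {G : Subgroup Lˣ}

/-- everything needed about exponential polynomials, in dimension at most `N` -/
structure Ctx (cs : CS L A) (G : Subgroup Lˣ) (N : ℕ) where
  /-- length -/
  Λ : Len G
  rig : Rig cs G Λ.Γ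
  mcf : ∀ r ≤ N, ∀ U : Matrix (Fin r) (Fin r) L,
    (∀ μ, U.charpoly.IsRoot μ → μ = 0 ∨ InG G μ) → MCF cs Λ.Γ (U ^ Λ.D)

variable {cs : CS L A}

/-- constants in `Ele` -/
noncomputable def cE (cs : CS L A) (Λ : Len G) : L →+* Ele Λ A :=
  (MonoidAlgebra.singleOneRingHom.comp cs.k).codRestrict (Ele Λ A) (fun x => by
    refine single_mem_Ele Λ fun _ => ?_
    rw [Λ.lg_one])

lemma cE_coe (Λ : Len G) (x : L) : ((cE cs Λ x : Ele Λ A) : MonoidAlgebra A Λ.Γ) =
    cs.cst Λ.Γ x := rfl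

/-- evaluation on `Ele` -/
noncomputable def evE (cs : CS L A) (Λ : Len G) (m : ℕ) : Ele Λ A →+* L :=
  (cs.ev Λ.Γ m).comp (Ele Λ A).subtype

lemma evE_cE (Λ : Len G) (m : ℕ) (x : L) : evE cs Λ m (cE cs Λ x) = x := by
  show cs.ev Λ.Γ m (cs.cst Λ.Γ x) = x
  exact cs.ev_cst _ m x

lemma eps_cE (Λ : Len G) (x : L) : eps Λ A (cE cs Λ x) = cs.k x := by
  rw [eps_apply, cE_coe, CS.cst, MonoidAlgebra.coeff_single, Finsupp.single_eq_same]

open scoped Classical in
lemma Ctx.step {N : ℕ} (C : Ctx cs G N) {n : Type} [Fintype n] [DecidableEq n]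
    (M : Matrix n n (Ele C.Λ A)) {r : ℕ} (hr : Fintype.card n = r) (N0 : ℕ)
    (hM : ∀ m, N0 ≤ m → ∀ μ, (M.map (evE cs C.Λ m)).charpoly.IsRoot μ → μ = 0 ∨ InG G μ) :
    ∃ n1 h : ℕ, 1 ≤ h ∧ ∃ (c : Fin r → L) (g : Fin r → C.Λ.Γ),
      (∀ i, c i = 0 ∨ InG G (c i)) ∧ (∀ i, c i ≠ 0 → C.Λ.lg (g i) ≤ 0) ∧
      (M.map (eps C.Λ A)).charpoly =
        (∏ i, (X - Polynomial.C (if g i = 1 then c i else 0))).map cs.k ∧
      ∀ j, (M.map (evE cs C.Λ (n1 + h * j))).charpoly =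
        ∏ i, (X - Polynomial.C (c i * (((g i : C.Λ.Γ) : Lˣ) : L) ^ j)) := by
  classical
  have hnt : Nontrivial A := (cs.e 0).domain_nontrivial
  have hev : ∀ m, ((M.map (Ele C.Λ A).subtype).charpoly).map (cs.ev C.Λ.Γ m) =
      (M.map (evE cs C.Λ m)).charpoly := by
    intro m
    rw [← Matrix.charpoly_map, Matrix.map_map]
    rfl
  obtain ⟨n1, h, hh, c, g, hc, hp⟩ := C.rig ((M.map (Ele C.Λ A).subtype).charpoly)
    (Matrix.charpoly_monic _) r (by rw [Matrix.charpoly_natDegree_eq_dim, hr]) N0 (by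
      intro m hm μ hμ
      rw [hev] at hμ
      exact hM m hm μ hμ)
  obtain ⟨h1, h2⟩ := degen cs M n1 h hh c g hp
  refine ⟨n1, h, hh, c, g, hc, h1, ?_, fun j => ?_⟩
  · have h3 : (∏ i, (X - Polynomial.C (if g i = 1 then c i else 0))).map cs.k =
        ∏ i, (X - Polynomial.C (cs.k (if g i = 1 then c i else 0))) := by
      rw [Polynomial.map_prod]
      refine Finset.prod_congr rfl fun i _ => ?_
      rw [Polynomial.map_sub, map_X, map_C]
    rw [← h3] at h2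
    ext s
    rw [Polynomial.coeff_map]
    have h4 := congrArg (fun q : A[X] => q.coeff s) h2
    simp only [Polynomial.coeff_map] at h4
    exact cs.deg_eq_const (n := n1) hh h4
  · have h3 := congrArg (Polynomial.map (cs.ev C.Λ.Γ j)) hp
    rw [Polynomial.map_map] at h3
    have h4 : (cs.ev C.Λ.Γ j).comp (cs.sg C.Λ.Γ n1 h) = cs.ev C.Λ.Γ (n1 + h * j) := by
      apply RingHom.ext
      intro f
      exact cs.ev_sg C.Λ.Γ n1 h j f
    rw [h4, hev] at h3
    rw [h3, Polynomial.map_prod]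
    refine Finset.prod_congr rfl fun i _ => ?_
    rw [Polynomial.map_sub, map_X, map_C, CS.ev_mon]

/-! Eigenvalues of matrices -/

section eig

variable {n : Type*} [Fintype n] [DecidableEq n]

lemma eig_iff (U : Matrix n n L) (μ : L) : U.charpoly.IsRoot μ ↔ μ ∈ spectrum L U :=
  (Matrix.mem_spectrum_iff_isRoot_charpoly).symm

lemma eig_pow [IsAlgClosed L] (U : Matrix n n L) {D : ℕ} (hD : 1 ≤ D) (μ : L) :
    (U ^ D).charpoly.IsRoot μ ↔ ∃ ν, U.charpoly.IsRoot ν ∧ ν ^ D = μ := by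
  rw [eig_iff, spectrum.map_pow_of_pos U (by omega : 0 < D)]
  simp only [Set.mem_image, eig_iff]

lemma eig_smul (U : Matrix n n L) {c : L} (hc : c ≠ 0) (μ : L) :
    (c • U).charpoly.IsRoot μ ↔ ∃ ν, U.charpoly.IsRoot ν ∧ c * ν = μ := by
  rw [eig_iff]
  have h := spectrum.smul_mem_smul_iff (R := L) (a := U) (s := c⁻¹ * μ) (r := Units.mk0 c hc)
  have e1 : (Units.mk0 c hc) • (c⁻¹ * μ) = μ := by
    rw [Units.smul_def, Units.val_mk0, smul_eq_mul, mul_inv_cancel_left₀ hc]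
  have e2 : (Units.mk0 c hc) • U = c • U := rfl
  rw [e1, e2] at h
  rw [h, ← eig_iff]
  constructor
  · intro h1
    exact ⟨_, h1, mul_inv_cancel_left₀ hc μ⟩
  · rintro ⟨ν, hν, rfl⟩
    rwa [inv_mul_cancel_left₀ hc]

lemma eig_zero_iff (U : Matrix n n L) : U.charpoly.IsRoot 0 ↔ U.det = 0 := by
  rw [Matrix.det_eq_sign_charpoly_coeff, IsRoot, ← coeff_zero_eq_eval_zero]
  constructor
  · intro h; rw [h, mul_zero]
  · intro h
    rcases mul_eq_zero.1 h with h1 | h1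
    · exact absurd h1 (pow_ne_zero _ (neg_ne_zero.2 one_ne_zero))
    · exact h1

lemma exists_eig [IsAlgClosed L] [Nonempty n] (U : Matrix n n L) : ∃ μ, U.charpoly.IsRoot μ := by
  apply IsAlgClosed.exists_root
  rw [Matrix.charpoly_degree_eq_dim]
  exact_mod_cast Fintype.card_ne_zero

end eig

/-- finitely generated groups of matrices whose `D`-th powers are scalar, with eigenvalues in a
finitely generated group, are finite modulo scalars -/
def LTwo (G : Subgroup Lˣ) (D k : ℕ) : Prop :=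
  ∀ S : Subgroup (Matrix (Fin k) (Fin k) L)ˣ, S.FG →
    (∀ X ∈ S, (∀ μ, (X : Matrix (Fin k) (Fin k) L).charpoly.IsRoot μ → InG G μ) ∧
      ∃ a : L, (X : Matrix (Fin k) (Fin k) L) ^ D = a • (1 : Matrix (Fin k) (Fin k) L)) →
    ∃ Z : Set (Matrix (Fin k) (Fin k) L), Z.Finite ∧ ∀ X ∈ S, ∃ c : L, c ≠ 0 ∧
      ∃ M ∈ Z, (X : Matrix (Fin k) (Fin k) L) = c • M

/-- existence of contexts for all finitely generated groups and all dimensions -/
def HasCtx (cs : CS L A) : Prop :=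
  ∀ G : Subgroup Lˣ, G.FG → ∀ N, ∃ C : Ctx cs G N, ∀ k ≤ N, LTwo G C.Λ.D k

end Pool.Agent.H.MP_df1c3e_lc
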