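import Pool.Agent.H.MP_df1c3e_lc.LTwo0
import Pool.Agent.H.MP_df1c3e_lc.Burn
import Pool.Agent.H.MP_df1c3e_lc.SubRep

/-!
Groups of matrices with scalar `D`-th powers: finiteness modulo scalars (positive
characteristic).
-/

namespace Pool.Agent.H.MP_df1c3e_lc

open Module Matrix Polynomial

section grp

variable {H : Type*} [Group H]

lemma finiteIndex_of_coloring (A B : Subgroup H) (hAB : A ≤ B) [B.FiniteIndex] {T : Type*}
    [Finite T] (col : B → T) (h : ∀ x y : B, col x = col y → (x : H)⁻¹ * y ∈ A) :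
    A.FiniteIndex := by
  have h1 : Finite (B ⧸ A.subgroupOf B) := by
    refine Finite.of_injective (fun q : B ⧸ A.subgroupOf B => col q.out) ?_
    intro q q' hq
    have h2 := h _ _ hq
    rw [← Quotient.out_eq' q, ← Quotient.out_eq' q']
    rw [QuotientGroup.eq]
    rw [Subgroup.mem_subgroupOf]
    exact h2
  have h2 : (A.subgroupOf B).FiniteIndex := Subgroup.finiteIndex_of_finite_quotient
  refine ⟨?_⟩
  have h3 := Subgroup.relIndex_mul_index hAB
  rw [← h3]
  exact mul_ne_zero h2.index_ne_zero Subgroup.FiniteIndex.index_ne_zero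

end grp

section sc

variable {L : Type*} [Field L] {H : Type*} [Group H] {V : Type*} [AddCommGroup V] [Module L V]

/-- elements acting by scalars -/
def ScH (ρ : H →* Module.End L V) : Subgroup H where
  carrier := {h | ∃ c : L, c ≠ 0 ∧ ρ h = c • (1 : Module.End L V)}
  mul_mem' := by
    rintro a b ⟨c, hc0, hc⟩ ⟨d, hd0, hd⟩
    exact ⟨c * d, mul_ne_zero hc0 hd0, by rw [map_mul, hc, hd, smul_mul_smul_comm, one_mul]⟩
  one_mem' := ⟨1, one_ne_zero, by rw [map_one, one_smul]⟩
  inv_mem' := by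
    rintro a ⟨c, hc0, hc⟩
    refine ⟨c⁻¹, inv_ne_zero hc0, ?_⟩
    have h1 : ρ a * ρ a⁻¹ = 1 := by rw [← map_mul, mul_inv_cancel, map_one]
    rw [hc, smul_mul_assoc, one_mul] at h1
    rw [← h1, smul_smul, inv_mul_cancel₀ hc0, one_smul]

lemma inv_mul_scalar {ρ : H →* Module.End L V} {x y : H} {c : L} (hc : c ≠ 0)
    (h : ρ x = c • ρ y) : ρ (x⁻¹ * y) = c⁻¹ • (1 : Module.End L V) := by
  have h1 : ρ x⁻¹ * ρ x = 1 := by rw [← map_mul, inv_mul_cancel, map_one]
  rw [h, mul_smul_comm] at h1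
  rw [map_mul, ← h1, smul_smul, inv_mul_cancel₀ hc, one_smul]

/-- elements acting by the same scalar under two representations -/
def Sc2 {V' : Type*} [AddCommGroup V'] [Module L V'] (ρ : H →* Module.End L V)
    (ρ' : H →* Module.End L V') : Subgroup H where
  carrier := {h | ∃ c : L, c ≠ 0 ∧ ρ h = c • (1 : Module.End L V) ∧
    ρ' h = c • (1 : Module.End L V')}
  mul_mem' := by
    rintro a b ⟨c, hc0, hc, hc'⟩ ⟨d, hd0, hd, hd'⟩
    exact ⟨c * d, mul_ne_zero hc0 hd0, by rw [map_mul, hc, hd, smul_mul_smul_comm, one_mul],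
      by rw [map_mul, hc', hd', smul_mul_smul_comm, one_mul]⟩
  one_mem' := ⟨1, one_ne_zero, by rw [map_one, one_smul], by rw [map_one, one_smul]⟩
  inv_mem' := by
    rintro a ⟨c, hc0, hc, hc'⟩
    refine ⟨c⁻¹, inv_ne_zero hc0, ?_, ?_⟩
    · have h1 : ρ a * ρ a⁻¹ = 1 := by rw [← map_mul, mul_inv_cancel, map_one]
      rw [hc, smul_mul_assoc, one_mul] at h1
      rw [← h1, smul_smul, inv_mul_cancel₀ hc0, one_smul]
    · have h1 : ρ' a * ρ' a⁻¹ = 1 := by rw [← map_mul, mul_inv_cancel, map_one]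
      rw [hc', smul_mul_assoc, one_mul] at h1
      rw [← h1, smul_smul, inv_mul_cancel₀ hc0, one_smul]

end sc

section irr

variable {L : Type*} [Field L] {G : Subgroup Lˣ} {H : Type*} [Group H] {V : Type*}
  [AddCommGroup V] [Module L V]

lemma irr_index [IsAlgClosed L] [FiniteDimensional L V] [Nontrivial V] (Λ : Len G)
    (ρ : H →* Module.End L V)
    (hirr : ∀ U : Submodule L V, (∀ a, ∀ u ∈ U, ρ a u ∈ U) → U = ⊥ ∨ U = ⊤)
    (hA : ∀ h μ, (ρ h).HasEigenvalue μ → InG G μ)
    (hB : ∀ h, ∃ a : L, (ρ h) ^ Λ.D = a • (1 : Module.End L V)) :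
    (ScH ρ).FiniteIndex := by
  classical
  let b := Module.finBasis L V
  let φ : Module.End L V ≃ₐ[L] Matrix (Fin (finrank L V)) (Fin (finrank L V)) L :=
    LinearMap.toMatrixAlgEquiv b
  let Φ : H →* (Matrix (Fin (finrank L V)) (Fin (finrank L V)) L)ˣ :=
    (Units.map (φ : Module.End L V →* _)).comp ρ.toHomUnits
  have hΦ : ∀ h, ((Φ h : (Matrix (Fin (finrank L V)) (Fin (finrank L V)) L)ˣ) :
      Matrix (Fin (finrank L V)) (Fin (finrank L V)) L) = φ (ρ h) := fun h => rfl
  have hSG : SG G Λ.D Φ.range := by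
    rintro _ ⟨h, rfl⟩
    refine ⟨fun μ hμ => ?_, ?_⟩
    · apply hA h
      rw [Module.End.hasEigenvalue_iff_isRoot_charpoly, ← LinearMap.charpoly_toMatrix (ρ h) b]
      exact hμ
    · obtain ⟨a, ha⟩ := hB h
      refine ⟨a, ?_⟩
      rw [hΦ, ← map_pow, ha, map_smul, map_one]
  have hk : 0 < finrank L V := finrank_pos
  obtain ⟨n, col, hcol⟩ := SG.traces Λ hSG hk
  have hspan : Submodule.span L (Set.range fun h => φ (ρ h)) = ⊤ := by
    have h1 := burnside (Algebra.adjoin L (MonoidHom.mrange ρ : Set (Module.End L V)))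
      (fun U hU => hirr U (fun a u hu => hU (ρ a) (Algebra.subset_adjoin ⟨a, rfl⟩) u hu))
    have h2 := Algebra.adjoin_eq_span L (MonoidHom.mrange ρ : Set (Module.End L V))
    rw [Submonoid.closure_eq, h1] at h2
    have h3 : Submodule.span L (MonoidHom.mrange ρ : Set (Module.End L V)) = ⊤ := by
      rw [← h2]; rfl
    have h4 := congrArg (Submodule.map (φ.toLinearMap)) h3
    rw [Submodule.map_span, Submodule.map_top] at h4
    have h5 : (φ.toLinearMap '' (MonoidHom.mrange ρ : Set (Module.End L V))) =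
        Set.range fun h => φ (ρ h) := by
      ext x
      constructor
      · rintro ⟨_, ⟨h, rfl⟩, rfl⟩
        exact ⟨h, rfl⟩
      · rintro ⟨h, rfl⟩
        exact ⟨_, ⟨h, rfl⟩, rfl⟩
    rw [h5] at h4
    rw [h4, LinearMap.range_eq_top]
    exact φ.surjective
  have htop : (⊤ : Subgroup H).FiniteIndex := inferInstance
  refine finiteIndex_of_coloring (ScH ρ) ⊤ le_top
    (fun x : (⊤ : Subgroup H) => col ⟨Φ x, (x : H), rfl⟩) ?_
  intro x y hxy
  obtain ⟨c, hc, hY⟩ := hcol _ _ hxy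
  have h1 : φ (ρ x) = c • φ (ρ y) := by
    rw [Matrix.ext_iff_trace_mul_right]
    intro Y
    have hYs : Y ∈ Submodule.span L (Set.range fun h => φ (ρ h)) := by rw [hspan]; trivial
    induction hYs using Submodule.span_induction with
    | mem W hW =>
      obtain ⟨h, rfl⟩ := hW
      have h2 := hY (Φ h) ⟨h, rfl⟩
      rw [Matrix.smul_mul, Matrix.trace_smul]
      exact h2
    | zero => simp
    | add W W' _ _ h h' => rw [Matrix.mul_add, Matrix.mul_add, Matrix.trace_add,
        Matrix.trace_add, h, h']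
    | smul a W _ h => rw [Matrix.mul_smul, Matrix.mul_smul, Matrix.trace_smul,
        Matrix.trace_smul, h]
  have h2 : ρ x = c • ρ y := by
    apply φ.injective
    rw [h1, map_smul]
  exact ⟨c⁻¹, inv_ne_zero hc, inv_mul_scalar hc h2⟩

end irr

section red

variable {L : Type*} [Field L] {G : Subgroup Lˣ} {H : Type*} [Group H] {V : Type*}
  [AddCommGroup V] [Module L V]

/-- subrepresentation of a group representation -/
def gU (ρ : H →* Module.End L V) (U : Submodule L V) (hU : ∀ a, ∀ u ∈ U, ρ a u ∈ U) :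
    H →* Module.End L U where
  toFun := rhoU ρ U hU
  map_one' := by
    ext u
    change ((ρ 1) (u : V)) = u
    rw [map_one]; rfl
  map_mul' a b := by
    ext u
    change ((ρ (a * b)) (u : V)) = (ρ a) ((ρ b) u)
    rw [map_mul]; rfl

/-- quotient representation of a group representation -/
def gQ (ρ : H →* Module.End L V) (U : Submodule L V) (hU : ∀ a, ∀ u ∈ U, ρ a u ∈ U) :
    H →* Module.End L (V ⧸ U) where
  toFun := rhoQ ρ U hU
  map_one' := by
    ext u
    change U.mkQ ((ρ 1) u) = U.mkQ u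
    rw [map_one]; rfl
  map_mul' a b := by
    ext u
    change U.mkQ ((ρ (a * b)) u) = U.mkQ ((ρ a) ((ρ b) u))
    rw [map_mul]; rfl

lemma gU_apply (ρ : H →* Module.End L V) (U : Submodule L V) (hU : ∀ a, ∀ u ∈ U, ρ a u ∈ U)
    (h : H) (u : U) : ((gU ρ U hU h u : U) : V) = ρ h u := rfl

lemma gQ_apply (ρ : H →* Module.End L V) (U : Submodule L V) (hU : ∀ a, ∀ u ∈ U, ρ a u ∈ U)
    (h : H) (v : V) : gQ ρ U hU h (U.mkQ v) = U.mkQ (ρ h v) := rfl

lemma gU_pow {ρ : H →* Module.End L V} {U : Submodule L V} {hU : ∀ a, ∀ u ∈ U, ρ a u ∈ U}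
    {h : H} {D : ℕ} {a : L} (ha : (ρ h) ^ D = a • (1 : Module.End L V)) :
    (gU ρ U hU h) ^ D = a • (1 : Module.End L U) := by
  rw [← map_pow] at ha ⊢
  ext u
  rw [gU_apply, ha]
  rfl

lemma gQ_pow {ρ : H →* Module.End L V} {U : Submodule L V} {hU : ∀ a, ∀ u ∈ U, ρ a u ∈ U}
    {h : H} {D : ℕ} {a : L} (ha : (ρ h) ^ D = a • (1 : Module.End L V)) :
    (gQ ρ U hU h) ^ D = a • (1 : Module.End L (V ⧸ U)) := by
  rw [← map_pow] at ha ⊢
  ext u
  change gQ ρ U hU (h ^ D) (U.mkQ u) = _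
  rw [gQ_apply, ha]
  rfl

lemma scalar_pow_eq [Nontrivial V] {T : Module.End L V} {c a : L} {D : ℕ}
    (hc : T = c • (1 : Module.End L V)) (ha : T ^ D = a • (1 : Module.End L V)) : c ^ D = a := by
  obtain ⟨v, hv⟩ := exists_ne (0 : V)
  rw [hc, _root_.smul_pow, one_pow] at ha
  have h1 := LinearMap.congr_fun ha v
  simp only [LinearMap.smul_apply, Module.End.one_apply] at h1
  by_contra hne
  have h2 : (c ^ D - a) • v = 0 := by rw [sub_smul, h1, sub_self]
  rcases smul_eq_zero.1 h2 with h3 | h3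
  · exact hne (sub_eq_zero.1 h3)
  · exact hv h3

lemma scalar_inj [Nontrivial V] {c a : L}
    (h : c • (1 : Module.End L V) = a • (1 : Module.End L V)) : c = a := by
  have h1 := scalar_pow_eq (c := c) (a := a) (D := 1) (T := c • (1 : Module.End L V)) rfl
    (by rw [pow_one, h])
  rwa [pow_one] at h1

lemma red_index [Group.FG H] (p : ℕ) [hp : Fact p.Prime] [CharP L p] (D : ℕ) (hD : 1 ≤ D)
    (ρ : H →* Module.End L V) (U : Submodule L V) (hU : ∀ a, ∀ u ∈ U, ρ a u ∈ U)
    [Nontrivial U] [Nontrivial (V ⧸ U)]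
    (hB : ∀ h, ∃ a : L, (ρ h) ^ D = a • (1 : Module.End L V))
    (h1 : (ScH (gU ρ U hU)).FiniteIndex) (h2 : (ScH (gQ ρ U hU)).FiniteIndex) :
    (ScH ρ).FiniteIndex := by
  classical
  -- same scalar on both
  have h3 : (ScH (gU ρ U hU) ⊓ ScH (gQ ρ U hU)).FiniteIndex := inferInstance
  have h4 : (Sc2 (gU ρ U hU) (gQ ρ U hU)).FiniteIndex := by
    have hfin : Finite {z : L | z ^ D = 1} := by
      have : {z : L | z ^ D = 1} ⊆ ((Polynomial.nthRoots D (1 : L)).toFinset : Set L) := by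
        intro z hz
        rw [Finset.mem_coe, Multiset.mem_toFinset, Polynomial.mem_nthRoots (by omega)]
        exact hz
      exact (Finset.finite_toSet _).subset this
    have hc : ∀ x : (ScH (gU ρ U hU) ⊓ ScH (gQ ρ U hU) : Subgroup H), ∃ c d : L, c ≠ 0 ∧ d ≠ 0 ∧
        gU ρ U hU x = c • (1 : Module.End L U) ∧ gQ ρ U hU x = d • (1 : Module.End L (V ⧸ U)) ∧
        (c / d) ^ D = 1 := by
      rintro ⟨x, ⟨c, hc0, hc⟩, ⟨d, hd0, hd⟩⟩
      refine ⟨c, d, hc0, hd0, hc, hd, ?_⟩
      obtain ⟨a, ha⟩ := hB x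
      have e1 := scalar_pow_eq hc (gU_pow (hU := hU) ha)
      have e2 := scalar_pow_eq hd (gQ_pow (hU := hU) ha)
      rw [div_pow, e1, e2, div_self]
      rw [← e1]
      exact pow_ne_zero _ hc0
    choose c d hc0 hd0 hc hd hcd using hc
    refine finiteIndex_of_coloring _ (ScH (gU ρ U hU) ⊓ ScH (gQ ρ U hU)) ?_
      (fun x => (⟨c x / d x, hcd x⟩ : {z : L | z ^ D = 1})) ?_
    · rintro x ⟨c, hc0, hc, hc'⟩
      exact ⟨⟨c, hc0, hc⟩, ⟨c, hc0, hc'⟩⟩
    · intro x y hxy
      have hxy' : c x / d x = c y / d y := congrArg (fun z : {z : L | z ^ D = 1} => (z : L)) hxy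
      refine ⟨(c x)⁻¹ * c y, mul_ne_zero (inv_ne_zero (hc0 x)) (hc0 y), ?_, ?_⟩
      · have e1 : gU ρ U hU x = (c x / c y) • gU ρ U hU y := by
          rw [hc x, hc y, smul_smul, div_mul_cancel₀ _ (hc0 y)]
        rw [inv_mul_scalar (div_ne_zero (hc0 x) (hc0 y)) e1, inv_div, div_eq_inv_mul]
      · have e1 : gQ ρ U hU x = (d x / d y) • gQ ρ U hU y := by
          rw [hd x, hd y, smul_smul, div_mul_cancel₀ _ (hd0 y)]
        rw [inv_mul_scalar (div_ne_zero (hd0 x) (hd0 y)) e1, inv_div]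
        congr 1
        have e2 := hc0 x
        have e3 := hc0 y
        have e4 := hd0 x
        have e5 := hd0 y
        field_simp at hxy' ⊢
        linear_combination hxy'
  -- the unipotent part
  set B := Sc2 (gU ρ U hU) (gQ ρ U hU) with hBdef
  have hBfg : Group.FG B := inferInstance
  have hc : ∀ x : B, ∃ c : L, c ≠ 0 ∧ gU ρ U hU x = c • (1 : Module.End L U) ∧
      gQ ρ U hU x = c • (1 : Module.End L (V ⧸ U)) := fun x => x.2
  choose c hc0 hcU hcQ using hc
  have hcmul : ∀ x y : B, c (x * y) = c x * c y := by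
    intro x y
    apply scalar_inj (V := U)
    rw [← hcU, Subgroup.coe_mul, map_mul, hcU, hcU, smul_mul_smul_comm, one_mul]
  have hcone : c 1 = 1 := by
    apply scalar_inj (V := U)
    rw [← hcU, Subgroup.coe_one, map_one, one_smul]
  let N : B → Module.End L V := fun x => (c x)⁻¹ • ρ x - 1
  have hNU : ∀ x v, N x v ∈ U := by
    intro x v
    rw [← Submodule.Quotient.mk_eq_zero]
    have e1 := LinearMap.congr_fun (hcQ x) (U.mkQ v)
    rw [gQ_apply] at e1
    change U.mkQ (((c x)⁻¹ • ρ x - 1 : Module.End L V) v) = 0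
    rw [LinearMap.sub_apply, LinearMap.smul_apply, map_sub, map_smul, e1, LinearMap.smul_apply,
      smul_smul, inv_mul_cancel₀ (hc0 x), one_smul]
    exact sub_self _
  have hN0 : ∀ x, ∀ u ∈ U, N x u = 0 := by
    intro x u hu
    have e1 := congrArg Subtype.val (LinearMap.congr_fun (hcU x) ⟨u, hu⟩)
    rw [gU_apply] at e1
    change ((c x)⁻¹ • ρ x - 1 : Module.End L V) u = 0
    rw [LinearMap.sub_apply, LinearMap.smul_apply, e1]
    change (c x)⁻¹ • (c x • u) - u = 0
    rw [smul_smul, inv_mul_cancel₀ (hc0 x), one_smul, sub_self]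
  have hNmul : ∀ x y, N (x * y) = N x + N y := by
    intro x y
    have e1 : N x * N y = 0 := by
      ext v
      rw [Module.End.mul_apply, hN0 x _ (hNU y v)]
      rfl
    have e2 : N (x * y) = (N x + 1) * (N y + 1) - 1 := by
      simp only [N, sub_add_cancel]
      rw [smul_mul_smul_comm, hcmul, mul_inv, Subgroup.coe_mul, map_mul]
    rw [e2, add_mul, mul_add, e1, mul_one, one_mul, zero_add]
    abel
  have hNone : N 1 = 0 := by
    have := hNmul 1 1
    rw [mul_one] at this
    exact left_eq_add.1 this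
  let F : B →* Multiplicative (Module.End L V) :=
    { toFun := fun x => Multiplicative.ofAdd (N x)
      map_one' := by rw [hNone]; rfl
      map_mul' := fun x y => by rw [hNmul]; rfl }
  have hfinR : Finite F.range := by
    have hfg : Group.FG F.range := inferInstance
    refine CommGroup.finite_of_fg_isMulTorsion F.range ?_
    rintro ⟨_, x, rfl⟩
    rw [isOfFinOrder_iff_pow_eq_one]
    refine ⟨p, hp.1.pos, Subtype.ext ?_⟩
    change (F x) ^ p = 1
    change Multiplicative.ofAdd (p • N x) = 1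
    rw [← Nat.cast_smul_eq_nsmul L, CharP.cast_eq_zero, zero_smul]
    rfl
  refine finiteIndex_of_coloring (ScH ρ) B ?_ (fun x => F.rangeRestrict x) ?_
  · rintro x ⟨c, hc0, hc⟩
    refine ⟨c, hc0, ?_, ?_⟩
    · ext u
      rw [gU_apply, hc]
      rfl
    · ext v
      change gQ ρ U hU x (U.mkQ v) = _
      rw [gQ_apply, hc]
      rfl
  · intro x y hxy
    have e0 : F x = F y := congrArg Subtype.val hxy
    have e1 : N x = N y := Multiplicative.ofAdd.injective e0
    have e2 : (c x)⁻¹ • ρ x = (c y)⁻¹ • ρ y := sub_left_injective e1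
    have e3 : ρ x = (c x / c y) • ρ y := by
      have := congrArg (fun T => c x • T) e2
      simp only [smul_smul] at this
      rw [mul_inv_cancel₀ (hc0 x), one_smul] at this
      rw [this, div_eq_mul_inv]
    exact ⟨_, inv_ne_zero (div_ne_zero (hc0 x) (hc0 y)),
      inv_mul_scalar (div_ne_zero (hc0 x) (hc0 y)) e3⟩

end red

section main

variable {L : Type*} [Field L] {G : Subgroup Lˣ} {H : Type*} [Group H]

universe u

theorem fin_index [IsAlgClosed L] [Group.FG H] (p : ℕ) [hp : Fact p.Prime] [CharP L p]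
    (Λ : Len G) (n : ℕ) :
    ∀ (V : Type u) [AddCommGroup V] [Module L V] [FiniteDimensional L V], finrank L V = n →
      ∀ (ρ : H →* Module.End L V), (∀ h μ, (ρ h).HasEigenvalue μ → InG G μ) →
      (∀ h, ∃ a : L, (ρ h) ^ Λ.D = a • (1 : Module.End L V)) → (ScH ρ).FiniteIndex := by
  classical
  induction n using Nat.strong_induction_on with
  | _ n ih =>
    intro V _ _ _ hn ρ hA hB
    by_cases hnt : Nontrivial V
    · by_cases hirr : ∀ U : Submodule L V, (∀ a, ∀ u ∈ U, ρ a u ∈ U) → U = ⊥ ∨ U = ⊤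
      · exact irr_index Λ ρ hirr hA hB
      · push Not at hirr
        obtain ⟨U, hU, hbot, htop⟩ := hirr
        have hdimU : finrank L U < n := by
          rw [← hn]; exact Submodule.finrank_lt htop
        have hdimQ : finrank L (V ⧸ U) < n := by
          have h1 := Submodule.finrank_quotient_add_finrank U
          have h2 : 0 < finrank L U := by
            have : Nontrivial U := Submodule.nontrivial_iff_ne_bot.2 hbot
            exact finrank_pos
          omega
        have hntU : Nontrivial U := Submodule.nontrivial_iff_ne_bot.2 hbot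
        have hntQ : Nontrivial (V ⧸ U) := Submodule.Quotient.nontrivial_iff.2 htop
        have h1 := ih _ hdimU U rfl (gU ρ U hU) (fun h μ hμ => hA h μ (by
          have := eig_rhoU (fun a => ρ a) U hU [h] (μ := μ) (by
            rw [Rw_cons, Rw_nil, mul_one]; exact hμ)
          rwa [Rw_cons, Rw_nil, mul_one] at this)) (fun h => by
            obtain ⟨a, ha⟩ := hB h
            exact ⟨a, gU_pow ha⟩)
        have h2 := ih _ hdimQ (V ⧸ U) rfl (gQ ρ U hU) (fun h μ hμ => hA h μ (by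
          have := eig_rhoQ (fun a => ρ a) U hU [h] (μ := μ) (by
            rw [Rw_cons, Rw_nil, mul_one]; exact hμ)
          rwa [Rw_cons, Rw_nil, mul_one] at this)) (fun h => by
            obtain ⟨a, ha⟩ := hB h
            exact ⟨a, gQ_pow ha⟩)
        exact red_index p Λ.D Λ.hD ρ U hU hB h1 h2
    · have hss : Subsingleton V := not_nontrivial_iff_subsingleton.1 hnt
      have htop : ScH ρ = ⊤ := by
        rw [eq_top_iff]
        intro h _
        refine ⟨1, one_ne_zero, ?_⟩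
        ext v
        exact Subsingleton.elim _ _
      rw [htop]
      infer_instance

theorem ltwo_charP [IsAlgClosed L] (p : ℕ) [hp : Fact p.Prime] [CharP L p] (Λ : Len G)
    (k : ℕ) : LTwo G Λ.D k := by
  classical
  intro S hSfg hS
  have hfg : Group.FG S := (Group.fg_iff_subgroup_fg _).2 hSfg
  let ρ : S →* Module.End L (Fin k → L) :=
    { toFun := fun X => Matrix.toLin' ((X : (Matrix (Fin k) (Fin k) L)ˣ) : Matrix (Fin k) (Fin k) L)
      map_one' := by
        rw [Subgroup.coe_one, Units.val_one, Matrix.toLin'_one]; rfl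
      map_mul' := fun X Y => by
        rw [Subgroup.coe_mul, Units.val_mul, Matrix.toLin'_mul]; rfl }
  have hidx : (ScH ρ).FiniteIndex := by
    refine fin_index p Λ k (Fin k → L) (Module.finrank_fin_fun L) ρ (fun X μ hμ => ?_)
      (fun X => ?_)
    · exact (hS X X.2).1 μ ((hasEigenvalue_toLin' _ μ).1 hμ)
    · obtain ⟨a, ha⟩ := (hS X X.2).2
      refine ⟨a, ?_⟩
      change (Matrix.toLin' ((X : (Matrix (Fin k) (Fin k) L)ˣ) : Matrix (Fin k) (Fin k) L)) ^ Λ.D = _
      rw [← Matrix.toLin'_pow, ha, map_smul, Matrix.toLin'_one]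
      rfl
  have hq : Finite (S ⧸ ScH ρ) := inferInstance
  refine ⟨Set.range fun q : S ⧸ ScH ρ =>
    (((q.out : S) : (Matrix (Fin k) (Fin k) L)ˣ) : Matrix (Fin k) (Fin k) L),
    Set.finite_range _, fun X hX => ?_⟩
  have h1 : ((⟨X, hX⟩ : S) : S ⧸ ScH ρ).out⁻¹ * ⟨X, hX⟩ ∈ ScH ρ := by
    rw [← QuotientGroup.eq]
    exact Quotient.out_eq' _
  obtain ⟨c, hc0, hc⟩ := h1
  refine ⟨c, hc0, _, ⟨((⟨X, hX⟩ : S) : S ⧸ ScH ρ), rfl⟩, ?_⟩
  set Y : S := ((⟨X, hX⟩ : S) : S ⧸ ScH ρ).out with hY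
  have h2 : ρ ⟨X, hX⟩ = c • ρ Y := by
    have h3 : ρ ⟨X, hX⟩ = ρ Y * ρ (Y⁻¹ * ⟨X, hX⟩) := by
      rw [← map_mul, mul_inv_cancel_left]
    rw [h3, hc, mul_smul_comm, mul_one]
  apply (Matrix.toLin' (R := L)).injective
  rw [map_smul]
  exact h2

end main

end Pool.Agent.H.MP_df1c3e_lc
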