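import Mathlib

/-!
Enumeration of the roots of a monic polynomial.
-/

namespace Pool.Agent.H.MP_df1c3e_lc

open Polynomial

variable {L : Type*} [Field L]

lemma exists_root_enum [IsAlgClosed L] (q : L[X]) (hq : q.Monic) {r : ℕ} (hr : q.natDegree = r) :
    ∃ μ : Fin r → L, q = ∏ i, (X - C (μ i)) := by
  have hs := IsAlgClosed.splits q
  have hcard : q.roots.card = r := by
    rw [← hr]; exact (hs.natDegree_eq_card_roots).symm
  have hprod : q = (q.roots.map fun a => X - C a).prod := by
    conv_lhs => rw [hs.eq_prod_roots]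
    rw [hq.leadingCoeff, map_one, one_mul]
  set l := q.roots.toList with hl
  have hlen : l.length = r := by rw [hl, Multiset.length_toList, hcard]
  refine ⟨fun i => l.get (Fin.cast hlen.symm i), ?_⟩
  rw [hprod]
  have h1 : q.roots = (l : Multiset L) := by rw [hl, Multiset.coe_toList]
  rw [h1, Multiset.map_coe, Multiset.prod_coe]
  rw [← List.prod_ofFn]
  congr 1
  apply List.ext_get
  · simp [hlen]
  · intro n h1 h2
    simp

end Pool.Agent.H.MP_df1c3e_lc
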