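import Pool.Agent.H.MP_df1c3e_lc.ExpPoly
import Pool.Agent.H.MP_df1c3e_lc.Roots

/-!
From long progressions to an identity of formal exponential polynomials.
-/

namespace Pool.Agent.H.MP_df1c3e_lc

open MonoidAlgebra Polynomial

variable {L : Type*} [Field L] {A : Type*} [CommRing A] {cs : CS L A} {Γ : Subgroup Lˣ}

lemma CS.Bd_eval (p : Polynomial (MonoidAlgebra A Γ)) : ∃ s d, ∀ (n h : ℕ) (x : L),
    cs.Bd Γ s d (eval (cs.cst Γ x) (p.map (cs.sg Γ n h))) := by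
  classical
  induction p using Polynomial.induction_on with
  | C a =>
    obtain ⟨s, d, hb⟩ := cs.Bd_exists a
    refine ⟨s, d, fun n h x => ?_⟩
    rw [Polynomial.map_C, Polynomial.eval_C]
    exact hb.sg cs n h
  | add p q hp hq =>
    obtain ⟨s, d, hb⟩ := hp
    obtain ⟨s', d', hb'⟩ := hq
    refine ⟨s + s', max d d', fun n h x => ?_⟩
    rw [Polynomial.map_add, Polynomial.eval_add]
    exact (hb n h x).add cs (hb' n h x)
  | monomial n a ih =>
    obtain ⟨s, d, hb⟩ := cs.Bd_exists a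
    refine ⟨s * 1 ^ (n + 1), d + (n + 1) * 0, fun m h x => ?_⟩
    rw [Polynomial.map_mul, Polynomial.eval_mul, Polynomial.map_C, Polynomial.eval_C,
      Polynomial.map_pow, Polynomial.map_X, Polynomial.eval_pow, Polynomial.eval_X]
    refine (hb.sg cs m h).mul cs ?_
    have := CS.Bd.prod cs (Finset.range (n + 1)) (fun _ => cs.cst Γ x) (s := 1) (d := 0)
      (fun i _ => cs.Bd_single 1 x)
    simpa using this

/-- algebraic part of the rigidity lemma -/
lemma rigid_alg [IsAlgClosed L] [IsDomain (MonoidAlgebra A Γ)] (G : Subgroup Lˣ)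
    (p : Polynomial (MonoidAlgebra A Γ)) (hp : p.Monic) {r : ℕ} (hr : p.natDegree = r)
    (n1 K2 : ℕ)
    (H : ∀ J : ℕ, ∃ h : ℕ, 1 ≤ h ∧ ∃ j0 : ℕ, ∃ T : Finset (L × Γ), T.card ≤ K2 ∧
      (∀ t ∈ T, t.1 = 0 ∨ ∃ g ∈ G, (g : L) = t.1) ∧
      ∀ j, j0 ≤ j → j < j0 + J → ∀ μ : L, (p.map (cs.ev Γ (n1 + h * j))).IsRoot μ →
        ∃ t ∈ T, μ = t.1 * (((t.2 : Γ) : Lˣ) : L) ^ j) :
    ∃ h : ℕ, 1 ≤ h ∧ ∃ (c : Fin r → L) (g : Fin r → Γ),
      (∀ i, c i = 0 ∨ ∃ g' ∈ G, ((g' : Lˣ) : L) = c i) ∧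
      p.map (cs.sg Γ n1 h) = ∏ i, (X - C (cs.mon Γ (g i) (c i))) := by
  classical
  obtain ⟨s1, d1, hbd⟩ := CS.Bd_eval (cs := cs) p
  set s0 := s1 + 2 ^ r with hs0
  set d0 := max d1 (r * 0) with hd0
  have hs01 : 1 ≤ s0 := by
    have : 1 ≤ 2 ^ r := Nat.one_le_two_pow
    omega
  obtain ⟨h, hh, j0, T, hTc, hTG, hroots⟩ := H (s0 ^ (K2 ^ r) * (K2 ^ r * d0 + 1))
  set F : (Fin r → T) → L → MonoidAlgebra A Γ := fun φ x =>
    eval (cs.cst Γ x) (p.map (cs.sg Γ n1 h)) -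
      ∏ i, (cs.cst Γ x - cs.mon Γ ((φ i : L × Γ)).2 ((φ i : L × Γ)).1) with hF
  have hFb : ∀ φ x, cs.Bd Γ s0 d0 (F φ x) := by
    intro φ x
    refine (hbd n1 h x).sub' cs ?_
    have := CS.Bd.prod cs (Finset.univ : Finset (Fin r))
      (fun i => cs.cst Γ x - cs.mon Γ ((φ i : L × Γ)).2 ((φ i : L × Γ)).1) (s := 2) (d := 0)
      (fun i _ => by
        have := (cs.Bd_single (Γ := Γ) 1 x).sub' cs
          (cs.Bd_single ((φ i : L × Γ)).2 ((φ i : L × Γ)).1)
        exact this)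
    simpa using this
  have hFev : ∀ φ x j, cs.ev Γ j (F φ x) = eval x (p.map (cs.ev Γ (n1 + h * j))) -
      ∏ i, (x - ((φ i : L × Γ)).1 * (((((φ i : L × Γ)).2 : Γ) : Lˣ) : L) ^ j) := by
    intro φ x j
    have e1 : (cs.ev Γ j).comp (cs.sg Γ n1 h) = cs.ev Γ (n1 + h * j) := by
      apply RingHom.ext
      intro f
      exact cs.ev_sg Γ n1 h j f
    simp only [hF, map_sub, map_prod, CS.ev_cst, CS.ev_mon]
    congr 1
    rw [← e1, ← Polynomial.map_map]
    have := Polynomial.hom_eval₂ (p.map (cs.sg Γ n1 h)) (RingHom.id _) (cs.ev Γ j) (cs.cst Γ x)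
    rw [← Polynomial.eval₂_id, this, CS.ev_cst, RingHom.comp_id, Polynomial.eval₂_eq_eval_map]
  have hprod : ∀ x : L, ∏ φ : Fin r → T, F φ x = 0 := by
    intro x
    have hb : cs.Bd Γ (s0 ^ (K2 ^ r)) (K2 ^ r * d0) (∏ φ : Fin r → T, F φ x) := by
      have h1 := CS.Bd.prod cs (Finset.univ : Finset (Fin r → T)) (fun φ => F φ x)
        (fun φ _ => hFb φ x)
      have h2 : (Finset.univ : Finset (Fin r → T)).card ≤ K2 ^ r := by
        rw [Finset.card_univ, Fintype.card_fun, Fintype.card_coe, Fintype.card_fin]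
        exact Nat.pow_le_pow_left hTc r
      exact h1.mono cs (Nat.pow_le_pow_right hs01 h2) (Nat.mul_le_mul_right _ h2)
    refine cs.vanish hb j0 fun i hi => ?_
    obtain ⟨μ, hμ⟩ := exists_root_enum (p.map (cs.ev Γ (n1 + h * (j0 + i))))
      (hp.map _) (r := r) (by rw [hp.natDegree_map, hr])
    have hroot : ∀ k, ∃ t ∈ T, μ k = t.1 * (((t.2 : Γ) : Lˣ) : L) ^ (j0 + i) := by
      intro k
      refine hroots (j0 + i) (by omega) (by omega) (μ k) ?_
      rw [hμ, Polynomial.IsRoot, Polynomial.eval_prod]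
      exact Finset.prod_eq_zero (Finset.mem_univ k) (by simp)
    choose t ht1 ht2 using hroot
    rw [map_prod]
    refine Finset.prod_eq_zero (Finset.mem_univ (fun k => ⟨t k, ht1 k⟩)) ?_
    rw [hFev, hμ, Polynomial.eval_prod, sub_eq_zero]
    refine Finset.prod_congr rfl fun k _ => ?_
    simp [ht2 k]
  have hex : ∀ x : L, ∃ φ : Fin r → T, F φ x = 0 := by
    intro x
    have := Finset.prod_eq_zero_iff.1 (hprod x)
    obtain ⟨φ, _, hφ⟩ := this
    exact ⟨φ, hφ⟩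
  choose φ hφ using hex
  have hinf : Infinite L := IsAlgClosed.instInfinite
  obtain ⟨ψ, hψ⟩ := Finite.exists_infinite_fiber φ
  refine ⟨h, hh, fun i => ((ψ i : L × Γ)).1, fun i => ((ψ i : L × Γ)).2, fun i => ?_, ?_⟩
  · exact hTG _ (ψ i).2
  · rw [← sub_eq_zero]
    apply Polynomial.eq_zero_of_infinite_isRoot
    have hset : (Set.range fun x : φ ⁻¹' {ψ} => cs.cst Γ (x : L)).Infinite := by
      apply Set.infinite_range_of_injective
      intro x y hxy
      have h1 := congrArg (cs.ev Γ 0) hxy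
      simp only [CS.ev_cst] at h1
      exact Subtype.ext h1
    refine hset.mono ?_
    rintro _ ⟨⟨x, hx⟩, rfl⟩
    have hx' : φ x = ψ := hx
    have h2 := hφ x
    rw [hx'] at h2
    show Polynomial.IsRoot _ _
    rw [Polynomial.IsRoot, Polynomial.eval_sub, Polynomial.eval_prod]
    simpa [hF] using h2

end Pool.Agent.H.MP_df1c3e_lc
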