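import Pool.Agent.H.MP_df1c3e_lc.LemmaP

/-!
Analytic part of the rigidity lemma.
-/

namespace Pool.Agent.H.MP_df1c3e_lc

open MonoidAlgebra Polynomial

variable {L : Type*} [Field L] {A : Type*} [CommRing A] {cs : CS L A} {Γ : Subgroup Lˣ}

lemma log_bounds {η B W x c0 : ℝ} (hη : 0 < η) (hW : 0 < W) (hB : 0 < B)
    (h1 : η * W ≤ x) (h2 : x ≤ B * W) (hc : |Real.log η| + |Real.log B| ≤ c0) :
    |Real.log x - Real.log W| ≤ c0 := by
  have hx : 0 < x := lt_of_lt_of_le (by positivity) h1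
  have a1 : Real.log η + Real.log W ≤ Real.log x := by
    rw [← Real.log_mul hη.ne' hW.ne']
    exact Real.log_le_log (by positivity) h1
  have a2 : Real.log x ≤ Real.log B + Real.log W := by
    rw [← Real.log_mul hB.ne' hW.ne']
    exact Real.log_le_log hx h2
  have b1 := neg_abs_le (Real.log η)
  have b2 := le_abs_self (Real.log B)
  have b3 := abs_nonneg (Real.log η)
  have b4 := abs_nonneg (Real.log B)
  rw [abs_le]
  constructor <;> linarith

lemma slope_bound {i j : ℕ} (hij : i < j) {x a b A1 A2 c c' : ℝ}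
    (h : |a + i * x - (b + j * x)| ≤ c) (ha : |a - A1| ≤ c') (hb : |b - A2| ≤ c') (hc : 0 ≤ c)
    (hc' : 0 ≤ c') :
    |x - (A1 - A2) / ((j : ℝ) - i)| ≤ c + 2 * c' := by
  have hd : (1 : ℝ) ≤ (j : ℝ) - i := by
    have : (i : ℝ) + 1 ≤ j := by exact_mod_cast hij
    linarith
  have hd0 : (0 : ℝ) < (j : ℝ) - i := by linarith
  have e : x - (A1 - A2) / ((j : ℝ) - i) = (((j : ℝ) - i) * x - (A1 - A2)) / ((j : ℝ) - i) := by
    field_simp
  rw [e, abs_div, abs_of_pos hd0, div_le_iff₀ hd0]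
  have h1 : |((j : ℝ) - i) * x - (A1 - A2)| ≤ c + 2 * c' := by
    have a1 := abs_le.1 h
    have a2 := abs_le.1 ha
    have a3 := abs_le.1 hb
    rw [abs_le]
    constructor <;> linarith [a1.1, a1.2, a2.1, a2.2, a3.1, a3.2]
  have h2 : c + 2 * c' ≤ (c + 2 * c') * ((j : ℝ) - i) :=
    le_mul_of_one_le_right (by linarith) hd
  linarith

/-- analytic part of the rigidity lemma -/
lemma rigid_an {ι : Type} [Fintype ι] [IsDomain (MonoidAlgebra A Γ)]
    (P : ι → GPlace cs) (G : Subgroup Lˣ)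
    (hN : ∀ B : ℝ, {g : Lˣ | g ∈ G ∧ ∀ k, |Real.log ((P k).v (g : L))| ≤ B}.Finite)
    {m : ℕ} (e : Fin m → Lˣ) (he : ∀ t, e t ∈ Γ) (hΓG : Γ ≤ G)
    (hspan : ∀ g ∈ G, ∃ (D : ℕ) (z : Fin m → ℤ), 1 ≤ D ∧ g ^ D = ∏ t, e t ^ z t)
    (p : Polynomial (MonoidAlgebra A Γ)) (hp : p.Monic) {r : ℕ} (hr : p.natDegree = r) (n0 : ℕ)
    (hroots : ∀ n, n0 ≤ n → ∀ μ : L, (p.map (cs.ev Γ n)).IsRoot μ →
      μ = 0 ∨ ∃ g ∈ G, ((g : Lˣ) : L) = μ) :
    ∃ n1, n0 ≤ n1 ∧ ∃ K2 : ℕ, ∀ J : ℕ, ∃ h : ℕ, 1 ≤ h ∧ ∃ j0 : ℕ, ∃ T : Finset (L × Γ),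
      T.card ≤ K2 ∧ (∀ t ∈ T, t.1 = 0 ∨ ∃ g ∈ G, ((g : Lˣ) : L) = t.1) ∧
      ∀ j, j0 ≤ j → j < j0 + J → ∀ μ : L, (p.map (cs.ev Γ (n1 + h * j))).IsRoot μ →
        ∃ t ∈ T, μ = t.1 * (((t.2 : Γ) : Lˣ) : L) ^ j := by
  classical
  -- Step A
  have hA : ∀ (k : ι) (i : ℕ), ∃ (Λ : ℝ) (s : ℕ) (B : ℝ) (g : MonoidAlgebra A Γ),
      0 < Λ ∧ g ≠ 0 ∧ 0 < B ∧ (p.coeff i ≠ 0 →
      (∀ n : ℕ, 1 ≤ n → (P k).v (cs.ev Γ n (p.coeff i)) ≤ B * ((n : ℝ) ^ s * Λ ^ n)) ∧
      ∀ n1, cs.ev Γ n1 g ≠ 0 → ∃ η > 0, ∃ N0 : ℕ, ∀ J : ℕ, FCol fun m m' => m ≤ m' →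
        ∀ j ≤ J, ∀ n, n = n1 + j * (m' - m) → N0 ≤ n →
          η * ((n : ℝ) ^ s * Λ ^ n) ≤ (P k).v (cs.ev Γ n (p.coeff i))) := by
    intro k i
    by_cases h : p.coeff i = 0
    · exact ⟨1, 0, 1, 1, one_pos, one_ne_zero, one_pos, fun h' => absurd h h'⟩
    · obtain ⟨Λ, s, B, g, h1, h2, h3, h4, h5⟩ := (P k).asym (p.coeff i) h
      exact ⟨Λ, s, B, g, h1, h2, h3, fun _ => ⟨h4, h5⟩⟩
  choose Λ s B gl hΛ hgl hB hA' using hA
  -- Step B
  obtain ⟨n1, hn1, hn1'⟩ : ∃ n1, n0 ≤ n1 ∧ ∀ k, ∀ i ∈ p.support, cs.ev Γ n1 (gl k i) ≠ 0 := by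
    have hne : (∏ k, ∏ i ∈ p.support, gl k i) ≠ 0 :=
      Finset.prod_ne_zero_iff.2 fun k _ => Finset.prod_ne_zero_iff.2 fun i _ => hgl k i
    by_contra hc
    push Not at hc
    apply hne
    apply cs.ev_injective n0
    intro j hj
    obtain ⟨k, i, hi, h0⟩ := hc j hj
    rw [map_zero, map_prod]
    refine Finset.prod_eq_zero (Finset.mem_univ k) ?_
    rw [map_prod]
    exact Finset.prod_eq_zero hi h0
  -- Step C
  have hC : ∀ (k : ι) (i : ℕ), ∃ η > (0 : ℝ), ∃ N0 : ℕ, i ∈ p.support → ∀ J : ℕ,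
      FCol fun m m' => m ≤ m' →
        ∀ j ≤ J, ∀ n, n = n1 + j * (m' - m) → N0 ≤ n →
          η * ((n : ℝ) ^ (s k i) * (Λ k i) ^ n) ≤ (P k).v (cs.ev Γ n (p.coeff i)) := by
    intro k i
    by_cases h : i ∈ p.support
    · obtain ⟨η, h1, N0, h2⟩ := (hA' k i (Polynomial.mem_support_iff.1 h)).2 n1 (hn1' k i h)
      exact ⟨η, h1, N0, fun _ => h2⟩
    · exact ⟨1, one_pos, 0, fun h' => absurd h' h⟩
  choose η hη N0 hC' using hC
  set c0 : ℝ := ∑ k, ∑ i ∈ p.support, (|Real.log (η k i)| + |Real.log (B k i)|) with hc0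
  have hc0le : ∀ k, ∀ i ∈ p.support, |Real.log (η k i)| + |Real.log (B k i)| ≤ c0 := by
    intro k i hi
    refine le_trans ?_ (Finset.single_le_sum (f := fun k => ∑ i ∈ p.support,
      (|Real.log (η k i)| + |Real.log (B k i)|)) (fun _ _ => Finset.sum_nonneg fun _ _ => by
        positivity) (Finset.mem_univ k))
    exact Finset.single_le_sum (f := fun i => |Real.log (η k i)| + |Real.log (B k i)|)
      (fun _ _ => by positivity) hi
  have hc00 : 0 ≤ c0 := Finset.sum_nonneg fun _ _ => Finset.sum_nonneg fun _ _ => by positivity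
  have hlogr : 0 ≤ Real.log ((r : ℝ) + 1) := Real.log_nonneg (by
    have : (0 : ℝ) ≤ r := Nat.cast_nonneg _
    linarith)
  set c1 : ℝ := Real.log ((r : ℝ) + 1) + 2 * c0 with hc1
  -- slopes
  set α : (ι → Fin (r + 1) × Fin (r + 1)) → ι → ℝ := fun κ k =>
    (Real.log (Λ k (κ k).1) - Real.log (Λ k (κ k).2)) / (((κ k).2 : ℕ) - ((κ k).1 : ℕ) : ℝ)
    with hα
  set σ : (ι → Fin (r + 1) × Fin (r + 1)) → ι → ℝ := fun κ k =>
    ((s k (κ k).1 : ℝ) - (s k (κ k).2 : ℝ)) / (((κ k).2 : ℕ) - ((κ k).1 : ℕ) : ℝ) with hσ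
  -- Step D
  have hD : ∀ n : ℕ, 1 ≤ n → (∀ k, ∀ i ∈ p.support,
      η k i * ((n : ℝ) ^ (s k i) * (Λ k i) ^ n) ≤ (P k).v (cs.ev Γ n (p.coeff i))) →
      ∀ μ : L, μ ≠ 0 → (p.map (cs.ev Γ n)).IsRoot μ →
      ∃ κ : ι → Fin (r + 1) × Fin (r + 1), ∀ k,
        |Real.log ((P k).v μ) - n * α κ k - σ κ k * Real.log n| ≤ c1 := by
    intro n hn hgood μ hμ hroot
    have hn0 : (0 : ℝ) < n := by exact_mod_cast hn
    have hk : ∀ k, ∃ κk : Fin (r + 1) × Fin (r + 1),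
        |Real.log ((P k).v μ) - n * ((Real.log (Λ k κk.1) - Real.log (Λ k κk.2)) /
          ((κk.2 : ℕ) - (κk.1 : ℕ) : ℝ)) - ((s k κk.1 : ℝ) - (s k κk.2 : ℝ)) /
          ((κk.2 : ℕ) - (κk.1 : ℕ) : ℝ) * Real.log n| ≤ c1 := by
      intro k
      obtain ⟨i, hi, j, hj, hij, hb⟩ := comparable_terms (P k).v (p.map (cs.ev Γ n)) μ hμ
        (hp.map _) hroot
      have hi' : i ∈ p.support := by
        rw [Polynomial.mem_support_iff, Polynomial.coeff_map] at hi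
        rw [Polynomial.mem_support_iff]
        intro h; rw [h, map_zero] at hi; exact hi rfl
      have hj' : j ∈ p.support := by
        rw [Polynomial.mem_support_iff, Polynomial.coeff_map] at hj
        rw [Polynomial.mem_support_iff]
        intro h; rw [h, map_zero] at hj; exact hj rfl
      have hir : i < r + 1 := by
        have := Polynomial.le_natDegree_of_mem_supp i hi'
        omega
      have hjr : j < r + 1 := by
        have := Polynomial.le_natDegree_of_mem_supp j hj'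
        omega
      refine ⟨(⟨i, hir⟩, ⟨j, hjr⟩), ?_⟩
      have hlog : ∀ t ∈ p.support, |Real.log ((P k).v (cs.ev Γ n (p.coeff t))) -
          (s k t * Real.log n + n * Real.log (Λ k t))| ≤ c0 := by
        intro t ht
        have hW : 0 < (n : ℝ) ^ (s k t) * (Λ k t) ^ n :=
          mul_pos (pow_pos hn0 _) (pow_pos (hΛ k t) _)
        have h1 := log_bounds (hη k t) hW (hB k t) (hgood k t ht)
          ((hA' k t (Polynomial.mem_support_iff.1 ht)).1 n hn) (hc0le k t ht)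
        rw [Real.log_mul (pow_pos hn0 _).ne' (pow_pos (hΛ k t) _).ne', Real.log_pow,
          Real.log_pow] at h1
        exact h1
      rw [Polynomial.coeff_map, Polynomial.coeff_map, hp.natDegree_map, hr] at hb
      have h2 := slope_bound hij hb (hlog i hi') (hlog j hj') hlogr hc00
      have hd : ((j : ℝ) - i) ≠ 0 := by
        have : (i : ℝ) < j := by exact_mod_cast hij
        linarith [sub_pos.2 this]
      have e1 : Real.log ((P k).v μ) - (s k i * Real.log n + n * Real.log (Λ k i) -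
          (s k j * Real.log n + n * Real.log (Λ k j))) / ((j : ℝ) - i) =
          Real.log ((P k).v μ) - n * ((Real.log (Λ k i) - Real.log (Λ k j)) /
          ((j : ℝ) - i)) - ((s k i : ℝ) - (s k j : ℝ)) / ((j : ℝ) - i) * Real.log n := by
        field_simp
        ring
      rw [e1] at h2
      exact h2
    choose κ hκ using hk
    exact ⟨κ, hκ⟩
  -- Step E
  set ℓ : Lˣ → ι → ℝ := fun g k => Real.log ((P k).v (g : L)) with hℓ
  have hℓmul : ∀ x y : Lˣ, ∀ k, ℓ (x * y) k = ℓ x k + ℓ y k := by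
    intro x y k
    simp only [hℓ]
    rw [Units.val_mul, map_mul, Real.log_mul ((P k).v.ne_zero (Units.ne_zero _))
      ((P k).v.ne_zero (Units.ne_zero _))]
  have hℓpow : ∀ (x : Lˣ) (D : ℕ), ∀ k, ℓ (x ^ D) k = D * ℓ x k := by
    intro x D k
    simp only [hℓ]
    rw [Units.val_pow_eq_pow_val, map_pow, Real.log_pow]
  have hℓzpow : ∀ (x : Lˣ) (D : ℤ), ∀ k, ℓ (x ^ D) k = D * ℓ x k := by
    intro x D k
    simp only [hℓ]
    rw [Units.val_zpow_eq_zpow_val, map_zpow₀, Real.log_zpow]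
  have hℓprod : ∀ (z : Fin m → ℤ) k, ℓ (∏ t, e t ^ z t) k = ∑ t, z t * ℓ (e t) k := by
    intro z k
    have h1 : ∀ (S : Finset (Fin m)), ℓ (∏ t ∈ S, e t ^ z t) k = ∑ t ∈ S, z t * ℓ (e t) k := by
      intro S
      induction S using Finset.induction_on with
      | empty => simp [hℓ]
      | insert a S ha ih =>
        rw [Finset.prod_insert ha, Finset.sum_insert ha, hℓmul, hℓzpow, ih]
    exact h1 Finset.univ
  set U : Submodule ℝ (ι → ℝ) := Submodule.span ℝ (Set.range fun t => ℓ (e t)) with hU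
  have hGU : ∀ g ∈ G, ℓ g ∈ U := by
    intro g hg
    obtain ⟨D, z, hD1, hgz⟩ := hspan g hg
    have h1 : (D : ℝ) • ℓ g = ∑ t, (z t : ℝ) • ℓ (e t) := by
      funext k
      rw [Pi.smul_apply, smul_eq_mul, ← hℓpow, hgz, hℓprod, Finset.sum_apply]
      rfl
    have h2 : (D : ℝ) • ℓ g ∈ U := by
      rw [h1]
      exact Submodule.sum_mem _ fun t _ => Submodule.smul_mem _ _ (Submodule.subset_span ⟨t, rfl⟩)
    have hD0 : (D : ℝ) ≠ 0 := by
      have : (0 : ℝ) < D := by exact_mod_cast hD1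
      exact this.ne'
    have h3 := U.smul_mem ((D : ℝ)⁻¹) h2
    rwa [smul_smul, inv_mul_cancel₀ hD0, one_smul] at h3
  have hE : ∀ κ : ι → Fin (r + 1) × Fin (r + 1), ∃ (N : ℕ) (a : Fin m → ℝ),
      (α κ ∈ U → α κ = ∑ t, a t • ℓ (e t)) ∧
      (α κ ∉ U → ∀ n : ℕ, N ≤ n → ∀ x ∈ U, ¬ ∀ k,
        |x k - n * α κ k - σ κ k * Real.log n| ≤ c1) := by
    intro κ
    by_cases h : α κ ∈ U
    · obtain ⟨a, ha⟩ := (Submodule.mem_span_range_iff_exists_fun ℝ).1 h
      exact ⟨0, a, fun _ => ha.symm, fun h' => absurd h h'⟩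
    · obtain ⟨N, hN'⟩ := outside_span U (α κ) (σ κ) h c1
      exact ⟨N, 0, fun h' => absurd h' h, fun _ => hN'⟩
  choose Nκ a ha hNκ using hE
  -- Step F
  set E : ℝ := ∑ k, ∑ t, |ℓ (e t) k| with hEdef
  have hE0 : 0 ≤ E := Finset.sum_nonneg fun _ _ => Finset.sum_nonneg fun _ _ => abs_nonneg _
  set S : ℝ := ∑ κ, ∑ k, |σ κ k| with hSdef
  have hSle : ∀ κ k, |σ κ k| ≤ S := by
    intro κ k
    refine le_trans (Finset.single_le_sum (f := fun k => |σ κ k|) (fun _ _ => abs_nonneg _)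
      (Finset.mem_univ k)) ?_
    exact Finset.single_le_sum (f := fun κ => ∑ k, |σ κ k|)
      (fun _ _ => Finset.sum_nonneg fun _ _ => abs_nonneg _) (Finset.mem_univ κ)
  have hlog2 : 0 < Real.log 2 := Real.log_pos one_lt_two
  set c2 : ℝ := c1 + 1 + S * Real.log 2 with hc2
  obtain ⟨K, hK⟩ := north_uniform G (fun k => (P k).v) hN c2
  refine ⟨n1, hn1, Fintype.card (ι → Fin (r + 1) × Fin (r + 1)) * K + 1, fun J => ?_⟩
  set j0 : ℕ := J + (∑ k, ∑ i ∈ p.support, N0 k i) + (∑ κ, Nκ κ) + 1 with hj0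
  set J' : ℕ := j0 + J with hJ'
  set ε : ℝ := 1 / ((E + 1) * (J' + 1)) with hε
  have hεp : 0 < ε := by positivity
  have hcol : FCol fun b1 b2 => (∀ k, ∀ i ∈ p.support, b1 ≤ b2 →
        ∀ j ≤ J', ∀ n, n = n1 + j * (b2 - b1) → N0 k i ≤ n →
          η k i * ((n : ℝ) ^ (s k i) * (Λ k i) ^ n) ≤ (P k).v (cs.ev Γ n (p.coeff i))) ∧
      ∀ κt : (ι → Fin (r + 1) × Fin (r + 1)) × Fin m,
        ∃ z : ℤ, |((b2 : ℝ) - b1) * a κt.1 κt.2 - z| < ε := by
    refine FCol.and ?_ ?_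
    · exact FCol.all fun k => FCol.all_finset p.support fun i hi => hC' k i hi J'
    · exact FCol.all fun κt => FCol.real _ ε hεp
  obtain ⟨m1, m2, hm12, hcolA, hcolB⟩ := hcol.exists_pair
  set h : ℕ := m2 - m1 with hh
  have hh1 : 1 ≤ h := by omega
  have hhr : ((m2 : ℝ) - m1) = h := by rw [hh, Nat.cast_sub hm12.le]
  rw [hhr] at hcolB
  choose z hz using hcolB
  set gκ : (ι → Fin (r + 1) × Fin (r + 1)) → Lˣ := fun κ => ∏ t, e t ^ z (κ, t) with hgκ
  have hgΓ : ∀ κ, gκ κ ∈ Γ := fun κ => Γ.prod_mem fun t _ => Γ.zpow_mem (he t) _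
  have happrox : ∀ κ, α κ ∈ U → ∀ k, |h * α κ k - ℓ (gκ κ) k| ≤ E * ε := by
    intro κ hκ k
    have e1 : h * α κ k - ℓ (gκ κ) k = ∑ t, (h * a κ t - z (κ, t)) * ℓ (e t) k := by
      rw [hℓprod, congrFun (ha κ hκ) k, Finset.sum_apply, Finset.mul_sum,
        ← Finset.sum_sub_distrib]
      refine Finset.sum_congr rfl fun t _ => ?_
      rw [Pi.smul_apply, smul_eq_mul]; ring
    rw [e1]
    calc |∑ t, (h * a κ t - z (κ, t)) * ℓ (e t) k| ≤ ∑ t, |(h * a κ t - z (κ, t)) * ℓ (e t) k| :=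
          Finset.abs_sum_le_sum_abs _ _
      _ ≤ ∑ t, |ℓ (e t) k| * ε := by
          refine Finset.sum_le_sum fun t _ => ?_
          rw [abs_mul, mul_comm]
          exact mul_le_mul_of_nonneg_left (hz (κ, t)).le (abs_nonneg _)
      _ = (∑ t, |ℓ (e t) k|) * ε := by rw [Finset.sum_mul]
      _ ≤ E * ε := by
          refine mul_le_mul_of_nonneg_right ?_ hεp.le
          exact Finset.single_le_sum (f := fun k => ∑ t, |ℓ (e t) k|)
            (fun _ _ => Finset.sum_nonneg fun _ _ => abs_nonneg _) (Finset.mem_univ k)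
  choose F hF1 hF2 hF3 using fun κ : ι → Fin (r + 1) × Fin (r + 1) =>
    hK (fun k => n1 * α κ k + σ κ k * Real.log ((n1 + h * j0 : ℕ) : ℝ))
  refine ⟨h, hh1, j0, (Finset.univ.biUnion fun κ => (F κ).image fun g : Lˣ =>
    ((g : L), (⟨gκ κ, hgΓ κ⟩ : Γ))) ∪ {((0 : L), (1 : Γ))}, ?_, ?_, ?_⟩
  · refine (Finset.card_union_le _ _).trans ?_
    rw [Finset.card_singleton]
    refine Nat.add_le_add_right ?_ 1
    refine Finset.card_biUnion_le.trans ?_
    calc _ ≤ ∑ _κ : ι → Fin (r + 1) × Fin (r + 1), K :=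
          Finset.sum_le_sum fun κ _ => Finset.card_image_le.trans (hF1 κ)
      _ = _ := by rw [Finset.sum_const, Finset.card_univ, smul_eq_mul]
  · intro t ht
    rw [Finset.mem_union, Finset.mem_biUnion, Finset.mem_singleton] at ht
    rcases ht with ⟨κ, _, ht⟩ | ht
    · obtain ⟨g, hg, rfl⟩ := Finset.mem_image.1 ht
      exact Or.inr ⟨g, hF2 κ g hg, rfl⟩
    · left; rw [ht]
  · intro j hj1 hj2 μ hμ
    by_cases hμ0 : μ = 0
    · refine ⟨((0 : L), (1 : Γ)), by simp, ?_⟩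
      rw [hμ0]; simp
    set n : ℕ := n1 + h * j with hn
    have hjn : j ≤ n := by
      have : 1 * j ≤ h * j := Nat.mul_le_mul_right j hh1
      omega
    have hn1' : 1 ≤ n := by omega
    have hgood : ∀ k, ∀ i ∈ p.support,
        η k i * ((n : ℝ) ^ (s k i) * (Λ k i) ^ n) ≤ (P k).v (cs.ev Γ n (p.coeff i)) := by
      intro k i hi
      refine hcolA k i hi hm12.le j (by omega) n (by rw [hn, mul_comm]) ?_
      have h1 : N0 k i ≤ ∑ k, ∑ i ∈ p.support, N0 k i := by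
        refine le_trans (Finset.single_le_sum (f := fun i => N0 k i) (fun _ _ => Nat.zero_le _)
          hi) ?_
        exact Finset.single_le_sum (f := fun k => ∑ i ∈ p.support, N0 k i)
          (fun _ _ => Nat.zero_le _) (Finset.mem_univ k)
      omega
    obtain ⟨κ, hκ⟩ := hD n hn1' hgood μ hμ0 hμ
    obtain ⟨g, hg, rfl⟩ := (hroots n (by omega) μ hμ).resolve_left hμ0
    have hαU : α κ ∈ U := by
      by_contra hc
      refine hNκ κ hc n ?_ (ℓ g) (hGU g hg) hκ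
      have h1 : Nκ κ ≤ ∑ κ, Nκ κ :=
        Finset.single_le_sum (f := fun κ => Nκ κ) (fun _ _ => Nat.zero_le _) (Finset.mem_univ κ)
      omega
    have hmem : g * (gκ κ ^ j)⁻¹ ∈ F κ := by
      refine hF3 κ _ (G.mul_mem hg (G.inv_mem (G.pow_mem (hΓG (hgΓ κ)) j))) fun k => ?_
      have e1 : Real.log ((P k).v ((g * (gκ κ ^ j)⁻¹ : Lˣ) : L)) = ℓ g k - j * ℓ (gκ κ) k := by
        have h1 : ℓ (g * (gκ κ ^ j)⁻¹) k + ℓ (gκ κ ^ j) k = ℓ g k := by
          rw [← hℓmul]; congr 1; group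
        have h2 : ℓ (gκ κ ^ j) k = j * ℓ (gκ κ) k := hℓpow _ _ _
        have h3 : Real.log ((P k).v ((g * (gκ κ ^ j)⁻¹ : Lˣ) : L)) = ℓ (g * (gκ κ ^ j)⁻¹) k := rfl
        rw [h3]; linarith
      rw [e1]
      have b1 : |ℓ g k - n * α κ k - σ κ k * Real.log n| ≤ c1 := hκ k
      have b2 : |(j : ℝ) * (h * α κ k - ℓ (gκ κ) k)| ≤ 1 := by
        rw [abs_mul, Nat.abs_cast]
        have hjJ : (j : ℝ) ≤ J' := by exact_mod_cast (by omega : j ≤ J')
        calc (j : ℝ) * |h * α κ k - ℓ (gκ κ) k| ≤ J' * (E * ε) :=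
              mul_le_mul hjJ (happrox κ hαU k) (abs_nonneg _) (Nat.cast_nonneg _)
          _ ≤ (J' + 1) * ((E + 1) * ε) := by
              refine mul_le_mul (le_add_of_nonneg_right zero_le_one) ?_
                (mul_nonneg hE0 hεp.le) (by positivity)
              exact mul_le_mul_of_nonneg_right (le_add_of_nonneg_right zero_le_one) hεp.le
          _ = 1 := by
              rw [hε]
              have h1 : (E + 1) ≠ 0 := by linarith
              have h2 : ((J' : ℝ) + 1) ≠ 0 := by positivity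
              field_simp
      have b3 : |σ κ k * (Real.log n - Real.log ((n1 + h * j0 : ℕ) : ℝ))| ≤ S * Real.log 2 := by
        rw [abs_mul]
        refine mul_le_mul (hSle κ k) ?_ (abs_nonneg _) ((abs_nonneg _).trans (hSle κ k))
        have hj0h : j0 ≤ n1 + h * j0 := by
          have : 1 * j0 ≤ h * j0 := Nat.mul_le_mul_right j0 hh1
          omega
        have hx0 : (0 : ℝ) < ((n1 + h * j0 : ℕ) : ℝ) := by
          exact_mod_cast (by omega : 0 < n1 + h * j0)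
        have hx1 : ((n1 + h * j0 : ℕ) : ℝ) ≤ n := by
          exact_mod_cast (by
            have : h * j0 ≤ h * j := Nat.mul_le_mul_left h hj1
            omega : n1 + h * j0 ≤ n)
        have hx2 : (n : ℝ) ≤ 2 * ((n1 + h * j0 : ℕ) : ℝ) := by
          exact_mod_cast (by
            have : h * j ≤ h * (2 * j0) := Nat.mul_le_mul_left h (by omega)
            have e : h * (2 * j0) = 2 * (h * j0) := by ring
            omega : n ≤ 2 * (n1 + h * j0))
        have l1 := Real.log_le_log hx0 hx1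
        have l2 := Real.log_le_log (lt_of_lt_of_le hx0 hx1) hx2
        rw [Real.log_mul (by norm_num) hx0.ne'] at l2
        rw [abs_le]
        constructor <;> linarith
      have e2 : ℓ g k - j * ℓ (gκ κ) k -
          (n1 * α κ k + σ κ k * Real.log ((n1 + h * j0 : ℕ) : ℝ)) =
          (ℓ g k - n * α κ k - σ κ k * Real.log n) + (j : ℝ) * (h * α κ k - ℓ (gκ κ) k) +
          σ κ k * (Real.log n - Real.log ((n1 + h * j0 : ℕ) : ℝ)) := by
        rw [hn]; push_cast; ring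
      rw [e2]
      have t1 := abs_add_le (ℓ g k - n * α κ k - σ κ k * Real.log n +
        (j : ℝ) * (h * α κ k - ℓ (gκ κ) k))
        (σ κ k * (Real.log n - Real.log ((n1 + h * j0 : ℕ) : ℝ)))
      have t2 := abs_add_le (ℓ g k - n * α κ k - σ κ k * Real.log n)
        ((j : ℝ) * (h * α κ k - ℓ (gκ κ) k))
      linarith
    refine ⟨(((g * (gκ κ ^ j)⁻¹ : Lˣ) : L), (⟨gκ κ, hgΓ κ⟩ : Γ)), ?_, ?_⟩
    · rw [Finset.mem_union, Finset.mem_biUnion]
      left
      exact ⟨κ, Finset.mem_univ _, Finset.mem_image_of_mem _ hmem⟩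
    · show ((g : Lˣ) : L) = ((g * (gκ κ ^ j)⁻¹ : Lˣ) : L) * ((gκ κ : Lˣ) : L) ^ j
      rw [← Units.val_pow_eq_pow_val, ← Units.val_mul]
      congr 1
      group

end Pool.Agent.H.MP_df1c3e_lc
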