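import Pool.Agent.H.MP_df1c3e_lc.RigDef
import Pool.Agent.H.MP_df1c3e_lc.LemmaQ
import Pool.Agent.H.MP_df1c3e_lc.LemmaR

/-!
The rigidity lemma.
-/

namespace Pool.Agent.H.MP_df1c3e_lc

open MonoidAlgebra Polynomial

variable {L : Type*} [Field L] {A : Type*} [CommRing A]

theorem rig_of_places [IsAlgClosed L] [IsDomain A] {cs : CS L A} {G : Subgroup Lˣ}
    (hG : G.FG) (Λ : Len G) {ι : Type} [Fintype ι] (P : ι → GPlace cs)
    (hN : ∀ B : ℝ, {g : Lˣ | g ∈ G ∧ ∀ k, |Real.log ((P k).v (g : L))| ≤ B}.Finite) :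
    Rig cs G Λ.Γ := by
  classical
  intro p hp r hr n0 hroots
  have hdom := Λ.isDomain hG A
  obtain ⟨S, hS⟩ := Λ.Γ_fg hG
  let e : Fin S.card → Lˣ := fun t => (S.equivFin.symm t : Lˣ)
  have he : ∀ t, e t ∈ Λ.Γ := by
    intro t
    rw [← hS]
    exact Subgroup.subset_closure (S.equivFin.symm t).2
  have hspan : ∀ g ∈ G, ∃ (D : ℕ) (z : Fin S.card → ℤ), 1 ≤ D ∧ g ^ D = ∏ t, e t ^ z t := by
    intro g hg
    refine ⟨Λ.D, ?_⟩
    have h1 : g ^ Λ.D ∈ Λ.Γ := ⟨g, hg, rfl⟩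
    rw [← hS] at h1
    have h2 : ∀ x ∈ Subgroup.closure (S : Set Lˣ), ∃ z : Fin S.card → ℤ, x = ∏ t, e t ^ z t := by
      intro x hx
      induction hx using Subgroup.closure_induction with
      | mem x hx =>
        refine ⟨fun t => if t = S.equivFin ⟨x, hx⟩ then 1 else 0, ?_⟩
        rw [Finset.prod_eq_single (S.equivFin ⟨x, hx⟩)]
        · simp [e]
        · intro b _ hb; simp [hb]
        · intro h; exact absurd (Finset.mem_univ _) h
      | one => exact ⟨0, by simp⟩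
      | mul x y _ _ hx hy =>
        obtain ⟨z, rfl⟩ := hx
        obtain ⟨z', rfl⟩ := hy
        refine ⟨z + z', ?_⟩
        rw [← Finset.prod_mul_distrib]
        refine Finset.prod_congr rfl fun t _ => ?_
        rw [Pi.add_apply, zpow_add]
      | inv x _ hx =>
        obtain ⟨z, rfl⟩ := hx
        refine ⟨-z, ?_⟩
        rw [← Finset.prod_inv_distrib]
        refine Finset.prod_congr rfl fun t _ => ?_
        rw [Pi.neg_apply, zpow_neg]
    obtain ⟨z, hz⟩ := h2 _ h1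
    exact ⟨z, Λ.hD, hz⟩
  obtain ⟨n1, hn1, K2, H⟩ := rigid_an P G hN e he Λ.Γ_le hspan p hp hr n0 hroots
  obtain ⟨h, hh, c, g, hc, hpr⟩ := rigid_alg G p hp hr n1 K2 H
  exact ⟨n1, h, hh, c, g, hc, hpr⟩

end Pool.Agent.H.MP_df1c3e_lc
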