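import Pool.Agent.H.MP_df1c3e_lc.PlacesP
import Pool.Agent.H.MP_df1c3e_lc.LTwoP
import Pool.Agent.H.MP_df1c3e_lc.Rigid

/-!
The context in positive characteristic.
-/

namespace Pool.Agent.H.MP_df1c3e_lc

theorem hasCtx_p (p : ℕ) [hp : Fact p.Prime] (L : Type*) [Field L] [IsAlgClosed L] [CharP L p]
    [Countable L] : HasCtx (csConst L) := by
  intro G hG N
  obtain ⟨Λ₀⟩ := exists_len G hG
  obtain ⟨n, P, hP⟩ := exists_places_p p hG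
  have hpN : 1 ≤ p ^ N := Nat.one_le_pow _ _ hp.1.pos
  have hD : (Λ₀.mulD (p ^ N) hpN).D = Λ₀.D * p ^ N := rfl
  refine ⟨⟨Λ₀.mulD (p ^ N) hpN, rig_of_places hG _ P hP, fun r hr U hU => ?_⟩,
    fun k _ => ltwo_charP p _ k⟩
  rw [hD, pow_mul]
  refine MCF_charP _ (U ^ Λ₀.D) N (hr.trans (Nat.lt_pow_self hp.1.one_lt).le) ?_
  intro μ hμ hμ0
  rw [← pow_mul, ← hD] at hμ
  obtain ⟨ν, hν, rfl⟩ := (eig_pow U (Λ₀.mulD (p ^ N) hpN).hD μ).1 hμ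
  rcases hU ν hν with h | h
  · rw [h, zero_pow (by have := (Λ₀.mulD (p ^ N) hpN).hD; omega)] at hμ0
    exact absurd rfl hμ0
  · exact (Λ₀.mulD (p ^ N) hpN).pow_mem_Γ h

end Pool.Agent.H.MP_df1c3e_lc
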