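import Pool.Agent.H.MP_df1c3e_lc.Ext3

/-!
Groups of matrices with scalar `D`-th powers: finiteness modulo scalars (characteristic zero).
-/

namespace Pool.Agent.H.MP_df1c3e_lc

open Module Matrix Polynomial

variable {L : Type*} [Field L] {G : Subgroup Lˣ} {k : ℕ}

/-- hypothesis of `LTwo` -/
def SG (G : Subgroup Lˣ) (D : ℕ) (S : Subgroup (Matrix (Fin k) (Fin k) L)ˣ) : Prop :=
  ∀ X ∈ S, (∀ μ, (X : Matrix (Fin k) (Fin k) L).charpoly.IsRoot μ → InG G μ) ∧
      ∃ a : L, (X : Matrix (Fin k) (Fin k) L) ^ D = a • (1 : Matrix (Fin k) (Fin k) L)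

lemma scalar_charpoly (b : L) :
    (b • (1 : Matrix (Fin k) (Fin k) L)).charpoly = (X - Polynomial.C b) ^ k := by
  have := Matrix.charpoly_diagonal (fun _ : Fin k => b)
  have e : b • (1 : Matrix (Fin k) (Fin k) L) = Matrix.diagonal fun _ => b := by
    ext i j
    simp [Matrix.one_apply, Matrix.diagonal_apply]
  rw [e, this]; simp

lemma SG.iso [IsAlgClosed L] (Λ : Len G) {S : Subgroup (Matrix (Fin k) (Fin k) L)ˣ}
    (hS : SG G Λ.D S) (hk : 0 < k) {M : (Matrix (Fin k) (Fin k) L)ˣ} (hM : M ∈ S) :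
    ∃ g, InG G g ∧ Iso Λ (M : Matrix (Fin k) (Fin k) L) (Λ.l g) := by
  have hne : Nonempty (Fin k) := ⟨⟨0, hk⟩⟩
  obtain ⟨h1, a, ha⟩ := hS M hM
  obtain ⟨g, hg⟩ := exists_eig (M : Matrix (Fin k) (Fin k) L)
  have key : ∀ μ, (M : Matrix (Fin k) (Fin k) L).charpoly.IsRoot μ → μ ^ Λ.D = a := by
    intro μ hμ
    have h2 := (eig_pow (M : Matrix (Fin k) (Fin k) L) Λ.hD (μ ^ Λ.D)).2 ⟨μ, hμ, rfl⟩
    rw [ha, scalar_charpoly, IsRoot, eval_pow, eval_sub, eval_X, eval_C] at h2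
    exact sub_eq_zero.1 (eq_zero_of_pow_eq_zero h2)
  refine ⟨g, h1 g hg, fun μ hμ => ⟨h1 μ hμ, ?_⟩⟩
  rw [Λ.l_eq_iff (h1 μ hμ) (h1 g hg), key μ hμ, key g hg]

/-- finiteness of trace vectors up to scalars -/
lemma SG.traces [IsAlgClosed L] (Λ : Len G) {S : Subgroup (Matrix (Fin k) (Fin k) L)ˣ}
    (hS : SG G Λ.D S) (hk : 0 < k) :
    ∃ (n : ℕ) (col : S → Fin n), ∀ M M' : S, col M = col M' →
      ∃ c : L, c ≠ 0 ∧ ∀ Y ∈ S, ((M : (Matrix (Fin k) (Fin k) L)ˣ) *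
        (Y : Matrix (Fin k) (Fin k) L) : Matrix (Fin k) (Fin k) L).trace =
        c * ((M' : (Matrix (Fin k) (Fin k) L)ˣ) * (Y : Matrix (Fin k) (Fin k) L) :
        Matrix (Fin k) (Fin k) L).trace := by
  classical
  obtain ⟨F₀, hF₀⟩ := trace_iso Λ k
  choose g hgG hgI using fun M : S => hS.iso Λ hk M.2
  obtain ⟨b, hbS, hbspan, hbli⟩ := exists_linearIndependent L
    ((fun M : (Matrix (Fin k) (Fin k) L)ˣ => (M : Matrix (Fin k) (Fin k) L)) '' (S : Set _))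
  have hbfin : Finite b := hbli.finite
  let _ : Fintype b := Fintype.ofFinite b
  choose B hBS hB using fun i : b => hbS i.2
  have hk0 : (k : ℝ) ≠ 0 := by
    have : k ≠ 0 := by omega
    exact_mod_cast this
  have hmul : ∀ M N : S, Λ.l (g (M * N)) = Λ.l (g M) + Λ.l (g N) := by
    intro M N
    have e1 := (hgI (M * N)).det.2
    have e2 : (((M * N : S) : (Matrix (Fin k) (Fin k) L)ˣ) : Matrix (Fin k) (Fin k) L) =
        ((M : (Matrix (Fin k) (Fin k) L)ˣ) : Matrix (Fin k) (Fin k) L) *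
        ((N : (Matrix (Fin k) (Fin k) L)ˣ) : Matrix (Fin k) (Fin k) L) := rfl
    rw [e2, Matrix.det_mul, Λ.l_mul _ _ (hgI M).det.1 (hgI N).det.1, (hgI M).det.2,
      (hgI N).det.2] at e1
    have e3 : (k : ℝ) * Λ.l (g (M * N)) = k * (Λ.l (g M) + Λ.l (g N)) := by
      rw [← e1]; ring
    exact mul_left_cancel₀ hk0 e3
  have htr : ∀ (M : S) (i : b), ∃ ψ ∈ F₀.image (fun φ => g ⟨B i, hBS i⟩ * φ),
      ((M : (Matrix (Fin k) (Fin k) L)ˣ) * (i : Matrix (Fin k) (Fin k) L) :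
        Matrix (Fin k) (Fin k) L).trace = g M * ψ := by
    intro M i
    obtain ⟨φ, hφ, he⟩ := hF₀ _ _ (hgI (M * ⟨B i, hBS i⟩)) (g M * g ⟨B i, hBS i⟩)
      ((hgG _).mul (hgG _)) (by rw [hmul, Λ.l_mul _ _ (hgG _) (hgG _)])
    refine ⟨_, Finset.mem_image_of_mem _ hφ, ?_⟩
    rw [← mul_assoc, ← he, ← hB i]
    rfl
  choose ψ hψ1 hψ2 using htr
  let T := Fintype.piFinset fun i : b => F₀.image (fun φ => g ⟨B i, hBS i⟩ * φ)
  have hψT : ∀ M, ψ M ∈ T := fun M => by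
    rw [Fintype.mem_piFinset]; exact hψ1 M
  refine ⟨T.card, fun M => T.equivFin ⟨ψ M, hψT M⟩, fun M M' hMM => ?_⟩
  have hψe : ψ M = ψ M' := congrArg Subtype.val (T.equivFin.injective hMM)
  refine ⟨g M / g M', div_ne_zero (hgG _).ne_zero (hgG _).ne_zero, fun Y hY => ?_⟩
  have hYs : (Y : Matrix (Fin k) (Fin k) L) ∈ Submodule.span L b := by
    rw [hbspan]
    exact Submodule.subset_span ⟨Y, hY, rfl⟩
  have hg' : g M' ≠ 0 := (hgG M').ne_zero
  generalize (Y : Matrix (Fin k) (Fin k) L) = W at hYs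
  induction hYs using Submodule.span_induction with
  | mem W hW =>
    rw [hψ2 M ⟨W, hW⟩, hψ2 M' ⟨W, hW⟩, hψe]
    field_simp
  | zero => simp
  | add W W' _ _ h h' => rw [Matrix.mul_add, Matrix.mul_add, Matrix.trace_add,
      Matrix.trace_add, h, h', mul_add]
  | smul a W _ h =>
    rw [Matrix.mul_smul, Matrix.mul_smul, Matrix.trace_smul, Matrix.trace_smul, h, smul_eq_mul,
      smul_eq_mul]
    ring

lemma finite_of_coloring {S : Subgroup (Matrix (Fin k) (Fin k) L)ˣ}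
    (h : ∃ (n : ℕ) (col : S → Fin n), ∀ M M' : S, col M = col M' →
      ∃ c : L, c ≠ 0 ∧ (((M : (Matrix (Fin k) (Fin k) L)ˣ) : Matrix (Fin k) (Fin k) L)) =
        c • ((M' : (Matrix (Fin k) (Fin k) L)ˣ) : Matrix (Fin k) (Fin k) L)) :
    ∃ Z : Set (Matrix (Fin k) (Fin k) L), Z.Finite ∧ ∀ X ∈ S, ∃ c : L, c ≠ 0 ∧
      ∃ M ∈ Z, (X : Matrix (Fin k) (Fin k) L) = c • M := by
  classical
  obtain ⟨n, col, hcol⟩ := h
  let f : Fin n → Matrix (Fin k) (Fin k) L := fun t =>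
    if h : ∃ M : S, col M = t then
      ((h.choose : (Matrix (Fin k) (Fin k) L)ˣ) : Matrix (Fin k) (Fin k) L) else 1
  refine ⟨Set.range f, Set.finite_range f, fun X hX => ?_⟩
  have h : ∃ M : S, col M = col ⟨X, hX⟩ := ⟨⟨X, hX⟩, rfl⟩
  obtain ⟨c, hc, he⟩ := hcol ⟨X, hX⟩ h.choose h.choose_spec.symm
  refine ⟨c, hc, f (col ⟨X, hX⟩), ⟨_, rfl⟩, ?_⟩
  simp only [f]
  rw [dif_pos h]
  exact he

theorem ltwo_charZero [IsAlgClosed L] [CharZero L] (Λ : Len G) (k : ℕ) : LTwo G Λ.D k := by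
  classical
  intro S _ hS
  rcases Nat.eq_zero_or_pos k with hk | hk
  · subst hk
    exact ⟨{1}, Set.finite_singleton _, fun X _ => ⟨1, one_ne_zero, 1, rfl,
      Subsingleton.elim _ _⟩⟩
  apply finite_of_coloring
  obtain ⟨n, col, hcol⟩ := SG.traces Λ hS hk
  refine ⟨n, col, fun M M' hMM => ?_⟩
  obtain ⟨c, hc, htr⟩ := hcol M M' hMM
  refine ⟨c, hc, ?_⟩
  set Y₀ : (Matrix (Fin k) (Fin k) L)ˣ :=
    (M' : (Matrix (Fin k) (Fin k) L)ˣ)⁻¹ * (M : (Matrix (Fin k) (Fin k) L)ˣ) with hY₀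
  have hY₀S : Y₀ ∈ S := S.mul_mem (S.inv_mem M'.2) M.2
  set Y : Matrix (Fin k) (Fin k) L := (Y₀ : Matrix (Fin k) (Fin k) L) with hY
  have h1 : ∀ W ∈ S, (Y * (W : Matrix (Fin k) (Fin k) L)).trace =
      c * (W : Matrix (Fin k) (Fin k) L).trace := by
    intro W hW
    have e1 : Y * (W : Matrix (Fin k) (Fin k) L) =
        (↑((M' : (Matrix (Fin k) (Fin k) L)ˣ)⁻¹) : Matrix (Fin k) (Fin k) L) *
        ((M : (Matrix (Fin k) (Fin k) L)ˣ) * (W : Matrix (Fin k) (Fin k) L)) := by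
      rw [hY, hY₀, Units.val_mul, Matrix.mul_assoc]
    have e2 := htr (W * (M' : (Matrix (Fin k) (Fin k) L)ˣ)⁻¹)
      (S.mul_mem hW (S.inv_mem M'.2))
    rw [e1, Matrix.trace_mul_comm, Matrix.mul_assoc, ← Units.val_mul, e2, Units.val_mul,
      ← Matrix.mul_assoc, Matrix.trace_mul_comm, ← Matrix.mul_assoc, Units.inv_mul,
      Matrix.one_mul]
  have h2 : ∀ j : ℕ, (Y ^ j).trace = c ^ j * k := by
    intro j
    induction j with
    | zero => simp
    | succ j ih =>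
      have := h1 (Y₀ ^ j) (S.pow_mem hY₀S j)
      rw [Units.val_pow_eq_pow_val] at this
      rw [pow_succ', this, ih, pow_succ]; ring
  have hk0 : (k : L) ≠ 0 := by
    have : k ≠ 0 := by omega
    exact_mod_cast this
  set D := Λ.D with hD
  have hD1 : 1 ≤ D := Λ.hD
  have hD0 : (D : L) ≠ 0 := by
    have : D ≠ 0 := by omega
    exact_mod_cast this
  obtain ⟨_, a, ha⟩ := hS Y₀ hY₀S
  have hac : a = c ^ D := by
    have h3 := h2 D
    rw [hY, ha, Matrix.trace_smul, Matrix.trace_one, Fintype.card_fin, smul_eq_mul] at h3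
    exact mul_right_cancel₀ hk0 h3
  -- the normalised element
  set Z : Matrix (Fin k) (Fin k) L := c⁻¹ • Y with hZ
  have hZD : Z ^ D = 1 := by
    rw [hZ, _root_.smul_pow, hY, ha, hac, smul_smul, ← mul_pow, inv_mul_cancel₀ hc, one_pow,
      one_smul]
  have hZtr : ∀ j : ℕ, (Z ^ j).trace = k := by
    intro j
    rw [hZ, _root_.smul_pow, Matrix.trace_smul, h2, smul_eq_mul, ← mul_assoc, ← mul_pow,
      inv_mul_cancel₀ hc, one_pow, one_mul]
  set P : Matrix (Fin k) (Fin k) L := ((D : L)⁻¹) • ∑ j ∈ Finset.range D, Z ^ j with hP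
  have hZP : Z * P = P := by
    rw [hP, Matrix.mul_smul, Finset.mul_sum]
    congr 1
    have e1 : ∀ j ∈ Finset.range D, Z * Z ^ j = Z ^ (j + 1) := fun j _ => by rw [pow_succ']
    rw [Finset.sum_congr rfl e1]
    have e2 := Finset.sum_range_succ (fun j => Z ^ j) D
    have e3 := Finset.sum_range_succ' (fun j => Z ^ j) D
    rw [e2, hZD, pow_zero] at e3
    exact (add_right_cancel e3).symm
  have hZjP : ∀ j : ℕ, Z ^ j * P = P := by
    intro j
    induction j with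
    | zero => rw [pow_zero, one_mul]
    | succ j ih => rw [pow_succ, mul_assoc, hZP, ih]
  have hPP : P * P = P := by
    conv_lhs => rw [hP]
    rw [Matrix.smul_mul, Finset.sum_mul, Finset.sum_congr rfl fun j _ => hZjP j]
    rw [Finset.sum_const, Finset.card_range, ← Nat.cast_smul_eq_nsmul L, smul_smul,
      inv_mul_cancel₀ hD0, one_smul]
  have hPtr : P.trace = k := by
    rw [hP, Matrix.trace_smul, Matrix.trace_sum, Finset.sum_congr rfl fun j _ => hZtr j,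
      Finset.sum_const, Finset.card_range, nsmul_eq_mul, smul_eq_mul, ← mul_assoc,
      inv_mul_cancel₀ hD0, one_mul]
  have hQ : (1 - P : Matrix (Fin k) (Fin k) L) = 0 := by
    have hid : IsIdempotentElem (1 - P : Matrix (Fin k) (Fin k) L) := by
      have : IsIdempotentElem P := hPP
      exact this.one_sub
    have htr0 : (1 - P : Matrix (Fin k) (Fin k) L).trace = 0 := by
      rw [Matrix.trace_sub, Matrix.trace_one, hPtr, Fintype.card_fin, sub_self]
    have hid' : IsIdempotentElem (Matrix.toLin' (1 - P : Matrix (Fin k) (Fin k) L)) := by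
      rw [IsIdempotentElem]
      show (Matrix.toLin' (1 - P)) ∘ₗ (Matrix.toLin' (1 - P)) = _
      rw [← Matrix.toLin'_mul, hid.eq]
    have h5 := (LinearMap.IsIdempotentElem.trace_eq_zero_iff hid').1 (by
      rw [Matrix.trace_toLin'_eq]
      exact htr0)
    exact (Matrix.toLin' (R := L)).injective (by rw [h5, map_zero])
  have hP1 : P = 1 := (sub_eq_zero.1 hQ).symm
  rw [hP1, mul_one] at hZP
  have hYc : Y = c • 1 := by
    rw [← hZP, hZ, smul_smul, mul_inv_cancel₀ hc, one_smul]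
  have hfin : ((M : (Matrix (Fin k) (Fin k) L)ˣ) : Matrix (Fin k) (Fin k) L) =
      ((M' : (Matrix (Fin k) (Fin k) L)ˣ) : Matrix (Fin k) (Fin k) L) * Y := by
    rw [hY, hY₀, ← Units.val_mul, mul_inv_cancel_left]
  rw [hfin, hYc, Matrix.mul_smul, Matrix.mul_one]

end Pool.Agent.H.MP_df1c3e_lc
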