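import Pool.Agent.H.MP_df1c3e_lc.Arch
import Pool.Agent.H.MP_df1c3e_lc.LTwo0
import Pool.Agent.H.MP_df1c3e_lc.Rigid

/-!
The context in characteristic zero.
-/

namespace Pool.Agent.H.MP_df1c3e_lc

theorem hasCtx_zero (L : Type*) [Field L] [IsAlgClosed L] [CharZero L] [Countable L] :
    HasCtx (csPoly L) := by
  intro G hG N
  obtain ⟨Λ⟩ := exists_len G hG
  obtain ⟨n, P, hP⟩ := exists_places_zero hG
  refine ⟨⟨Λ, rig_of_places hG Λ P hP, fun r _ U hU => MCF_charZero Λ.Γ (U ^ Λ.D) ?_⟩,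
    fun k _ => ltwo_charZero Λ k⟩
  intro μ hμ hμ0
  obtain ⟨ν, hν, rfl⟩ := (eig_pow U Λ.hD μ).1 hμ
  rcases hU ν hν with h | h
  · rw [h, zero_pow (by have := Λ.hD; omega)] at hμ0
    exact absurd rfl hμ0
  · exact Λ.pow_mem_Γ h

end Pool.Agent.H.MP_df1c3e_lc
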