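import Pool.Agent.H.MP_df1c3e_lc.Count

/-!
Descent of bideterministic weighted automata to a subfield.
-/

namespace Pool.Agent.H.MP_df1c3e_lc

open Matrix

section wt

variable {L : Type*} [Field L] {σ : Type*} {P Q : Type}

/-- weight of the unique path of a bideterministic automaton -/
def Wt (δ : P → σ → P) (δ' : σ → Q → Q) (ω : P → σ → Q → L) : P → List σ → Q → L
  | _, [], _ => 1
  | p, a :: w, q => ω p a (w.foldr δ' q) * Wt δ δ' ω (δ p a) w q

variable (δ : P → σ → P) (δ' : σ → Q → Q) (ω : P → σ → Q → L)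

lemma Wt_append (u v : List σ) : ∀ (p : P) (q : Q),
    Wt δ δ' ω p (u ++ v) q = Wt δ δ' ω p u (v.foldr δ' q) * Wt δ δ' ω (u.foldl δ p) v q := by
  induction u with
  | nil => intro p q; simp [Wt]
  | cons a u ih =>
    intro p q
    rw [List.cons_append, Wt, Wt, ih, List.foldr_append, List.foldl_cons, mul_assoc]

lemma Wt_single (p : P) (a : σ) (q : Q) : Wt δ δ' ω p [a] q = ω p a q := by
  simp [Wt]

end wt

variable {K L : Type*} [Field K] [Field L] [Algebra K L] {σ : Type*}

variable (K L σ) in
/-- the `L`-span of the functions recognised over `K` -/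
def Dsp : Submodule L (List σ → L) :=
  Submodule.span L {F | ∃ f : List σ → K, IsPA f ∧ F = fun w => algebraMap K L (f w)}

lemma mem_Dsp {f : List σ → K} (hf : IsPA f) : (fun w => algebraMap K L (f w)) ∈ Dsp K L σ :=
  Submodule.subset_span ⟨f, hf, rfl⟩

variable (K L) in
/-- units modulo units of the subfield -/
def UQ : Type _ := Lˣ ⧸ (Units.map (algebraMap K L : K →* L)).range

noncomputable instance : CommGroup (UQ K L) :=
  inferInstanceAs (CommGroup (Lˣ ⧸ (Units.map (algebraMap K L : K →* L)).range))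

variable (K L) in
/-- projection -/
noncomputable def mkQ : Lˣ →* UQ K L :=
  QuotientGroup.mk' (Units.map (algebraMap K L : K →* L)).range

lemma mkQ_eq_one (u : Lˣ) : mkQ K L u = 1 ↔ ∃ b : Kˣ, Units.map (algebraMap K L : K →* L) b = u :=
  QuotientGroup.eq_one_iff u

lemma mkQ_surjective : Function.Surjective (mkQ K L) := QuotientGroup.mk'_surjective _

open scoped Classical in
variable (K) in
/-- class of a nonzero element -/
noncomputable def cl (z : L) : UQ K L := if h : z ≠ 0 then mkQ K L (Units.mk0 z h) else 1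

lemma cl_mul {z z' : L} (h : z ≠ 0) (h' : z' ≠ 0) : cl K (z * z') = cl K z * cl K z' := by
  rw [cl, cl, cl, dif_pos h, dif_pos h', dif_pos (mul_ne_zero h h'), ← map_mul]
  congr 1
  ext
  simp

lemma cl_one : cl K (1 : L) = 1 := by
  rw [cl, dif_pos one_ne_zero]
  have : Units.mk0 (1 : L) one_ne_zero = 1 := by ext; simp
  rw [this, map_one]

lemma cl_pow {z : L} (h : z ≠ 0) (n : ℕ) : cl K (z ^ n) = cl K z ^ n := by
  induction n with
  | zero => simp [cl_one]
  | succ n ih => rw [pow_succ, pow_succ, cl_mul (pow_ne_zero _ h) h, ih]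

lemma cl_algebraMap {b : K} (hb : b ≠ 0) : cl K (algebraMap K L b) = 1 := by
  have h0 : algebraMap K L b ≠ 0 := by simpa using hb
  rw [cl, dif_pos h0, mkQ_eq_one]
  exact ⟨Units.mk0 b hb, by ext; simp⟩

lemma cl_unit (h : Lˣ) : cl K (h : L) = mkQ K L h := by
  rw [cl, dif_pos h.ne_zero]
  congr 1
  ext
  simp

lemma exists_of_cl_eq_one {z : L} (hz : z ≠ 0) (h : cl K z = 1) :
    ∃ b : K, algebraMap K L b = z := by
  rw [cl, dif_pos hz, mkQ_eq_one] at h
  obtain ⟨b, hb⟩ := h
  refine ⟨b, ?_⟩
  have := congrArg (fun u : Lˣ => (u : L)) hb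
  simpa using this

lemma finite_torsion_fg {Q : Type*} [CommGroup Q] (E : Subgroup Q) (hE : E.FG) {e : ℕ}
    (he : 1 ≤ e) : {t : Q | t ∈ E ∧ t ^ e = 1}.Finite := by
  classical
  have h1 : Group.FG E := (Group.fg_iff_subgroup_fg _).2 hE
  obtain ⟨ι, j, _, _, p, hp, ee, ⟨φ⟩⟩ := CommGroup.equiv_free_prod_prod_multiplicative_zmod E
  have hfin : Finite ((i : ι) → Multiplicative (ZMod (p i ^ ee i))) := by
    have : ∀ i, NeZero (p i ^ ee i) := fun i => ⟨pow_ne_zero _ (hp i).ne_zero⟩
    have : ∀ i, Finite (Multiplicative (ZMod (p i ^ ee i))) := fun i => inferInstance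
    infer_instance
  have hinj : ∀ t t' : E, t ^ e = 1 → t' ^ e = 1 → (φ t).2 = (φ t').2 → t = t' := by
    intro t t' ht ht' h2
    apply φ.injective
    refine Prod.ext ?_ h2
    have hone : ∀ s : E, s ^ e = 1 → (φ s).1 = 1 := by
      intro s hs
      funext i
      have h6 := congrArg (fun y => Multiplicative.toAdd ((φ y).1 i)) hs
      simp only [map_pow, Prod.pow_fst, Pi.pow_apply, toAdd_pow, map_one, Prod.fst_one,
        Pi.one_apply, toAdd_one] at h6
      rcases smul_eq_zero.1 h6 with h7 | h7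
      · omega
      · exact h7
    rw [hone t ht, hone t' ht']
  have hfinE : {t : E | t ^ e = 1}.Finite := by
    refine Set.Finite.of_finite_image (f := fun t : E => (φ t).2) (Set.toFinite _) ?_
    intro t ht t' ht' h2
    exact hinj t t' ht ht' h2
  refine (hfinE.image (fun t : E => (t : Q))).subset ?_
  rintro t ⟨htE, ht⟩
  exact ⟨⟨t, htE⟩, Subtype.ext ht, rfl⟩

lemma ind_sum {ι : Type*} (s : Finset ι) (x : ι → K)
    (h : ∀ i j, x i ≠ 0 → x j ≠ 0 → i = j) : ind (∑ i ∈ s, x i) = ∑ i ∈ s, ind (x i) := by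
  classical
  by_cases h0 : ∃ i ∈ s, x i ≠ 0
  · obtain ⟨i, hi, hx⟩ := h0
    have h1 : ∀ j ∈ s, j ≠ i → x j = 0 := by
      intro j _ hj
      by_contra hne
      exact hj (h j i hne hx)
    rw [Finset.sum_eq_single_of_mem i hi h1, Finset.sum_eq_single_of_mem i hi]
    intro j hj hne
    rw [h1 j hj hne, ind_zero]
  · push Not at h0
    rw [Finset.sum_eq_zero h0, ind_zero, Finset.sum_eq_zero]
    intro i hi
    rw [h0 i hi, ind_zero]

section desc

variable [Finite σ] {np nq : ℕ} (δ : Fin np → σ → Fin np) (δ' : σ → Fin nq → Fin nq)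
  (ω : Fin np → σ → Fin nq → L)

/-- the classes of the weights of all paths are finite in number -/
lemma finite_classes {e : ℕ} (he : 1 ≤ e)
    (hcyc : ∀ p q w, w.foldl δ p = p → w.foldr δ' q = q → Wt δ δ' ω p w q ≠ 0 →
      ∃ b : K, algebraMap K L b = (Wt δ δ' ω p w q) ^ e) :
    {c : UQ K L | ∃ p w q, Wt δ δ' ω p w q ≠ 0 ∧ c = cl K (Wt δ δ' ω p w q)}.Finite := by
  classical
  set E : Subgroup (UQ K L) := Subgroup.closure
    (Set.range fun t : Fin np × σ × Fin nq => cl K (ω t.1 t.2.1 t.2.2)) with hE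
  have hEfg : E.FG := (Subgroup.fg_iff E).2 ⟨_, rfl, Set.finite_range _⟩
  have hmem : ∀ (w : List σ) (p : Fin np) (q : Fin nq), Wt δ δ' ω p w q ≠ 0 →
      cl K (Wt δ δ' ω p w q) ∈ E := by
    intro w
    induction w with
    | nil => intro p q _; rw [Wt, cl_one]; exact E.one_mem
    | cons a w ih =>
      intro p q h
      rw [Wt] at h ⊢
      rw [cl_mul (left_ne_zero_of_mul h) (right_ne_zero_of_mul h)]
      exact E.mul_mem (Subgroup.subset_closure ⟨(p, a, w.foldr δ' q), rfl⟩)
        (ih _ _ (right_ne_zero_of_mul h))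
  set T : Set (UQ K L) := {t | t ∈ E ∧ t ^ e = 1} with hT
  have hTfin : T.Finite := finite_torsion_fg E hEfg he
  set S : Set (UQ K L) := (fun t : Fin np × List σ × Fin nq => cl K (Wt δ δ' ω t.1 t.2.1 t.2.2)) ''
    (Set.univ ×ˢ ({w : List σ | w.length < np * nq} ×ˢ Set.univ)) with hS
  have hSfin : S.Finite :=
    (Set.Finite.prod Set.finite_univ
      ((List.finite_length_lt σ _).prod Set.finite_univ)).image _
  have key : ∀ (n : ℕ) (w : List σ), w.length = n → ∀ p q, Wt δ δ' ω p w q ≠ 0 →
      ∃ t ∈ T, ∃ s ∈ S, cl K (Wt δ δ' ω p w q) = t * s := by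
    intro n
    induction n using Nat.strong_induction_on with
    | _ n ih =>
      intro w hw p q hW
      by_cases hlen : w.length < np * nq
      · refine ⟨1, ⟨E.one_mem, one_pow _⟩, cl K (Wt δ δ' ω p w q), ?_, by rw [one_mul]⟩
        exact ⟨(p, w, q), ⟨Set.mem_univ _, hlen, Set.mem_univ _⟩, rfl⟩
      · obtain ⟨i, j, hij, heq⟩ := Fintype.exists_ne_map_eq_of_card_lt
          (fun i : Fin (w.length + 1) => (((w.take i).foldl δ p, (w.drop i).foldr δ' q) :
            Fin np × Fin nq)) (by
            rw [Fintype.card_prod, Fintype.card_fin, Fintype.card_fin, Fintype.card_fin]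
            omega)
        wlog hlt : i < j generalizing i j
        · exact this j i (Ne.symm hij) heq.symm
            (lt_of_le_of_ne (not_lt.1 hlt) (Ne.symm hij))
        rw [Prod.mk.injEq] at heq
        obtain ⟨hp, hq⟩ := heq
        set u := w.take i with hu
        set v := (w.drop i).take (j - i) with hv
        set z := w.drop j with hz
        have hlt' : (i : ℕ) < j := hlt
        have huv : u ++ v = w.take j := by
          rw [hu, hv, ← List.take_add]
          congr 1
          omega
        have hvz : v ++ z = w.drop i := by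
          have h1 : z = (w.drop i).drop (j - i) := by
            rw [hz, List.drop_drop]
            congr 1
            omega
          rw [h1, hv, List.take_append_drop]
        have hw3 : w = u ++ (v ++ z) := by rw [hvz, hu, List.take_append_drop]
        rw [← huv] at hp
        rw [← hvz] at hq
        have hvl : v.length = j - i := by
          rw [hv, List.length_take, List.length_drop]
          have := j.2
          omega
        set p₁ := u.foldl δ p with hp₁
        set q₁ := z.foldr δ' q with hq₁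
        have hpc : v.foldl δ p₁ = p₁ := by
          rw [hp₁, ← List.foldl_append]; exact hp.symm
        have hqc : v.foldr δ' q₁ = q₁ := by
          rw [hq₁, ← List.foldr_append]; exact hq
        have e1 : Wt δ δ' ω p w q = Wt δ δ' ω p u q₁ * (Wt δ δ' ω p₁ v q₁ * Wt δ δ' ω p₁ z q) := by
          rw [hw3, Wt_append, Wt_append, List.foldr_append, ← hq₁, hqc, ← hp₁, hpc]
        have e2 : Wt δ δ' ω p (u ++ z) q = Wt δ δ' ω p u q₁ * Wt δ δ' ω p₁ z q := by
          rw [Wt_append]
        rw [e1] at hW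
        have n1 := left_ne_zero_of_mul hW
        have n2 := left_ne_zero_of_mul (right_ne_zero_of_mul hW)
        have n3 := right_ne_zero_of_mul (right_ne_zero_of_mul hW)
        have hne : Wt δ δ' ω p (u ++ z) q ≠ 0 := by
          rw [e2]; exact mul_ne_zero n1 n3
        have hshort : (u ++ z).length < n := by
          rw [← hw, hw3, List.length_append, List.length_append, List.length_append]
          omega
        obtain ⟨t, ht, s, hs, hts⟩ := ih _ hshort (u ++ z) rfl p q hne
        refine ⟨cl K (Wt δ δ' ω p₁ v q₁) * t, ⟨E.mul_mem (hmem v p₁ q₁ n2) ht.1, ?_⟩, s, hs, ?_⟩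
        · rw [mul_pow, ht.2, mul_one, ← cl_pow n2]
          obtain ⟨b, hb⟩ := hcyc p₁ q₁ v hpc hqc n2
          rw [← hb]
          apply cl_algebraMap
          rintro rfl
          rw [map_zero] at hb
          exact pow_ne_zero _ n2 hb.symm
        · rw [e1, mul_left_comm, cl_mul n2 (mul_ne_zero n1 n3), ← e2, hts, mul_assoc]
  refine (Set.Finite.mul hTfin hSfin).subset ?_
  rintro c ⟨p, w, q, hW, rfl⟩
  obtain ⟨t, ht, s, hs, he⟩ := key _ w rfl p q hW
  rw [he]
  exact Set.mul_mem_mul ht hs

end desc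

end Pool.Agent.H.MP_df1c3e_lc
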