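import Pool.Agent.H.MP_df1c3e_lc.RigDef

/-!
Degeneration of exponential polynomials with exponents of nonpositive length.
-/

namespace Pool.Agent.H.MP_df1c3e_lc

open MonoidAlgebra Polynomial Module

variable {L : Type*} [Field L] {A : Type*} [CommRing A] {G : Subgroup Lˣ} (Λ : Len G)

lemma Len.inΓ (γ : Λ.Γ) : InG Λ.Γ ((γ : Lˣ) : L) := ⟨γ, γ.2, rfl⟩

lemma Len.inG (γ : Λ.Γ) : InG G ((γ : Lˣ) : L) := (Λ.inΓ γ).mono Λ.Γ_le

/-- length on `Γ` -/
def Len.lg (γ : Λ.Γ) : ℝ := Λ.l ((γ : Lˣ) : L)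

lemma Len.lg_mul (a b : Λ.Γ) : Λ.lg (a * b) = Λ.lg a + Λ.lg b := by
  rw [Len.lg, Len.lg, Len.lg, ← Λ.l_mul _ _ (Λ.inG a) (Λ.inG b)]
  simp

lemma Len.lg_one : Λ.lg 1 = 0 := by
  rw [Len.lg]; simpa using Λ.l_one

lemma Len.lg_pow (a : Λ.Γ) (n : ℕ) : Λ.lg (a ^ n) = n * Λ.lg a := by
  rw [Len.lg, Len.lg, ← Λ.l_pow (Λ.inG a)]
  simp

lemma Len.lg_eq_zero {a : Λ.Γ} (h : Λ.lg a = 0) : a = 1 := by
  apply Subtype.ext
  apply Units.ext
  simpa using Λ.l_eq_zero (Λ.inΓ a) h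

lemma Len.lg_inv (a : Λ.Γ) : Λ.lg a⁻¹ = - Λ.lg a := by
  have h := Λ.lg_mul a a⁻¹
  rw [mul_inv_cancel, Λ.lg_one] at h
  linarith

/-- elements with exponents of nonpositive length -/
def Ele (A : Type*) [CommRing A] : Subring (MonoidAlgebra A Λ.Γ) where
  carrier := {f | ∀ γ : Λ.Γ, f.coeff γ ≠ 0 → Λ.lg γ ≤ 0}
  mul_mem' := by
    classical
    intro f g hf hg γ hγ
    have h1 := MonoidAlgebra.support_coeff_mul_subset f g (Finsupp.mem_support_iff.2 hγ)
    obtain ⟨a, ha, b, hb, rfl⟩ := Finset.mem_mul.1 h1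
    rw [Λ.lg_mul]
    have := hf a (Finsupp.mem_support_iff.1 ha)
    have := hg b (Finsupp.mem_support_iff.1 hb)
    linarith
  one_mem' := by
    classical
    intro γ hγ
    rw [MonoidAlgebra.one_def, MonoidAlgebra.coeff_single, Finsupp.single_apply] at hγ
    split_ifs at hγ with h
    · rw [← h, Λ.lg_one]
    · exact absurd rfl hγ
  add_mem' := by
    intro f g hf hg γ hγ
    by_contra hne
    apply hγ
    rw [MonoidAlgebra.coeff_add, Finsupp.add_apply]
    have h1 : f.coeff γ = 0 := by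
      by_contra h; exact hne (hf γ h)
    have h2 : g.coeff γ = 0 := by
      by_contra h; exact hne (hg γ h)
    rw [h1, h2, add_zero]
  zero_mem' := by
    intro γ hγ
    simp at hγ
  neg_mem' := by
    intro f hf γ hγ
    rw [MonoidAlgebra.coeff_neg, Finsupp.neg_apply, neg_ne_zero] at hγ
    exact hf γ hγ

lemma mem_Ele {f : MonoidAlgebra A Λ.Γ} : f ∈ Ele Λ A ↔ ∀ γ : Λ.Γ, f.coeff γ ≠ 0 → Λ.lg γ ≤ 0 :=
  Iff.rfl

lemma single_mem_Ele {γ : Λ.Γ} {c : A} (h : c ≠ 0 → Λ.lg γ ≤ 0) : single γ c ∈ Ele Λ A := by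
  classical
  rw [mem_Ele]
  intro γ' hγ'
  rw [MonoidAlgebra.coeff_single, Finsupp.single_apply] at hγ'
  split_ifs at hγ' with h1
  · rw [← h1]; exact h hγ'
  · exact absurd rfl hγ'

/-- kill all exponents except `1` -/
def eps (A : Type*) [CommRing A] : Ele Λ A →+* A where
  toFun f := (f : MonoidAlgebra A Λ.Γ).coeff 1
  map_one' := by
    classical
    show (1 : MonoidAlgebra A Λ.Γ).coeff 1 = 1
    rw [MonoidAlgebra.one_def, MonoidAlgebra.coeff_single, Finsupp.single_eq_same]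
  map_zero' := by
    show (0 : MonoidAlgebra A Λ.Γ).coeff 1 = 0
    simp
  map_add' f g := by
    show ((f : MonoidAlgebra A Λ.Γ) + (g : MonoidAlgebra A Λ.Γ)).coeff 1 = _
    rw [MonoidAlgebra.coeff_add, Finsupp.add_apply]
  map_mul' f g := by
    classical
    show ((f : MonoidAlgebra A Λ.Γ) * (g : MonoidAlgebra A Λ.Γ)).coeff 1 = _
    rw [MonoidAlgebra.coeff_mul]
    have key : ∀ a b : Λ.Γ, (f : MonoidAlgebra A Λ.Γ).coeff a ≠ 0 →
        (g : MonoidAlgebra A Λ.Γ).coeff b ≠ 0 → a * b = 1 → a = 1 ∧ b = 1 := by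
      intro a b ha hb hab
      have h1 := f.2 a ha
      have h2 := g.2 b hb
      have h3 := Λ.lg_mul a b
      rw [hab, Λ.lg_one] at h3
      exact ⟨Λ.lg_eq_zero (by linarith), Λ.lg_eq_zero (by linarith)⟩
    rw [Finsupp.sum]
    by_cases hf1 : (f : MonoidAlgebra A Λ.Γ).coeff 1 = 0
    · rw [hf1, zero_mul]
      refine Finset.sum_eq_zero fun a ha => Finset.sum_eq_zero fun b hb => ?_
      dsimp only
      rw [if_neg]
      intro hab
      have := (key a b (Finsupp.mem_support_iff.1 ha) (Finsupp.mem_support_iff.1 hb) hab).1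
      rw [this] at ha
      exact Finsupp.mem_support_iff.1 ha hf1
    by_cases hg1 : (g : MonoidAlgebra A Λ.Γ).coeff 1 = 0
    · rw [hg1, mul_zero]
      refine Finset.sum_eq_zero fun a ha => Finset.sum_eq_zero fun b hb => ?_
      dsimp only
      rw [if_neg]
      intro hab
      have := (key a b (Finsupp.mem_support_iff.1 ha) (Finsupp.mem_support_iff.1 hb) hab).2
      rw [this] at hb
      exact Finsupp.mem_support_iff.1 hb hg1
    rw [Finset.sum_eq_single_of_mem 1 (Finsupp.mem_support_iff.2 hf1), Finsupp.sum,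
      Finset.sum_eq_single_of_mem 1 (Finsupp.mem_support_iff.2 hg1), if_pos (one_mul _)]
    · intro b hb hb1
      rw [if_neg]
      intro hab
      exact hb1 (key 1 b hf1 (Finsupp.mem_support_iff.1 hb) hab).2
    · intro a ha ha1
      refine Finset.sum_eq_zero fun b hb => ?_
      dsimp only
      rw [if_neg]
      intro hab
      exact ha1 (key a b (Finsupp.mem_support_iff.1 ha) (Finsupp.mem_support_iff.1 hb) hab).1

lemma eps_apply (f : Ele Λ A) : eps Λ A f = (f : MonoidAlgebra A Λ.Γ).coeff 1 := rfl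

variable {Λ}

lemma sg_mem_Ele (cs : CS L A) (n h : ℕ) {f : MonoidAlgebra A Λ.Γ} (hf : f ∈ Ele Λ A) :
    cs.sg Λ.Γ n h f ∈ Ele Λ A := by
  classical
  rw [CS.sg_apply, Finsupp.sum]
  refine Subring.sum_mem _ fun a ha => single_mem_Ele Λ fun _ => ?_
  rw [Λ.lg_pow]
  have := hf a (Finsupp.mem_support_iff.1 ha)
  exact mul_nonpos_of_nonneg_of_nonpos (Nat.cast_nonneg h) this

lemma sg_coeff_one (cs : CS L A) (n h : ℕ) (hh : 1 ≤ h) (f : MonoidAlgebra A Λ.Γ) :
    (cs.sg Λ.Γ n h f).coeff 1 = cs.sub n h (f.coeff 1) := by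
  have := cs.coeff_sg n h hh f (1 : Λ.Γ)
  rw [one_pow] at this
  rw [this]; simp

/-- roots of monic polynomials over `Ele` lie in `Ele` -/
lemma root_in_Ele (cs : CS L A) (q : Polynomial (MonoidAlgebra A Λ.Γ)) (hq : q.Monic)
    (hc : ∀ s, q.coeff s ∈ Ele Λ A) (g : Λ.Γ) (c : L)
    (hr : q.IsRoot (cs.mon Λ.Γ g c)) : c ≠ 0 → Λ.lg g ≤ 0 := by
  classical
  intro hc0
  by_contra hg
  push Not at hg
  have hpow : ∀ s, (cs.mon Λ.Γ g c) ^ s = single (g ^ s) (cs.k (c ^ s)) := by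
    intro s
    rw [CS.mon, MonoidAlgebra.single_pow, map_pow]
  rw [IsRoot, eval_eq_sum_range, Finset.sum_range_succ, hq.coeff_natDegree, one_mul] at hr
  have h1 := congrArg (fun f : MonoidAlgebra A Λ.Γ => f.coeff (g ^ q.natDegree)) hr
  simp only [MonoidAlgebra.coeff_add, Finsupp.add_apply, MonoidAlgebra.coeff_sum,
    Finsupp.finsetSum_apply, MonoidAlgebra.coeff_zero, Finsupp.coe_zero, Pi.zero_apply, hpow] at h1
  rw [Finset.sum_eq_zero, zero_add, MonoidAlgebra.coeff_single, Finsupp.single_eq_same] at h1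
  · have := cs.k_inj (a := c ^ q.natDegree) (b := 0) (by rw [h1, map_zero])
    exact pow_ne_zero _ hc0 this
  · intro s hs
    rw [Finset.mem_range] at hs
    rw [MonoidAlgebra.coeff_mul_single_apply]
    have h2 : (q.coeff s).coeff (g ^ q.natDegree * (g ^ s)⁻¹) = 0 := by
      by_contra h3
      have h4 := hc s _ h3
      rw [Λ.lg_mul, Λ.lg_inv, Λ.lg_pow, Λ.lg_pow] at h4
      have h5 : (s : ℝ) < q.natDegree := by exact_mod_cast hs
      nlinarith
    rw [h2, zero_mul]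

open scoped Classical in
/-- degeneration lemma -/
lemma degen (cs : CS L A) {n : Type} [Fintype n] [DecidableEq n]
    (M : Matrix n n (Ele Λ A)) {r : ℕ} (n1 h : ℕ) (hh : 1 ≤ h) (c : Fin r → L) (g : Fin r → Λ.Γ)
    (hp : ((M.map (Ele Λ A).subtype).charpoly).map (cs.sg Λ.Γ n1 h) =
      ∏ i, (X - C (cs.mon Λ.Γ (g i) (c i)))) :
    (∀ i, c i ≠ 0 → Λ.lg (g i) ≤ 0) ∧
    ((M.map (eps Λ A)).charpoly).map (cs.sub n1 h) =
      ∏ i, (X - C (cs.k (if g i = 1 then c i else 0))) := by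
  classical
  set q := ((M.map (Ele Λ A).subtype).charpoly).map (cs.sg Λ.Γ n1 h) with hq
  have hcoef : ∀ s, ((M.map (Ele Λ A).subtype).charpoly).coeff s =
      ((M.charpoly.coeff s : Ele Λ A) : MonoidAlgebra A Λ.Γ) := by
    intro s
    rw [Matrix.charpoly_map, Polynomial.coeff_map]; rfl
  have hqc : ∀ s, q.coeff s ∈ Ele Λ A := by
    intro s
    rw [hq, Polynomial.coeff_map, hcoef]
    exact sg_mem_Ele cs n1 h (M.charpoly.coeff s).2
  have hqm : q.Monic := (Matrix.charpoly_monic _).map _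
  have h1 : ∀ i, c i ≠ 0 → Λ.lg (g i) ≤ 0 := by
    intro i
    refine root_in_Ele cs q hqm hqc (g i) (c i) ?_
    rw [hp, IsRoot, eval_prod]
    exact Finset.prod_eq_zero (Finset.mem_univ i) (by simp)
  refine ⟨h1, ?_⟩
  have hmem : ∀ i, cs.mon Λ.Γ (g i) (c i) ∈ Ele Λ A := by
    intro i
    refine single_mem_Ele Λ fun hne => h1 i ?_
    rintro h0
    rw [h0, map_zero] at hne
    exact hne rfl
  set m0 : Fin r → Ele Λ A := fun i => ⟨cs.mon Λ.Γ (g i) (c i), hmem i⟩ with hm0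
  set q0 : Polynomial (Ele Λ A) := ∏ i, (X - C (m0 i)) with hq0
  have hq0map : q0.map (Ele Λ A).subtype = q := by
    rw [hp, hq0, Polynomial.map_prod]
    refine Finset.prod_congr rfl fun i _ => ?_
    rw [Polynomial.map_sub, map_X, map_C]; rfl
  have hq0c : ∀ s, ((q0.coeff s : Ele Λ A) : MonoidAlgebra A Λ.Γ) = q.coeff s := by
    intro s
    rw [← hq0map, Polynomial.coeff_map]; rfl
  have h2 : ((M.map (eps Λ A)).charpoly).map (cs.sub n1 h) = q0.map (eps Λ A) := by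
    ext s
    rw [Polynomial.coeff_map, Matrix.charpoly_map, Polynomial.coeff_map, Polynomial.coeff_map,
      eps_apply, eps_apply, hq0c s, hq, Polynomial.coeff_map, hcoef, sg_coeff_one cs n1 h hh]
  rw [h2, hq0, Polynomial.map_prod]
  refine Finset.prod_congr rfl fun i _ => ?_
  rw [Polynomial.map_sub, map_X, map_C, eps_apply]
  congr 2
  show (cs.mon Λ.Γ (g i) (c i)).coeff 1 = _
  rw [CS.mon, MonoidAlgebra.coeff_single, Finsupp.single_apply]
  split_ifs
  · rfl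
  · rw [map_zero]

end Pool.Agent.H.MP_df1c3e_lc
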