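import Pool.Agent.H.MP_df1c3e_lc.Ctx

/-!
The extremal argument: irreducible semigroups of matrices with finitely generated spectrum.
-/

namespace Pool.Agent.H.MP_df1c3e_lc

open MonoidAlgebra Polynomial Module Matrix

variable {L : Type*} [Field L] {A : Type*} [CommRing A] {G : Subgroup Lˣ} {cs : CS L A}

/-- normalised powers as a matrix over `Ele` -/
lemma exists_theta [IsAlgClosed L] {N : ℕ} (C : Ctx cs G N) {r : ℕ} (hr : r ≤ N)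
    (U : Matrix (Fin r) (Fin r) L) (hU : ∀ μ, U.charpoly.IsRoot μ → μ = 0 ∨ InG G μ)
    (χ : C.Λ.Γ) (hχ : ∀ μ, U.charpoly.IsRoot μ → μ ≠ 0 → C.Λ.D * C.Λ.l μ ≤ C.Λ.lg χ) :
    ∃ Θ : Matrix (Fin r) (Fin r) (Ele C.Λ A),
      (∀ m, N ≤ m → Θ.map (evE cs C.Λ m) = (((χ : Lˣ) : L)⁻¹) ^ m • U ^ (C.Λ.D * m)) ∧
      ∀ i j (γ : C.Λ.Γ), ((Θ i j : Ele C.Λ A) : MonoidAlgebra A C.Λ.Γ).coeff γ ≠ 0 →
        ∃ μ, U.charpoly.IsRoot μ ∧ μ ≠ 0 ∧ C.Λ.lg γ = C.Λ.D * C.Λ.l μ - C.Λ.lg χ := by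
  classical
  obtain ⟨Θ', h1, h2⟩ := C.mcf r hr U hU
  have hcoef : ∀ i j (γ : C.Λ.Γ), ((single χ⁻¹ 1 * Θ' i j : MonoidAlgebra A C.Λ.Γ)).coeff γ ≠ 0 →
      ∃ μ, U.charpoly.IsRoot μ ∧ μ ≠ 0 ∧ C.Λ.lg γ = C.Λ.D * C.Λ.l μ - C.Λ.lg χ := by
    intro i j γ hγ
    rw [MonoidAlgebra.coeff_single_mul_apply, one_mul, inv_inv] at hγ
    obtain ⟨ν, hν, hνe⟩ := (eig_pow U C.Λ.hD _).1 (h2 i j _ hγ)
    have hν0 : ν ≠ 0 := by
      rintro rfl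
      rw [zero_pow (by have := C.Λ.hD; omega)] at hνe
      exact Units.ne_zero _ hνe.symm
    refine ⟨ν, hν, hν0, ?_⟩
    have h3 : C.Λ.lg (χ * γ) = C.Λ.D * C.Λ.l ν := by
      rw [Len.lg, ← hνe, C.Λ.l_pow ((hU ν hν).resolve_left hν0)]
    rw [C.Λ.lg_mul] at h3
    linarith
  have hmem : ∀ i j, (single χ⁻¹ 1 * Θ' i j : MonoidAlgebra A C.Λ.Γ) ∈ Ele C.Λ A := by
    intro i j γ hγ
    obtain ⟨μ, hμ, hμ0, he⟩ := hcoef i j γ hγ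
    have := hχ μ hμ hμ0
    linarith
  refine ⟨Matrix.of fun i j => ⟨_, hmem i j⟩, fun m hm => ?_, hcoef⟩
  ext i j
  rw [Matrix.map_apply, Matrix.of_apply, Matrix.smul_apply, smul_eq_mul]
  show cs.ev C.Λ.Γ m (single χ⁻¹ 1 * Θ' i j) = _
  rw [map_mul, CS.ev_single, map_one, one_mul, pow_mul, ← h1 m (Or.inl (hr.trans hm)),
    Matrix.map_apply]
  simp

/-- `s` has top length `t` with multiplicity `r` -/
def Top (Λ : Len G) {n : Type*} [Fintype n] [DecidableEq n] (s : Matrix n n L) (t : ℝ)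
    (r : ℕ) : Prop :=
  ∃ (m : ℕ) (c : Fin m → L), s.charpoly = ∏ i, (X - Polynomial.C (c i)) ∧
    (∀ i, c i ≠ 0 → Λ.l (c i) ≤ t) ∧
    ∃ S : Finset (Fin m), (∀ i, i ∈ S ↔ c i ≠ 0 ∧ Λ.l (c i) = t) ∧ S.card = r ∧ 1 ≤ r

/-- data of the extremal argument in block form -/
structure XD (cs : CS L A) (G : Subgroup Lˣ) (N ρ k : ℕ) where
  /-- context -/
  C : Ctx cs G N
  hN : ρ + k ≤ N
  hρ : 1 ≤ ρ
  /-- semigroup -/
  S : Submonoid (Matrix (Fin ρ ⊕ Fin k) (Fin ρ ⊕ Fin k) L)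
  hS : ∀ s ∈ S, ∀ μ, s.charpoly.IsRoot μ → μ = 0 ∨ InG G μ
  hscale : ∀ κ, InG G κ → ∀ s ∈ S, κ • s ∈ S
  hspan : Submodule.span L (S : Set (Matrix (Fin ρ ⊕ Fin k) (Fin ρ ⊕ Fin k) L)) = ⊤
  /-- top block -/
  U₁ : Matrix (Fin ρ) (Fin ρ) L
  /-- bottom block -/
  U₂ : Matrix (Fin k) (Fin k) L
  hw : Matrix.fromBlocks U₁ 0 0 U₂ ∈ S
  /-- top length -/
  t₀ : ℝ
  h1 : ∀ μ, U₁.charpoly.IsRoot μ → InG G μ ∧ C.Λ.l μ = t₀
  h2 : ∀ μ, U₂.charpoly.IsRoot μ → μ = 0 ∨ (InG G μ ∧ C.Λ.l μ < t₀)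
  hmin : ∀ s ∈ S, ∀ t r, Top C.Λ s t r → ρ ≤ r

variable {N ρ k : ℕ}

/-- normalised powers of the extremal element -/
def XD.T (x : XD cs G N ρ k) (χ : x.C.Λ.Γ) (m : ℕ) :
    Matrix (Fin ρ ⊕ Fin k) (Fin ρ ⊕ Fin k) L :=
  (((χ : Lˣ) : L)⁻¹) ^ m • (Matrix.fromBlocks x.U₁ 0 0 x.U₂) ^ (x.C.Λ.D * m)

lemma XD.T_mem (x : XD cs G N ρ k) (χ : x.C.Λ.Γ) (m : ℕ) : x.T χ m ∈ x.S :=
  x.hscale _ ((x.C.Λ.inG χ).inv.pow m) _ (x.S.pow_mem x.hw _)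

lemma XD.exists_data [IsAlgClosed L] (x : XD cs G N ρ k) :
    ∃ (χ : x.C.Λ.Γ) (Θ : Matrix (Fin ρ ⊕ Fin k) (Fin ρ ⊕ Fin k) (Ele x.C.Λ A)),
      (∀ m, N ≤ m → Θ.map (evE cs x.C.Λ m) = x.T χ m) ∧
      Θ.map (eps x.C.Λ A) = Matrix.fromBlocks 1 0 0 0 := by
  classical
  have hne : Nonempty (Fin ρ) := ⟨⟨0, x.hρ⟩⟩
  obtain ⟨μ₀, hμ₀⟩ := exists_eig x.U₁
  obtain ⟨hμG, hμt⟩ := x.h1 μ₀ hμ₀
  obtain ⟨χu, hχu, hχe⟩ := x.C.Λ.pow_mem_Γ hμG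
  set χ : x.C.Λ.Γ := ⟨χu, hχu⟩ with hχ
  have hlχ : x.C.Λ.lg χ = x.C.Λ.D * x.t₀ := by
    rw [Len.lg]
    show x.C.Λ.l (χu : L) = _
    rw [hχe, x.C.Λ.l_pow hμG, hμt]
  have hD0 : (0 : ℝ) < x.C.Λ.D := by
    have := x.C.Λ.hD
    exact_mod_cast this
  obtain ⟨Θ₁, hΘ₁, hΘ₁'⟩ := exists_theta x.C (by have := x.hN; omega) x.U₁
    (fun μ hμ => Or.inr (x.h1 μ hμ).1) χ (fun μ hμ _ => by
      rw [(x.h1 μ hμ).2, hlχ])
  obtain ⟨Θ₂, hΘ₂, hΘ₂'⟩ := exists_theta x.C (by have := x.hN; omega) x.U₂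
    (fun μ hμ => (x.h2 μ hμ).imp id And.left) χ (fun μ hμ h0 => by
      have := ((x.h2 μ hμ).resolve_left h0).2
      rw [hlχ]
      exact mul_le_mul_of_nonneg_left this.le hD0.le)
  set Θ : Matrix (Fin ρ ⊕ Fin k) (Fin ρ ⊕ Fin k) (Ele x.C.Λ A) :=
    Matrix.fromBlocks Θ₁ 0 0 Θ₂ with hΘ
  have hmap : ∀ m, N ≤ m → Θ.map (evE cs x.C.Λ m) = x.T χ m := by
    intro m hm
    rw [hΘ, Matrix.fromBlocks_map, hΘ₁ m hm, hΘ₂ m hm, XD.T, Matrix.fromBlocks_diagonal_pow,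
      Matrix.fromBlocks_smul]
    simp
  have heps₂ : Θ₂.map (eps x.C.Λ A) = 0 := by
    ext i j
    rw [Matrix.map_apply, Matrix.zero_apply, eps_apply]
    by_contra hne
    obtain ⟨μ, hμ, hμ0, he⟩ := hΘ₂' i j 1 hne
    rw [x.C.Λ.lg_one, hlχ] at he
    have h3 := ((x.h2 μ hμ).resolve_left hμ0).2
    have h4 : (x.C.Λ.D : ℝ) * (x.C.Λ.l μ - x.t₀) = 0 := by linarith
    rcases mul_eq_zero.1 h4 with h5 | h5
    · exact hD0.ne' h5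
    · linarith
  set Φ := Θ₁.map (eps x.C.Λ A) with hΦ
  have heps : Θ.map (eps x.C.Λ A) = Matrix.fromBlocks Φ 0 0 0 := by
    rw [hΘ, Matrix.fromBlocks_map, heps₂]
    simp [hΦ]
  have hev1 : ∀ m, Θ₁.map (evE cs x.C.Λ m) = Φ.map (cs.e m) := by
    intro m
    ext i j
    rw [Matrix.map_apply, Matrix.map_apply, hΦ, Matrix.map_apply, eps_apply]
    have h3 : ((Θ₁ i j : Ele x.C.Λ A) : MonoidAlgebra A x.C.Λ.Γ) = single 1
        (((Θ₁ i j : Ele x.C.Λ A) : MonoidAlgebra A x.C.Λ.Γ).coeff 1) := by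
      ext γ
      rw [MonoidAlgebra.coeff_single, Finsupp.single_apply]
      split_ifs with hγ
      · rw [hγ]
      · by_contra hne
        obtain ⟨μ, hμ, hμ0, he⟩ := hΘ₁' i j γ hne
        rw [(x.h1 μ hμ).2, hlχ, sub_self] at he
        exact hγ (x.C.Λ.lg_eq_zero he).symm
    show cs.ev x.C.Λ.Γ m ((Θ₁ i j : Ele x.C.Λ A) : MonoidAlgebra A x.C.Λ.Γ) = _
    conv_lhs => rw [h3]
    rw [CS.ev_single]; simp
  -- traces
  have hn : Nonempty (Fin ρ ⊕ Fin k) := ⟨Sum.inl ⟨0, x.hρ⟩⟩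
  have htr : ∀ u ∈ x.S, ∃ a : L,
      Matrix.trace (u.map cs.k * (Matrix.fromBlocks Φ 0 0 0 : Matrix (Fin ρ ⊕ Fin k)
        (Fin ρ ⊕ Fin k) A)) = cs.k a := by
    intro u hu
    obtain ⟨n1, h, hh, c, g, hc, hcg, he, _⟩ := x.C.step (u.map (cE cs x.C.Λ) * Θ)
      (r := ρ + k) (by simp) N (by
        intro m hm μ hμ
        rw [Matrix.map_mul, hmap m hm] at hμ
        have h4 : (u.map (cE cs x.C.Λ)).map (evE cs x.C.Λ m) = u := by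
          ext i j
          rw [Matrix.map_apply, Matrix.map_apply, evE_cE]
        rw [h4] at hμ
        exact x.hS _ (x.S.mul_mem hu (x.T_mem χ m)) μ hμ)
    have h5 : (u.map (cE cs x.C.Λ) * Θ).map (eps x.C.Λ A) =
        u.map cs.k * (Matrix.fromBlocks Φ 0 0 0 : Matrix (Fin ρ ⊕ Fin k)
        (Fin ρ ⊕ Fin k) A) := by
      rw [Matrix.map_mul, heps]
      congr 1
      ext i j
      rw [Matrix.map_apply, Matrix.map_apply, Matrix.map_apply, eps_cE]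
    rw [h5] at he
    rw [Matrix.trace_eq_neg_charpoly_coeff, he, Polynomial.coeff_map]
    exact ⟨_, (map_neg cs.k _).symm⟩
  let W : Submodule L (Matrix (Fin ρ ⊕ Fin k) (Fin ρ ⊕ Fin k) L) :=
    { carrier := {u | ∃ a : L, Matrix.trace (u.map cs.k * (Matrix.fromBlocks Φ 0 0 0 :
        Matrix (Fin ρ ⊕ Fin k) (Fin ρ ⊕ Fin k) A)) = cs.k a}
      add_mem' := by
        rintro u v ⟨a, ha⟩ ⟨b, hb⟩
        refine ⟨a + b, ?_⟩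
        rw [map_add, ← ha, ← hb, ← Matrix.trace_add, ← Matrix.add_mul]
        congr 2
        ext i j
        simp
      zero_mem' := ⟨0, by simp⟩
      smul_mem' := by
        rintro z u ⟨a, ha⟩
        refine ⟨z * a, ?_⟩
        have e1 : (z • u).map cs.k = cs.k z • (u.map cs.k) := by
          ext i j
          simp
        rw [map_mul, ← ha, e1, Matrix.smul_mul, Matrix.trace_smul, smul_eq_mul] }
  have hW : W = ⊤ := by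
    rw [eq_top_iff, ← x.hspan, Submodule.span_le]
    intro u hu
    exact htr u hu
  have hΦk : ∀ i j, ∃ a : L, Φ i j = cs.k a := by
    intro i j
    have h6 : (Matrix.single (Sum.inl j) (Sum.inl i) (1 : L) :
        Matrix (Fin ρ ⊕ Fin k) (Fin ρ ⊕ Fin k) L) ∈ W := by rw [hW]; trivial
    obtain ⟨a, ha⟩ := h6
    refine ⟨a, ?_⟩
    rw [← ha]
    have h7 : (Matrix.single (Sum.inl j) (Sum.inl i) (1 : L) :
        Matrix (Fin ρ ⊕ Fin k) (Fin ρ ⊕ Fin k) L).map cs.k =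
        Matrix.single (Sum.inl j) (Sum.inl i) (1 : A) := by
      rw [Matrix.map_single]
      simp
    rw [h7, Matrix.trace_single_mul, one_smul, Matrix.fromBlocks_apply₁₁]
  choose θ hθ using hΦk
  have hΦθ : Φ = (Matrix.of θ).map cs.k := by
    ext i j
    rw [Matrix.map_apply, Matrix.of_apply, hθ]
  have hconst : ∀ m, N ≤ m → (((χ : Lˣ) : L)⁻¹) ^ m • x.U₁ ^ (x.C.Λ.D * m) = Matrix.of θ := by
    intro m hm
    rw [← hΘ₁ m hm, hev1, hΦθ]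
    ext i j
    rw [Matrix.map_apply, Matrix.map_apply, cs.e_k]
  set T₁ := ((χ : Lˣ) : L)⁻¹ • x.U₁ ^ x.C.Λ.D with hT₁
  have hT₁m : ∀ m, T₁ ^ m = (((χ : Lˣ) : L)⁻¹) ^ m • x.U₁ ^ (x.C.Λ.D * m) := by
    intro m
    rw [hT₁, _root_.smul_pow, pow_mul]
  have hdet : IsUnit T₁ := by
    rw [Matrix.isUnit_iff_isUnit_det, isUnit_iff_ne_zero]
    intro h0
    rw [← eig_zero_iff, hT₁, eig_smul _ (inv_ne_zero (Units.ne_zero _))] at h0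
    obtain ⟨ν, hν, hν0⟩ := h0
    rcases mul_eq_zero.1 hν0 with h8 | h8
    · exact inv_ne_zero (Units.ne_zero _) h8
    · rw [h8] at hν
      obtain ⟨ν', hν', hν'0⟩ := (eig_pow x.U₁ x.C.Λ.hD 0).1 hν
      exact (x.h1 ν' hν').1.ne_zero (pow_eq_zero_iff (by have := x.C.Λ.hD; omega) |>.1 hν'0)
  have hT₁1 : T₁ = 1 := by
    have h9 : T₁ ^ (N + 1) = T₁ ^ N := by
      rw [hT₁m, hT₁m, hconst _ (by omega), hconst _ le_rfl]
    rw [pow_succ] at h9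
    have h10 : T₁ ^ N * T₁ = T₁ ^ N * 1 := by rw [h9, mul_one]
    exact (hdet.pow N).mul_left_cancel h10
  have hθ1 : Matrix.of θ = 1 := by
    rw [← hconst N le_rfl, ← hT₁m, hT₁1, one_pow]
  refine ⟨χ, Θ, hmap, ?_⟩
  rw [heps, hΦθ, hθ1]
  congr 1
  ext i j
  rw [Matrix.map_apply, Matrix.one_apply, Matrix.one_apply]
  split_ifs <;> simp

end Pool.Agent.H.MP_df1c3e_lc
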