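import Pool.Agent.H.MP_df1c3e_lc.Ext

/-!
The extremal argument: dichotomy for compressions.
-/

namespace Pool.Agent.H.MP_df1c3e_lc

open MonoidAlgebra Polynomial Module Matrix

variable {L : Type*} [Field L] {A : Type*} [CommRing A] {G : Subgroup Lˣ} {cs : CS L A}
  {N ρ k : ℕ}

/-- each product of two compressions is nilpotent or invertible with eigenvalues of the same
length -/
lemma XD.dich [IsAlgClosed L] (x : XD cs G N ρ k)
    (u₁ u₂ : Matrix (Fin ρ ⊕ Fin k) (Fin ρ ⊕ Fin k) L) (h₁ : u₁ ∈ x.S) (h₂ : u₂ ∈ x.S) :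
    (∀ μ, (u₁.toBlocks₁₁ * u₂.toBlocks₁₁).charpoly.IsRoot μ → μ = 0) ∨
    ∃ t, ∀ μ, (u₁.toBlocks₁₁ * u₂.toBlocks₁₁).charpoly.IsRoot μ → InG G μ ∧ x.C.Λ.l μ = t := by
  classical
  have hnt : Nontrivial A := (cs.e 0).domain_nontrivial
  obtain ⟨χ, Θ, hmap, heps⟩ := x.exists_data
  set M := u₁.map (cE cs x.C.Λ) * Θ * u₂.map (cE cs x.C.Λ) * Θ with hM
  have hcE : ∀ (u : Matrix (Fin ρ ⊕ Fin k) (Fin ρ ⊕ Fin k) L) m,
      (u.map (cE cs x.C.Λ)).map (evE cs x.C.Λ m) = u := by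
    intro u m
    ext i j
    rw [Matrix.map_apply, Matrix.map_apply, evE_cE]
  have hMev : ∀ m, N ≤ m → M.map (evE cs x.C.Λ m) = u₁ * x.T χ m * u₂ * x.T χ m := by
    intro m hm
    rw [hM, Matrix.map_mul, Matrix.map_mul, Matrix.map_mul, hcE, hcE, hmap m hm]
  have hMmem : ∀ m, N ≤ m → M.map (evE cs x.C.Λ m) ∈ x.S := by
    intro m hm
    rw [hMev m hm]
    exact x.S.mul_mem (x.S.mul_mem (x.S.mul_mem h₁ (x.T_mem χ m)) h₂) (x.T_mem χ m)
  obtain ⟨n1, h, hh, c, g, hc, hcg, he, hj⟩ := x.C.step M (r := ρ + k) (by simp) N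
    (fun m hm μ hμ => x.hS _ (hMmem m hm) μ hμ)
  have hMeps : M.map (eps x.C.Λ A) =
      (Matrix.fromBlocks (u₁.toBlocks₁₁ * u₂.toBlocks₁₁) 0
        (u₁.toBlocks₂₁ * u₂.toBlocks₁₁) 0 :
        Matrix (Fin ρ ⊕ Fin k) (Fin ρ ⊕ Fin k) L).map cs.k := by
    have h3 : ∀ u : Matrix (Fin ρ ⊕ Fin k) (Fin ρ ⊕ Fin k) L,
        (u.map (cE cs x.C.Λ)).map (eps x.C.Λ A) = u.map cs.k := by
      intro u
      ext i j
      rw [Matrix.map_apply, Matrix.map_apply, Matrix.map_apply, eps_cE]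
    have h4 : (Matrix.fromBlocks 1 0 0 0 : Matrix (Fin ρ ⊕ Fin k) (Fin ρ ⊕ Fin k) A) =
        (Matrix.fromBlocks 1 0 0 0 : Matrix (Fin ρ ⊕ Fin k) (Fin ρ ⊕ Fin k) L).map cs.k := by
      rw [Matrix.fromBlocks_map]
      congr 1
      · ext i j
        rw [Matrix.map_apply, Matrix.one_apply, Matrix.one_apply]
        split_ifs <;> simp
      · simp
      · simp
      · simp
    rw [hM, Matrix.map_mul, Matrix.map_mul, Matrix.map_mul, h3, h3, heps, h4, ← Matrix.map_mul,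
      ← Matrix.map_mul, ← Matrix.map_mul]
    congr 1
    conv_lhs => rw [← Matrix.fromBlocks_toBlocks u₁, ← Matrix.fromBlocks_toBlocks u₂]
    rw [Matrix.fromBlocks_multiply, Matrix.fromBlocks_multiply, Matrix.fromBlocks_multiply]
    simp
  have hkinj : Function.Injective cs.k := cs.k.injective
  have hq : (u₁.toBlocks₁₁ * u₂.toBlocks₁₁).charpoly * X ^ k =
      ∏ i, (X - Polynomial.C (if g i = 1 then c i else 0)) := by
    apply Polynomial.map_injective cs.k hkinj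
    rw [← he, hMeps, Matrix.charpoly_map, Matrix.charpoly_fromBlocks_zero₁₂]
    have h0 : (0 : Matrix (Fin k) (Fin k) L).charpoly = X ^ k := by
      simp [Matrix.charpoly_zero]
    rw [h0]
  set P := (u₁.toBlocks₁₁ * u₂.toBlocks₁₁).charpoly with hP
  set I : Finset (Fin (ρ + k)) := Finset.univ.filter fun i => c i ≠ 0 ∧ g i = 1 with hI
  have hmemI : ∀ i, i ∈ I ↔ c i ≠ 0 ∧ g i = 1 := by
    intro i; rw [hI, Finset.mem_filter]; simp
  set b := (Finset.univ.filter fun i => ¬ (c i ≠ 0 ∧ g i = 1)).card with hb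
  have hcard : I.card + b = ρ + k := by
    rw [hI, hb, Finset.card_filter_add_card_filter_not]
    simp
  set Q : L[X] := ∏ i ∈ I, (X - Polynomial.C (c i)) with hQ
  have hRHS : P * X ^ k = Q * X ^ b := by
    rw [hq, ← Finset.prod_filter_mul_prod_filter_not Finset.univ
      (fun i => c i ≠ 0 ∧ g i = 1)]
    congr 1
    · refine Finset.prod_congr rfl fun i hi => ?_
      rw [Finset.mem_filter] at hi
      rw [if_pos hi.2.2]
    · rw [hb, ← Finset.prod_const]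
      refine Finset.prod_congr rfl fun i hi => ?_
      rw [Finset.mem_filter] at hi
      have : (if g i = 1 then c i else 0) = 0 := by
        split_ifs with h5
        · by_contra h6
          exact hi.2 ⟨h6, h5⟩
        · rfl
      rw [this]; simp
  have hQ0 : Q.eval 0 ≠ 0 := by
    rw [hQ, eval_prod]
    refine Finset.prod_ne_zero_iff.2 fun i hi => ?_
    simpa using ((hmemI i).1 hi).1
  have hkb : k ≤ b := by
    by_contra hlt
    push Not at hlt
    obtain ⟨d, hd⟩ := Nat.exists_eq_add_of_lt hlt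
    have h5 : P * X ^ (d + 1) = Q := by
      have h6 : P * X ^ (d + 1) * X ^ b = Q * X ^ b := by
        rw [← hRHS, mul_assoc, ← pow_add]
        congr 2
        omega
      exact mul_right_cancel₀ (pow_ne_zero _ X_ne_zero) h6
    apply hQ0
    rw [← h5]; simp
  by_cases hIe : I = ∅
  · left
    intro μ hμ
    have h5 : (P * X ^ k).IsRoot μ := by
      rw [IsRoot, eval_mul]
      rw [IsRoot] at hμ
      rw [hμ, zero_mul]
    rw [hRHS, hQ, hIe, Finset.prod_empty, one_mul, IsRoot, eval_pow, eval_X] at h5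
    exact eq_zero_of_pow_eq_zero h5
  right
  obtain ⟨i0, hi0, hmax⟩ := I.exists_max_image (fun i => x.C.Λ.l (c i))
    (Finset.nonempty_iff_ne_empty.2 hIe)
  set t₁ := x.C.Λ.l (c i0) with ht₁
  have hlarge : ∀ i : Fin (ρ + k), ∃ J : ℕ, c i ≠ 0 → g i ≠ 1 → ∀ j, J ≤ j →
      x.C.Λ.l (c i) + j * x.C.Λ.lg (g i) < t₁ := by
    intro i
    by_cases hci : c i ≠ 0 ∧ g i ≠ 1
    · have hlt : x.C.Λ.lg (g i) < 0 :=
        lt_of_le_of_ne (hcg i hci.1) fun h0 => hci.2 (x.C.Λ.lg_eq_zero h0)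
      obtain ⟨J, hJ⟩ := exists_nat_gt ((x.C.Λ.l (c i) - t₁) / (- x.C.Λ.lg (g i)))
      refine ⟨J, fun _ _ j hj => ?_⟩
      have h5 : 0 < - x.C.Λ.lg (g i) := by linarith
      rw [div_lt_iff₀ h5] at hJ
      have h6 : (J : ℝ) ≤ j := by exact_mod_cast hj
      nlinarith
    · exact ⟨0, fun h5 h6 => absurd ⟨h5, h6⟩ hci⟩
  choose J hJ using hlarge
  set j := N + ∑ i, J i with hjdef
  have hjJ : ∀ i, J i ≤ j := by
    intro i
    have := Finset.single_le_sum (f := J) (fun _ _ => Nat.zero_le _) (Finset.mem_univ i)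
    omega
  have hmN : N ≤ n1 + h * j := by
    have : 1 * j ≤ h * j := Nat.mul_le_mul_right j hh
    omega
  set S' := I.filter fun i => x.C.Λ.l (c i) = t₁ with hS'
  have hGc : ∀ i, c i ≠ 0 → InG G (c i) := fun i hi => (hc i).resolve_left hi
  have hl' : ∀ i, c i ≠ 0 → x.C.Λ.l (c i * (((g i : x.C.Λ.Γ) : Lˣ) : L) ^ j) =
      x.C.Λ.l (c i) + j * x.C.Λ.lg (g i) := by
    intro i hi
    rw [x.C.Λ.l_mul _ _ (hGc i hi) ((x.C.Λ.inG (g i)).pow j), x.C.Λ.l_pow (x.C.Λ.inG (g i))]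
    rfl
  have hne' : ∀ i, c i * (((g i : x.C.Λ.Γ) : Lˣ) : L) ^ j ≠ 0 ↔ c i ≠ 0 := by
    intro i
    have h5 : (((g i : x.C.Λ.Γ) : Lˣ) : L) ^ j ≠ 0 := pow_ne_zero _ (Units.ne_zero _)
    constructor
    · intro h6 h7; exact h6 (by rw [h7, zero_mul])
    · intro h6; exact mul_ne_zero h6 h5
  have htop : Top x.C.Λ (M.map (evE cs x.C.Λ (n1 + h * j))) t₁ S'.card := by
    refine ⟨ρ + k, fun i => c i * (((g i : x.C.Λ.Γ) : Lˣ) : L) ^ j, hj j, ?_, S', ?_, rfl, ?_⟩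
    · intro i hi
      rw [hne'] at hi
      rw [hl' i hi]
      by_cases hg1 : g i = 1
      · rw [hg1, x.C.Λ.lg_one, mul_zero, add_zero]
        exact hmax i ((hmemI i).2 ⟨hi, hg1⟩)
      · exact (hJ i hi hg1 j (hjJ i)).le
    · intro i
      rw [hS', Finset.mem_filter, hmemI, hne']
      constructor
      · rintro ⟨⟨h5, h6⟩, h7⟩
        refine ⟨h5, ?_⟩
        rw [hl' i h5, h6, x.C.Λ.lg_one, mul_zero, add_zero, h7]
      · rintro ⟨h5, h6⟩
        rw [hl' i h5] at h6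
        by_cases hg1 : g i = 1
        · rw [hg1, x.C.Λ.lg_one, mul_zero, add_zero] at h6
          exact ⟨⟨h5, hg1⟩, h6⟩
        · have := hJ i h5 hg1 j (hjJ i)
          linarith
    · refine Finset.card_pos.2 ⟨i0, ?_⟩
      rw [hS', Finset.mem_filter]
      exact ⟨hi0, rfl⟩
  have hρ := x.hmin _ (hMmem _ hmN) _ _ htop
  have hS'I : S' ⊆ I := Finset.filter_subset _ _
  have hS'card : S'.card ≤ I.card := Finset.card_le_card hS'I
  have hSI : S' = I := Finset.eq_of_subset_of_card_le hS'I (by omega)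
  have hbk : b = k := by omega
  have hPQ : P = Q := by
    rw [hbk] at hRHS
    exact mul_right_cancel₀ (pow_ne_zero _ X_ne_zero) hRHS
  refine ⟨t₁, fun μ hμ => ?_⟩
  rw [hPQ, hQ, IsRoot, eval_prod, Finset.prod_eq_zero_iff] at hμ
  obtain ⟨i, hi, hiμ⟩ := hμ
  rw [eval_sub, eval_X, eval_C, sub_eq_zero] at hiμ
  rw [hiμ]
  refine ⟨hGc i ((hmemI i).1 hi).1, ?_⟩
  rw [← hSI, hS', Finset.mem_filter] at hi
  exact hi.2

end Pool.Agent.H.MP_df1c3e_lc
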