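import Pool.Agent.H.MP_df1c3e_lc.Ext2
import Pool.Agent.H.MP_df1c3e_lc.Roots

/-!
The extremal argument: conclusion in block form.
-/

namespace Pool.Agent.H.MP_df1c3e_lc

open MonoidAlgebra Polynomial Module Matrix

variable {L : Type*} [Field L] {A : Type*} [CommRing A] {G : Subgroup Lˣ} {cs : CS L A}
  {N ρ k : ℕ}

lemma roots_of_prod {n : ℕ} (q : L[X]) (μ : Fin n → L)
    (h : q = ∏ i, (X - Polynomial.C (μ i))) : q.roots = Finset.univ.val.map μ := by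
  have h1 : q = ((Finset.univ.val.map μ).map fun a => X - Polynomial.C a).prod := by
    rw [h, Multiset.map_map]; rfl
  rw [h1, Polynomial.roots_multiset_prod_X_sub_C]

lemma trace_of_prod [IsAlgClosed L] {r n : ℕ} (M : Matrix (Fin r) (Fin r) L) (μ : Fin n → L)
    (h : M.charpoly = ∏ i, (X - Polynomial.C (μ i))) : M.trace = ∑ i, μ i := by
  rw [Matrix.trace_eq_sum_roots_charpoly, roots_of_prod _ μ h]; rfl

lemma det_of_prod [IsAlgClosed L] {r n : ℕ} (M : Matrix (Fin r) (Fin r) L) (μ : Fin n → L)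
    (h : M.charpoly = ∏ i, (X - Polynomial.C (μ i))) : M.det = ∏ i, μ i := by
  rw [Matrix.det_eq_prod_roots_charpoly, roots_of_prod _ μ h]; rfl

/-- all eigenvalues lie in `G` and have length `t` -/
def Iso (Λ : Len G) {n : Type*} [Fintype n] [DecidableEq n] (M : Matrix n n L) (t : ℝ) : Prop :=
  ∀ μ, M.charpoly.IsRoot μ → InG G μ ∧ Λ.l μ = t

lemma root_enum [IsAlgClosed L] {r : ℕ} (M : Matrix (Fin r) (Fin r) L) :
    ∃ μ : Fin r → L, M.charpoly = ∏ i, (X - Polynomial.C (μ i)) ∧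
      ∀ i, M.charpoly.IsRoot (μ i) := by
  obtain ⟨μ, hμ⟩ := exists_root_enum M.charpoly (Matrix.charpoly_monic M) (r := r)
    (by rw [Matrix.charpoly_natDegree_eq_dim, Fintype.card_fin])
  refine ⟨μ, hμ, fun i => ?_⟩
  rw [hμ, IsRoot, eval_prod]
  exact Finset.prod_eq_zero (Finset.mem_univ i) (by simp)

lemma Iso.det [IsAlgClosed L] {Λ : Len G} {r : ℕ} {M : Matrix (Fin r) (Fin r) L} {t : ℝ}
    (h : Iso Λ M t) : InG G M.det ∧ Λ.l M.det = r * t := by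
  obtain ⟨μ, hμ, hr⟩ := root_enum M
  rw [det_of_prod M μ hμ]
  refine ⟨InG.prod _ _ fun i _ => (h _ (hr i)).1, ?_⟩
  rw [Λ.l_prod _ _ fun i _ => (h _ (hr i)).1]
  rw [Finset.sum_congr rfl fun i _ => (h _ (hr i)).2]
  simp

lemma trace_iso [IsAlgClosed L] (Λ : Len G) (r : ℕ) : ∃ F₀ : Finset L,
    ∀ (M : Matrix (Fin r) (Fin r) L) (t : ℝ), Iso Λ M t → ∀ g, InG G g → Λ.l g = t →
      ∃ φ ∈ F₀, M.trace = g * φ := by
  classical
  refine ⟨(Fintype.piFinset fun _ : Fin r => (nthRoots Λ.D (1 : L)).toFinset).image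
    (fun f => ∑ i, f i), fun M t hM g hg hgt => ?_⟩
  obtain ⟨μ, hμ, hr⟩ := root_enum M
  refine ⟨∑ i, μ i / g, ?_, ?_⟩
  · refine Finset.mem_image.2 ⟨fun i => μ i / g, ?_, rfl⟩
    rw [Fintype.mem_piFinset]
    intro i
    rw [Multiset.mem_toFinset, mem_nthRoots (by have := Λ.hD; omega)]
    have h1 := (Λ.l_eq_iff (hM _ (hr i)).1 hg).1 (by rw [(hM _ (hr i)).2, hgt])
    rw [div_pow, h1, div_self (pow_ne_zero _ hg.ne_zero)]
  · rw [trace_of_prod M μ hμ, Finset.mul_sum]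
    refine Finset.sum_congr rfl fun i _ => ?_
    rw [mul_div_cancel₀ _ hg.ne_zero]

lemma trace_nil [IsAlgClosed L] {r : ℕ} (M : Matrix (Fin r) (Fin r) L)
    (h : ∀ μ, M.charpoly.IsRoot μ → μ = 0) : M.trace = 0 := by
  obtain ⟨μ, hμ, hr⟩ := root_enum M
  rw [trace_of_prod M μ hμ]
  exact Finset.sum_eq_zero fun i _ => h _ (hr i)

theorem XD.final [IsAlgClosed L] (x : XD cs G N ρ k) (i0 : Fin ρ) :
    ∃ F : Finset L, ∀ s ∈ x.S, ∃ g, InG G g ∧ ∃ φ ∈ F,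
      s (Sum.inl i0) (Sum.inl i0) = g * φ := by
  classical
  have hne : Nonempty (Fin ρ) := ⟨i0⟩
  have hE : (Matrix.single (Sum.inl i0) (Sum.inl i0) (1 : L) :
      Matrix (Fin ρ ⊕ Fin k) (Fin ρ ⊕ Fin k) L) ∈
      Submodule.span L (x.S : Set (Matrix (Fin ρ ⊕ Fin k) (Fin ρ ⊕ Fin k) L)) := by
    rw [x.hspan]; trivial
  obtain ⟨c, hcS, hcsum⟩ := Submodule.mem_span_set.1 hE
  obtain ⟨F₀, hF₀⟩ := trace_iso x.C.Λ ρ
  -- compressions
  have hcomp : ∀ u ∈ x.S, ∀ i j, u.toBlocks₁₁ i j = u (Sum.inl i) (Sum.inl j) := fun _ _ _ _ => rfl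
  have hentry : ∀ u ∈ x.S, u (Sum.inl i0) (Sum.inl i0) =
      ∑ b ∈ c.support, c b * (u.toBlocks₁₁ * b.toBlocks₁₁).trace := by
    intro u hu
    have h1 : (Matrix.single i0 i0 (1 : L) : Matrix (Fin ρ) (Fin ρ) L) =
        ∑ b ∈ c.support, c b • b.toBlocks₁₁ := by
      have h2 := congrArg (fun M : Matrix (Fin ρ ⊕ Fin k) (Fin ρ ⊕ Fin k) L => M.toBlocks₁₁) hcsum
      simp only [Finsupp.sum] at h2
      ext i j
      have h3 := congrArg (fun M : Matrix (Fin ρ) (Fin ρ) L => M i j) h2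
      simp only [Matrix.toBlocks₁₁, Matrix.of_apply, Matrix.sum_apply, Matrix.smul_apply] at h3
      rw [Matrix.sum_apply]
      simp only [Matrix.smul_apply, Matrix.toBlocks₁₁, Matrix.of_apply]
      rw [h3]
      by_cases h4 : i0 = i ∧ i0 = j
      · obtain ⟨rfl, rfl⟩ := h4; simp
      · rw [Matrix.single_apply_of_ne _ _ _ _ _ h4, Matrix.single_apply_of_ne]
        intro h5
        exact h4 ⟨Sum.inl_injective h5.1, Sum.inl_injective h5.2⟩
    have h2 : u (Sum.inl i0) (Sum.inl i0) =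
        (u.toBlocks₁₁ * Matrix.single i0 i0 (1 : L)).trace := by
      rw [Matrix.trace_mul_single]
      simp [Matrix.toBlocks₁₁]
    rw [h2, h1, Matrix.mul_sum, Matrix.trace_sum]
    refine Finset.sum_congr rfl fun b _ => ?_
    rw [Matrix.mul_smul, Matrix.trace_smul, smul_eq_mul]
  have hone : (1 : Matrix (Fin ρ ⊕ Fin k) (Fin ρ ⊕ Fin k) L).toBlocks₁₁ = 1 := by
    ext i j
    simp [Matrix.toBlocks₁₁, Matrix.one_apply]
  have hdich1 : ∀ u ∈ x.S, (∀ μ, (u.toBlocks₁₁).charpoly.IsRoot μ → μ = 0) ∨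
      ∃ t, Iso x.C.Λ u.toBlocks₁₁ t := by
    intro u hu
    have := x.dich u 1 hu x.S.one_mem
    rw [hone, mul_one] at this
    exact this
  have hnil : ∀ u ∈ x.S, ∀ v ∈ x.S, (u.toBlocks₁₁ * v.toBlocks₁₁).det = 0 →
      (u.toBlocks₁₁ * v.toBlocks₁₁).trace = 0 := by
    intro u hu v hv h0
    rcases x.dich u v hu hv with h1 | ⟨t, h1⟩
    · exact trace_nil _ h1
    · exact absurd rfl (h1 0 ((eig_zero_iff _).2 h0)).1.ne_zero
  have hdet0 : ∀ M : Matrix (Fin ρ) (Fin ρ) L, (∀ μ, M.charpoly.IsRoot μ → μ = 0) → M.det = 0 := by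
    intro M hM
    obtain ⟨μ, hμ⟩ := exists_eig M
    rw [← eig_zero_iff]
    rw [hM μ hμ] at hμ
    exact hμ
  -- choose eigenvalues of the compressions in the support
  have hb : ∀ b : c.support, ∃ gb : L, InG G gb ∧
      ((∀ μ, (b : Matrix (Fin ρ ⊕ Fin k) (Fin ρ ⊕ Fin k) L).toBlocks₁₁.charpoly.IsRoot μ → μ = 0) ∨
      Iso x.C.Λ (b : Matrix (Fin ρ ⊕ Fin k) (Fin ρ ⊕ Fin k) L).toBlocks₁₁ (x.C.Λ.l gb)) := by
    intro b
    rcases hdich1 b (hcS b.2) with h1 | ⟨t, h1⟩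
    · exact ⟨1, InG.one, Or.inl h1⟩
    · obtain ⟨μ, hμ⟩ := exists_eig
        (b : Matrix (Fin ρ ⊕ Fin k) (Fin ρ ⊕ Fin k) L).toBlocks₁₁
      refine ⟨μ, (h1 μ hμ).1, Or.inr ?_⟩
      rw [(h1 μ hμ).2]; exact h1
  choose gb hgb hgb' using hb
  set Ψ : c.support → Finset L := fun b => insert 0 (F₀.image fun φ => gb b * φ) with hΨ
  refine ⟨(Fintype.piFinset Ψ).image (fun ψ => ∑ b : c.support, c b * ψ b), fun u hu => ?_⟩
  have key : ∃ g, InG G g ∧ ∀ b : c.support, ∃ ψ ∈ Ψ b,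
      (u.toBlocks₁₁ *
        (b : Matrix (Fin ρ ⊕ Fin k) (Fin ρ ⊕ Fin k) L).toBlocks₁₁).trace = g * ψ := by
    rcases hdich1 u hu with h1 | ⟨ta, h1⟩
    · refine ⟨1, InG.one, fun b => ⟨0, Finset.mem_insert_self _ _, ?_⟩⟩
      rw [mul_zero]
      exact hnil u hu b (hcS b.2) (by rw [Matrix.det_mul, hdet0 _ h1, zero_mul])
    · obtain ⟨ga, hga⟩ := exists_eig u.toBlocks₁₁
      refine ⟨ga, (h1 ga hga).1, fun b => ?_⟩
      rcases hgb' b with h2 | h2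
      · refine ⟨0, Finset.mem_insert_self _ _, ?_⟩
        rw [mul_zero]
        exact hnil u hu b (hcS b.2) (by rw [Matrix.det_mul, hdet0 _ h2, mul_zero])
      · rcases x.dich u b hu (hcS b.2) with h3 | ⟨t, h3⟩
        · refine ⟨0, Finset.mem_insert_self _ _, ?_⟩
          rw [mul_zero]
          exact trace_nil _ h3
        · have h4 : Iso x.C.Λ (u.toBlocks₁₁ *
            (b : Matrix (Fin ρ ⊕ Fin k) (Fin ρ ⊕ Fin k) L).toBlocks₁₁) t := h3
          have e1 := h4.det.2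
          rw [Matrix.det_mul, x.C.Λ.l_mul _ _ (Iso.det h1).1 h2.det.1, (Iso.det h1).2,
            h2.det.2] at e1
          have hρ0 : (ρ : ℝ) ≠ 0 := by
            have := x.hρ
            have h5 : ρ ≠ 0 := by omega
            exact_mod_cast h5
          have e2 : ta + x.C.Λ.l (gb b) = t := by
            have e3 : (ρ : ℝ) * (ta + x.C.Λ.l (gb b)) = ρ * t := by rw [← e1]; ring
            exact mul_left_cancel₀ hρ0 e3
          obtain ⟨φ, hφ, hφe⟩ := hF₀ _ t h4 (ga * gb b) ((h1 ga hga).1.mul (hgb b)) (by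
            rw [x.C.Λ.l_mul _ _ (h1 ga hga).1 (hgb b), (h1 ga hga).2, e2])
          refine ⟨gb b * φ, Finset.mem_insert_of_mem (Finset.mem_image_of_mem _ hφ), ?_⟩
          rw [hφe, mul_assoc]
  obtain ⟨g, hg, hψ⟩ := key
  choose ψ hψ1 hψ2 using hψ
  refine ⟨g, hg, ∑ b : c.support, c b * ψ b, Finset.mem_image.2 ⟨ψ, ?_, rfl⟩, ?_⟩
  · rw [Fintype.mem_piFinset]; exact hψ1
  · rw [hentry u hu, Finset.mul_sum, ← Finset.sum_coe_sort c.support]
    refine Finset.sum_congr rfl fun b _ => ?_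
    rw [hψ2 b]; ring

end Pool.Agent.H.MP_df1c3e_lc
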