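import Pool.Agent.H.MP_df1c3e_lc.Ext3

/-!
Irreducible semigroups with finitely generated spectrum have a matrix coefficient with
finitely generated values.
-/

namespace Pool.Agent.H.MP_df1c3e_lc

open MonoidAlgebra Polynomial Module

variable {L : Type*} [Field L] {A : Type*} [CommRing A] {G : Subgroup Lˣ} {cs : CS L A}

/-- the version of `Top` for polynomials -/
def TopP (Λ : Len G) (q : L[X]) (t : ℝ) (r : ℕ) : Prop :=
  ∃ (m : ℕ) (c : Fin m → L), q = ∏ i, (X - Polynomial.C (c i)) ∧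
    (∀ i, c i ≠ 0 → Λ.l (c i) ≤ t) ∧
    ∃ S : Finset (Fin m), (∀ i, i ∈ S ↔ c i ≠ 0 ∧ Λ.l (c i) = t) ∧ S.card = r ∧ 1 ≤ r

lemma exists_top [IsAlgClosed L] (Λ : Len G) (q : L[X]) (hq : q.Monic) (μ : L) (hμ0 : μ ≠ 0)
    (hμ : q.IsRoot μ) : ∃ r t, TopP Λ q t r := by
  classical
  obtain ⟨c, hc⟩ := exists_root_enum q hq rfl
  have h1 : ∃ i, c i = μ := by
    rw [hc, IsRoot, eval_prod, Finset.prod_eq_zero_iff] at hμ
    obtain ⟨i, _, hi⟩ := hμ
    rw [eval_sub, eval_X, eval_C, sub_eq_zero] at hi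
    exact ⟨i, hi.symm⟩
  obtain ⟨i1, hi1⟩ := h1
  obtain ⟨i0, hi0, hmax⟩ := (Finset.univ.filter fun i => c i ≠ 0).exists_max_image
    (fun i => Λ.l (c i)) ⟨i1, by rw [Finset.mem_filter]; exact ⟨Finset.mem_univ _, hi1 ▸ hμ0⟩⟩
  refine ⟨(Finset.univ.filter fun i => c i ≠ 0 ∧ Λ.l (c i) = Λ.l (c i0)).card, Λ.l (c i0),
    _, c, hc, fun i hi => hmax i (by rw [Finset.mem_filter]; exact ⟨Finset.mem_univ _, hi⟩),
    Finset.univ.filter fun i => c i ≠ 0 ∧ Λ.l (c i) = Λ.l (c i0), fun i => by simp, rfl, ?_⟩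
  refine Finset.card_pos.2 ⟨i0, ?_⟩
  rw [Finset.mem_filter] at hi0 ⊢
  exact ⟨Finset.mem_univ _, hi0.2, rfl⟩

lemma hasEig_smul {V : Type*} [AddCommGroup V] [Module L V] (s : Module.End L V) {κ : L}
    (hκ : κ ≠ 0) {μ : L} (h : (κ • s).HasEigenvalue μ) : s.HasEigenvalue (κ⁻¹ * μ) := by
  obtain ⟨v, hv, hv0⟩ := h.exists_hasEigenvector
  rw [Module.End.mem_eigenspace_iff, LinearMap.smul_apply] at hv
  refine Module.End.hasEigenvalue_of_hasEigenvector (x := v) ⟨?_, hv0⟩
  rw [Module.End.mem_eigenspace_iff, mul_smul, ← hv, smul_smul, inv_mul_cancel₀ hκ, one_smul]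

theorem extremal [IsAlgClosed L] {N : ℕ} (C : Ctx cs G N) {V : Type*} [AddCommGroup V]
    [Module L V] [FiniteDimensional L V] [Nontrivial V] (hN : finrank L V ≤ N)
    (S : Submonoid (Module.End L V))
    (hS : ∀ s ∈ S, ∀ μ, s.HasEigenvalue μ → μ = 0 ∨ InG G μ)
    (hspan : Submodule.span L (S : Set (Module.End L V)) = ⊤) :
    ∃ (x : V →ₗ[L] L) (y : V), x ≠ 0 ∧ y ≠ 0 ∧ ∃ F : Finset L, ∀ s ∈ S,
      ∃ g, InG G g ∧ ∃ φ ∈ F, x (s y) = g * φ := by
  classical
  -- scaled semigroup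
  let S' : Submonoid (Module.End L V) :=
    { carrier := {s | ∃ κ, InG G κ ∧ ∃ s₀ ∈ S, s = κ • s₀}
      mul_mem' := by
        rintro _ _ ⟨κ, hκ, s, hs, rfl⟩ ⟨κ', hκ', s', hs', rfl⟩
        refine ⟨κ * κ', hκ.mul hκ', s * s', S.mul_mem hs hs', ?_⟩
        rw [smul_mul_smul_comm]
      one_mem' := ⟨1, InG.one, 1, S.one_mem, by rw [one_smul]⟩ }
  have hS'S : ∀ s ∈ S, s ∈ S' := fun s hs => ⟨1, InG.one, s, hs, by rw [one_smul]⟩
  have hS' : ∀ s ∈ S', ∀ μ, s.HasEigenvalue μ → μ = 0 ∨ InG G μ := by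
    rintro _ ⟨κ, hκ, s, hs, rfl⟩ μ hμ
    have h1 := hS s hs _ (hasEig_smul s hκ.ne_zero hμ)
    rcases h1 with h1 | h1
    · left
      rcases mul_eq_zero.1 h1 with h2 | h2
      · exact absurd h2 (inv_ne_zero hκ.ne_zero)
      · exact h2
    · right
      have := hκ.mul h1
      rwa [mul_inv_cancel_left₀ hκ.ne_zero] at this
  -- a non-nilpotent element
  have hex : ∃ r, ∃ s ∈ S', ∃ t, TopP C.Λ s.charpoly t r := by
    by_contra hcon
    have htr : ∀ s ∈ S, LinearMap.trace L V s = 0 := by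
      intro s hs
      have hroots : ∀ μ ∈ s.charpoly.roots, μ = 0 := by
        intro μ hμ
        by_contra h0
        obtain ⟨r, t, ht⟩ := exists_top C.Λ s.charpoly (LinearMap.charpoly_monic s) μ h0
          (Polynomial.isRoot_of_mem_roots hμ)
        exact hcon ⟨r, s, hS'S s hs, t, ht⟩
      rw [Module.End.trace_eq_sum_roots_charpoly_of_splits (IsAlgClosed.splits _)]
      exact Multiset.sum_eq_zero hroots
    have htr' : ∀ s : Module.End L V, LinearMap.trace L V s = 0 := by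
      intro s
      have h1 : s ∈ Submodule.span L (S : Set (Module.End L V)) := by rw [hspan]; trivial
      induction h1 using Submodule.span_induction with
      | mem s hs => exact htr s hs
      | zero => exact map_zero _
      | add s t _ _ h1 h2 => rw [map_add, h1, h2, add_zero]
      | smul a s _ h1 => rw [map_smul, h1, smul_zero]
    obtain ⟨v, hv⟩ := exists_ne (0 : V)
    obtain ⟨f, hf⟩ := Module.Projective.exists_dual_eq_one L hv
    have h1 := htr' (LinearMap.smulRight f v)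
    rw [LinearMap.trace_smulRight, hf] at h1
    exact one_ne_zero h1
  obtain ⟨w, hw, t₀, m, c, hcw, hct, Stop, hStop, hScard, hS1⟩ := Nat.find_spec hex
  have hmin : ∀ s ∈ S', ∀ t r, TopP C.Λ s.charpoly t r → Nat.find hex ≤ r :=
    fun s hs t r h => Nat.find_min' hex ⟨s, hs, t, h⟩
  set ρ₀ := Nat.find hex with hρ₀
  have hroot : ∀ μ, w.HasEigenvalue μ ↔ ∃ i, c i = μ := by
    intro μ
    rw [Module.End.hasEigenvalue_iff_isRoot_charpoly, hcw, IsRoot, eval_prod,
      Finset.prod_eq_zero_iff]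
    constructor
    · rintro ⟨i, _, hi⟩
      rw [eval_sub, eval_X, eval_C, sub_eq_zero] at hi
      exact ⟨i, hi.symm⟩
    · rintro ⟨i, rfl⟩
      exact ⟨i, Finset.mem_univ _, by simp⟩
  obtain ⟨i0, hi0⟩ : ∃ i0, i0 ∈ Stop := by
    have : Stop.Nonempty := Finset.card_pos.1 (by omega)
    exact this
  obtain ⟨hci0, hci0t⟩ := (hStop i0).1 hi0
  set μ₀ := c i0 with hμ₀
  have hμ₀e : w.HasEigenvalue μ₀ := (hroot μ₀).2 ⟨i0, rfl⟩
  have hμ₀G : InG G μ₀ := (hS' w hw μ₀ hμ₀e).resolve_left hci0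
  set D := C.Λ.D with hD
  have hD1 : 1 ≤ D := C.Λ.hD
  set χ := μ₀ ^ D with hχ
  have hχ0 : χ ≠ 0 := pow_ne_zero _ hci0
  set f : Module.End L V := w ^ D - χ • (1 : Module.End L V) with hf
  obtain ⟨n0, hn0⟩ := Filter.eventually_atTop.1 (LinearMap.eventually_isCompl_ker_pow_range_pow f)
  set n := n0 + 1 with hn
  have hcompl : IsCompl (LinearMap.ker (f ^ n)) (LinearMap.range (f ^ n)) := hn0 n (by omega)
  set V₁ := LinearMap.ker (f ^ n) with hV₁
  set V₂ := LinearMap.range (f ^ n) with hV₂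
  have hcomm : Commute w (f ^ n) := by
    apply Commute.pow_right
    rw [hf]
    exact (Commute.refl w).pow_right D |>.sub_right ((Commute.one_right w).smul_right χ)
  have hw₁ : ∀ v ∈ V₁, w v ∈ V₁ := by
    intro v hv
    rw [hV₁, LinearMap.mem_ker] at hv ⊢
    have h1 := congrArg (fun g : Module.End L V => g v) hcomm.eq
    simp only [Module.End.mul_apply] at h1
    rw [← h1, hv, map_zero]
  have hw₂ : ∀ v ∈ V₂, w v ∈ V₂ := by
    rintro _ ⟨v, rfl⟩
    have h1 := congrArg (fun g : Module.End L V => g v) hcomm.eq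
    simp only [Module.End.mul_apply] at h1
    rw [h1]
    exact ⟨w v, rfl⟩
  set f₁ : Module.End L V₁ := w.restrict hw₁ with hf₁
  set f₂ : Module.End L V₂ := w.restrict hw₂ with hf₂
  have hwpow : ∀ (v : V) (μ : L), w v = μ • v → ∀ j : ℕ, (w ^ j) v = μ ^ j • v := by
    intro v μ hv j
    induction j with
    | zero => simp
    | succ j ih => rw [pow_succ, Module.End.mul_apply, hv, map_smul, ih, smul_smul, pow_succ']
  have hfv : ∀ (v : V) (μ : L), w v = μ • v → ∀ j : ℕ, (f ^ j) v = (μ ^ D - χ) ^ j • v := by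
    intro v μ hv j
    induction j with
    | zero => simp
    | succ j ih =>
      have h1 : f v = (μ ^ D - χ) • v := by
        rw [hf, LinearMap.sub_apply, hwpow v μ hv, LinearMap.smul_apply, Module.End.one_apply,
          sub_smul]
      rw [pow_succ, Module.End.mul_apply, h1, map_smul, ih, smul_smul, pow_succ']
  have heig₁ : ∀ μ, f₁.HasEigenvalue μ → InG G μ ∧ C.Λ.l μ = t₀ := by
    intro μ hμ
    obtain ⟨v, hv, hv0⟩ := hμ.exists_hasEigenvector
    rw [Module.End.mem_eigenspace_iff] at hv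
    have hv' : w (v : V) = μ • (v : V) := by
      have := congrArg Subtype.val hv
      simpa [hf₁] using this
    have hv0' : (v : V) ≠ 0 := fun h => hv0 (Subtype.ext h)
    have h1 : (f ^ n) (v : V) = 0 := v.2
    rw [hfv _ μ hv', smul_eq_zero] at h1
    have h2 : μ ^ D = χ := by
      rcases h1 with h1 | h1
      · exact sub_eq_zero.1 (eq_zero_of_pow_eq_zero h1)
      · exact absurd h1 hv0'
    have h3 : w.HasEigenvalue μ :=
      Module.End.hasEigenvalue_of_hasEigenvector (x := (v : V))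
        ⟨(Module.End.mem_eigenspace_iff).2 hv', hv0'⟩
    have h4 : μ ≠ 0 := by
      rintro rfl
      rw [zero_pow (by omega)] at h2
      exact hχ0 h2.symm
    have h5 := (hS' w hw μ h3).resolve_left h4
    exact ⟨h5, by rw [← hci0t]; exact (C.Λ.l_eq_iff h5 hμ₀G).2 h2⟩
  have heig₂ : ∀ μ, f₂.HasEigenvalue μ → μ = 0 ∨ (InG G μ ∧ C.Λ.l μ < t₀) := by
    intro μ hμ
    obtain ⟨v, hv, hv0⟩ := hμ.exists_hasEigenvector
    rw [Module.End.mem_eigenspace_iff] at hv
    have hv' : w (v : V) = μ • (v : V) := by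
      have := congrArg Subtype.val hv
      simpa [hf₂] using this
    have hv0' : (v : V) ≠ 0 := fun h => hv0 (Subtype.ext h)
    have h3 : w.HasEigenvalue μ :=
      Module.End.hasEigenvalue_of_hasEigenvector (x := (v : V))
        ⟨(Module.End.mem_eigenspace_iff).2 hv', hv0'⟩
    by_cases h4 : μ = 0
    · exact Or.inl h4
    right
    have h5 := (hS' w hw μ h3).resolve_left h4
    refine ⟨h5, lt_of_le_of_ne ?_ fun h6 => ?_⟩
    · obtain ⟨i, rfl⟩ := (hroot μ).1 h3
      exact hct i h4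
    · have h7 : μ ^ D = χ := (C.Λ.l_eq_iff h5 hμ₀G).1 (by rw [h6, hci0t])
      have h8 : (f ^ n) (v : V) = 0 := by
        rw [hfv _ μ hv', h7, sub_self, zero_pow (by omega), zero_smul]
      have h9 : (v : V) ∈ V₁ ⊓ V₂ := ⟨h8, v.2⟩
      rw [hcompl.inf_eq_bot] at h9
      exact hv0' (by simpa using h9)
  -- bases
  set ρ := finrank L V₁ with hρ
  set k := finrank L V₂ with hk
  let b₁ : Basis (Fin ρ) L V₁ := Module.finBasis L V₁
  let b₂ : Basis (Fin k) L V₂ := Module.finBasis L V₂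
  let e := Submodule.prodEquivOfIsCompl V₁ V₂ hcompl
  let b : Basis (Fin ρ ⊕ Fin k) L V := (b₁.prod b₂).map e
  set U₁ := LinearMap.toMatrix b₁ b₁ f₁ with hU₁
  set U₂ := LinearMap.toMatrix b₂ b₂ f₂ with hU₂
  have hblock : LinearMap.toMatrixAlgEquiv b w = Matrix.fromBlocks U₁ 0 0 U₂ := by
    rw [hU₁, hU₂, ← LinearMap.toMatrix_prodMap b₁ b₂ f₁ f₂]
    ext i j
    rw [LinearMap.toMatrixAlgEquiv_apply, LinearMap.toMatrix_apply]
    have h1 : ∀ z : V₁ × V₂, w (e z) = e (LinearMap.prodMap f₁ f₂ z) := by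
      intro z
      show w ((z.1 : V) + (z.2 : V)) = ((f₁ z.1 : V₁) : V) + ((f₂ z.2 : V₂) : V)
      rw [map_add]; rfl
    show (b.repr (w (b j))) i = _
    rw [Basis.map_apply, h1]
    simp [b]
  have hcard : ρ + k = finrank L V := by
    rw [hρ, hk]
    exact Submodule.finrank_add_eq_of_isCompl hcompl
  have hρ1 : 1 ≤ ρ := by
    obtain ⟨v, hv, hv0⟩ := hμ₀e.exists_hasEigenvector
    rw [Module.End.mem_eigenspace_iff] at hv
    have h1 : v ∈ V₁ := by
      rw [hV₁, LinearMap.mem_ker, hfv v μ₀ hv, hχ, sub_self, zero_pow (by omega), zero_smul]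
    have h2 : Nontrivial V₁ := ⟨⟨⟨v, h1⟩, 0, fun h => hv0 (congrArg Subtype.val h)⟩⟩
    exact Module.finrank_pos
  have hcharw : w.charpoly = U₁.charpoly * U₂.charpoly := by
    rw [← Matrix.charpoly_fromBlocks_zero₁₂ (M₂₁ := 0), ← hblock]
    exact (LinearMap.charpoly_toMatrix w b).symm
  have hcharf₁ : U₁.charpoly = f₁.charpoly := LinearMap.charpoly_toMatrix f₁ b₁
  have hcharf₂ : U₂.charpoly = f₂.charpoly := LinearMap.charpoly_toMatrix f₂ b₂
  have hρρ₀ : ρ ≤ ρ₀ := by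
    have h1 : U₁.charpoly.roots ≤ w.charpoly.roots := by
      rw [hcharw]
      refine Polynomial.roots.le_of_dvd ?_ (dvd_mul_right _ _)
      exact mul_ne_zero (Matrix.charpoly_monic _).ne_zero (Matrix.charpoly_monic _).ne_zero
    have h2 : U₁.charpoly.roots.card = ρ := by
      rw [← (IsAlgClosed.splits U₁.charpoly).natDegree_eq_card_roots,
        Matrix.charpoly_natDegree_eq_dim, Fintype.card_fin]
    have h3 : Multiset.countP (fun μ => μ ≠ 0 ∧ C.Λ.l μ = t₀) U₁.charpoly.roots =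
        U₁.charpoly.roots.card := by
      rw [Multiset.countP_eq_card]
      intro μ hμ
      have h4 := Polynomial.isRoot_of_mem_roots hμ
      rw [hcharf₁, ← Module.End.hasEigenvalue_iff_isRoot_charpoly] at h4
      exact ⟨(heig₁ μ h4).1.ne_zero, (heig₁ μ h4).2⟩
    have h4 := Multiset.countP_le_of_le (fun μ => μ ≠ 0 ∧ C.Λ.l μ = t₀) h1
    rw [h3, h2, roots_of_prod _ c hcw, Multiset.countP_map] at h4
    refine h4.trans (le_of_eq ?_)
    rw [← hScard]
    have h5 : Stop = Finset.univ.filter fun i => c i ≠ 0 ∧ C.Λ.l (c i) = t₀ := by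
      ext i
      rw [hStop, Finset.mem_filter]; simp
    rw [h5]; rfl
  -- the data
  let x : XD cs G N ρ k :=
    { C := C
      hN := by rw [hcard]; exact hN
      hρ := hρ1
      S := S'.map (LinearMap.toMatrixAlgEquiv b : Module.End L V →* _)
      hS := by
        rintro _ ⟨s, hs, rfl⟩ μ hμ
        refine hS' s hs μ ?_
        rw [Module.End.hasEigenvalue_iff_isRoot_charpoly, ← LinearMap.charpoly_toMatrix s b]
        exact hμ
      hscale := by
        rintro κ hκ _ ⟨s, ⟨κ', hκ', s', hs', rfl⟩, rfl⟩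
        refine ⟨κ • κ' • s', ⟨κ * κ', hκ.mul hκ', s', hs', by rw [smul_smul]⟩, ?_⟩
        show LinearMap.toMatrixAlgEquiv b (κ • κ' • s') =
          κ • LinearMap.toMatrixAlgEquiv b (κ' • s')
        rw [map_smul]
      hspan := by
        have h1 : Submodule.span L (S' : Set (Module.End L V)) = ⊤ := by
          rw [eq_top_iff, ← hspan]
          exact Submodule.span_mono fun s hs => hS'S s hs
        have h2 : ((S'.map (LinearMap.toMatrixAlgEquiv b : Module.End L V →* _) :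
            Submonoid (Matrix (Fin ρ ⊕ Fin k) (Fin ρ ⊕ Fin k) L)) : Set _) =
            (LinearMap.toMatrixAlgEquiv b).toLinearMap '' (S' : Set (Module.End L V)) := rfl
        rw [h2, ← Submodule.map_span, h1, Submodule.map_top, LinearMap.range_eq_top]
        exact (LinearMap.toMatrixAlgEquiv b).surjective
      U₁ := U₁
      U₂ := U₂
      hw := ⟨w, hw, hblock⟩
      t₀ := t₀
      h1 := by
        intro μ hμ
        rw [hcharf₁, ← Module.End.hasEigenvalue_iff_isRoot_charpoly] at hμ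
        exact heig₁ μ hμ
      h2 := by
        intro μ hμ
        rw [hcharf₂, ← Module.End.hasEigenvalue_iff_isRoot_charpoly] at hμ
        exact heig₂ μ hμ
      hmin := by
        rintro _ ⟨s, hs, rfl⟩ t r ht
        refine hρρ₀.trans (hmin s hs t r ?_)
        have h1 : s.charpoly = (LinearMap.toMatrixAlgEquiv b s).charpoly :=
          (LinearMap.charpoly_toMatrix s b).symm
        rw [h1]
        exact ht }
  obtain ⟨F, hF⟩ := x.final ⟨0, hρ1⟩
  refine ⟨b.coord (Sum.inl ⟨0, hρ1⟩), b (Sum.inl ⟨0, hρ1⟩), ?_, b.ne_zero _, F, fun s hs => ?_⟩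
  · intro h0
    have := congrArg (fun g : V →ₗ[L] L => g (b (Sum.inl ⟨0, hρ1⟩))) h0
    simp at this
  · obtain ⟨g, hg, φ, hφ, he⟩ := hF (LinearMap.toMatrixAlgEquiv b s) ⟨s, hS'S s hs, rfl⟩
    refine ⟨g, hg, φ, hφ, ?_⟩
    rw [← he, LinearMap.toMatrixAlgEquiv_apply]
    rfl

end Pool.Agent.H.MP_df1c3e_lc
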