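import Pool.Agent.H.MP_df1c3e_lc.LF

/-!
Finitely many places suffice.
-/

namespace Pool.Agent.H.MP_df1c3e_lc

variable {L : Type*} [Field L]

lemma log_av_mul (v : AbsoluteValue L ℝ) (g h : Lˣ) :
    Real.log (v ((g * h : Lˣ) : L)) = Real.log (v g) + Real.log (v h) := by
  rw [Units.val_mul, map_mul, Real.log_mul]
  · exact (v.pos g.ne_zero).ne'
  · exact (v.pos h.ne_zero).ne'

lemma log_av_inv (v : AbsoluteValue L ℝ) (g : Lˣ) :
    Real.log (v ((g⁻¹ : Lˣ) : L)) = - Real.log (v g) := by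
  rw [Units.val_inv_eq_inv_val, map_inv₀, Real.log_inv]

lemma exists_expo {G : Subgroup Lˣ} (S : Finset Lˣ) (hS : Subgroup.closure (S : Set Lˣ) = G) :
    ∀ g ∈ G, ∃ m : Lˣ → ℤ, ∀ v : AbsoluteValue L ℝ,
      Real.log (v g) = ∑ s ∈ S, (m s : ℝ) * Real.log (v s) := by
  classical
  intro g hg
  rw [← hS] at hg
  induction hg using Subgroup.closure_induction with
  | mem x hx =>
    refine ⟨fun s => if s = x then 1 else 0, fun v => ?_⟩
    simp only [Int.cast_ite, Int.cast_one, Int.cast_zero, ite_mul, one_mul, zero_mul]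
    rw [Finset.sum_ite_eq' S x]
    simp only [Finset.mem_coe] at hx
    simp [hx]
  | one => exact ⟨0, fun v => by simp⟩
  | mul x y _ _ ihx ihy =>
    obtain ⟨m, hm⟩ := ihx
    obtain ⟨m', hm'⟩ := ihy
    refine ⟨m + m', fun v => ?_⟩
    rw [log_av_mul, hm v, hm' v, ← Finset.sum_add_distrib]
    refine Finset.sum_congr rfl fun s _ => ?_
    push_cast [Pi.add_apply]
    ring
  | inv x _ ih =>
    obtain ⟨m, hm⟩ := ih
    refine ⟨-m, fun v => ?_⟩
    rw [log_av_inv, hm v, ← Finset.sum_neg_distrib]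
    refine Finset.sum_congr rfl fun s _ => ?_
    push_cast [Pi.neg_apply]
    ring

lemma NPl.disc (P : NPl L) {G : Subgroup Lˣ} (hG : G.FG) :
    ∃ δ : ℝ, 0 < δ ∧ ∀ g ∈ G, ∃ m : ℤ, Real.log (P.v g) = m * δ := by
  classical
  obtain ⟨S, hS⟩ := hG
  choose n hn m hm using fun g : Lˣ => P.dsc (g : L) g.ne_zero
  have hNpos : 0 < ∏ s ∈ S, n s := Finset.prod_pos fun s _ => hn s
  have hq : 0 < Real.log P.q := Real.log_pos P.hq
  refine ⟨Real.log P.q / (∏ s ∈ S, n s : ℕ), by positivity, fun g hg => ?_⟩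
  obtain ⟨e, he⟩ := exists_expo S hS g hg
  have h1 : ∀ s ∈ S, ∃ k : ℤ, Real.log (P.v s) = k * (Real.log P.q / (∏ s ∈ S, n s : ℕ)) := by
    intro s hs
    obtain ⟨c, hc⟩ := Finset.dvd_prod_of_mem n hs
    refine ⟨m s * c, ?_⟩
    have h2 := congrArg Real.log (hm s)
    rw [Real.log_pow, Real.log_zpow] at h2
    have h3 : (n s : ℝ) ≠ 0 := by
      have := hn s
      positivity
    have h4 : (c : ℝ) ≠ 0 := by
      rintro h
      have : c = 0 := by exact_mod_cast h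
      rw [this, mul_zero] at hc
      omega
    rw [hc]
    push_cast
    field_simp
    linarith
  choose! k hk using h1
  refine ⟨∑ s ∈ S, e s * k s, ?_⟩
  rw [he P.v]
  push_cast
  rw [Finset.sum_mul]
  refine Finset.sum_congr rfl fun s hs => ?_
  rw [hk s hs]
  push_cast
  ring

lemma exists_finite_places (L : Type*) [Field L] {G : Subgroup Lˣ} (hG : G.FG) :
    ∃ (n : ℕ) (P : Fin n → NPl L), ∀ g ∈ G, (∀ i, (P i).v (g : L) = 1) →
      ∀ Q : NPl L, Q.v (g : L) = 1 := by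
  classical
  obtain ⟨S, hS⟩ := hG
  let u : NPl L → (S → ℝ) := fun P s => Real.log (P.v ((s : Lˣ) : L))
  have hfg : (Submodule.span ℝ (Set.range u)).FG := IsNoetherian.noetherian _
  rw [Submodule.fg_span_iff_fg_span_finset_subset] at hfg
  obtain ⟨s', hs', hspan⟩ := hfg
  have h1 : ∀ x : s', ∃ P : NPl L, u P = x := fun x => hs' x.2
  choose P hP using h1
  obtain ⟨e⟩ : Nonempty (s' ≃ Fin (Fintype.card s')) := ⟨Fintype.equivFin s'⟩
  refine ⟨Fintype.card s', fun i => P (e.symm i), fun g hg h Q => ?_⟩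
  obtain ⟨m, hm⟩ := exists_expo S hS g hg
  let φ : (S → ℝ) →ₗ[ℝ] ℝ := ∑ s : S, (m s : ℝ) • LinearMap.proj s
  have hφ : ∀ R : NPl L, φ (u R) = Real.log (R.v g) := by
    intro R
    rw [hm R.v, ← Finset.sum_coe_sort S]
    simp [φ, u]
  have h2 : ∀ x ∈ Submodule.span ℝ (Set.range u), φ x = 0 := by
    intro x hx
    rw [hspan] at hx
    have h3 : Submodule.span ℝ (s' : Set (S → ℝ)) ≤ LinearMap.ker φ := by
      rw [Submodule.span_le]
      intro y hy
      have h4 := h (e ⟨y, hy⟩)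
      simp only [Equiv.symm_apply_apply] at h4
      have h5 := hφ (P ⟨y, hy⟩)
      rw [hP, h4, Real.log_one] at h5
      exact h5
    exact h3 hx
  have h3 := h2 (u Q) (Submodule.subset_span ⟨Q, rfl⟩)
  rw [hφ] at h3
  exact Real.eq_one_of_pos_of_log_eq_zero (Q.v.pos g.ne_zero) h3

lemma finite_of_kernel {G : Subgroup Lˣ} (hG : G.FG) {n : ℕ} (P : Fin n → NPl L)
    {κ : Type*} (Q : κ → AbsoluteValue L ℝ)
    (hQ : ∀ B : ℝ, {g : Lˣ | g ∈ G ∧ (∀ i, (P i).v (g : L) = 1) ∧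
      ∀ j, |Real.log (Q j (g : L))| ≤ B}.Finite) (B : ℝ) :
    {g : Lˣ | g ∈ G ∧ (∀ i, |Real.log ((P i).v (g : L))| ≤ B) ∧
      ∀ j, |Real.log (Q j (g : L))| ≤ B}.Finite := by
  set W := {g : Lˣ | g ∈ G ∧ (∀ i, |Real.log ((P i).v (g : L))| ≤ B) ∧
      ∀ j, |Real.log (Q j (g : L))| ≤ B} with hW
  choose δ hδ hm using fun i => (P i).disc hG
  refine Set.Finite.of_finite_fibers (fun g : Lˣ => fun i => Real.log ((P i).v (g : L))) ?_ ?_
  · have h1 : (Set.pi Set.univ fun i : Fin n =>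
        (fun k : ℤ => (k : ℝ) * δ i) '' {k : ℤ | |(k : ℝ) * δ i| ≤ B}).Finite := by
      refine Set.Finite.pi fun i => ?_
      refine Set.Finite.image _ ?_
      refine (Set.finite_Icc (-⌈B / δ i⌉) ⌈B / δ i⌉).subset ?_
      intro k hk
      simp only [Set.mem_ofPred_eq] at hk
      rw [abs_mul, abs_of_pos (hδ i), ← le_div_iff₀ (hδ i)] at hk
      have h2 : |(k : ℝ)| ≤ (⌈B / δ i⌉ : ℝ) := hk.trans (Int.le_ceil _)
      have h3 : |k| ≤ ⌈B / δ i⌉ := by exact_mod_cast h2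
      exact ⟨neg_le_of_abs_le h3, le_of_abs_le h3⟩
    refine h1.subset ?_
    rintro _ ⟨g, hg, rfl⟩
    simp only [Set.mem_pi, Set.mem_univ, true_implies]
    intro i
    obtain ⟨k, hk⟩ := hm i g hg.1
    exact ⟨k, by simp only [Set.mem_ofPred_eq]; rw [← hk]; exact hg.2.1 i, hk.symm⟩
  · rintro _ ⟨g₀, hg₀, rfl⟩
    have h1 := hQ (B + B)
    refine Set.Finite.of_injOn (f := fun g : Lˣ => g * g₀⁻¹) ?_ ?_ h1
    · rintro g ⟨hg, hgeq⟩
      refine ⟨G.mul_mem hg.1 (G.inv_mem hg₀.1), fun i => ?_, fun j => ?_⟩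
      · have h2 : Real.log ((P i).v (g : L)) = Real.log ((P i).v (g₀ : L)) := congrFun hgeq i
        have h3 : Real.log ((P i).v ((g * g₀⁻¹ : Lˣ) : L)) = 0 := by
          rw [log_av_mul, log_av_inv, h2]
          ring
        exact Real.eq_one_of_pos_of_log_eq_zero ((P i).v.pos (g * g₀⁻¹).ne_zero) h3
      · have h2 := hg.2.2 j
        have h3 := hg₀.2.2 j
        simp only [log_av_mul, log_av_inv]
        calc |Real.log (Q j (g : L)) + - Real.log (Q j (g₀ : L))| ≤ _ + _ := abs_add_le _ _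
          _ ≤ B + B := by
            rw [abs_neg]
            exact add_le_add h2 h3
    · intro a _ b _ hab
      exact mul_right_cancel hab

end Pool.Agent.H.MP_df1c3e_lc
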