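import Mathlib

/-!
Finitely generated groups of units: lengths, torsion-free powers.
-/

namespace Pool.Agent.H.MP_df1c3e_lc

open MonoidAlgebra Polynomial

variable {L : Type*} [Field L]

/-- `x` belongs to (the image in `L` of) `G` -/
def InG (G : Subgroup Lˣ) (x : L) : Prop := ∃ g ∈ G, ((g : Lˣ) : L) = x

namespace InG

variable {G : Subgroup Lˣ} {x y : L}

lemma ne_zero (h : InG G x) : x ≠ 0 := by
  obtain ⟨g, _, rfl⟩ := h; exact Units.ne_zero g

lemma mul (hx : InG G x) (hy : InG G y) : InG G (x * y) := by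
  obtain ⟨g, hg, rfl⟩ := hx
  obtain ⟨g', hg', rfl⟩ := hy
  exact ⟨g * g', G.mul_mem hg hg', by simp⟩

lemma one : InG G (1 : L) := ⟨1, G.one_mem, by simp⟩

lemma inv (hx : InG G x) : InG G x⁻¹ := by
  obtain ⟨g, hg, rfl⟩ := hx
  exact ⟨g⁻¹, G.inv_mem hg, by simp⟩

lemma pow (hx : InG G x) (n : ℕ) : InG G (x ^ n) := by
  obtain ⟨g, hg, rfl⟩ := hx
  exact ⟨g ^ n, G.pow_mem hg n, by simp⟩

lemma div (hx : InG G x) (hy : InG G y) : InG G (x / y) := by
  rw [div_eq_mul_inv]; exact hx.mul hy.inv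

lemma mono {G' : Subgroup Lˣ} (h : G ≤ G') (hx : InG G x) : InG G' x := by
  obtain ⟨g, hg, rfl⟩ := hx
  exact ⟨g, h hg, rfl⟩

lemma unit {g : Lˣ} (h : InG G (g : L)) : g ∈ G := by
  obtain ⟨g', hg', he⟩ := h
  rw [← Units.ext he]; exact hg'

lemma prod {ι : Type*} (s : Finset ι) (f : ι → L) (h : ∀ i ∈ s, InG G (f i)) :
    InG G (∏ i ∈ s, f i) := by
  classical
  induction s using Finset.induction_on with
  | empty => simpa using InG.one
  | insert a s ha ih =>
    rw [Finset.prod_insert ha]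
    exact (h a (by simp)).mul (ih fun i hi => h i (by simp [hi]))

end InG

/-- a length function on a finitely generated group of units -/
structure Len (G : Subgroup Lˣ) where
  /-- exponent -/
  D : ℕ
  hD : 1 ≤ D
  /-- length -/
  l : L → ℝ
  l_mul : ∀ x y, InG G x → InG G y → l (x * y) = l x + l y
  l_ker : ∀ x, InG G x → (l x = 0 ↔ x ^ D = 1)

namespace Len

variable {G : Subgroup Lˣ} (Λ : Len G)

lemma l_one : Λ.l 1 = 0 := (Λ.l_ker 1 InG.one).2 (one_pow _)

lemma l_inv {x : L} (hx : InG G x) : Λ.l x⁻¹ = - Λ.l x := by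
  have h := Λ.l_mul x x⁻¹ hx hx.inv
  rw [mul_inv_cancel₀ hx.ne_zero, l_one] at h
  linarith

lemma l_div {x y : L} (hx : InG G x) (hy : InG G y) : Λ.l (x / y) = Λ.l x - Λ.l y := by
  rw [div_eq_mul_inv, Λ.l_mul _ _ hx hy.inv, Λ.l_inv hy]; ring

lemma l_pow {x : L} (hx : InG G x) (n : ℕ) : Λ.l (x ^ n) = n * Λ.l x := by
  induction n with
  | zero => simp [l_one]
  | succ n ih =>
    rw [pow_succ, Λ.l_mul _ _ (hx.pow n) hx, ih]; push_cast; ring

lemma l_prod {ι : Type*} (s : Finset ι) (f : ι → L) (h : ∀ i ∈ s, InG G (f i)) :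
    Λ.l (∏ i ∈ s, f i) = ∑ i ∈ s, Λ.l (f i) := by
  classical
  induction s using Finset.induction_on with
  | empty => simp [l_one]
  | insert a s ha ih =>
    rw [Finset.prod_insert ha, Finset.sum_insert ha, Λ.l_mul _ _ (h a (by simp))
      (InG.prod s f fun i hi => h i (by simp [hi])), ih fun i hi => h i (by simp [hi])]

lemma l_eq_iff {x y : L} (hx : InG G x) (hy : InG G y) :
    Λ.l x = Λ.l y ↔ x ^ Λ.D = y ^ Λ.D := by
  have h := Λ.l_ker _ (hx.div hy)
  rw [Λ.l_div hx hy, sub_eq_zero, div_pow, div_eq_one_iff_eq (pow_ne_zero _ hy.ne_zero)] at h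
  exact h

/-- the exponent may be multiplied -/
def mulD (k : ℕ) (hk : 1 ≤ k) : Len G where
  D := Λ.D * k
  hD := Nat.mul_pos Λ.hD hk
  l := Λ.l
  l_mul := Λ.l_mul
  l_ker x hx := by
    constructor
    · intro h
      rw [pow_mul, (Λ.l_ker x hx).1 h, one_pow]
    · intro h
      have h1 := Λ.l_pow hx (Λ.D * k)
      rw [h, Λ.l_one] at h1
      have h2 : ((Λ.D * k : ℕ) : ℝ) ≠ 0 := by
        have := Nat.mul_pos Λ.hD hk
        exact_mod_cast this.ne'
      rcases mul_eq_zero.1 h1.symm with h3 | h3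
      · exact absurd h3 h2
      · exact h3

/-- the group of `D`-th powers -/
def Γ : Subgroup Lˣ := G.map (powMonoidHom Λ.D)

lemma Γ_le : Λ.Γ ≤ G := by
  rintro _ ⟨g, hg, rfl⟩
  exact G.pow_mem hg _

lemma pow_mem_Γ {x : L} (hx : InG G x) : InG Λ.Γ (x ^ Λ.D) := by
  obtain ⟨g, hg, rfl⟩ := hx
  exact ⟨g ^ Λ.D, ⟨g, hg, rfl⟩, by simp⟩

lemma l_inj {x y : L} (hx : InG Λ.Γ x) (hy : InG Λ.Γ y) (h : Λ.l x = Λ.l y) : x = y := by
  obtain ⟨_, ⟨g, hg, rfl⟩, rfl⟩ := hx
  obtain ⟨_, ⟨g', hg', rfl⟩, rfl⟩ := hy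
  have h1 : InG G (g : L) := ⟨g, hg, rfl⟩
  have h2 : InG G (g' : L) := ⟨g', hg', rfl⟩
  simp only [powMonoidHom_apply, Units.val_pow_eq_pow_val] at h ⊢
  rw [Λ.l_pow h1, Λ.l_pow h2] at h
  have h3 : (Λ.D : ℝ) ≠ 0 := by
    have := Λ.hD
    have h4 : Λ.D ≠ 0 := by omega
    exact_mod_cast h4
  exact (Λ.l_eq_iff h1 h2).1 (mul_left_cancel₀ h3 h)

lemma l_eq_zero {x : L} (hx : InG Λ.Γ x) (h : Λ.l x = 0) : x = 1 :=
  Λ.l_inj hx InG.one (by rw [h, Λ.l_one])

instance torsionFree : IsMulTorsionFree Λ.Γ := by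
  refine ⟨fun n hn x y hxy => ?_⟩
  have hx : InG Λ.Γ ((x : Lˣ) : L) := ⟨x, x.2, rfl⟩
  have hy : InG Λ.Γ ((y : Lˣ) : L) := ⟨y, y.2, rfl⟩
  have h1 : (((x : Lˣ) : L)) ^ n = ((y : Lˣ) : L) ^ n := by
    have := congrArg (fun z : Λ.Γ => ((z : Lˣ) : L)) hxy
    simpa using this
  have h2 := congrArg Λ.l h1
  rw [Λ.l_pow (hx.mono Λ.Γ_le), Λ.l_pow (hy.mono Λ.Γ_le)] at h2
  have h3 : (n : ℝ) ≠ 0 := by exact_mod_cast hn
  exact Subtype.ext (Units.ext (Λ.l_inj hx hy (mul_left_cancel₀ h3 h2)))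

lemma Γ_fg (hG : G.FG) : Λ.Γ.FG := by
  obtain ⟨S, hS⟩ := hG
  classical
  refine ⟨S.image (powMonoidHom Λ.D), ?_⟩
  rw [Finset.coe_image, ← MonoidHom.map_closure, hS]
  rfl

lemma isDomain (hG : G.FG) (A : Type*) [CommRing A] [IsDomain A] :
    IsDomain (MonoidAlgebra A Λ.Γ) := by
  have h1 : Group.FG Λ.Γ := (Group.fg_iff_subgroup_fg _).2 (Λ.Γ_fg hG)
  have h2 : Monoid.FG Λ.Γ := Group.fg_iff_monoid_fg.1 h1
  have h3 : TwoUniqueProds Λ.Γ := inferInstance
  have h4 : NoZeroDivisors (MonoidAlgebra A Λ.Γ) := inferInstance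
  have h5 : Nontrivial (MonoidAlgebra A Λ.Γ) := inferInstance
  exact NoZeroDivisors.to_isDomain _

end Len

lemma real_indep (z : ℕ → ℤ) (n : ℕ)
    (h : ∑ i ∈ Finset.range n, (z i : ℝ) * (liouvilleNumber 2) ^ i = 0) :
    ∀ i < n, z i = 0 := by
  have ht : Transcendental ℤ (liouvilleNumber (2 : ℕ)) :=
    transcendental_liouvilleNumber (m := 2) le_rfl
  have h1 : (∑ i ∈ Finset.range n, (C (z i) * X ^ i : ℤ[X])) = 0 := by
    by_contra hne
    refine ht ⟨_, hne, ?_⟩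
    rw [map_sum]
    simpa using h
  intro i hi
  have h2 := congrArg (fun p : ℤ[X] => p.coeff i) h1
  simpa [Polynomial.finsetSum_coeff, Polynomial.coeff_C_mul, Polynomial.coeff_X_pow, hi] using h2

lemma exists_len (G : Subgroup Lˣ) (hG : G.FG) : Nonempty (Len G) := by
  classical
  have h1 : Group.FG G := (Group.fg_iff_subgroup_fg _).2 hG
  obtain ⟨ι, j, _, _, p, hp, e, ⟨φ⟩⟩ := CommGroup.equiv_free_prod_prod_multiplicative_zmod G
  let idx : j ≃ Fin (Fintype.card j) := Fintype.equivFin j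
  let ℓ : G → ℝ := fun g => ∑ t : j, ((Multiplicative.toAdd ((φ g).1 t) : ℤ) : ℝ) *
    (liouvilleNumber 2) ^ ((idx t : Fin _) : ℕ)
  have hmul : ∀ x y, ℓ (x * y) = ℓ x + ℓ y := by
    intro x y
    simp only [ℓ]
    rw [← Finset.sum_add_distrib]
    refine Finset.sum_congr rfl fun t _ => ?_
    rw [map_mul, Prod.fst_mul, Pi.mul_apply, toAdd_mul]
    push_cast; ring
  have hz : ∀ x, ℓ x = 0 → ∀ t, Multiplicative.toAdd ((φ x).1 t) = 0 := by
    intro x hx t
    let z : ℕ → ℤ := fun i => if h : i < Fintype.card j then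
      Multiplicative.toAdd ((φ x).1 (idx.symm ⟨i, h⟩)) else 0
    have h2 : ∑ i ∈ Finset.range (Fintype.card j), (z i : ℝ) * (liouvilleNumber 2) ^ i = 0 := by
      rw [← hx, Finset.sum_range]
      simp only [ℓ]
      rw [← Equiv.sum_comp idx]
      refine Finset.sum_congr rfl fun t _ => ?_
      simp [z]
    have h3 := real_indep z _ h2 (idx t) (idx t).2
    simpa [z] using h3
  set D := ∏ i, p i ^ e i with hD
  have hD1 : 1 ≤ D := Finset.prod_pos fun i _ => pow_pos (hp i).pos _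
  have hker : ∀ x : G, ℓ x = 0 ↔ x ^ D = 1 := by
    intro x
    constructor
    · intro h
      have h4 := hz x h
      apply φ.injective
      rw [map_pow, map_one]
      refine Prod.ext ?_ ?_
      · funext t
        rw [Prod.pow_fst, Pi.pow_apply]
        apply Multiplicative.toAdd.injective
        rw [toAdd_pow, h4 t]; simp
      · funext i
        rw [Prod.pow_snd, Pi.pow_apply]
        apply Multiplicative.toAdd.injective
        rw [toAdd_pow]
        have hdvd : p i ^ e i ∣ D := Finset.dvd_prod_of_mem _ (Finset.mem_univ i)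
        have h5 : ((D : ℕ) : ZMod (p i ^ e i)) = 0 := (ZMod.natCast_eq_zero_iff _ _).2 hdvd
        rw [nsmul_eq_mul, h5, zero_mul]
        rfl
    · intro h
      have h5 : ∀ t, Multiplicative.toAdd ((φ x).1 t) = 0 := by
        intro t
        have h6 := congrArg (fun y => Multiplicative.toAdd ((φ y).1 t)) h
        simp only [map_pow, Prod.pow_fst, Pi.pow_apply, toAdd_pow, map_one, Prod.fst_one,
          Pi.one_apply, toAdd_one] at h6
        rcases smul_eq_zero.1 h6 with h7 | h7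
        · omega
        · exact h7
      simp only [ℓ]
      refine Finset.sum_eq_zero fun t _ => ?_
      rw [h5 t]; simp
  let l : L → ℝ := fun x => if h : InG G x then ℓ ⟨h.choose, h.choose_spec.1⟩ else 0
  have hl : ∀ (g : Lˣ) (hg : g ∈ G), l (g : L) = ℓ ⟨g, hg⟩ := by
    intro g hg
    have h : InG G (g : L) := ⟨g, hg, rfl⟩
    simp only [l, dif_pos h]
    congr 1
    exact Subtype.ext (Units.ext h.choose_spec.2)
  refine ⟨⟨D, hD1, l, ?_, ?_⟩⟩
  · rintro _ _ ⟨g, hg, rfl⟩ ⟨g', hg', rfl⟩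
    rw [← Units.val_mul, hl _ (G.mul_mem hg hg'), hl g hg, hl g' hg', ← hmul]
    rfl
  · rintro _ ⟨g, hg, rfl⟩
    rw [hl g hg, hker, ← Units.val_pow_eq_pow_val]
    constructor
    · intro h
      have := congrArg (fun y : G => ((y : Lˣ) : L)) h
      simpa using this
    · intro h
      apply Subtype.ext
      apply Units.ext
      simpa using h

end Pool.Agent.H.MP_df1c3e_lc
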