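import Mathlib

/-!
Finite covers by irreducible subspaces (linear hulls).
-/

namespace Pool.Agent.H.MP_df1c3e_lc

open Module

variable {L : Type*} [Field L]

/-- `Ω ∩ A` is not covered by finitely many subspaces unless one of them contains `A` -/
def Irr {E : Type*} [AddCommGroup E] [Module L E] (Ω : Set E) (A : Submodule L E) : Prop :=
  ∀ F : Set (Submodule L E), F.Finite → (∀ x ∈ Ω, x ∈ A → ∃ B ∈ F, x ∈ B) → ∃ B ∈ F, A ≤ B

lemma exists_cover_aux {E : Type*} [AddCommGroup E] [Module L E] [FiniteDimensional L E]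
    (Ω : Set E) (n : ℕ) : ∀ A : Submodule L E, finrank L A = n →
    ∃ F : Set (Submodule L E), F.Finite ∧ (∀ B ∈ F, Irr Ω B) ∧ ∀ x ∈ Ω, x ∈ A → ∃ B ∈ F, x ∈ B := by
  classical
  induction n using Nat.strong_induction_on with
  | _ n ih =>
    intro A hA
    by_cases hirr : Irr Ω A
    · exact ⟨{A}, Set.finite_singleton A, fun B hB => by rw [Set.mem_singleton_iff.1 hB]; exact hirr,
        fun x _ hx => ⟨A, rfl, hx⟩⟩
    · rw [Irr] at hirr
      push Not at hirr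
      obtain ⟨F, hF, hcov, hno⟩ := hirr
      have h1 : ∀ B : Submodule L E, ∃ F' : Set (Submodule L E), B ∈ F →
          F'.Finite ∧ (∀ B' ∈ F', Irr Ω B') ∧ ∀ x ∈ Ω, x ∈ A ⊓ B → ∃ B' ∈ F', x ∈ B' := by
        intro B
        by_cases hB : B ∈ F
        · have hlt : A ⊓ B < A := by
            refine lt_of_le_of_ne inf_le_left fun h => hno B hB ?_
            rw [← h]; exact inf_le_right
          have h2 : finrank L ↥(A ⊓ B) < n := by
            rw [← hA]; exact Submodule.finrank_lt_finrank_of_lt hlt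
          obtain ⟨F', h3⟩ := ih _ h2 (A ⊓ B) rfl
          exact ⟨F', fun _ => h3⟩
        · exact ⟨∅, fun h => absurd h hB⟩
      choose F' hF' using h1
      refine ⟨⋃ B ∈ F, F' B, hF.biUnion fun B hB => (hF' B hB).1, ?_, ?_⟩
      · intro B' hB'
        simp only [Set.mem_iUnion] at hB'
        obtain ⟨B, hB, hB'⟩ := hB'
        exact (hF' B hB).2.1 B' hB'
      · intro x hx hxA
        obtain ⟨B, hB, hxB⟩ := hcov x hx hxA
        obtain ⟨B', hB', hxB'⟩ := (hF' B hB).2.2 x hx ⟨hxA, hxB⟩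
        refine ⟨B', ?_, hxB'⟩
        simp only [Set.mem_iUnion]
        exact ⟨B, hB, hB'⟩

lemma exists_cover {E : Type*} [AddCommGroup E] [Module L E] [FiniteDimensional L E]
    (Ω : Set E) : ∃ (n : ℕ) (A : Fin n → Submodule L E), (∀ i, Irr Ω (A i)) ∧
      (∀ x ∈ Ω, ∃ i, x ∈ A i) ∧ ∀ i j, A i ≤ A j → i = j := by
  classical
  obtain ⟨F, hF, hirr, hcov⟩ := exists_cover_aux Ω _ (⊤ : Submodule L E) rfl
  set F' : Set (Submodule L E) := {A | A ∈ F ∧ ∀ B ∈ F, A ≤ B → A = B} with hF'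
  have hF'fin : F'.Finite := hF.subset fun A hA => hA.1
  have hmax : ∀ A ∈ F, ∃ B ∈ F', A ≤ B := by
    intro A hA
    obtain ⟨B, hAB, hB⟩ := hF.exists_le_maximal hA
    exact ⟨B, ⟨hB.1, fun C hC hBC => le_antisymm hBC (hB.2 hC hBC)⟩, hAB⟩
  have hfin : Finite F' := hF'fin
  obtain ⟨n, ⟨e⟩⟩ := Finite.exists_equiv_fin F'
  refine ⟨n, fun i => (e.symm i : Submodule L E), fun i => hirr _ (e.symm i).2.1, ?_, ?_⟩
  · intro x hx
    obtain ⟨A, hA, hxA⟩ := hcov x hx trivial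
    obtain ⟨B, hB, hAB⟩ := hmax A hA
    refine ⟨e ⟨B, hB⟩, ?_⟩
    show x ∈ ((e.symm (e ⟨B, hB⟩) : F') : Submodule L E)
    rw [e.symm_apply_apply]
    exact hAB hxA
  · intro i j hij
    have h1 := (e.symm i).2.2 _ (e.symm j).2.1 hij
    exact e.symm.injective (Subtype.ext h1)

variable {σ : Type*} {V : Type*} [AddCommGroup V] [Module L V]

/-- the representation on words -/
def Rw (ρ : σ → Module.End L V) (w : List σ) : Module.End L V := (w.map ρ).prod

lemma Rw_nil (ρ : σ → Module.End L V) : Rw ρ [] = 1 := rfl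

lemma Rw_cons (ρ : σ → Module.End L V) (a : σ) (w : List σ) : Rw ρ (a :: w) = ρ a * Rw ρ w := by
  simp [Rw]

lemma Rw_append (ρ : σ → Module.End L V) (u w : List σ) : Rw ρ (u ++ w) = Rw ρ u * Rw ρ w := by
  simp [Rw]

/-- linear hulls of the two orbits, with transitions -/
structure HullData (ρ : σ → Module.End L V) (x₀ : Module.Dual L V) (y₀ : V) where
  /-- number of left components -/
  np : ℕ
  /-- number of right components -/
  nq : ℕ
  /-- left components -/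
  A : Fin np → Submodule L (Module.Dual L V)
  /-- right components -/
  B : Fin nq → Submodule L V
  /-- left transitions -/
  δ : Fin np → σ → Fin np
  /-- right transitions -/
  δ' : σ → Fin nq → Fin nq
  hδ : ∀ p a, ∀ x ∈ A p, x ∘ₗ ρ a ∈ A (δ p a)
  hδ' : ∀ a q, ∀ y ∈ B q, ρ a y ∈ B (δ' a q)
  /-- initial left component -/
  p0 : Fin np
  /-- initial right component -/
  q0 : Fin nq
  hp0 : x₀ ∈ A p0
  hq0 : y₀ ∈ B q0
  irrP : ∀ p, ∀ F : Set (Submodule L (Module.Dual L V)), F.Finite →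
    (∀ w : List σ, w.foldl δ p0 = p → ∃ C ∈ F, x₀ ∘ₗ Rw ρ w ∈ C) → ∃ C ∈ F, A p ≤ C
  irrQ : ∀ q, ∀ F : Set (Submodule L V), F.Finite →
    (∀ w : List σ, Rw ρ w y₀ ∈ B q → ∃ C ∈ F, Rw ρ w y₀ ∈ C) → ∃ C ∈ F, B q ≤ C

theorem exists_hull [FiniteDimensional L V] (ρ : σ → Module.End L V) (x₀ : Module.Dual L V)
    (y₀ : V) : Nonempty (HullData ρ x₀ y₀) := by
  classical
  set Ω : Set (Module.Dual L V) := Set.range fun w : List σ => x₀ ∘ₗ Rw ρ w with hΩ
  set Ω' : Set V := Set.range fun w : List σ => Rw ρ w y₀ with hΩ'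
  obtain ⟨np, A, hA1, hA2, hA3⟩ := exists_cover (L := L) Ω
  obtain ⟨nq, B, hB1, hB2, _⟩ := exists_cover (L := L) Ω'
  have hδ : ∀ p a, ∃ p', ∀ x ∈ A p, x ∘ₗ ρ a ∈ A p' := by
    intro p a
    obtain ⟨C, hC, hle⟩ := hA1 p (Set.range fun p' => (A p').comap (ρ a).dualMap)
      (Set.finite_range _) (by
        rintro _ ⟨w, rfl⟩ _
        obtain ⟨p', hp'⟩ := hA2 (x₀ ∘ₗ Rw ρ (w ++ [a])) ⟨_, rfl⟩
        refine ⟨_, ⟨p', rfl⟩, ?_⟩
        rw [Rw_append] at hp'
        have e : Rw ρ [a] = ρ a := by simp [Rw]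
        rw [e] at hp'
        exact hp')
    obtain ⟨p', rfl⟩ := hC
    exact ⟨p', fun x hx => hle hx⟩
  have hδ' : ∀ a q, ∃ q', ∀ y ∈ B q, ρ a y ∈ B q' := by
    intro a q
    obtain ⟨C, hC, hle⟩ := hB1 q (Set.range fun q' => (B q').comap (ρ a))
      (Set.finite_range _) (by
        rintro _ ⟨w, rfl⟩ _
        obtain ⟨q', hq'⟩ := hB2 (Rw ρ (a :: w) y₀) ⟨_, rfl⟩
        refine ⟨_, ⟨q', rfl⟩, ?_⟩
        rw [Rw_cons] at hq'
        exact hq')
    obtain ⟨q', rfl⟩ := hC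
    exact ⟨q', fun y hy => hle hy⟩
  choose δ hδ1 using hδ
  choose δ' hδ'1 using hδ'
  obtain ⟨p0, hp0⟩ := hA2 x₀ ⟨[], by ext v; rfl⟩
  obtain ⟨q0, hq0⟩ := hB2 y₀ ⟨[], rfl⟩
  have hreach : ∀ w : List σ, x₀ ∘ₗ Rw ρ w ∈ A (w.foldl δ p0) := by
    intro w
    have h1 : ∀ (w : List σ) (p : Fin np) (x : Module.Dual L V), x ∈ A p →
        x ∘ₗ Rw ρ w ∈ A (w.foldl δ p) := by
      intro w
      induction w with
      | nil => intro p x hx; exact hx
      | cons a w ih =>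
        intro p x hx
        rw [List.foldl_cons, Rw_cons]
        exact ih _ _ (hδ1 p a x hx)
    exact h1 w p0 x₀ hp0
  refine ⟨⟨np, nq, A, B, δ, δ', hδ1, hδ'1, p0, q0, hp0, hq0, ?_, ?_⟩⟩
  · intro p F hF hcov
    obtain ⟨C, hC, hle⟩ := hA1 p (F ∪ Set.range fun p' : {p' : Fin np // p' ≠ p} => A p' ⊓ A p)
      (hF.union (Set.finite_range _)) (by
        rintro _ ⟨w, rfl⟩ hx
        by_cases hp : w.foldl δ p0 = p
        · obtain ⟨C, hC, hxC⟩ := hcov w hp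
          exact ⟨C, Or.inl hC, hxC⟩
        · exact ⟨_, Or.inr ⟨⟨w.foldl δ p0, hp⟩, rfl⟩, hreach w, hx⟩)
    rcases hC with hC | ⟨⟨p', hp'⟩, rfl⟩
    · exact ⟨C, hC, hle⟩
    · exact absurd (hA3 p p' (hle.trans inf_le_left)).symm hp'
  · intro q F hF hcov
    refine hB1 q F hF ?_
    rintro _ ⟨w, rfl⟩ hx
    exact hcov w hx

end Pool.Agent.H.MP_df1c3e_lc
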