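import Pool.Agent.H.MP_df1c3e_lc.Block
import Pool.Agent.H.MP_df1c3e_lc.Extremal
import Pool.Agent.H.MP_df1c3e_lc.Burn

/-!
Irreducible blocks.
-/

namespace Pool.Agent.H.MP_df1c3e_lc

open Module Matrix Polynomial

variable {K L : Type*} [Field K] [Field L] [Algebra K L] {A : Type*} [CommRing A]
  {G : Subgroup Lˣ} {σ : Type*} {V : Type*} [AddCommGroup V] [Module L V]

/-- the semigroup of all word operators -/
def Sw (ρ : σ → Module.End L V) : Submonoid (Module.End L V) where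
  carrier := Set.range (Rw ρ)
  mul_mem' := by
    rintro _ _ ⟨u, rfl⟩ ⟨v, rfl⟩
    exact ⟨u ++ v, Rw_append ρ u v⟩
  one_mem' := ⟨[], rfl⟩

lemma Sw_span [IsAlgClosed L] [FiniteDimensional L V] [Nontrivial V] (ρ : σ → Module.End L V)
    (hirr : ∀ U : Submodule L V, (∀ a, ∀ u ∈ U, ρ a u ∈ U) → U = ⊥ ∨ U = ⊤) :
    Submodule.span L (Sw ρ : Set (Module.End L V)) = ⊤ := by
  have h1 := burnside (Algebra.adjoin L (Sw ρ : Set (Module.End L V))) (fun U hU => hirr U
    (fun a u hu => hU (ρ a) (Algebra.subset_adjoin ⟨[a], by simp [Rw]⟩) u hu))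
  have h2 := Algebra.adjoin_eq_span L (Sw ρ : Set (Module.End L V))
  rw [Submonoid.closure_eq, h1] at h2
  rw [← h2]; rfl

theorem irr_mem [IsAlgClosed L] [FiniteDimensional L V] [Nontrivial V] [Finite σ] {cs : CS L A}
    (hctx : HasCtx cs) (hG : G.FG) (ρ : σ → Module.End L V)
    (hirr : ∀ U : Submodule L V, (∀ a, ∀ u ∈ U, ρ a u ∈ U) → U = ⊥ ∨ U = ⊤)
    (hρ : ∀ w μ, (Rw ρ w).HasEigenvalue μ → μ = 0 ∨ InG G μ) {e : ℕ} (he : 1 ≤ e)
    (hK : ∀ w μ, (Rw ρ w).HasEigenvalue μ → ∃ b : K, algebraMap K L b = μ ^ e)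
    (x : Module.Dual L V) (y : V) : (fun w => x (Rw ρ w y)) ∈ Dsp K L σ := by
  classical
  have hspan := Sw_span ρ hirr
  obtain ⟨C, _⟩ := hctx G hG (finrank L V)
  obtain ⟨x₁, y₁, hx₁, hy₁, F, hF⟩ := extremal C le_rfl (Sw ρ) (by
    rintro _ ⟨w, rfl⟩ μ hμ
    exact hρ w μ hμ) hspan
  -- enlarge the group
  set FU : Set Lˣ := {u | (u : L) ∈ F} with hFU
  have hFUfin : FU.Finite := by
    refine Set.Finite.of_finite_image (f := fun u : Lˣ => (u : L)) (F.finite_toSet.subset ?_)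
      (fun u _ v _ h => Units.ext h)
    rintro _ ⟨u, hu, rfl⟩
    exact hu
  set G' : Subgroup Lˣ := G ⊔ Subgroup.closure FU with hG'
  have hG'fg : G'.FG := hG.sup ((Subgroup.fg_iff _).2 ⟨FU, rfl, hFUfin⟩)
  have hGG' : G ≤ G' := le_sup_left
  obtain ⟨C', hL2⟩ := hctx G' hG'fg (finrank L V)
  have hval : ∀ w, x₁ (Rw ρ w y₁) = 0 ∨ InG G' (x₁ (Rw ρ w y₁)) := by
    intro w
    obtain ⟨g, hg, φ, hφ, he⟩ := hF (Rw ρ w) ⟨w, rfl⟩
    rw [he]
    by_cases h0 : φ = 0
    · left; rw [h0, mul_zero]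
    · right
      refine (hg.mono hGG').mul ⟨Units.mk0 φ h0, ?_, rfl⟩
      exact (le_sup_right : Subgroup.closure FU ≤ G') (Subgroup.subset_closure hφ)
  have hbase : ∀ u v : List σ, (fun w => (x₁ ∘ₗ Rw ρ u) (Rw ρ w (Rw ρ v y₁))) ∈ Dsp K L σ := by
    intro u v
    refine values_mem C' le_rfl hL2 ρ (x₁ ∘ₗ Rw ρ u) (Rw ρ v y₁)
      (fun w μ hμ => (hρ w μ hμ).imp id (InG.mono hGG')) (fun w => ?_) he hK
    have e1 : (x₁ ∘ₗ Rw ρ u) (Rw ρ w (Rw ρ v y₁)) = x₁ (Rw ρ (u ++ w ++ v) y₁) := by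
      rw [Rw_append, Rw_append]; rfl
    rw [e1]
    exact hval _
  have hbil : ∀ f g : Module.End L V, (fun w => x₁ (f (Rw ρ w (g y₁)))) ∈ Dsp K L σ := by
    intro f g
    have hf : f ∈ Submodule.span L (Sw ρ : Set (Module.End L V)) := by rw [hspan]; trivial
    have hg : g ∈ Submodule.span L (Sw ρ : Set (Module.End L V)) := by rw [hspan]; trivial
    induction hf using Submodule.span_induction with
    | mem f hf =>
      obtain ⟨u, rfl⟩ := hf
      induction hg using Submodule.span_induction with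
      | mem g hg =>
        obtain ⟨v, rfl⟩ := hg
        exact hbase u v
      | zero =>
        have : (fun w : List σ => x₁ (Rw ρ u (Rw ρ w ((0 : Module.End L V) y₁)))) = 0 := by
          funext w; simp
        rw [this]; exact Submodule.zero_mem _
      | add g g' _ _ h h' =>
        have : (fun w : List σ => x₁ (Rw ρ u (Rw ρ w ((g + g') y₁)))) =
            (fun w : List σ => x₁ (Rw ρ u (Rw ρ w (g y₁)))) +
            (fun w : List σ => x₁ (Rw ρ u (Rw ρ w (g' y₁)))) := by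
          funext w; simp
        rw [this]; exact Submodule.add_mem _ h h'
      | smul c g _ h =>
        have : (fun w : List σ => x₁ (Rw ρ u (Rw ρ w ((c • g) y₁)))) =
            c • (fun w : List σ => x₁ (Rw ρ u (Rw ρ w (g y₁)))) := by
          funext w; simp
        rw [this]; exact Submodule.smul_mem _ _ h
    | zero =>
      have : (fun w : List σ => x₁ ((0 : Module.End L V) (Rw ρ w (g y₁)))) = 0 := by
        funext w; simp
      rw [this]; exact Submodule.zero_mem _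
    | add f f' _ _ h h' =>
      have : (fun w : List σ => x₁ ((f + f') (Rw ρ w (g y₁)))) =
          (fun w : List σ => x₁ (f (Rw ρ w (g y₁)))) +
          (fun w : List σ => x₁ (f' (Rw ρ w (g y₁)))) := by
        funext w; simp
      rw [this]; exact Submodule.add_mem _ h h'
    | smul c f _ h =>
      have : (fun w : List σ => x₁ ((c • f) (Rw ρ w (g y₁)))) =
          c • (fun w : List σ => x₁ (f (Rw ρ w (g y₁)))) := by
        funext w; simp
      rw [this]; exact Submodule.smul_mem _ _ h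
  obtain ⟨v₀, hv₀⟩ : ∃ v₀, x₁ v₀ = 1 := by
    obtain ⟨v, hv⟩ : ∃ v, x₁ v ≠ 0 := by
      by_contra hcon
      push Not at hcon
      exact hx₁ (LinearMap.ext hcon)
    exact ⟨(x₁ v)⁻¹ • v, by rw [map_smul, smul_eq_mul, inv_mul_cancel₀ hv]⟩
  obtain ⟨z, hz⟩ := Module.Projective.exists_dual_eq_one L hy₁
  have h1 := hbil (LinearMap.smulRight x v₀) (LinearMap.smulRight z y)
  have h2 : (fun w : List σ => x (Rw ρ w y)) = (fun w : List σ =>
      x₁ ((LinearMap.smulRight x v₀) (Rw ρ w ((LinearMap.smulRight z y) y₁)))) := by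
    funext w
    rw [LinearMap.smulRight_apply, LinearMap.smulRight_apply, hz, one_smul, map_smul, hv₀,
      smul_eq_mul, mul_one]
  rw [h2]
  exact h1

end Pool.Agent.H.MP_df1c3e_lc
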