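import Pool.Agent.H.MP_df1c3e_lc.NPl

/-!
Places coming from embeddings into algebraic extensions of local fields.
-/

namespace Pool.Agent.H.MP_df1c3e_lc

open Filter Topology

/-- local field data -/
structure LF (K : Type*) [NontriviallyNormedField K] where
  /-- residue characteristic -/
  p : ℕ
  hp1 : 1 ≤ p
  hp : ‖(p : K)‖ < 1
  /-- representatives of the residue field -/
  S : Set K
  hS : S.Finite
  cov : ∀ a : K, ‖a‖ ≤ 1 → ∃ s ∈ S, ‖a - s‖ < 1
  /-- base of the value group -/
  q : ℝ
  hq : 1 < q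
  dsc : ∀ a : K, a ≠ 0 → ∃ m : ℤ, ‖a‖ = q ^ m

variable (K : Type*) [NontriviallyNormedField K] [IsUltrametricDist K] [CompleteSpace K]
variable (Ω : Type*) [Field Ω] [Algebra K Ω] [Algebra.IsAlgebraic K Ω]

/-- spectral absolute value -/
noncomputable def sAV : AbsoluteValue Ω ℝ where
  toFun x := spectralNorm K Ω x
  map_mul' x y := by
    have := map_mul (spectralMulAlgNorm K Ω) x y
    simpa [spectralMulAlgNorm_def] using this
  nonneg' x := spectralNorm_nonneg x
  eq_zero' x := by
    constructor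
    · intro h
      exact eq_zero_of_map_spectralNorm_eq_zero h (Algebra.IsAlgebraic.isAlgebraic x)
    · rintro rfl
      exact spectralNorm_zero
  add_le' x y := (isNonarchimedean_spectralNorm (K := K) (L := Ω) x y).trans
    (max_le_add_of_nonneg (spectralNorm_nonneg _) (spectralNorm_nonneg _))

lemma sAV_def (x : Ω) : sAV K Ω x = spectralNorm K Ω x := rfl

lemma sAV_na (x y : Ω) : sAV K Ω (x + y) ≤ max (sAV K Ω x) (sAV K Ω y) :=
  isNonarchimedean_spectralNorm (K := K) (L := Ω) x y

lemma sAV_alg (a : K) : sAV K Ω (algebraMap K Ω a) = ‖a‖ := spectralNorm_extends a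

variable {K Ω}

/-- powers of an integral element have bounded coordinates -/
lemma exists_coords {x : Ω} {N : ℕ} {c : ℕ → K} (hc : ∀ i, ‖c i‖ ≤ 1)
    (hx : x ^ (N + 1) = ∑ i ∈ Finset.range (N + 1), algebraMap K Ω (c i) * x ^ i) (n : ℕ) :
    ∃ a : ℕ → K, (∀ i, ‖a i‖ ≤ 1) ∧
      x ^ n = ∑ i ∈ Finset.range (N + 1), algebraMap K Ω (a i) * x ^ i := by
  induction n with
  | zero =>
    refine ⟨fun i => if i = 0 then 1 else 0, fun i => ?_, ?_⟩
    · by_cases h : i = 0 <;> simp [h]
    · rw [Finset.sum_range_succ']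
      simp
  | succ n ih =>
    obtain ⟨a, ha, hn⟩ := ih
    refine ⟨fun i => (if i = 0 then 0 else a (i - 1)) + a N * c i, fun i => ?_, ?_⟩
    · refine (IsUltrametricDist.norm_add_le_max _ _).trans (max_le ?_ ?_)
      · by_cases h : i = 0
        · simp [h]
        · simpa [h] using ha (i - 1)
      · rw [norm_mul]
        exact mul_le_one₀ (ha N) (norm_nonneg _) (hc i)
    · rw [pow_succ, hn, Finset.sum_mul, Finset.sum_range_succ]
      have h1 : algebraMap K Ω (a N) * x ^ N * x = algebraMap K Ω (a N) * x ^ (N + 1) := by ring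
      rw [h1, hx]
      have h2 : ∀ i, algebraMap K Ω ((if i = 0 then 0 else a (i - 1)) + a N * c i) * x ^ i =
          algebraMap K Ω (if i = 0 then 0 else a (i - 1)) * x ^ i +
            algebraMap K Ω (a N) * (algebraMap K Ω (c i) * x ^ i) := by
        intro i
        rw [map_add, map_mul]
        ring
      rw [Finset.sum_congr rfl fun i _ => h2 i, Finset.sum_add_distrib, ← Finset.mul_sum]
      congr 1
      rw [Finset.sum_range_succ']
      simp only [Nat.add_eq_zero_iff, one_ne_zero, and_false, if_false, Nat.add_sub_cancel,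
        if_true, map_zero, zero_mul, add_zero]
      refine Finset.sum_congr rfl fun i _ => ?_
      ring

lemma LF.res_pow (Λ : LF K) {x : Ω} (hx : sAV K Ω x = 1) :
    ∃ k : ℕ, 1 ≤ k ∧ sAV K Ω (x ^ k - 1) < 1 := by
  have hxi : IsIntegral K x := Algebra.IsIntegral.isIntegral x
  set f := minpoly K x with hf
  have hmon : f.Monic := minpoly.monic hxi
  have hco : ∀ n, ‖f.coeff n‖ ≤ 1 := by
    rw [← spectralValue_le_one_iff hmon]
    exact hx.le
  obtain ⟨N, hN⟩ : ∃ N, f.natDegree = N + 1 :=
    Nat.exists_eq_succ_of_ne_zero (minpoly.natDegree_pos hxi).ne'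
  have hrel : x ^ (N + 1) = ∑ i ∈ Finset.range (N + 1), algebraMap K Ω (- f.coeff i) * x ^ i := by
    have h1 : Polynomial.aeval x f = 0 := minpoly.aeval K x
    rw [Polynomial.aeval_eq_sum_range, hN, Finset.sum_range_succ, ← hN, hmon.coeff_natDegree,
      hN, one_smul] at h1
    have h2 := eq_neg_of_add_eq_zero_right h1
    rw [h2, ← Finset.sum_neg_distrib]
    refine Finset.sum_congr rfl fun i _ => ?_
    rw [Algebra.smul_def, map_neg]
    ring
  have hc : ∀ i, ‖- f.coeff i‖ ≤ 1 := fun i => by rw [norm_neg]; exact hco i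
  choose a ha hxa using exists_coords hc hrel
  choose s hs hsa using fun (n i : ℕ) => Λ.cov (a n i) (ha n i)
  have hfin : Finite Λ.S := Λ.hS
  obtain ⟨m, n, hne, he⟩ := Finite.exists_ne_map_eq_of_infinite
    (fun n : ℕ => fun i : Fin (N + 1) => (⟨s n i, hs n i⟩ : Λ.S))
  have key : ∀ m n : ℕ, m < n → (∀ i < N + 1, s m i = s n i) →
      ∃ k : ℕ, 1 ≤ k ∧ sAV K Ω (x ^ k - 1) < 1 := by
    intro m n hmn hs'
    refine ⟨n - m, by omega, ?_⟩
    have h1 : sAV K Ω (x ^ n - x ^ m) < 1 := by
      rw [hxa n, hxa m, ← Finset.sum_sub_distrib]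
      refine av_sum_lt (sAV_na K Ω) _ _ zero_lt_one fun i hi => ?_
      rw [← sub_mul, ← map_sub, map_mul, map_pow, hx, one_pow, mul_one, sAV_alg]
      have h2 : a n i - a m i = (a n i - s n i) + - (a m i - s m i) := by
        rw [hs' i (Finset.mem_range.1 hi)]
        ring
      rw [h2]
      refine (IsUltrametricDist.norm_add_le_max _ _).trans_lt (max_lt (hsa n i) ?_)
      rw [norm_neg]
      exact hsa m i
    have h2 : x ^ n - x ^ m = x ^ m * (x ^ (n - m) - 1) := by
      have : n = m + (n - m) := by omega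
      conv_lhs => rw [this, pow_add]
      ring
    rw [h2, map_mul, map_pow, hx, one_pow, one_mul] at h1
    exact h1
  have he' : ∀ i < N + 1, s m i = s n i := by
    intro i hi
    have := congrFun he ⟨i, hi⟩
    simpa using this
  rcases lt_or_gt_of_ne hne with h | h
  · exact key m n h he'
  · exact key n m h fun i hi => (he' i hi).symm

lemma LF.sdsc (Λ : LF K) {x : Ω} (hx : x ≠ 0) :
    ∃ n : ℕ, 1 ≤ n ∧ ∃ m : ℤ, sAV K Ω x ^ n = Λ.q ^ m := by
  have hxi : IsIntegral K x := Algebra.IsIntegral.isIntegral x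
  obtain ⟨m, hm⟩ := Λ.dsc ((minpoly K x).coeff 0) (minpoly.coeff_zero_ne_zero hxi hx)
  have hpos := minpoly.natDegree_pos hxi
  refine ⟨(minpoly K x).natDegree, hpos, m, ?_⟩
  rw [sAV_def, spectralNorm.spectralNorm_eq_norm_coeff_zero_rpow, ← Real.rpow_natCast,
    ← Real.rpow_mul (norm_nonneg _), one_div, inv_mul_cancel₀, Real.rpow_one, hm]
  exact_mod_cast hpos.ne'

/-- place from an embedding -/
noncomputable def LF.toNPl (Λ : LF K) {L : Type*} [Field L] (θ : L →+* Ω) : NPl L where
  v :=
    { toFun := fun x => sAV K Ω (θ x)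
      map_mul' := fun x y => by simp
      nonneg' := fun x => (sAV K Ω).nonneg _
      eq_zero' := fun x => by simp
      add_le' := fun x y => by simpa using (sAV K Ω).add_le (θ x) (θ y) }
  na x y := by
    change sAV K Ω (θ (x + y)) ≤ _
    rw [map_add]
    exact sAV_na K Ω _ _
  p := Λ.p
  hp1 := Λ.hp1
  hp := by
    change sAV K Ω (θ (Λ.p : L)) < 1
    rw [map_natCast, ← map_natCast (algebraMap K Ω), sAV_alg]
    exact Λ.hp
  res x hx := by
    change sAV K Ω (θ x) = 1 at hx
    obtain ⟨k, hk, h⟩ := Λ.res_pow hx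
    refine ⟨k, hk, ?_⟩
    change sAV K Ω (θ (x ^ k - 1)) < 1
    rw [map_sub, map_pow, map_one]
    exact h
  q := Λ.q
  hq := Λ.hq
  dsc x hx := by
    obtain ⟨n, hn, m, h⟩ := Λ.sdsc (Ω := Ω) (x := θ x) (by simpa using hx)
    exact ⟨n, hn, m, h⟩

lemma LF.toNPl_v (Λ : LF K) {L : Type*} [Field L] (θ : L →+* Ω) (x : L) :
    (Λ.toNPl θ).v x = sAV K Ω (θ x) := rfl

/-- a monic polynomial with a large coefficient has a large root -/
lemma exists_big_root [IsAlgClosed Ω] {f : Polynomial K} (hf : f.Monic) {n : ℕ}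
    (hn : 1 < ‖f.coeff n‖) :
    ∃ y : Ω, Polynomial.aeval y f = 0 ∧ 1 < sAV K Ω y := by
  by_contra hcon
  push Not at hcon
  set g := f.map (algebraMap K Ω) with hg
  have hgm : g.Monic := hf.map _
  have hsplit : g = (g.roots.map fun a => Polynomial.X - Polynomial.C a).prod := by
    exact (IsAlgClosed.splits g).eq_prod_roots_of_monic hgm
  have hroots : ∀ a ∈ g.roots, sAV K Ω a ≤ 1 := by
    intro a ha
    apply hcon
    rw [Polynomial.mem_roots hgm.ne_zero, Polynomial.IsRoot, hg, Polynomial.eval_map_algebraMap]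
      at ha
    exact ha
  have key : ∀ s : Multiset Ω, (∀ a ∈ s, sAV K Ω a ≤ 1) → ∀ n,
      sAV K Ω ((s.map fun a => Polynomial.X - Polynomial.C a).prod.coeff n) ≤ 1 := by
    intro s
    induction s using Multiset.induction_on with
    | empty =>
      intro _ n
      simp only [Multiset.map_zero, Multiset.prod_zero, Polynomial.coeff_one]
      split_ifs <;> simp
    | cons a s ih =>
      intro hs n
      have ih' := ih fun b hb => hs b (Multiset.mem_cons_of_mem hb)
      have ha := hs a (Multiset.mem_cons_self a s)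
      rw [Multiset.map_cons, Multiset.prod_cons, sub_mul, Polynomial.coeff_sub,
        Polynomial.coeff_C_mul, sub_eq_add_neg]
      refine (sAV_na K Ω _ _).trans (max_le ?_ ?_)
      · cases n with
        | zero => simp
        | succ n => rw [Polynomial.coeff_X_mul]; exact ih' n
      · rw [map_neg_eq_map, map_mul]
        exact mul_le_one₀ ha ((sAV K Ω).nonneg _) (ih' n)
  have h1 := key g.roots hroots n
  rw [← hsplit, hg, Polynomial.coeff_map, sAV_alg] at h1
  linarith

variable (K) in
/-- there is a transcendental element of large absolute value -/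
lemma exists_big_transc (k : Type*) [Field k] [Algebra k K] [Countable k]
    (hK : Cardinal.aleph0 < Cardinal.mk K) :
    ∃ y : K, Transcendental k y ∧ 1 < ‖y‖ := by
  have h1 : {x : K | IsAlgebraic k x}.Countable := Algebraic.countable k K
  obtain ⟨τ, hτ⟩ : ∃ τ : K, Transcendental k τ := by
    by_contra hcon
    push Not at hcon
    have h2 : {x : K | IsAlgebraic k x} = Set.univ := by
      ext x
      simp only [Set.mem_ofPred_eq, Set.mem_univ, iff_true]
      by_contra hx
      exact hcon x hx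
    rw [h2, Set.countable_univ_iff] at h1
    exact absurd Cardinal.mk_le_aleph0 (not_le.2 hK)
  have hτ0 : τ ≠ 0 := by
    rintro rfl
    exact hτ isAlgebraic_zero
  obtain ⟨n, hn⟩ := NormedField.exists_lt_norm K (max 1 (‖τ‖⁻¹))
  have hn1 : 1 < ‖n‖ := (le_max_left _ _).trans_lt hn
  have hn0 : n ≠ 0 := by
    rintro rfl
    simp at hn1
    linarith
  by_cases hnt : Transcendental k n
  · exact ⟨n, hnt, hn1⟩
  · refine ⟨n * τ, ?_, ?_⟩
    · intro h
      apply hτ
      have h3 : IsAlgebraic k n := by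
        by_contra h4
        exact hnt h4
      have h5 := h3.inv.mul h
      rwa [← mul_assoc, inv_mul_cancel₀ hn0, one_mul] at h5
    · rw [norm_mul]
      have h3 : ‖τ‖⁻¹ < ‖n‖ := (le_max_right _ _).trans_lt hn
      have h4 : 0 < ‖τ‖ := norm_pos_iff.2 hτ0
      rw [inv_lt_iff_one_lt_mul₀ h4] at h3
      linarith

end Pool.Agent.H.MP_df1c3e_lc
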