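import Pool.Agent.H.MP_df1c3e_lc.Rank
import Pool.Agent.H.MP_df1c3e_lc.Ctx

/-!
Loops act by scalars up to a fixed power.
-/

namespace Pool.Agent.H.MP_df1c3e_lc

open Module Matrix Polynomial

variable {L : Type*} [Field L] {A : Type*} [CommRing A] {G : Subgroup Lˣ} {cs : CS L A}

lemma coeff_cst_mul (cs : CS L A) (Γ : Subgroup Lˣ) (a : L) (f : MonoidAlgebra A Γ) (γ : Γ) :
    (cs.cst Γ a * f).coeff γ = cs.k a * f.coeff γ := by
  rw [CS.cst, MonoidAlgebra.coeff_single_one_mul]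

/-- matrix coefficients with values in `G ∪ {0}` are geometric along `D`-th powers -/
lemma lemE [IsAlgClosed L] {N : ℕ} (C : Ctx cs G N) {k : ℕ} (hk : k ≤ N) (hk0 : 0 < k)
    (X : Matrix (Fin k) (Fin k) L) (hX : ∀ μ, X.charpoly.IsRoot μ → InG G μ) (r s : Fin k → L)
    (h : ∀ n, r ⬝ᵥ (X ^ n *ᵥ s) = 0 ∨ InG G (r ⬝ᵥ (X ^ n *ᵥ s))) :
    ∃ lam, (X ^ C.Λ.D).charpoly.IsRoot lam ∧ r ⬝ᵥ (X ^ C.Λ.D *ᵥ s) = lam * (r ⬝ᵥ s) := by
  classical
  have hne : Nonempty (Fin k) := ⟨⟨0, hk0⟩⟩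
  obtain ⟨Θ, h1, h2⟩ := C.mcf k hk X (fun μ hμ => Or.inr (hX μ hμ))
  have h0 : ¬ (X ^ C.Λ.D).charpoly.IsRoot 0 := by
    intro h0
    obtain ⟨ν, hν, hν0⟩ := (eig_pow X C.Λ.hD 0).1 h0
    exact (hX ν hν).ne_zero (eq_zero_of_pow_eq_zero hν0)
  set f : MonoidAlgebra A C.Λ.Γ := ∑ i, ∑ j, cs.cst C.Λ.Γ (r i * s j) * Θ i j with hf
  have hfev : ∀ m, cs.ev C.Λ.Γ m f = r ⬝ᵥ ((X ^ C.Λ.D) ^ m *ᵥ s) := by
    intro m
    rw [← h1 m (Or.inr h0), hf, map_sum, dotProduct]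
    refine Finset.sum_congr rfl fun i _ => ?_
    rw [map_sum, mulVec, dotProduct, Finset.mul_sum]
    refine Finset.sum_congr rfl fun j _ => ?_
    rw [map_mul, CS.ev_cst, Matrix.map_apply]
    ring
  have hfcoef : ∀ γ : C.Λ.Γ, f.coeff γ ≠ 0 → (X ^ C.Λ.D).charpoly.IsRoot ((γ : Lˣ) : L) := by
    intro γ hγ
    by_contra hne
    apply hγ
    rw [hf, MonoidAlgebra.coeff_sum, Finsupp.finsetSum_apply]
    refine Finset.sum_eq_zero fun i _ => ?_
    rw [MonoidAlgebra.coeff_sum, Finsupp.finsetSum_apply]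
    refine Finset.sum_eq_zero fun j _ => ?_
    rw [coeff_cst_mul]
    have : (Θ i j).coeff γ = 0 := by
      by_contra h3
      exact hne (h2 i j γ h3)
    rw [this, mul_zero]
  rcases C.rig.rank_one f 0 (by
    intro n _
    rw [hfev, ← pow_mul]
    exact h _) with h3 | ⟨γ, hγ, h3⟩
  · obtain ⟨lam, hlam⟩ := exists_eig (X ^ C.Λ.D)
    refine ⟨lam, hlam, ?_⟩
    have e0 := hfev 0
    have e1 := hfev 1
    rw [h3, map_zero] at e0 e1
    rw [pow_zero, one_mulVec] at e0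
    rw [pow_one] at e1
    rw [← e0, ← e1, mul_zero]
  · refine ⟨_, hfcoef γ hγ, ?_⟩
    have e := h3 0
    rw [hfev, hfev, zero_add, pow_one, pow_zero, one_mulVec] at e
    exact e

variable {σ : Type*} {V : Type*} [AddCommGroup V] [Module L V]
  {ρ : σ → Module.End L V} {x₀ : Module.Dual L V} {y₀ : V} {H : HullData ρ x₀ y₀} {k : ℕ}

lemma Mv_pow (hmax : ∀ p q, IsEmpty (DSys (H.A p) (H.B q) (k + 1))) {o : Obj H k} {v : List σ}
    (h : Pth o o v) (n : ℕ) : ∃ w : List σ, Pth o o w ∧ Rw ρ w = (Rw ρ v) ^ n ∧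
      Mv o o w = (Mv o o v) ^ n := by
  induction n with
  | zero => exact ⟨[], Pth_nil o, by rw [Rw_nil, pow_zero], by rw [Mv_nil, pow_zero]⟩
  | succ n ih =>
    obtain ⟨w, h1, h2, h3⟩ := ih
    exact ⟨w ++ v, h1.append h, by rw [Rw_append, h2, pow_succ],
      by rw [Mv_append hmax h1 h, h3, pow_succ]⟩

/-- nonzero eigenvalues of loop matrices are eigenvalues of the representation -/
lemma loop_eig [FiniteDimensional L V]
    (hmax : ∀ p q, IsEmpty (DSys (H.A p) (H.B q) (k + 1)))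
    {o : Obj H k} {v : List σ} (h : Pth o o v) {lam : L}
    (hlam : (Mv o o v).charpoly.IsRoot lam) : (Rw ρ v).HasEigenvalue lam := by
  classical
  rw [← hasEigenvalue_toLin'] at hlam
  obtain ⟨c, hc, hc0⟩ := hlam.exists_hasEigenvector
  rw [Module.End.mem_eigenspace_iff, Matrix.toLin'_apply] at hc
  by_contra hno
  set T : Module.End L V := Rw ρ v - lam • (1 : Module.End L V) with hT
  have hinj : Function.Injective T := by
    rw [← LinearMap.ker_eq_bot]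
    by_contra h1
    apply hno
    rw [Module.End.hasEigenvalue_iff, Module.End.eigenspace_def]
    exact h1
  have hsurj : Function.Surjective T := LinearMap.injective_iff_surjective.1 hinj
  have hdual : Function.Injective T.dualMap := LinearMap.dualMap_injective_of_surjective hsurj
  have hstab : ∀ x ∈ H.A o.1.1, T.dualMap x ∈ H.A o.1.1 := by
    intro x hx
    have e : T.dualMap x = x ∘ₗ Rw ρ v - lam • x := by
      ext y
      simp [hT]
    rw [e]
    refine (H.A o.1.1).sub_mem ?_ ((H.A o.1.1).smul_mem _ hx)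
    have := H.A_mem v _ hx
    rw [h.1] at this
    exact this
  set R : Module.End L (H.A o.1.1) := T.dualMap.restrict hstab with hR
  have hRinj : Function.Injective R := by
    intro x y hxy
    apply Subtype.ext
    apply hdual
    exact congrArg Subtype.val hxy
  have hres : Function.Surjective R :=
    (LinearMap.injective_iff_surjective (V := H.A o.1.1)).1 hRinj
  apply hc0
  ext i
  obtain ⟨⟨x, hx⟩, hxe⟩ := hres ⟨o.d.x i, o.d.hx i⟩
  have hxe' : T.dualMap x = o.d.x i := congrArg Subtype.val hxe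
  have h1 : o.r (T.dualMap x) ⬝ᵥ c = 0 := by
    have e : T.dualMap x = x ∘ₗ Rw ρ v - lam • x := by
      ext y
      simp [hT]
    rw [e, map_sub, map_smul, Mv_vecMul hmax h hx, sub_dotProduct, smul_dotProduct,
      ← dotProduct_mulVec, hc, dotProduct_smul, sub_self]
  rw [hxe', Obj.r_x] at h1
  simpa using h1

lemma loop_value (hmax : ∀ p q, IsEmpty (DSys (H.A p) (H.B q) (k + 1)))
    {o : Obj H k} {v : List σ} (h : Pth o o v) (n : ℕ) {x : Module.Dual L V} (hx : x ∈ H.A o.1.1)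
    {y : V} (hy : y ∈ H.B o.1.2) :
    o.r x ⬝ᵥ ((Mv o o v) ^ n *ᵥ o.s y) = x (((Rw ρ v) ^ n) y) := by
  obtain ⟨w, h1, h2, h3⟩ := Mv_pow hmax h n
  have h4 : x ∘ₗ Rw ρ w ∈ H.A o.1.1 := by
    have := H.A_mem w _ hx
    rw [h1.1] at this
    exact this
  have h5 := o.expand hmax h4 hy
  rw [Mv_vecMul hmax h1 hx] at h5
  rw [← h3, dotProduct_mulVec, ← h5, ← h2]
  rfl

/-- the `D`-th power of a loop matrix is scalar -/
lemma loop_scalar [IsAlgClosed L] [FiniteDimensional L V] {N : ℕ} (C : Ctx cs G N)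
    (hk : k ≤ N) (hk0 : 0 < k)
    (hmax : ∀ p q, IsEmpty (DSys (H.A p) (H.B q) (k + 1)))
    (hρ : ∀ w μ, (Rw ρ w).HasEigenvalue μ → μ = 0 ∨ InG G μ)
    (hval : ∀ w, x₀ (Rw ρ w y₀) = 0 ∨ InG G (x₀ (Rw ρ w y₀)))
    {o : Obj H k} {v : List σ} (h : Pd o o v) :
    (∀ μ, (Mv o o v).charpoly.IsRoot μ → InG G μ) ∧
      ∃ a : L, (Mv o o v) ^ C.Λ.D = a • (1 : Matrix (Fin k) (Fin k) L) := by
  classical
  set X := Mv o o v with hX
  have hne : Nonempty (Fin k) := ⟨⟨0, hk0⟩⟩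
  have heig : ∀ μ, X.charpoly.IsRoot μ → InG G μ := by
    intro μ hμ
    refine (hρ v μ (loop_eig hmax h.1 hμ)).resolve_left ?_
    rintro rfl
    have h1 := (Matrix.isUnit_iff_isUnit_det _).1 h.2
    rw [isUnit_iff_ne_zero] at h1
    exact h1 ((eig_zero_iff _).1 hμ)
  refine ⟨heig, ?_⟩
  set D := C.Λ.D with hD
  set Z : L → Matrix (Fin k) (Fin k) L := fun lam => X ^ D - lam • 1 with hZ
  have hfin : {lam | (X ^ D).charpoly.IsRoot lam}.Finite := by
    have h1 : (X ^ D).charpoly ≠ 0 := (Matrix.charpoly_monic _).ne_zero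
    refine ((X ^ D).charpoly.roots.toFinset.finite_toSet).subset fun lam hlam => ?_
    simp only [Finset.mem_coe, Multiset.mem_toFinset]
    exact (Polynomial.mem_roots h1).2 hlam
  -- first use of irreducibility
  have key1 : ∀ u : List σ, u.foldl H.δ H.p0 = o.1.1 → ∃ lam, (X ^ D).charpoly.IsRoot lam ∧
      o.r (x₀ ∘ₗ Rw ρ u) ᵥ* Z lam = 0 := by
    intro u hu
    have hxA : x₀ ∘ₗ Rw ρ u ∈ H.A o.1.1 := by
      rw [← hu]; exact H.A_mem u _ H.hp0
    obtain ⟨C', ⟨lam, hlam, rfl⟩, hle⟩ := H.irrQ o.1.2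
      ((fun lam => LinearMap.ker ((Matrix.vecMulLinear (Matrix.of fun (i : Fin k) (_ : Fin 1) =>
        (o.r (x₀ ∘ₗ Rw ρ u) ᵥ* Z lam) i)) ∘ₗ o.s)) '' {lam | (X ^ D).charpoly.IsRoot lam})
      (hfin.image _) (by
        intro u' hu'
        have hval' : ∀ n, o.r (x₀ ∘ₗ Rw ρ u) ⬝ᵥ (X ^ n *ᵥ o.s (Rw ρ u' y₀)) = 0 ∨
            InG G (o.r (x₀ ∘ₗ Rw ρ u) ⬝ᵥ (X ^ n *ᵥ o.s (Rw ρ u' y₀))) := by
          intro n
          rw [loop_value hmax h.1 n hxA hu']
          obtain ⟨w, _, h2, _⟩ := Mv_pow hmax h.1 n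
          have e : (x₀ ∘ₗ Rw ρ u) (((Rw ρ v) ^ n) (Rw ρ u' y₀)) =
              x₀ (Rw ρ (u ++ w ++ u') y₀) := by
            rw [Rw_append, Rw_append, h2]; rfl
          rw [e]
          exact hval _
        obtain ⟨lam, hlam, he⟩ := lemE C hk hk0 X heig _ _ hval'
        refine ⟨_, ⟨lam, hlam, rfl⟩, ?_⟩
        rw [LinearMap.mem_ker]
        ext t
        have e2 : (o.r (x₀ ∘ₗ Rw ρ u) ᵥ* Z lam) ⬝ᵥ o.s (Rw ρ u' y₀) = 0 := by
          rw [← dotProduct_mulVec, hZ]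
          simp only [sub_mulVec, smul_mulVec, one_mulVec, dotProduct_sub, dotProduct_smul,
            smul_eq_mul]
          rw [he, sub_self]
        rw [dotProduct_comm] at e2
        exact e2)
    refine ⟨lam, hlam, ?_⟩
    ext j
    have h3 := hle (o.d.hy j)
    rw [LinearMap.mem_ker] at h3
    have h4 := congrFun h3 0
    have h5 : o.s (o.d.y j) ⬝ᵥ (o.r (x₀ ∘ₗ Rw ρ u) ᵥ* Z lam) = 0 := h4
    rw [Obj.s_y] at h5
    simpa using h5
  obtain ⟨C', ⟨lam, hlam, rfl⟩, hle⟩ := H.irrP o.1.1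
    ((fun lam => LinearMap.ker ((Matrix.vecMulLinear (Z lam)) ∘ₗ o.r)) ''
      {lam | (X ^ D).charpoly.IsRoot lam}) (hfin.image _) (by
      intro u hu
      obtain ⟨lam, hlam, he⟩ := key1 u hu
      refine ⟨_, ⟨lam, hlam, rfl⟩, ?_⟩
      rw [LinearMap.mem_ker]
      exact he)
  refine ⟨lam, ?_⟩
  rw [← sub_eq_zero]
  ext i j
  have h3 := hle (o.d.hx i)
  rw [LinearMap.mem_ker] at h3
  have h4 : o.r (o.d.x i) ᵥ* Z lam = 0 := h3
  rw [Obj.r_x, single_one_vecMul] at h4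
  exact congrFun h4 j

end Pool.Agent.H.MP_df1c3e_lc
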