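import Pool.Agent.H.MP_df1c3e_lc.Place

/-!
Exponential polynomials all of whose values have their roots in a finitely generated group.
-/

namespace Pool.Agent.H.MP_df1c3e_lc

open MonoidAlgebra Filter Topology Polynomial

variable {L : Type*} [Field L]

/-- two comparable terms in a vanishing sum -/
lemma comparable_terms (v : AbsoluteValue L ℝ) (q : Polynomial L) (μ : L) (hμ : μ ≠ 0)
    (hq : q.Monic) (hr : q.IsRoot μ) :
    ∃ i ∈ q.support, ∃ j ∈ q.support, i < j ∧
      |Real.log (v (q.coeff i)) + i * Real.log (v μ) -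
        (Real.log (v (q.coeff j)) + j * Real.log (v μ))| ≤ Real.log (q.natDegree + 1) := by
  classical
  have hvμ : 0 < v μ := v.pos hμ
  have hq0 : q ≠ 0 := hq.ne_zero
  set t : ℕ → ℝ := fun i => v (q.coeff i * μ ^ i) with ht
  have htpos : ∀ i ∈ q.support, 0 < t i := fun i hi =>
    v.pos (mul_ne_zero (Polynomial.mem_support_iff.1 hi) (pow_ne_zero _ hμ))
  have hsupp : q.support.Nonempty := Polynomial.support_nonempty.2 hq0
  obtain ⟨i, hi, himax⟩ := q.support.exists_max_image t hsupp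
  have hsum : ∑ k ∈ q.support, q.coeff k * μ ^ k = 0 := by
    have := hr
    rw [Polynomial.IsRoot, Polynomial.eval_eq_sum] at this
    exact this
  have hne : (q.support.erase i).Nonempty := by
    by_contra h
    rw [Finset.not_nonempty_iff_eq_empty] at h
    rw [← Finset.add_sum_erase _ _ hi, h, Finset.sum_empty, add_zero] at hsum
    have := htpos i hi
    simp only [ht] at this
    rw [hsum] at this
    simp at this
  obtain ⟨j, hj, hjmax⟩ := (q.support.erase i).exists_max_image t hne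
  have hj' : j ∈ q.support := Finset.mem_of_mem_erase hj
  have hij : j ≠ i := Finset.ne_of_mem_erase hj
  have h1 : t j ≤ t i := himax j hj'
  have h2 : t i ≤ (q.natDegree + 1) * t j := by
    have e : q.coeff i * μ ^ i = - ∑ k ∈ q.support.erase i, q.coeff k * μ ^ k := by
      rw [← Finset.add_sum_erase _ _ hi] at hsum
      exact eq_neg_of_add_eq_zero_left hsum
    calc t i = v (- ∑ k ∈ q.support.erase i, q.coeff k * μ ^ k) := by
          simp only [ht]; rw [e]
      _ = v (∑ k ∈ q.support.erase i, q.coeff k * μ ^ k) := v.map_neg _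
      _ ≤ ∑ k ∈ q.support.erase i, t k := v.sum_le _ _
      _ ≤ ∑ k ∈ q.support.erase i, t j := Finset.sum_le_sum fun k hk => hjmax k hk
      _ = (q.support.erase i).card * t j := by simp
      _ ≤ (q.natDegree + 1) * t j := by
          refine mul_le_mul_of_nonneg_right ?_ (htpos j hj').le
          have c1 : (q.support.erase i).card ≤ q.support.card := Finset.card_erase_le
          have c2 : q.support.card ≤ q.natDegree + 1 := Polynomial.card_supp_le_succ_natDegree q
          exact_mod_cast c1.trans c2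
  have hlog : ∀ k ∈ q.support, Real.log (t k) = Real.log (v (q.coeff k)) +
      k * Real.log (v μ) := by
    intro k hk
    simp only [ht]
    rw [map_mul, map_pow, Real.log_mul (v.ne_zero (Polynomial.mem_support_iff.1 hk))
      (pow_ne_zero _ hvμ.ne'), Real.log_pow]
  have g1 : Real.log (t j) ≤ Real.log (t i) := Real.log_le_log (htpos j hj') h1
  have g2 : Real.log (t i) ≤ Real.log (q.natDegree + 1) + Real.log (t j) := by
    rw [← Real.log_mul (by positivity) (htpos j hj').ne']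
    exact Real.log_le_log (htpos i hi) h2
  rcases lt_or_gt_of_ne hij with h | h
  · refine ⟨j, hj', i, hi, h, ?_⟩
    rw [← hlog j hj', ← hlog i hi, abs_le]
    constructor <;> linarith [Real.log_nonneg (show (1 : ℝ) ≤ q.natDegree + 1 by
      have : (0 : ℝ) ≤ q.natDegree := Nat.cast_nonneg _
      linarith)]
  · refine ⟨i, hi, j, hj', h, ?_⟩
    rw [← hlog j hj', ← hlog i hi, abs_le]
    constructor <;> linarith [Real.log_nonneg (show (1 : ℝ) ≤ q.natDegree + 1 by
      have : (0 : ℝ) ≤ q.natDegree := Nat.cast_nonneg _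
      linarith)]

lemma FCol.real (a : ℝ) (ε : ℝ) (hε : 0 < ε) :
    FCol fun m m' => ∃ z : ℤ, |((m' : ℝ) - m) * a - z| < ε := by
  obtain ⟨N, hN⟩ := exists_nat_gt (1 / ε)
  have hN0 : (0 : ℝ) < N := lt_trans (by positivity) hN
  have hN1 : 0 < N := by exact_mod_cast hN0
  have hb : ∀ n : ℕ, ⌊(N : ℝ) * Int.fract (n * a)⌋₊ < N := by
    intro n
    rw [Nat.floor_lt (mul_nonneg hN0.le (Int.fract_nonneg _))]
    calc (N : ℝ) * Int.fract (n * a) < N * 1 :=
          mul_lt_mul_of_pos_left (Int.fract_lt_one _) hN0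
      _ = N := mul_one _
  refine ⟨Fin N, inferInstance, fun n => ⟨⌊(N : ℝ) * Int.fract (n * a)⌋₊, hb n⟩,
    fun m m' h => ?_⟩
  have h' : ⌊(N : ℝ) * Int.fract (m * a)⌋₊ = ⌊(N : ℝ) * Int.fract (m' * a)⌋₊ := by
    simpa using h
  refine ⟨⌊(m' : ℝ) * a⌋ - ⌊(m : ℝ) * a⌋, ?_⟩
  have e : ((m' : ℝ) - m) * a - ((⌊(m' : ℝ) * a⌋ - ⌊(m : ℝ) * a⌋ : ℤ) : ℝ) =
      Int.fract ((m' : ℝ) * a) - Int.fract ((m : ℝ) * a) := by
    push_cast
    rw [Int.fract, Int.fract]; ring
  rw [e]
  set x := Int.fract ((m : ℝ) * a)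
  set y := Int.fract ((m' : ℝ) * a)
  have hx0 : 0 ≤ (N : ℝ) * x := mul_nonneg hN0.le (Int.fract_nonneg _)
  have hy0 : 0 ≤ (N : ℝ) * y := mul_nonneg hN0.le (Int.fract_nonneg _)
  have h1 := Nat.floor_le hx0
  have h2 := Nat.lt_floor_add_one ((N : ℝ) * x)
  have h3 := Nat.floor_le hy0
  have h4 := Nat.lt_floor_add_one ((N : ℝ) * y)
  rw [h'] at h1 h2
  have h5 : (N : ℝ) * |y - x| < 1 := by
    rw [← abs_of_pos hN0, ← abs_mul, abs_lt]
    constructor <;> nlinarith
  have h6 : 1 < N * ε := by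
    rw [div_lt_iff₀ hε] at hN
    exact hN
  by_contra hc
  push Not at hc
  have : (N : ℝ) * ε ≤ N * |y - x| := mul_le_mul_of_nonneg_left hc hN0.le
  linarith

lemma north_uniform {ι : Type} (G : Subgroup Lˣ) (v : ι → AbsoluteValue L ℝ)
    (hN : ∀ B : ℝ, {g : Lˣ | g ∈ G ∧ ∀ k, |Real.log (v k (g : L))| ≤ B}.Finite) (c : ℝ) :
    ∃ K : ℕ, ∀ y : ι → ℝ, ∃ F : Finset Lˣ, F.card ≤ K ∧ (∀ g ∈ F, g ∈ G) ∧
      ∀ g ∈ G, (∀ k, |Real.log (v k (g : L)) - y k| ≤ c) → g ∈ F := by
  classical
  set S := (hN (2 * c)).toFinset with hS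
  refine ⟨S.card, fun y => ?_⟩
  by_cases h : ∃ g0 ∈ G, ∀ k, |Real.log (v k (g0 : L)) - y k| ≤ c
  · obtain ⟨g0, hg0, h0⟩ := h
    refine ⟨S.image (fun g => g0 * g), Finset.card_image_le, ?_, ?_⟩
    · intro g hg
      obtain ⟨g', hg', rfl⟩ := Finset.mem_image.1 hg
      rw [hS, Set.Finite.mem_toFinset] at hg'
      exact G.mul_mem hg0 hg'.1
    · intro g hg h1
      rw [Finset.mem_image]
      refine ⟨g0⁻¹ * g, ?_, by group⟩
      rw [hS, Set.Finite.mem_toFinset]
      refine ⟨G.mul_mem (G.inv_mem hg0) hg, fun k => ?_⟩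
      have hv0 : v k (g0 : L) ≠ 0 := (v k).ne_zero (Units.ne_zero _)
      have hv1 : v k (g : L) ≠ 0 := (v k).ne_zero (Units.ne_zero _)
      rw [Units.val_mul, map_mul, Units.val_inv_eq_inv_val, map_inv₀,
        Real.log_mul (inv_ne_zero hv0) hv1, Real.log_inv]
      have a1 := abs_le.1 (h0 k)
      have a2 := abs_le.1 (h1 k)
      rw [abs_le]
      constructor <;> linarith [a1.1, a1.2, a2.1, a2.2]
  · refine ⟨∅, by simp, by simp, fun g hg h1 => ?_⟩
    exact absurd ⟨g, hg, h1⟩ h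

lemma outside_span {ι : Type} [Fintype ι] (U : Submodule ℝ (ι → ℝ)) (α σ : ι → ℝ)
    (hα : α ∉ U) (c : ℝ) :
    ∃ N : ℕ, ∀ n : ℕ, N ≤ n → ∀ x ∈ U, ¬ ∀ k, |x k - n * α k - σ k * Real.log n| ≤ c := by
  classical
  obtain ⟨f, hf, hfU⟩ := U.exists_dual_map_eq_bot_of_notMem hα inferInstance
  have hfU' : ∀ x ∈ U, f x = 0 := by
    intro x hx
    have : f x ∈ Submodule.map f U := Submodule.mem_map_of_mem hx
    rw [hfU] at this
    simpa using this
  set Cf := ∑ k, |f (Pi.single k 1)| with hCf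
  have hbd : ∀ z : ι → ℝ, (∀ k, |z k| ≤ c) → |f z| ≤ c * Cf := by
    intro z hz
    have e : f z = ∑ k, z k * f (Pi.single k 1) := by
      conv_lhs => rw [← LinearMap.sum_single_apply (fun _ : ι => ℝ) z]
      rw [map_sum]
      refine Finset.sum_congr rfl fun k _ => ?_
      have : (Pi.single k (z k) : ι → ℝ) = z k • Pi.single k (1 : ℝ) := by
        ext i
        by_cases hi : i = k
        · subst hi; simp
        · simp [hi]
      rw [this, map_smul, smul_eq_mul]
    rw [e, hCf, Finset.mul_sum]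
    refine (Finset.abs_sum_le_sum_abs _ _).trans (Finset.sum_le_sum fun k _ => ?_)
    rw [abs_mul]
    exact mul_le_mul_of_nonneg_right (hz k) (abs_nonneg _)
  have hlim : Tendsto (fun n : ℕ => (c * Cf) / n + |f σ| * (Real.log n / n)) atTop (𝓝 0) := by
    have h1 : Tendsto (fun n : ℕ => (c * Cf) / (n : ℝ)) atTop (𝓝 0) :=
      tendsto_const_div_atTop_nhds_zero_nat _
    have h2 : Tendsto (fun x : ℝ => Real.log x / x) atTop (𝓝 0) :=
      Real.isLittleO_log_id_atTop.tendsto_div_nhds_zero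
    have h3 := (h2.comp (tendsto_natCast_atTop_atTop (R := ℝ))).const_mul |f σ|
    have h4 := h1.add h3
    simpa using h4
  obtain ⟨N, hN⟩ := eventually_atTop.1 (hlim.eventually (gt_mem_nhds (abs_pos.2 hf)))
  refine ⟨N + 1, fun n hn x hx hk => ?_⟩
  have h1 := hN n (by omega)
  have hn0 : (0 : ℝ) < n := by exact_mod_cast (by omega : 0 < n)
  have h2 := hbd (x - (n : ℝ) • α - Real.log n • σ) (fun k => by
    have := hk k
    simpa [mul_comm] using this)
  rw [map_sub, map_sub, hfU' x hx, map_smul, map_smul, smul_eq_mul, smul_eq_mul] at h2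
  have h3 : (n : ℝ) * |f α| ≤ c * Cf + |Real.log n| * |f σ| := by
    have e : (n : ℝ) * f α = -(0 - n * f α - Real.log n * f σ) - Real.log n * f σ := by ring
    have : |(n : ℝ) * f α| ≤ |0 - n * f α - Real.log n * f σ| + |Real.log n * f σ| := by
      rw [e]
      refine (abs_sub _ _).trans ?_
      rw [abs_neg]
      simp
    rw [abs_mul, abs_mul, abs_of_pos hn0] at this
    linarith
  have hlog : 0 ≤ Real.log n := Real.log_natCast_nonneg n
  rw [abs_of_nonneg hlog] at h3
  have h4 : (n : ℝ) * ((c * Cf) / n + |f σ| * (Real.log n / n)) = c * Cf + Real.log n * |f σ| := by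
    field_simp
  have h5 := mul_lt_mul_of_pos_left h1 hn0
  rw [h4] at h5
  linarith

end Pool.Agent.H.MP_df1c3e_lc
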