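import Pool.Agent.H.MP_df1c3e_lc.Place

/-!
Places coming from absolute values.
-/

namespace Pool.Agent.H.MP_df1c3e_lc

open Filter Topology

/-- nonarchimedean absolute value of local type -/
structure NPl (L : Type*) [Field L] where
  /-- the absolute value -/
  v : AbsoluteValue L ℝ
  na : ∀ x y, v (x + y) ≤ max (v x) (v y)
  /-- residue characteristic -/
  p : ℕ
  hp1 : 1 ≤ p
  hp : v (p : L) < 1
  res : ∀ x, v x = 1 → ∃ k : ℕ, 1 ≤ k ∧ v (x ^ k - 1) < 1
  /-- base of the value group -/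
  q : ℝ
  hq : 1 < q
  dsc : ∀ x, x ≠ 0 → ∃ n : ℕ, 1 ≤ n ∧ ∃ m : ℤ, v x ^ n = q ^ m

variable {L : Type*} [Field L]

lemma av_sum_le {v : AbsoluteValue L ℝ} (na : ∀ x y, v (x + y) ≤ max (v x) (v y))
    {ι : Type*} (s : Finset ι) (f : ι → L) {c : ℝ} (hc : 0 ≤ c) (h : ∀ i ∈ s, v (f i) ≤ c) :
    v (∑ i ∈ s, f i) ≤ c := by
  classical
  induction s using Finset.induction_on with
  | empty => simpa using hc
  | insert a s ha ih =>
    rw [Finset.sum_insert ha]
    refine (na _ _).trans (max_le (h a (by simp)) (ih fun i hi => h i (by simp [hi])))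

lemma av_sum_lt {v : AbsoluteValue L ℝ} (na : ∀ x y, v (x + y) ≤ max (v x) (v y))
    {ι : Type*} (s : Finset ι) (f : ι → L) {c : ℝ} (hc : 0 < c) (h : ∀ i ∈ s, v (f i) < c) :
    v (∑ i ∈ s, f i) < c := by
  classical
  induction s using Finset.induction_on with
  | empty => simpa using hc
  | insert a s ha ih =>
    rw [Finset.sum_insert ha]
    refine (na _ _).trans_lt (max_lt (h a (by simp)) (ih fun i hi => h i (by simp [hi])))

variable (P : NPl L)

lemma NPl.nat_le (n : ℕ) : P.v (n : L) ≤ 1 := by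
  induction n with
  | zero => simp
  | succ n ih =>
    push_cast
    exact (P.na _ _).trans (max_le ih (by simp))

lemma NPl.pow_sub_one_le {x : L} (hx : P.v x = 1) (j : ℕ) : P.v (x ^ j - 1) ≤ P.v (x - 1) := by
  have h1 : x ^ j - 1 = (∑ i ∈ Finset.range j, x ^ i) * (x - 1) := (geom_sum_mul x j).symm
  rw [h1, map_mul]
  have h2 : P.v (∑ i ∈ Finset.range j, x ^ i) ≤ 1 :=
    av_sum_le P.na _ _ zero_le_one fun i _ => by rw [map_pow, hx, one_pow]
  exact mul_le_of_le_one_left (P.v.nonneg _) h2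

lemma NPl.pow_p_le {x : L} (hx : P.v x = 1) :
    P.v (x ^ P.p - 1) ≤ max (P.v (x - 1)) (P.v (P.p : L)) * P.v (x - 1) := by
  have h1 : x ^ P.p - 1 = (∑ i ∈ Finset.range P.p, x ^ i) * (x - 1) := (geom_sum_mul x _).symm
  rw [h1, map_mul]
  refine mul_le_mul_of_nonneg_right ?_ (P.v.nonneg _)
  have h2 : ∑ i ∈ Finset.range P.p, x ^ i =
      ∑ i ∈ Finset.range P.p, (x ^ i - 1) + (P.p : L) := by
    rw [Finset.sum_sub_distrib]
    simp
  rw [h2]
  refine (P.na _ _).trans (max_le_max ?_ le_rfl)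
  exact av_sum_le P.na _ _ (P.v.nonneg _) fun i _ => P.pow_sub_one_le hx i

lemma NPl.near_one {x : L} (hx : P.v x = 1) {ε : ℝ} (hε : 0 < ε) :
    ∃ M : ℕ, 1 ≤ M ∧ P.v (x ^ M - 1) < ε := by
  obtain ⟨k, hk, h⟩ := P.res x hx
  set y := x ^ k with hy
  have hy1 : P.v y = 1 := by rw [hy, map_pow, hx, one_pow]
  set c := max (P.v (y - 1)) (P.v (P.p : L)) with hc
  have hc0 : 0 ≤ c := le_max_of_le_left (P.v.nonneg _)
  have hc1 : c < 1 := max_lt h P.hp
  have key : ∀ j : ℕ, P.v (y ^ (P.p ^ j) - 1) ≤ c ^ j * P.v (y - 1) := by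
    intro j
    induction j with
    | zero => simp
    | succ j ih =>
      have hz1 : P.v (y ^ (P.p ^ j)) = 1 := by rw [map_pow, hy1, one_pow]
      have h2 := P.pow_p_le hz1
      rw [← pow_mul, ← pow_succ] at h2
      refine h2.trans ?_
      have h3 : max (P.v (y ^ (P.p ^ j) - 1)) (P.v (P.p : L)) ≤ c :=
        max_le_max (P.pow_sub_one_le hy1 _) le_rfl
      calc _ ≤ c * (c ^ j * P.v (y - 1)) := mul_le_mul h3 ih (P.v.nonneg _) hc0
        _ = _ := by ring
  have hlim : Tendsto (fun j : ℕ => c ^ j * P.v (y - 1)) atTop (𝓝 (0 * P.v (y - 1))) :=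
    (tendsto_pow_atTop_nhds_zero_of_lt_one hc0 hc1).mul_const _
  rw [zero_mul] at hlim
  obtain ⟨j, hj⟩ := ((tendsto_order.1 hlim).2 ε hε).exists
  refine ⟨k * P.p ^ j, Nat.mul_pos hk (pow_pos P.hp1 j), ?_⟩
  rw [pow_mul]
  exact (key j).trans_lt hj

lemma NPl.tb {x : L} (hx : P.v x = 1) {ε : ℝ} (hε : 0 < ε) :
    FCol fun m n => P.v (x ^ m - x ^ n) < ε := by
  obtain ⟨M, hM, h⟩ := P.near_one hx hε
  have key : ∀ m n : ℕ, m ≤ n → M ∣ n - m → P.v (x ^ m - x ^ n) < ε := by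
    intro m n hmn ⟨j, hj⟩
    have h1 : x ^ m - x ^ n = - (x ^ m * ((x ^ M) ^ j - 1)) := by
      have h2 : n = m + M * j := by omega
      rw [h2, pow_add, pow_mul]
      ring
    rw [h1, map_neg_eq_map, map_mul, map_pow, hx, one_pow, one_mul]
    have h3 : P.v (x ^ M) = 1 := by rw [map_pow, hx, one_pow]
    exact (P.pow_sub_one_le h3 j).trans_lt h
  obtain ⟨T, hT, c, hc⟩ := FCol.modulus M hM
  refine ⟨T, hT, c, fun m n hmn => ?_⟩
  rcases le_total m n with h1 | h1
  · exact key m n h1 (hc m n hmn h1)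
  · rw [P.v.map_sub]
    exact key n m h1 (hc n m hmn.symm h1)

lemma NPl.pow_p_lt {ε : ℝ} (hε : 0 < ε) : ∃ M : ℕ, 1 ≤ M ∧ ∀ h : ℕ, M ∣ h → P.v (h : L) < ε := by
  have hlim := tendsto_pow_atTop_nhds_zero_of_lt_one (P.v.nonneg (P.p : L)) P.hp
  obtain ⟨j, hj⟩ := ((tendsto_order.1 hlim).2 ε hε).exists
  refine ⟨P.p ^ j, Nat.one_le_pow j P.p P.hp1, ?_⟩
  rintro _ ⟨h, rfl⟩
  push_cast
  rw [map_mul, map_pow]
  exact (mul_le_of_le_one_right (by positivity) (P.nat_le h)).trans_lt hj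

lemma NPl.eval_le (c : Polynomial L) (n : ℕ) :
    P.v (c.eval (n : L)) ≤ ∑ i ∈ Finset.range (c.natDegree + 1), P.v (c.coeff i) := by
  rw [Polynomial.eval_eq_sum_range]
  refine (P.v.sum_le _ _).trans (Finset.sum_le_sum fun i _ => ?_)
  rw [map_mul, map_pow]
  exact mul_le_of_le_one_right (P.v.nonneg _) (pow_le_one₀ (P.v.nonneg _) (P.nat_le n))

lemma NPl.eval_sub_le (c : Polynomial L) (n h : ℕ) :
    P.v (c.eval ((n + h : ℕ) : L) - c.eval (n : L)) ≤
      (∑ i ∈ Finset.range (c.natDegree + 1), P.v (c.coeff i)) * P.v (h : L) := by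
  rw [Polynomial.eval_eq_sum_range, Polynomial.eval_eq_sum_range, ← Finset.sum_sub_distrib,
    Finset.sum_mul]
  refine (P.v.sum_le _ _).trans (Finset.sum_le_sum fun i _ => ?_)
  rw [← mul_sub, map_mul]
  refine mul_le_mul_of_nonneg_left ?_ (P.v.nonneg _)
  obtain ⟨k, hk⟩ : h ∣ (n + h) ^ i - n ^ i := by
    have := Nat.sub_dvd_pow_sub_pow (n + h) n i
    simpa using this
  have h1 : (n + h) ^ i = n ^ i + h * k := by
    have : n ^ i ≤ (n + h) ^ i := Nat.pow_le_pow_left (Nat.le_add_right _ _) i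
    omega
  have h2 : (((n + h : ℕ) : L)) ^ i - (n : L) ^ i = (h : L) * (k : L) := by
    have : (((n + h) ^ i : ℕ) : L) = ((n ^ i + h * k : ℕ) : L) := by rw [h1]
    push_cast at this ⊢
    rw [this]
    ring
  rw [h2, map_mul]
  exact mul_le_of_le_one_right (P.v.nonneg _) (P.nat_le k)

/-- nonarchimedean place for polynomial coefficients -/
noncomputable def NPl.toPoly [CharZero L] : GPlace (csPoly L) where
  v := P.v
  tb x hx ε hε := P.tb hx hε
  dg _ := 0
  ld c := c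
  t0 c n := by simp
  t2 c := ⟨0, fun n hn => by simp⟩
  t3 c := ⟨_, fun n => P.eval_le c n⟩
  t4 c ε hε := by
    set S := ∑ i ∈ Finset.range (c.natDegree + 1), P.v (c.coeff i) with hS
    have hS0 : 0 ≤ S := Finset.sum_nonneg fun i _ => P.v.nonneg _
    obtain ⟨M, hM, h⟩ := P.pow_p_lt (ε := ε / (S + 1)) (by positivity)
    refine ⟨M, hM, fun n k hk => (P.eval_sub_le c n k).trans_lt ?_⟩
    rw [← hS]
    have h1 := h k hk
    rw [lt_div_iff₀ (by positivity)] at h1
    nlinarith [P.v.nonneg (k : L)]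
  t5 c hc := hc

/-- nonarchimedean place for constant coefficients -/
noncomputable def NPl.toConst : GPlace (csConst L) where
  v := P.v
  tb x hx ε hε := P.tb hx hε
  dg _ := 0
  ld c := c
  t0 c n := by simp
  t2 c := ⟨0, fun n hn => by simp⟩
  t3 c := ⟨P.v c, fun n => le_rfl⟩
  t4 c ε hε := ⟨1, le_rfl, fun n h _ => by simpa [csConst] using hε⟩
  t5 c hc := hc

lemma fcol_of_bounded {E : Type*} [NormedField E] [ProperSpace E] {x : E} (hx : ‖x‖ = 1)
    {ε : ℝ} (hε : 0 < ε) : FCol fun m n => ‖x ^ m - x ^ n‖ < ε := by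
  have h1 : TotallyBounded (Metric.closedBall (0 : E) 1) :=
    (isCompact_closedBall (0 : E) 1).totallyBounded
  obtain ⟨t, ht, hcov⟩ := Metric.totallyBounded_iff.1 h1 (ε / 2) (by positivity)
  have h2 : ∀ n : ℕ, ∃ y : t, ‖x ^ n - y‖ < ε / 2 := by
    intro n
    have h3 : x ^ n ∈ Metric.closedBall (0 : E) 1 := by
      rw [mem_closedBall_zero_iff, norm_pow, hx, one_pow]
    have h4 := hcov h3
    simp only [Set.mem_iUnion, Metric.mem_ball] at h4
    obtain ⟨y, hy, h5⟩ := h4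
    exact ⟨⟨y, hy⟩, by rwa [dist_eq_norm] at h5⟩
  choose c hc using h2
  have hfin : Finite t := ht
  obtain ⟨e⟩ : Nonempty (t ≃ Fin (Nat.card t)) := ⟨Finite.equivFin t⟩
  refine ⟨Fin (Nat.card t), inferInstance, fun n => e (c n), fun m n h => ?_⟩
  have h3 : c m = c n := e.injective h
  calc ‖x ^ m - x ^ n‖ = ‖(x ^ m - (c m : E)) - (x ^ n - (c n : E))‖ := by
        rw [h3]; congr 1; ring
    _ ≤ ‖x ^ m - (c m : E)‖ + ‖x ^ n - (c n : E)‖ := norm_sub_le _ _
    _ < ε / 2 + ε / 2 := add_lt_add (hc m) (hc n)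
    _ = ε := by ring

/-- the absolute value induced by a complex embedding -/
noncomputable def avC (θ : L →+* ℂ) : AbsoluteValue L ℝ where
  toFun x := ‖θ x‖
  map_mul' x y := by simp
  nonneg' x := norm_nonneg _
  eq_zero' x := by simp
  add_le' x y := by simpa using norm_add_le (θ x) (θ y)

lemma avC_apply (θ : L →+* ℂ) (x : L) : avC θ x = ‖θ x‖ := rfl

/-- archimedean place -/
noncomputable def placeC [CharZero L] (θ : L →+* ℂ) : GPlace (csPoly L) where
  v := avC θ
  tb x hx ε hε := by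
    have := fcol_of_bounded (x := θ x) hx hε
    simpa [avC_apply] using this
  dg := Polynomial.natDegree
  ld c := Polynomial.C c.leadingCoeff
  t0 c n := by simp [avC_apply]
  t2 c := by
    refine ⟨∑ i ∈ Finset.range c.natDegree, avC θ (c.coeff i), fun n hn => ?_⟩
    have h1 : (csPoly L).e n c - (n : L) ^ c.natDegree *
        (csPoly L).e n (Polynomial.C c.leadingCoeff) =
        ∑ i ∈ Finset.range c.natDegree, c.coeff i * (n : L) ^ i := by
      change c.eval (n : L) - (n : L) ^ c.natDegree * (Polynomial.C c.leadingCoeff).eval (n : L) = _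
      rw [Polynomial.eval_eq_sum_range, Finset.sum_range_succ, Polynomial.eval_C,
        Polynomial.leadingCoeff]
      ring
    rw [h1, Finset.sum_mul]
    refine (mul_le_mul_of_nonneg_right ((avC θ).sum_le _ _) (Nat.cast_nonneg n)).trans ?_
    rw [Finset.sum_mul]
    refine Finset.sum_le_sum fun i hi => ?_
    rw [Finset.mem_range] at hi
    rw [map_mul, map_pow, mul_assoc]
    refine mul_le_mul_of_nonneg_left ?_ ((avC θ).nonneg _)
    have h2 : avC θ (n : L) = n := by simp [avC_apply]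
    rw [h2, ← pow_succ]
    exact pow_le_pow_right₀ (by exact_mod_cast hn) hi
  t3 c := ⟨avC θ c.leadingCoeff, fun n => by
    change avC θ ((Polynomial.C c.leadingCoeff).eval (n : L)) ≤ _
    rw [Polynomial.eval_C]⟩
  t4 c ε hε := ⟨1, le_rfl, fun n h _ => by
    change avC θ ((Polynomial.C c.leadingCoeff).eval ((n + h : ℕ) : L) -
      (Polynomial.C c.leadingCoeff).eval (n : L)) < ε
    rw [Polynomial.eval_C, Polynomial.eval_C, sub_self, map_zero]
    exact hε⟩
  t5 c hc := by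
    simpa using hc

end Pool.Agent.H.MP_df1c3e_lc
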