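import Pool.Agent.H.MP_df1c3e_lc.ExpPoly

/-!
Absolute values with recurrence, and the size of exponential polynomials.
-/

namespace Pool.Agent.H.MP_df1c3e_lc

open MonoidAlgebra Filter Topology

/-- there is a finite colouring of `ℕ` such that `R m n` holds for all `m`, `n` of the
same colour -/
def FCol (R : ℕ → ℕ → Prop) : Prop :=
  ∃ (T : Type) (_ : Finite T) (c : ℕ → T), ∀ m n, c m = c n → R m n

lemma FCol.mono {R R' : ℕ → ℕ → Prop} (h : FCol R) (hr : ∀ m n, R m n → R' m n) : FCol R' := by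
  obtain ⟨T, hT, c, hc⟩ := h
  exact ⟨T, hT, c, fun m n h => hr m n (hc m n h)⟩

lemma FCol.and {R R' : ℕ → ℕ → Prop} (h : FCol R) (h' : FCol R') :
    FCol (fun m n => R m n ∧ R' m n) := by
  obtain ⟨T, hT, c, hc⟩ := h
  obtain ⟨T', hT', c', hc'⟩ := h'
  refine ⟨T × T', inferInstance, fun n => (c n, c' n), fun m n h => ?_⟩
  rw [Prod.mk.injEq] at h
  exact ⟨hc m n h.1, hc' m n h.2⟩

lemma FCol.all {ι : Type} [Finite ι] {R : ι → ℕ → ℕ → Prop} (h : ∀ i, FCol (R i)) :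
    FCol (fun m n => ∀ i, R i m n) := by
  choose T hT c hc using h
  refine ⟨∀ i, T i, inferInstance, fun n i => c i n, fun m n h i => ?_⟩
  exact hc i m n (congrFun h i)

lemma FCol.all_finset {ι : Type*} (s : Finset ι) {R : ι → ℕ → ℕ → Prop}
    (h : ∀ i ∈ s, FCol (R i)) : FCol (fun m n => ∀ i ∈ s, R i m n) := by
  have h1 : FCol (fun m n => ∀ i : Fin s.card, R ((s.equivFin.symm i : s) : ι) m n) :=
    FCol.all fun i => h _ (s.equivFin.symm i).2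
  refine h1.mono fun m n hmn i hi => ?_
  have := hmn (s.equivFin ⟨i, hi⟩)
  simpa using this

lemma FCol.exists_pair {R : ℕ → ℕ → Prop} (h : FCol R) : ∃ m n, m < n ∧ R m n := by
  obtain ⟨T, hT, c, hc⟩ := h
  obtain ⟨m, n, hne, he⟩ := Finite.exists_ne_map_eq_of_infinite c
  rcases lt_or_gt_of_ne hne with h | h
  · exact ⟨m, n, h, hc m n he⟩
  · exact ⟨n, m, h, hc n m he.symm⟩

lemma FCol.modulus (M : ℕ) (hM : 1 ≤ M) : FCol (fun m n => m ≤ n → M ∣ n - m) := by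
  refine ⟨ULift (Fin M), inferInstance, fun n => ⟨⟨n % M, Nat.mod_lt _ hM⟩⟩, fun m n h hmn => ?_⟩
  have : m % M = n % M := by simpa using h
  exact (Nat.modEq_iff_dvd' hmn).1 this

variable {L : Type*} [Field L] {C : Type*} [CommRing C]

/-- A place adapted to a system of coefficient functions. -/
structure GPlace (cs : CS L C) where
  /-- the absolute value -/
  v : AbsoluteValue L ℝ
  /-- recurrence -/
  tb : ∀ x, v x = 1 → ∀ ε > 0, FCol fun m n => v (x ^ m - x ^ n) < ε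
  /-- visible degree -/
  dg : C → ℕ
  /-- visible leading part -/
  ld : C → C
  t0 : ∀ c (n : ℕ), v (n : L) ^ dg c = (n : ℝ) ^ dg c
  t2 : ∀ c, ∃ B : ℝ, ∀ n : ℕ, 1 ≤ n →
    v (cs.e n c - (n : L) ^ dg c * cs.e n (ld c)) * n ≤ B * (n : ℝ) ^ dg c
  t3 : ∀ c, ∃ B : ℝ, ∀ n : ℕ, v (cs.e n (ld c)) ≤ B
  t4 : ∀ c, ∀ ε > 0, ∃ M : ℕ, 1 ≤ M ∧ ∀ n h : ℕ, M ∣ h →
    v (cs.e (n + h) (ld c) - cs.e n (ld c)) < ε
  t5 : ∀ c, c ≠ 0 → ld c ≠ 0

variable {cs : CS L C} (P : GPlace cs)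

lemma GPlace.t1 (c : C) : ∃ B : ℝ, 0 ≤ B ∧ ∀ n : ℕ, 1 ≤ n →
    P.v (cs.e n c) ≤ B * (n : ℝ) ^ P.dg c := by
  obtain ⟨B2, h2⟩ := P.t2 c
  obtain ⟨B3, h3⟩ := P.t3 c
  refine ⟨|B2| + |B3|, by positivity, fun n hn => ?_⟩
  have hn' : (1 : ℝ) ≤ n := by exact_mod_cast hn
  have e : cs.e n c = (cs.e n c - (n : L) ^ P.dg c * cs.e n (P.ld c)) +
      (n : L) ^ P.dg c * cs.e n (P.ld c) := by ring
  have h4 : P.v (cs.e n c - (n : L) ^ P.dg c * cs.e n (P.ld c)) ≤ |B2| * (n : ℝ) ^ P.dg c := by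
    have h5 := h2 n hn
    have h6 : 0 ≤ P.v (cs.e n c - (n : L) ^ P.dg c * cs.e n (P.ld c)) := P.v.nonneg _
    calc _ ≤ P.v (cs.e n c - (n : L) ^ P.dg c * cs.e n (P.ld c)) * n :=
          le_mul_of_one_le_right h6 hn'
      _ ≤ B2 * (n : ℝ) ^ P.dg c := h5
      _ ≤ _ := mul_le_mul_of_nonneg_right (le_abs_self _) (by positivity)
  have h5 : P.v ((n : L) ^ P.dg c * cs.e n (P.ld c)) ≤ |B3| * (n : ℝ) ^ P.dg c := by
    rw [map_mul, map_pow, P.t0, mul_comm]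
    exact mul_le_mul_of_nonneg_right ((h3 n).trans (le_abs_self _)) (by positivity)
  calc P.v (cs.e n c) = P.v ((cs.e n c - (n : L) ^ P.dg c * cs.e n (P.ld c)) +
      (n : L) ^ P.dg c * cs.e n (P.ld c)) := congrArg P.v e
    _ ≤ _ + _ := P.v.add_le _ _
    _ ≤ |B2| * (n : ℝ) ^ P.dg c + |B3| * (n : ℝ) ^ P.dg c := add_le_add h4 h5
    _ = _ := by ring

lemma av_pow_sub_one (v : AbsoluteValue L ℝ) {x : L} (hx : v x = 1) (j : ℕ) :
    v (x ^ j - 1) ≤ j * v (x - 1) := by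
  induction j with
  | zero => simp
  | succ j ih =>
    have e : x ^ (j + 1) - 1 = x ^ j * (x - 1) + (x ^ j - 1) := by ring
    rw [e]
    refine (v.add_le _ _).trans ?_
    rw [map_mul, map_pow, hx, one_pow, one_mul]
    push_cast
    linarith

/-- size of one term -/
lemma GPlace.term_err (c : C) (x : L) (hx : x ≠ 0) (Λ : ℝ) (s : ℕ) (b : Prop) [Decidable b]
    (hle : P.v x ≤ Λ) (hs : P.v x = Λ → P.dg c ≤ s) (hb : b ↔ P.v x = Λ ∧ P.dg c = s) :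
    ∃ ρ : ℕ → ℝ, Tendsto ρ atTop (𝓝 0) ∧ ∀ n : ℕ, 1 ≤ n →
      P.v ((cs.e n c - if b then (n : L) ^ s * cs.e n (P.ld c) else 0) * x ^ n) ≤
        ρ n * ((n : ℝ) ^ s * Λ ^ n) := by
  have hx0 : 0 < P.v x := P.v.pos hx
  have hΛ : 0 < Λ := hx0.trans_le hle
  obtain ⟨B1, hB1, h1⟩ := P.t1 c
  by_cases hw : P.v x = Λ
  · by_cases hd : P.dg c = s
    · obtain ⟨B, hB⟩ := P.t2 c
      refine ⟨fun n => B / n, tendsto_const_div_atTop_nhds_zero_nat B, fun n hn => ?_⟩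
      have hn' : (0 : ℝ) < n := by exact_mod_cast hn
      rw [if_pos (hb.2 ⟨hw, hd⟩), map_mul, map_pow, hw, ← mul_assoc]
      refine mul_le_mul_of_nonneg_right ?_ (by positivity)
      have h2 := hB n hn
      rw [hd] at h2
      rw [div_mul_eq_mul_div, le_div_iff₀ hn']
      exact h2
    · have hlt : P.dg c < s := lt_of_le_of_ne (hs hw) hd
      refine ⟨fun n => B1 / n, tendsto_const_div_atTop_nhds_zero_nat B1, fun n hn => ?_⟩
      have hn' : (0 : ℝ) < n := by exact_mod_cast hn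
      have hn1 : (1 : ℝ) ≤ n := by exact_mod_cast hn
      rw [if_neg (fun h => hd (hb.1 h).2), sub_zero, map_mul, map_pow, hw, ← mul_assoc]
      refine mul_le_mul_of_nonneg_right ?_ (by positivity)
      rw [div_mul_eq_mul_div, le_div_iff₀ hn']
      calc P.v (cs.e n c) * n ≤ (B1 * (n : ℝ) ^ P.dg c) * n :=
            mul_le_mul_of_nonneg_right (h1 n hn) hn'.le
        _ = B1 * (n : ℝ) ^ (P.dg c + 1) := by ring
        _ ≤ B1 * (n : ℝ) ^ s :=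
            mul_le_mul_of_nonneg_left (pow_le_pow_right₀ hn1 hlt) hB1
  · have hlt : P.v x < Λ := lt_of_le_of_ne hle hw
    refine ⟨fun n => B1 * ((n : ℝ) ^ P.dg c * (P.v x / Λ) ^ n), ?_, fun n hn => ?_⟩
    · have := tendsto_pow_const_mul_const_pow_of_abs_lt_one (P.dg c)
        (r := P.v x / Λ) (by
          rw [abs_of_nonneg (by positivity)]
          exact (div_lt_one hΛ).2 hlt)
      simpa using this.const_mul B1
    · have hn1 : (1 : ℝ) ≤ n := by exact_mod_cast hn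
      rw [if_neg (fun h => hw (hb.1 h).1), sub_zero, map_mul, map_pow]
      calc P.v (cs.e n c) * P.v x ^ n ≤ (B1 * (n : ℝ) ^ P.dg c) * P.v x ^ n :=
            mul_le_mul_of_nonneg_right (h1 n hn) (by positivity)
        _ = B1 * ((n : ℝ) ^ P.dg c * (P.v x / Λ) ^ n) * (1 * Λ ^ n) := by
            rw [div_pow]; field_simp
        _ ≤ B1 * ((n : ℝ) ^ P.dg c * (P.v x / Λ) ^ n) * ((n : ℝ) ^ s * Λ ^ n) := by
            refine mul_le_mul_of_nonneg_left ?_ (by positivity)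
            exact mul_le_mul_of_nonneg_right (one_le_pow₀ hn1) (by positivity)

variable {Γ : Subgroup Lˣ}

/-- leading part of a formal exponential polynomial at a place -/
lemma GPlace.leading (f : MonoidAlgebra C Γ) (hf : f ≠ 0) :
    ∃ (Λ : ℝ) (s : ℕ) (S : Finset Γ), 0 < Λ ∧ S.Nonempty ∧ (∀ γ ∈ S, P.v ((γ : Lˣ) : L) = Λ) ∧
      (∀ γ ∈ S, f.coeff γ ≠ 0) ∧ (∀ n : ℕ, P.v (n : L) ^ s = (n : ℝ) ^ s) ∧
      ∃ ρ : ℕ → ℝ, Tendsto ρ atTop (𝓝 0) ∧ ∀ n : ℕ, 1 ≤ n →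
        P.v (cs.ev Γ n f - (n : L) ^ s *
          cs.ev Γ n (∑ γ ∈ S, single γ (P.ld (f.coeff γ)))) ≤ ρ n * ((n : ℝ) ^ s * Λ ^ n) := by
  classical
  set S0 := f.coeff.support with hS0
  have hne : S0.Nonempty := by
    rw [hS0, Finsupp.support_nonempty_iff]
    intro h
    exact hf (MonoidAlgebra.coeff_eq_zero.1 h)
  obtain ⟨γ1, hγ1, hmax⟩ := S0.exists_max_image (fun γ : Γ => P.v ((γ : Lˣ) : L)) hne
  set Λ := P.v ((γ1 : Lˣ) : L) with hΛ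
  have hΛ0 : 0 < Λ := P.v.pos (Units.ne_zero _)
  set S1 := S0.filter fun γ : Γ => P.v ((γ : Lˣ) : L) = Λ with hS1
  have hne1 : S1.Nonempty := ⟨γ1, by rw [hS1, Finset.mem_filter]; exact ⟨hγ1, rfl⟩⟩
  obtain ⟨γ2, hγ2, hmax2⟩ := S1.exists_max_image (fun γ : Γ => P.dg (f.coeff γ)) hne1
  set s := P.dg (f.coeff γ2) with hs
  set S := S1.filter fun γ : Γ => P.dg (f.coeff γ) = s with hS
  have hSS0 : S ⊆ S0 := (Finset.filter_subset _ _).trans (Finset.filter_subset _ _)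
  have key : ∀ γ : Γ, ∃ ρ : ℕ → ℝ, Tendsto ρ atTop (𝓝 0) ∧ (γ ∈ S0 → ∀ n : ℕ, 1 ≤ n →
      P.v ((cs.e n (f.coeff γ) - if γ ∈ S then (n : L) ^ s * cs.e n (P.ld (f.coeff γ)) else 0) *
        ((γ : Lˣ) : L) ^ n) ≤ ρ n * ((n : ℝ) ^ s * Λ ^ n)) := by
    intro γ
    by_cases hγ : γ ∈ S0
    · obtain ⟨ρ, h1, h2⟩ := P.term_err (f.coeff γ) ((γ : Lˣ) : L) (Units.ne_zero _) Λ s (γ ∈ S)
        (hmax γ hγ) (fun h => hmax2 γ (by rw [hS1, Finset.mem_filter]; exact ⟨hγ, h⟩)) (by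
          rw [hS, Finset.mem_filter, hS1, Finset.mem_filter]
          exact ⟨fun h => ⟨h.1.2, h.2⟩, fun h => ⟨⟨hγ, h.1⟩, h.2⟩⟩)
      exact ⟨ρ, h1, fun _ => h2⟩
    · exact ⟨fun _ => 0, tendsto_const_nhds, fun h => absurd h hγ⟩
  choose ρ hρ1 hρ2 using key
  refine ⟨Λ, s, S, hΛ0, ⟨γ2, by rw [hS, Finset.mem_filter]; exact ⟨hγ2, rfl⟩⟩, ?_, ?_,
    fun n => P.t0 _ n, fun n => ∑ γ ∈ S0, ρ γ n, ?_, ?_⟩
  · intro γ hγ
    rw [hS, Finset.mem_filter, hS1, Finset.mem_filter] at hγ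
    exact hγ.1.2
  · intro γ hγ
    exact Finsupp.mem_support_iff.1 (hSS0 hγ)
  · have := tendsto_finsetSum S0 (fun γ _ => hρ1 γ)
    simpa using this
  · intro n hn
    have e1 : cs.ev Γ n f - (n : L) ^ s * cs.ev Γ n (∑ γ ∈ S, single γ (P.ld (f.coeff γ))) =
        ∑ γ ∈ S0, (cs.e n (f.coeff γ) - if γ ∈ S then
          (n : L) ^ s * cs.e n (P.ld (f.coeff γ)) else 0) * ((γ : Lˣ) : L) ^ n := by
      have a1 : cs.ev Γ n f = ∑ γ ∈ S0, cs.e n (f.coeff γ) * ((γ : Lˣ) : L) ^ n := by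
        rw [CS.ev_apply]; rfl
      have a2 : (n : L) ^ s * cs.ev Γ n (∑ γ ∈ S, single γ (P.ld (f.coeff γ))) =
          ∑ γ ∈ S0, (if γ ∈ S then (n : L) ^ s * cs.e n (P.ld (f.coeff γ)) else 0) *
            ((γ : Lˣ) : L) ^ n := by
        rw [map_sum, Finset.mul_sum]
        simp_rw [CS.ev_single, ite_mul, zero_mul]
        rw [Finset.sum_ite_mem, Finset.inter_eq_right.2 hSS0]
        refine Finset.sum_congr rfl fun γ _ => ?_
        ring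
      rw [a1, a2]
      simp_rw [sub_mul, Finset.sum_sub_distrib]
    rw [e1, Finset.sum_mul]
    refine (P.v.sum_le _ _).trans (Finset.sum_le_sum fun γ hγ => ?_)
    exact hρ2 γ hγ n hn

lemma GPlace.lead_ne (f : MonoidAlgebra C Γ) (S : Finset Γ) (hS : S.Nonempty)
    (hc : ∀ γ ∈ S, f.coeff γ ≠ 0) : (∑ γ ∈ S, single γ (P.ld (f.coeff γ))) ≠ 0 := by
  classical
  obtain ⟨γ0, h0⟩ := hS
  intro h
  have h1 := congrArg (fun g : MonoidAlgebra C Γ => g.coeff γ0) h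
  simp only [MonoidAlgebra.coeff_sum, MonoidAlgebra.coeff_single, Finsupp.coe_finsetSum,
    Finset.sum_apply, Finsupp.single_apply, Finset.sum_ite_eq', h0, if_true,
    MonoidAlgebra.coeff_zero, Finsupp.coe_zero, Pi.zero_apply] at h1
  exact P.t5 _ (hc γ0 h0) h1

lemma aux1 (a b c : ℝ) (ha : a ≠ 0) (hb : b ≠ 0) : a * (b * (c / (a * b))) = c := by
  field_simp

lemma aux2 (a b c : ℝ) (ha : a ≠ 0) (hb : b ≠ 0) : a * (2 * (c / 2 / (2 * a * b)) * b) = c / 2 := by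
  field_simp

lemma av_sub_le_add (v : AbsoluteValue L ℝ) (a b : L) : v a - v b ≤ v (a + b) := by
  have h := v.add_le (a + b) (-b)
  rw [v.map_neg] at h
  have e : a + b + -b = a := by ring
  rw [e] at h
  linarith

/-- recurrence of the leading part -/
lemma GPlace.lead_rec (f : MonoidAlgebra C Γ) (S : Finset Γ) (hS : S.Nonempty) (Λ : ℝ)
    (hΛ : 0 < Λ) (hw : ∀ γ ∈ S, P.v ((γ : Lˣ) : L) = Λ) (n1 : ℕ) (J : ℕ)
    (hne : cs.ev Γ n1 (∑ γ ∈ S, single γ (P.ld (f.coeff γ))) ≠ 0) :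
    FCol fun m m' => m ≤ m' → ∀ j ≤ J, ∀ n, n = n1 + j * (m' - m) →
      P.v (cs.ev Γ n1 (∑ γ ∈ S, single γ (P.ld (f.coeff γ)))) / 2 / Λ ^ n1 * Λ ^ n ≤
      P.v (cs.ev Γ n (∑ γ ∈ S, single γ (P.ld (f.coeff γ)))) := by
  classical
  set g := ∑ γ ∈ S, single γ (P.ld (f.coeff γ)) with hg
  set η0 := P.v (cs.ev Γ n1 g) with hη0
  have hη0p : 0 < η0 := P.v.pos hne
  obtain ⟨γ0, hγ0⟩ := hS
  have hk : 0 < (S.card : ℝ) := by
    exact_mod_cast Finset.card_pos.2 ⟨γ0, hγ0⟩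
  choose B3 hB3 using fun c => P.t3 c
  set B := ∑ γ ∈ S, |B3 (f.coeff γ)| with hB
  have hB0 : 0 ≤ B := Finset.sum_nonneg fun _ _ => abs_nonneg _
  have hBle : ∀ γ ∈ S, ∀ n, P.v (cs.e n (P.ld (f.coeff γ))) ≤ B := by
    intro γ hγ n
    refine (hB3 (f.coeff γ) n).trans ((le_abs_self _).trans ?_)
    exact Finset.single_le_sum (f := fun γ : Γ => |B3 (f.coeff γ)|) (fun _ _ => abs_nonneg _) hγ
  set ε2 := η0 / 2 / (2 * S.card * Λ ^ n1) with hε2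
  have hε2p : 0 < ε2 := by positivity
  set ε1 := ε2 / ((B + 1) * (J + 1)) with hε1
  have hε1p : 0 < ε1 := by positivity
  have hx : ∀ γ ∈ S, P.v (((γ : Lˣ) : L) / ((γ0 : Lˣ) : L)) = 1 := by
    intro γ hγ
    rw [map_div₀, hw γ hγ, hw γ0 hγ0, div_self hΛ.ne']
  choose! M hM1 hM2 using fun c => P.t4 c ε2 hε2p
  have hcol : FCol fun m m' => ∀ γ ∈ S,
      (P.v ((((γ : Lˣ) : L) / ((γ0 : Lˣ) : L)) ^ m - (((γ : Lˣ) : L) / ((γ0 : Lˣ) : L)) ^ m') < ε1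
        ∧ (m ≤ m' → M (f.coeff γ) ∣ m' - m)) := by
    refine FCol.all_finset S fun γ hγ => ?_
    exact (P.tb _ (hx γ hγ) ε1 hε1p).and (FCol.modulus _ (hM1 _))
  refine hcol.mono fun m m' hmm hle j hj n hn => ?_
  set h := m' - m with hh
  have hm' : m' = m + h := by omega
  have hxh : ∀ γ ∈ S, P.v ((((γ : Lˣ) : L) / ((γ0 : Lˣ) : L)) ^ h - 1) ≤ ε1 := by
    intro γ hγ
    have h1 := (hmm γ hγ).1
    rw [hm', pow_add] at h1
    have e : (((γ : Lˣ) : L) / ((γ0 : Lˣ) : L)) ^ m -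
        (((γ : Lˣ) : L) / ((γ0 : Lˣ) : L)) ^ m * (((γ : Lˣ) : L) / ((γ0 : Lˣ) : L)) ^ h =
        -((((γ : Lˣ) : L) / ((γ0 : Lˣ) : L)) ^ m *
          ((((γ : Lˣ) : L) / ((γ0 : Lˣ) : L)) ^ h - 1)) := by ring
    rw [e, P.v.map_neg, map_mul, map_pow, hx γ hγ, one_pow, one_mul] at h1
    exact h1.le
  have hterm : ∀ γ ∈ S, P.v (cs.e n (P.ld (f.coeff γ)) *
      (((γ : Lˣ) : L) / ((γ0 : Lˣ) : L)) ^ (j * h) - cs.e n1 (P.ld (f.coeff γ))) ≤
      2 * ε2 := by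
    intro γ hγ
    set x := ((γ : Lˣ) : L) / ((γ0 : Lˣ) : L) with hxdef
    have e : cs.e n (P.ld (f.coeff γ)) * x ^ (j * h) - cs.e n1 (P.ld (f.coeff γ)) =
        cs.e n (P.ld (f.coeff γ)) * ((x ^ h) ^ j - 1) +
        (cs.e n (P.ld (f.coeff γ)) - cs.e n1 (P.ld (f.coeff γ))) := by
      rw [← pow_mul, mul_comm h j]; ring
    rw [e]
    refine (P.v.add_le _ _).trans ?_
    have b1 : P.v (cs.e n (P.ld (f.coeff γ)) * ((x ^ h) ^ j - 1)) ≤ ε2 := by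
      rw [map_mul]
      have c1 : P.v ((x ^ h) ^ j - 1) ≤ J * ε1 := by
        refine (av_pow_sub_one P.v (by rw [map_pow, hx γ hγ, one_pow]) j).trans ?_
        have : (j : ℝ) ≤ J := by exact_mod_cast hj
        exact mul_le_mul this (hxh γ hγ) (P.v.nonneg _) (by positivity)
      calc _ ≤ B * (J * ε1) :=
            mul_le_mul (hBle γ hγ n) c1 (P.v.nonneg _) hB0
        _ ≤ (B + 1) * ((J + 1) * ε1) := by
            refine mul_le_mul (le_add_of_nonneg_right zero_le_one) ?_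
              (mul_nonneg (Nat.cast_nonneg J) hε1p.le) (add_nonneg hB0 zero_le_one)
            exact mul_le_mul_of_nonneg_right (le_add_of_nonneg_right zero_le_one) hε1p.le
        _ = ε2 := by
            rw [hε1]
            exact aux1 _ _ _ (by positivity) (by positivity)
    have b2 : P.v (cs.e n (P.ld (f.coeff γ)) - cs.e n1 (P.ld (f.coeff γ))) ≤ ε2 := by
      rw [hn]
      exact (hM2 _ n1 (j * h) (((hmm γ hγ).2 hle).mul_left j)).le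
    linarith
  have hev : ∀ n, cs.ev Γ n g = ∑ γ ∈ S, cs.e n (P.ld (f.coeff γ)) * ((γ : Lˣ) : L) ^ n := by
    intro n
    rw [hg, map_sum]
    refine Finset.sum_congr rfl fun γ _ => ?_
    rw [CS.ev_single]
  have e1 : cs.ev Γ n g = ((γ0 : Lˣ) : L) ^ (j * h) * (cs.ev Γ n1 g +
      ∑ γ ∈ S, (cs.e n (P.ld (f.coeff γ)) *
      (((γ : Lˣ) : L) / ((γ0 : Lˣ) : L)) ^ (j * h) - cs.e n1 (P.ld (f.coeff γ))) *
        ((γ : Lˣ) : L) ^ n1) := by
    rw [hev n, hev n1, ← Finset.sum_add_distrib, Finset.mul_sum]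
    refine Finset.sum_congr rfl fun γ _ => ?_
    have h0 : ((γ0 : Lˣ) : L) ^ (j * h) ≠ 0 := pow_ne_zero _ (Units.ne_zero _)
    rw [div_pow, hn, pow_add]
    field_simp
    ring
  have hΛn : Λ ^ n = Λ ^ n1 * Λ ^ (j * h) := by rw [hn, pow_add]
  rw [e1, map_mul, map_pow, hw γ0 hγ0]
  have hsum : P.v (∑ γ ∈ S, (cs.e n (P.ld (f.coeff γ)) *
      (((γ : Lˣ) : L) / ((γ0 : Lˣ) : L)) ^ (j * h) - cs.e n1 (P.ld (f.coeff γ))) *
        ((γ : Lˣ) : L) ^ n1) ≤ η0 / 2 := by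
    refine (P.v.sum_le _ _).trans ?_
    calc _ ≤ ∑ _γ ∈ S, 2 * ε2 * Λ ^ n1 := by
          refine Finset.sum_le_sum fun γ hγ => ?_
          rw [map_mul, map_pow, hw γ hγ]
          exact mul_le_mul_of_nonneg_right (hterm γ hγ) (by positivity)
      _ = η0 / 2 := by
          rw [Finset.sum_const, nsmul_eq_mul, hε2]
          exact aux2 _ _ _ hk.ne' (by positivity)
  have hlow : η0 / 2 ≤ P.v (cs.ev Γ n1 g + ∑ γ ∈ S, (cs.e n (P.ld (f.coeff γ)) *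
      (((γ : Lˣ) : L) / ((γ0 : Lˣ) : L)) ^ (j * h) - cs.e n1 (P.ld (f.coeff γ))) *
        ((γ : Lˣ) : L) ^ n1) := by
    have := av_sub_le_add P.v (cs.ev Γ n1 g) (∑ γ ∈ S, (cs.e n (P.ld (f.coeff γ)) *
      (((γ : Lˣ) : L) / ((γ0 : Lˣ) : L)) ^ (j * h) - cs.e n1 (P.ld (f.coeff γ))) *
        ((γ : Lˣ) : L) ^ n1)
    linarith
  rw [hΛn]
  calc η0 / 2 / Λ ^ n1 * (Λ ^ n1 * Λ ^ (j * h)) = Λ ^ (j * h) * (η0 / 2) := by
        field_simp
    _ ≤ _ := mul_le_mul_of_nonneg_left hlow (by positivity)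

/-- size of exponential polynomials at a place -/
lemma GPlace.asym (f : MonoidAlgebra C Γ) (hf : f ≠ 0) :
    ∃ (Λ : ℝ) (s : ℕ) (B : ℝ) (g : MonoidAlgebra C Γ), 0 < Λ ∧ g ≠ 0 ∧ 0 < B ∧
      (∀ n : ℕ, 1 ≤ n → P.v (cs.ev Γ n f) ≤ B * ((n : ℝ) ^ s * Λ ^ n)) ∧
      ∀ n1, cs.ev Γ n1 g ≠ 0 → ∃ η > 0, ∃ N0 : ℕ, ∀ J : ℕ, FCol fun m m' => m ≤ m' →
        ∀ j ≤ J, ∀ n, n = n1 + j * (m' - m) → N0 ≤ n →
          η * ((n : ℝ) ^ s * Λ ^ n) ≤ P.v (cs.ev Γ n f) := by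
  classical
  obtain ⟨Λ, s, S, hΛ, hSne, hw, hc, ht, ρ, hρ, hbound⟩ := P.leading f hf
  set g := ∑ γ ∈ S, single γ (P.ld (f.coeff γ)) with hg
  have hg0 : g ≠ 0 := P.lead_ne f S hSne hc
  have hev : ∀ n, cs.ev Γ n g = ∑ γ ∈ S, cs.e n (P.ld (f.coeff γ)) * ((γ : Lˣ) : L) ^ n := by
    intro n
    rw [hg, map_sum]
    refine Finset.sum_congr rfl fun γ _ => ?_
    rw [CS.ev_single]
  choose B3 hB3 using fun c => P.t3 c
  obtain ⟨R, hR⟩ := hρ.bddAbove_range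
  have hR' : ∀ n, ρ n ≤ |R| := fun n => (hR (Set.mem_range_self n)).trans (le_abs_self _)
  refine ⟨Λ, s, |R| + (∑ γ ∈ S, |B3 (f.coeff γ)|) + 1, g, hΛ, hg0, by positivity,
    fun n hn => ?_, fun n1 hn1 => ?_⟩
  · have h1 := hbound n hn
    have h2 : P.v (cs.ev Γ n g) ≤ (∑ γ ∈ S, |B3 (f.coeff γ)|) * Λ ^ n := by
      rw [hev, Finset.sum_mul]
      refine (P.v.sum_le _ _).trans (Finset.sum_le_sum fun γ hγ => ?_)
      rw [map_mul, map_pow, hw γ hγ]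
      exact mul_le_mul_of_nonneg_right ((hB3 _ n).trans (le_abs_self _)) (by positivity)
    have e : cs.ev Γ n f = (cs.ev Γ n f - (n : L) ^ s * cs.ev Γ n g) +
      (n : L) ^ s * cs.ev Γ n g := by ring
    have hW : 0 ≤ (n : ℝ) ^ s * Λ ^ n := by positivity
    calc P.v (cs.ev Γ n f) = P.v ((cs.ev Γ n f - (n : L) ^ s * cs.ev Γ n g) +
          (n : L) ^ s * cs.ev Γ n g) := congrArg P.v e
      _ ≤ P.v (cs.ev Γ n f - (n : L) ^ s * cs.ev Γ n g) + P.v ((n : L) ^ s * cs.ev Γ n g) :=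
          P.v.add_le _ _
      _ ≤ |R| * ((n : ℝ) ^ s * Λ ^ n) +
          (∑ γ ∈ S, |B3 (f.coeff γ)|) * ((n : ℝ) ^ s * Λ ^ n) := by
          refine add_le_add (h1.trans (mul_le_mul_of_nonneg_right (hR' n) hW)) ?_
          rw [map_mul, map_pow, ht]
          calc (n : ℝ) ^ s * P.v (cs.ev Γ n g) ≤
                (n : ℝ) ^ s * ((∑ γ ∈ S, |B3 (f.coeff γ)|) * Λ ^ n) :=
                mul_le_mul_of_nonneg_left h2 (by positivity)
            _ = _ := by ring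
      _ = (|R| + (∑ γ ∈ S, |B3 (f.coeff γ)|)) * ((n : ℝ) ^ s * Λ ^ n) := by ring
      _ ≤ _ := mul_le_mul_of_nonneg_right (le_add_of_nonneg_right zero_le_one) hW
  · have hη0 : 0 < P.v (cs.ev Γ n1 g) := P.v.pos hn1
    set η := P.v (cs.ev Γ n1 g) / 4 / Λ ^ n1 with hη
    have hηp : 0 < η := by positivity
    obtain ⟨N0, hN0⟩ := eventually_atTop.1 (hρ.eventually (gt_mem_nhds hηp))
    refine ⟨η, hηp, N0 + 1, fun J => ?_⟩
    refine (P.lead_rec f S hSne Λ hΛ hw n1 J hn1).mono fun m m' hmm hle j hj n hn hN => ?_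
    have h1 := hmm hle j hj n hn
    have h2 := hbound n (by omega)
    have h3 := hN0 n (by omega)
    have hW : 0 ≤ (n : ℝ) ^ s * Λ ^ n := by positivity
    have h4 : ρ n * ((n : ℝ) ^ s * Λ ^ n) ≤ η * ((n : ℝ) ^ s * Λ ^ n) :=
      mul_le_mul_of_nonneg_right h3.le hW
    have h5 : 2 * η * Λ ^ n ≤ P.v (cs.ev Γ n g) := by
      refine le_trans (le_of_eq ?_) h1
      rw [hη]; ring
    have h6 : 2 * η * ((n : ℝ) ^ s * Λ ^ n) ≤ P.v ((n : L) ^ s * cs.ev Γ n g) := by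
      rw [map_mul, map_pow, ht]
      calc 2 * η * ((n : ℝ) ^ s * Λ ^ n) = (n : ℝ) ^ s * (2 * η * Λ ^ n) := by ring
        _ ≤ _ := mul_le_mul_of_nonneg_left h5 (by positivity)
    have h7 := av_sub_le_add P.v ((n : L) ^ s * cs.ev Γ n g)
      (cs.ev Γ n f - (n : L) ^ s * cs.ev Γ n g)
    have e : (n : L) ^ s * cs.ev Γ n g + (cs.ev Γ n f - (n : L) ^ s * cs.ev Γ n g) =
      cs.ev Γ n f := by ring
    rw [e] at h7
    linarith

end Pool.Agent.H.MP_df1c3e_lc
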