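import Pool.Agent.H.MP_df1c3e_lc.Arch

namespace Pool.Agent.H.MP_df1c3e_lc

open LaurentSeries Valuation WithZero
open scoped NNReal

variable (k : Type) [Field k]

/-- rank one structure -/
@[reducible]
noncomputable def laurRankOne : RankOne (Valued.v : Valuation k⸨X⸩ ℤᵐ⁰) where
  hom' := (WithZeroMulInt.toNNReal (e := 2) (by norm_num)).comp
    MonoidWithZeroHom.ValueGroup₀.embedding
  strictMono' := (WithZeroMulInt.toNNReal_strictMono (by norm_num)).comp
    MonoidWithZeroHom.ValueGroup₀.embedding_strictMono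
  exists_val_nontrivial := by
    refine ⟨HahnSeries.single 1 1, ?_, ?_⟩
    · rw [Valuation.ne_zero_iff]
      simp
    · rw [LaurentSeries.valuation_single_zpow]
      intro h
      have := congrArg WithZero.log h
      simp at this

/-- the norm on Laurent series -/
@[reducible]
noncomputable def laurNNF : NontriviallyNormedField k⸨X⸩ :=
  @Valued.toNontriviallyNormedField _ _ _ _ _ (laurRankOne k)

attribute [local instance] laurNNF

lemma laur_norm (x : k⸨X⸩) :
    ‖x‖ = WithZeroMulInt.toNNReal (e := 2) (by norm_num) (Valued.v x) := by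
  change ((((WithZeroMulInt.toNNReal (e := 2) (by norm_num)).comp
    MonoidWithZeroHom.ValueGroup₀.embedding) (Valued.v.restrict x) : ℝ≥0) : ℝ) = _
  rw [MonoidWithZeroHom.comp_apply, Valuation.embedding_restrict]

lemma laur_norm_eq {x : k⸨X⸩} (hx : x ≠ 0) : ∃ m : ℤ, ‖x‖ = (2 : ℝ) ^ m := by
  have h1 : (Valued.v x : ℤᵐ⁰) ≠ 0 := by rwa [Valuation.ne_zero_iff]
  refine ⟨(WithZero.unzero h1).toAdd, ?_⟩
  rw [laur_norm, WithZeroMulInt.toNNReal_neg_apply _ h1]
  push_cast
  rfl

lemma laur_le_one {x : k⸨X⸩} (hx : ‖x‖ ≤ 1) : Valued.v x ≤ 1 := by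
  rw [laur_norm] at hx
  exact (WithZeroMulInt.toNNReal_le_one_iff (e := 2) (by norm_num)).1 (by exact_mod_cast hx)

lemma laur_lt_one {x : k⸨X⸩} (hx : Valued.v x < 1) : ‖x‖ < 1 := by
  rw [laur_norm]
  exact_mod_cast (WithZeroMulInt.toNNReal_lt_one_iff (e := 2) (by norm_num)).2 hx

/-- local field data on Laurent series over a finite field -/
noncomputable def lfLaurent (p : ℕ) [hp : Fact p.Prime] : LF (ZMod p)⸨X⸩ where
  p := p
  hp1 := hp.1.one_le
  hp := by
    have h1 : ((p : ℕ) : (ZMod p)⸨X⸩) = 0 := by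
      have h2 := map_natCast (HahnSeries.C : ZMod p →+* HahnSeries ℤ (ZMod p)) p
      rw [← h2]
      simp
    rw [h1, norm_zero]
    exact zero_lt_one
  S := Set.range fun a : ZMod p => HahnSeries.C a
  hS := Set.finite_range _
  cov a ha := by
    refine ⟨HahnSeries.C (a.coeff 0), ⟨_, rfl⟩, laur_lt_one _ ?_⟩
    have h1 := laur_le_one _ ha
    have h2 : Valued.v a ≤ exp (-0 : ℤ) := by simpa using h1
    rw [LaurentSeries.valuation_le_iff_coeff_lt_eq_zero] at h2
    have h3 : Valued.v (a - HahnSeries.C (a.coeff 0)) ≤ exp (-1 : ℤ) := by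
      rw [LaurentSeries.valuation_le_iff_coeff_lt_eq_zero]
      intro n hn
      rw [HahnSeries.coeff_sub]
      by_cases h0 : n = 0
      · subst h0; simp
      · rw [h2 n (by omega)]
        simp [h0]
    refine h3.trans_lt ?_
    rw [← exp_zero, exp_lt_exp]
    norm_num
  q := 2
  hq := by norm_num
  dsc a ha := laur_norm_eq _ ha


lemma big_place_p {p : ℕ} [hp : Fact p.Prime] {L : Type*} [Field L] [Algebra (ZMod p) L]
    [Countable L] {x : L} (hx : Transcendental (ZMod p) x) : ∃ P : NPl L, 1 < P.v x := by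
  have hK : Cardinal.aleph0 < Cardinal.mk (ZMod p)⸨X⸩ := aleph0_lt_card _
  obtain ⟨y, hy, hy1⟩ := exists_big_transc (ZMod p)⸨X⸩ (ZMod p) hK
  have hΩ : Cardinal.aleph0 < Cardinal.mk (AlgebraicClosure (ZMod p)⸨X⸩) :=
    aleph0_lt_card_ext (K := (ZMod p)⸨X⸩) hK
  have hy' : Transcendental (ZMod p)
      (algebraMap (ZMod p)⸨X⸩ (AlgebraicClosure (ZMod p)⸨X⸩) y) :=
    (transcendental_algebraMap_iff
      (algebraMap (ZMod p)⸨X⸩ (AlgebraicClosure (ZMod p)⸨X⸩)).injective).2 hy
  obtain ⟨θ, hθ⟩ := exists_emb_transc (ZMod p) L (AlgebraicClosure (ZMod p)⸨X⸩) hΩ hx hy'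
  refine ⟨(lfLaurent p).toNPl θ, ?_⟩
  rw [LF.toNPl_v, hθ, sAV_alg]
  exact hy1

lemma exists_pow_eq_one {p : ℕ} [hp : Fact p.Prime] {L : Type*} [Field L] [Algebra (ZMod p) L]
    {x : L} (hx : IsAlgebraic (ZMod p) x) (hx0 : x ≠ 0) : ∃ n : ℕ, 0 < n ∧ x ^ n = 1 := by
  have hfin : FiniteDimensional (ZMod p) (IntermediateField.adjoin (ZMod p) {x}) :=
    IntermediateField.adjoin.finiteDimensional hx.isIntegral
  have hF : Finite (IntermediateField.adjoin (ZMod p) {x}) := Module.finite_of_finite (ZMod p)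
  have hmem : x ∈ IntermediateField.adjoin (ZMod p) {x} :=
    IntermediateField.mem_adjoin_simple_self (ZMod p) x
  obtain ⟨m, n, hne, he⟩ := Finite.exists_ne_map_eq_of_infinite
    (fun n : ℕ => (⟨x, hmem⟩ : IntermediateField.adjoin (ZMod p) {x}) ^ n)
  have he' : x ^ m = x ^ n := congrArg Subtype.val he
  have key : ∀ m n : ℕ, m < n → x ^ m = x ^ n → ∃ n : ℕ, 0 < n ∧ x ^ n = 1 := by
    intro m n hmn h
    refine ⟨n - m, by omega, ?_⟩
    have h2 : x ^ m * x ^ (n - m) = x ^ m * 1 := by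
      rw [← pow_add, mul_one, h]
      congr 1
      omega
    exact mul_left_cancel₀ (pow_ne_zero _ hx0) h2
  rcases lt_or_gt_of_ne hne with h | h
  · exact key m n h he'
  · exact key n m h he'.symm

/-- enough places in positive characteristic -/
theorem exists_places_p (p : ℕ) [hp : Fact p.Prime] {L : Type*} [Field L] [CharP L p]
    [Countable L] {G : Subgroup Lˣ} (hG : G.FG) :
    ∃ (n : ℕ) (P : Fin n → GPlace (csConst L)),
      ∀ B : ℝ, {g : Lˣ | g ∈ G ∧ ∀ k, |Real.log ((P k).v (g : L))| ≤ B}.Finite := by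
  classical
  let _ : Algebra (ZMod p) L := ZMod.algebra L p
  obtain ⟨n, P, hP⟩ := exists_finite_places L hG
  let G' : Subgroup Lˣ :=
    { carrier := {g | g ∈ G ∧ ∀ i, (P i).v (g : L) = 1}
      mul_mem' := fun {a b} ha hb => ⟨G.mul_mem ha.1 hb.1, fun i => by
        rw [Units.val_mul, map_mul, ha.2 i, hb.2 i, one_mul]⟩
      one_mem' := ⟨G.one_mem, fun i => by simp⟩
      inv_mem' := fun {a} ha => ⟨G.inv_mem ha.1, fun i => by
        rw [Units.val_inv_eq_inv_val, map_inv₀, ha.2 i, inv_one]⟩ }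
  have hG' : G'.FG := fg_of_le hG fun g hg => hg.1
  have halg : ∀ g ∈ G', IsAlgebraic (ZMod p) ((g : Lˣ) : L) := by
    intro g hg
    by_contra hcon
    obtain ⟨Q, hQ⟩ := big_place_p hcon
    have := hP g hg.1 hg.2 Q
    linarith
  have hfin : Finite G' := by
    have h1 : Group.FG G' := (Group.fg_iff_subgroup_fg _).2 hG'
    refine CommGroup.finite_of_fg_isMulTorsion G' fun g => ?_
    obtain ⟨n, hn, h⟩ := exists_pow_eq_one (halg g g.2) (g : Lˣ).ne_zero
    rw [isOfFinOrder_iff_pow_eq_one]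
    refine ⟨n, hn, ?_⟩
    exact Subtype.ext (Units.ext (by simpa using h))
  have hfin' : (G' : Set Lˣ).Finite := hfin
  have hk := finite_of_kernel hG P (κ := Empty) (fun j => j.elim) (fun B =>
    hfin'.subset (by rintro g ⟨h1, h2, _⟩; exact ⟨h1, h2⟩))
  refine ⟨n, fun k => (P k).toConst, fun B => (hk B).subset ?_⟩
  rintro g ⟨hg, h⟩
  exact ⟨hg, fun i => h i, fun j => j.elim⟩

end Pool.Agent.H.MP_df1c3e_lc
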