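import Pool.Agent.H.MP_df1c3e_lc.Hull

/-!
Dual systems and transfer matrices.
-/

namespace Pool.Agent.H.MP_df1c3e_lc

open Module Matrix

variable {L : Type*} [Field L] {σ : Type*} {V : Type*} [AddCommGroup V] [Module L V]

/-- dual systems of size `k` in a pair of subspaces -/
structure DSys (A : Submodule L (Module.Dual L V)) (B : Submodule L V) (k : ℕ) where
  /-- forms -/
  x : Fin k → Module.Dual L V
  /-- vectors -/
  y : Fin k → V
  hx : ∀ i, x i ∈ A
  hy : ∀ j, y j ∈ B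
  hxy : ∀ i j, x i (y j) = if i = j then 1 else 0

variable {A : Submodule L (Module.Dual L V)} {B : Submodule L V} {k : ℕ}

lemma DSys.le [FiniteDimensional L V] (d : DSys A B k) : k ≤ finrank L V := by
  have h : LinearIndependent L d.y := by
    rw [Fintype.linearIndependent_iff]
    intro g hg i
    have h1 := congrArg (d.x i) hg
    rw [map_sum, map_zero] at h1
    simp only [map_smul, d.hxy, smul_eq_mul, mul_ite, mul_one, mul_zero] at h1
    simpa using h1
  simpa using h.fintype_card_le_finrank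

/-- empty dual system -/
def DSys.zero (A : Submodule L (Module.Dual L V)) (B : Submodule L V) : DSys A B 0 where
  x := Fin.elim0
  y := Fin.elim0
  hx i := i.elim0
  hy i := i.elim0
  hxy i := i.elim0

lemma DSys.expand (d : DSys A B k) (hmax : IsEmpty (DSys A B (k + 1))) {x : Module.Dual L V}
    (hx : x ∈ A) {y : V} (hy : y ∈ B) : x y = ∑ l, x (d.y l) * d.x l y := by
  classical
  by_contra hne
  set x' := x - ∑ l, x (d.y l) • d.x l with hx'
  set y' := y - ∑ l, d.x l y • d.y l with hy'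
  set c := x y - ∑ l, x (d.y l) * d.x l y with hc
  have hc0 : c ≠ 0 := sub_ne_zero.2 hne
  have hx'A : x' ∈ A := A.sub_mem hx (A.sum_mem fun l _ => A.smul_mem _ (d.hx l))
  have hy'B : y' ∈ B := B.sub_mem hy (B.sum_mem fun l _ => B.smul_mem _ (d.hy l))
  have h1 : ∀ j, x' (d.y j) = 0 := by
    intro j
    rw [hx', LinearMap.sub_apply, LinearMap.sum_apply]
    simp only [LinearMap.smul_apply, d.hxy, smul_eq_mul, mul_ite, mul_one, mul_zero]
    simp
  have h2 : ∀ i, d.x i y' = 0 := by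
    intro i
    rw [hy', map_sub, map_sum]
    simp only [map_smul, d.hxy, smul_eq_mul, mul_ite, mul_one, mul_zero]
    simp
  have h3 : x' y' = c := by
    rw [hy', map_sub, map_sum]
    simp only [map_smul, h1, smul_zero, Finset.sum_const_zero, sub_zero]
    rw [hx', LinearMap.sub_apply, LinearMap.sum_apply]
    simp only [LinearMap.smul_apply, smul_eq_mul]
    rfl
  refine hmax.false ⟨Fin.cons x' d.x, Fin.cons (c⁻¹ • y') d.y, ?_, ?_, ?_⟩
  · intro i
    refine Fin.cases ?_ (fun i => ?_) i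
    · exact hx'A
    · exact d.hx i
  · intro j
    refine Fin.cases ?_ (fun j => ?_) j
    · exact B.smul_mem _ hy'B
    · exact d.hy j
  · intro i j
    refine Fin.cases ?_ (fun i => ?_) i
    · refine Fin.cases ?_ (fun j => ?_) j
      · simp [h3, hc0]
      · simp only [Fin.cons_zero, Fin.cons_succ, h1]
        rw [if_neg]
        exact (Fin.succ_ne_zero j).symm
    · refine Fin.cases ?_ (fun j => ?_) j
      · simp only [Fin.cons_zero, Fin.cons_succ, map_smul, h2, smul_zero]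
        rw [if_neg]
        exact Fin.succ_ne_zero i
      · simp only [Fin.cons_succ, d.hxy, Fin.succ_inj]

variable {ρ : σ → Module.End L V} {x₀ : Module.Dual L V} {y₀ : V} (H : HullData ρ x₀ y₀)

lemma HullData.A_mem (w : List σ) : ∀ (p : Fin H.np) {x : Module.Dual L V}, x ∈ H.A p →
    x ∘ₗ Rw ρ w ∈ H.A (w.foldl H.δ p) := by
  induction w with
  | nil => intro p x hx; exact hx
  | cons a w ih =>
    intro p x hx
    rw [List.foldl_cons, Rw_cons]
    exact ih _ (H.hδ p a x hx)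

lemma HullData.B_mem (w : List σ) (q : Fin H.nq) {y : V} (hy : y ∈ H.B q) :
    Rw ρ w y ∈ H.B (w.foldr H.δ' q) := by
  induction w with
  | nil => exact hy
  | cons a w ih =>
    rw [List.foldr_cons, Rw_cons]
    exact H.hδ' a _ _ ih

/-- pairs of maximal rank -/
def Obj (k : ℕ) : Type := {o : Fin H.np × Fin H.nq // Nonempty (DSys (H.A o.1) (H.B o.2) k)}

instance (k : ℕ) : Finite (Obj H k) := Subtype.finite

variable {H}

/-- chosen dual system -/
noncomputable def Obj.d (o : Obj H k) : DSys (H.A o.1.1) (H.B o.1.2) k := o.2.some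

/-- coordinates of a form -/
noncomputable def Obj.r (o : Obj H k) : Module.Dual L V →ₗ[L] (Fin k → L) :=
  LinearMap.pi fun j => Module.Dual.eval L V (o.d.y j)

/-- coordinates of a vector -/
noncomputable def Obj.s (o : Obj H k) : V →ₗ[L] (Fin k → L) := LinearMap.pi fun i => o.d.x i

lemma Obj.r_apply (o : Obj H k) (x : Module.Dual L V) (j : Fin k) : o.r x j = x (o.d.y j) := rfl

lemma Obj.s_apply (o : Obj H k) (y : V) (i : Fin k) : o.s y i = o.d.x i y := rfl

lemma Obj.r_x (o : Obj H k) (i : Fin k) : o.r (o.d.x i) = Pi.single i 1 := by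
  ext j
  rw [Obj.r_apply, o.d.hxy, Pi.single_apply]
  simp [eq_comm]

lemma Obj.s_y (o : Obj H k) (j : Fin k) : o.s (o.d.y j) = Pi.single j 1 := by
  ext i
  rw [Obj.s_apply, o.d.hxy, Pi.single_apply]

/-- transfer matrices -/
noncomputable def Mv (o₁ o₂ : Obj H k) (v : List σ) : Matrix (Fin k) (Fin k) L :=
  Matrix.of fun i j => o₁.d.x i (Rw ρ v (o₂.d.y j))

lemma Mv_row (o₁ o₂ : Obj H k) (v : List σ) (i : Fin k) :
    Mv o₁ o₂ v i = o₂.r (o₁.d.x i ∘ₗ Rw ρ v) := rfl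

/-- compatibility of a word with two pairs -/
def Pth (o₁ o₂ : Obj H k) (v : List σ) : Prop :=
  v.foldl H.δ o₁.1.1 = o₂.1.1 ∧ v.foldr H.δ' o₂.1.2 = o₁.1.2

lemma Pth.append {o₁ o₂ o₃ : Obj H k} {u v : List σ} (h₁ : Pth o₁ o₂ u) (h₂ : Pth o₂ o₃ v) :
    Pth o₁ o₃ (u ++ v) := by
  refine ⟨?_, ?_⟩
  · rw [List.foldl_append, h₁.1, h₂.1]
  · rw [List.foldr_append, h₂.2, h₁.2]

variable (hmax : ∀ p q, IsEmpty (DSys (H.A p) (H.B q) (k + 1)))

include hmax in
lemma Obj.expand (o : Obj H k) {x : Module.Dual L V} (hx : x ∈ H.A o.1.1) {y : V}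
    (hy : y ∈ H.B o.1.2) : x y = o.r x ⬝ᵥ o.s y :=
  o.d.expand (hmax _ _) hx hy

include hmax in
lemma Mv_vecMul {o₁ o₂ : Obj H k} {v : List σ} (h : Pth o₁ o₂ v) {x : Module.Dual L V}
    (hx : x ∈ H.A o₁.1.1) : o₂.r (x ∘ₗ Rw ρ v) = o₁.r x ᵥ* Mv o₁ o₂ v := by
  ext j
  have h1 : Rw ρ v (o₂.d.y j) ∈ H.B o₁.1.2 := by
    rw [← h.2]
    exact H.B_mem v _ (o₂.d.hy j)
  rw [Obj.r_apply, LinearMap.comp_apply, o₁.expand hmax hx h1]
  rfl

include hmax in
lemma Mv_append {o₁ o₂ o₃ : Obj H k} {u v : List σ} (h₁ : Pth o₁ o₂ u) (h₂ : Pth o₂ o₃ v) :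
    Mv o₁ o₃ (u ++ v) = Mv o₁ o₂ u * Mv o₂ o₃ v := by
  ext i j
  have h3 : o₁.d.x i ∘ₗ Rw ρ u ∈ H.A o₂.1.1 := by
    rw [← h₁.1]
    exact H.A_mem u _ (o₁.d.hx i)
  have h4 := Mv_vecMul hmax h₂ h3
  have h5 : Mv o₁ o₃ (u ++ v) i = o₃.r ((o₁.d.x i ∘ₗ Rw ρ u) ∘ₗ Rw ρ v) := by
    rw [Mv_row, Rw_append]; rfl
  rw [h5, h4, ← Mv_row]
  rfl

lemma Mv_nil (o : Obj H k) : Mv o o ([] : List σ) = 1 := by
  ext i j
  show o.d.x i (Rw ρ [] (o.d.y j)) = _
  rw [Rw_nil, Module.End.one_apply, o.d.hxy, Matrix.one_apply]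

lemma Pth_nil (o : Obj H k) : Pth o o ([] : List σ) := ⟨rfl, rfl⟩

lemma Mv_nil' {o₁ o₂ : Obj H k} (h : Pth o₁ o₂ ([] : List σ)) : o₁ = o₂ := by
  apply Subtype.ext
  exact Prod.ext h.1 h.2.symm

/-- words with invertible transfer matrix -/
def Pd (o₁ o₂ : Obj H k) (v : List σ) : Prop := Pth o₁ o₂ v ∧ IsUnit (Mv o₁ o₂ v)

lemma Pd_nil (o : Obj H k) : Pd o o ([] : List σ) :=
  ⟨Pth_nil o, by rw [Mv_nil]; exact isUnit_one⟩

include hmax in
lemma Pd.append {o₁ o₂ o₃ : Obj H k} {u v : List σ} (h₁ : Pd o₁ o₂ u) (h₂ : Pd o₂ o₃ v) :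
    Pd o₁ o₃ (u ++ v) :=
  ⟨h₁.1.append h₂.1, by rw [Mv_append hmax h₁.1 h₂.1]; exact h₁.2.mul h₂.2⟩

include hmax in
/-- the key extension property: if the forms in `A p` restricted along `v` to the dual system of
`o` fill everything, the pair `(p, q)` is an object and `v` has invertible transfer matrix -/
lemma exists_obj {o : Obj H k} {v : List σ} {p : Fin H.np}
    (hp : v.foldl H.δ p = o.1.1)
    (hfull : ∀ c : Fin k → L, ∃ x ∈ H.A p, o.r (x ∘ₗ Rw ρ v) = c) :
    ∃ o' : Obj H k, o'.1.1 = p ∧ o'.1.2 = v.foldr H.δ' o.1.2 ∧ Pd o' o v := by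
  classical
  choose x hxA hx using fun i : Fin k => hfull (Pi.single i 1)
  have hds : Nonempty (DSys (H.A p) (H.B (v.foldr H.δ' o.1.2)) k) := by
    refine ⟨⟨x, fun j => Rw ρ v (o.d.y j), hxA, fun j => H.B_mem v _ (o.d.hy j), fun i j => ?_⟩⟩
    have := congrFun (hx i) j
    rw [Obj.r_apply, LinearMap.comp_apply, Pi.single_apply] at this
    rw [this]
    simp [eq_comm]
  let o' : Obj H k := ⟨(p, v.foldr H.δ' o.1.2), hds⟩
  have hP : Pth o' o v := ⟨hp, rfl⟩
  refine ⟨o', rfl, rfl, hP, ?_⟩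
  have h1 : (Matrix.of fun i => o'.r (x i)) * Mv o' o v = 1 := by
    ext i j
    have h2 := Mv_vecMul hmax hP (x := x i) (hxA i)
    have h3 : ((Matrix.of fun i => o'.r (x i)) * Mv o' o v) i j =
        (o'.r (x i) ᵥ* Mv o' o v) j := rfl
    rw [h3, ← h2, hx i, Pi.single_apply, Matrix.one_apply]
    simp [eq_comm]
  exact IsUnit.of_mul_eq_one_right _ h1

end Pool.Agent.H.MP_df1c3e_lc
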