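import Pool.Agent.H.MP_df1c3e_lc.LemE

/-!
All pairs of components have rank at most one.
-/

namespace Pool.Agent.H.MP_df1c3e_lc

open Module Matrix Polynomial

variable {L : Type*} [Field L] {A : Type*} [CommRing A] {G : Subgroup Lˣ} {cs : CS L A}

variable {σ : Type*} {V : Type*} [AddCommGroup V] [Module L V]
  {ρ : σ → Module.End L V} {x₀ : Module.Dual L V} {y₀ : V} {H : HullData ρ x₀ y₀} {k : ℕ}

lemma exists_source (hmax : ∀ p q, IsEmpty (DSys (H.A p) (H.B q) (k + 1)))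
    (hne : Nonempty (Obj H k)) :
    ∃ o : Obj H k, ∀ o' : Obj H k, (∃ v, Pd o' o v) → ∃ v, Pd o o' v := by
  classical
  obtain ⟨o, ho⟩ := Finite.exists_min (fun o : Obj H k => Set.ncard {o' : Obj H k | ∃ v, Pd o' o v})
  refine ⟨o, fun o' ho' => ?_⟩
  obtain ⟨v, hv⟩ := ho'
  have hsub : {o'' : Obj H k | ∃ v, Pd o'' o' v} ⊆ {o'' : Obj H k | ∃ v, Pd o'' o v} := by
    rintro o'' ⟨u, hu⟩
    exact ⟨u ++ v, hu.append hmax hv⟩
  have heq := Set.eq_of_subset_of_ncard_le hsub (ho o') (Set.toFinite _)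
  have h1 : o ∈ {o'' : Obj H k | ∃ v, Pd o'' o v} := ⟨[], Pd_nil o⟩
  rw [← heq] at h1
  exact h1

lemma Pd.split (hmax : ∀ p q, IsEmpty (DSys (H.A p) (H.B q) (k + 1)))
    {o₁ o₂ : Obj H k} {a : σ} {v : List σ} (h : Pd o₁ o₂ (a :: v)) :
    ∃ o' : Obj H k, Pd o₁ o' [a] ∧ Pd o' o₂ v := by
  classical
  obtain ⟨o', h1, h2, h3⟩ := exists_obj hmax (o := o₂) (v := v) (p := H.δ o₁.1.1 a)
    (by have := h.1.1; rwa [List.foldl_cons] at this) (by
      intro c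
      obtain ⟨M, hM⟩ := h.2
      set b := c ᵥ* (↑M⁻¹ : Matrix (Fin k) (Fin k) L) with hb
      set z := ∑ i, b i • o₁.d.x i with hz
      have hzA : z ∈ H.A o₁.1.1 :=
        (H.A o₁.1.1).sum_mem fun i _ => (H.A o₁.1.1).smul_mem _ (o₁.d.hx i)
      refine ⟨z ∘ₗ ρ a, H.hδ _ _ _ hzA, ?_⟩
      have h4 : (z ∘ₗ ρ a) ∘ₗ Rw ρ v = z ∘ₗ Rw ρ (a :: v) := by
        rw [Rw_cons]; rfl
      have h5 : o₁.r z = b := by
        rw [hz, map_sum]
        ext j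
        simp [Obj.r_x, Pi.single_apply]
      rw [h4, Mv_vecMul hmax h.1 hzA, h5, hb, vecMul_vecMul, ← hM, Units.inv_mul, vecMul_one])
  have hP : Pth o₁ o' [a] := by
    refine ⟨h1.symm, ?_⟩
    show H.δ' a o'.1.2 = _
    rw [h2]
    exact h.1.2
  refine ⟨o', ⟨hP, ?_⟩, h3⟩
  have h4 := Mv_append hmax hP h3.1
  have h5 : IsUnit (Mv o₁ o' [a] * Mv o' o₂ v) := by rw [← h4]; exact h.2
  rw [Matrix.isUnit_iff_isUnit_det, Matrix.det_mul] at h5
  rw [Matrix.isUnit_iff_isUnit_det]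
  exact isUnit_of_mul_isUnit_left h5

open scoped Classical in
/-- the unit of a matrix -/
noncomputable def uU (M : Matrix (Fin k) (Fin k) L) : (Matrix (Fin k) (Fin k) L)ˣ :=
  if h : IsUnit M then h.unit else 1

lemma uU_val {M : Matrix (Fin k) (Fin k) L} (h : IsUnit M) :
    ((uU M : (Matrix (Fin k) (Fin k) L)ˣ) : Matrix (Fin k) (Fin k) L) = M := by
  rw [uU, dif_pos h]; rfl

lemma Mv_pow' (hmax : ∀ p q, IsEmpty (DSys (H.A p) (H.B q) (k + 1))) {o : Obj H k} {v : List σ}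
    (h : Pd o o v) (n : ℕ) : ∃ w : List σ, Pd o o w ∧ Mv o o w = (Mv o o v) ^ n := by
  obtain ⟨w, h1, _, h3⟩ := Mv_pow hmax h.1 n
  exact ⟨w, ⟨h1, by rw [h3]; exact h.2.pow n⟩, h3⟩

/-- transfer matrices into a source object are finite modulo scalars -/
lemma finite_mod [IsAlgClosed L] [FiniteDimensional L V] [Finite σ] {N : ℕ} (C : Ctx cs G N)
    (hk : k ≤ N) (hk0 : 0 < k) (hL2 : LTwo G C.Λ.D k)
    (hmax : ∀ p q, IsEmpty (DSys (H.A p) (H.B q) (k + 1)))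
    (hρ : ∀ w μ, (Rw ρ w).HasEigenvalue μ → μ = 0 ∨ InG G μ)
    (hval : ∀ w, x₀ (Rw ρ w y₀) = 0 ∨ InG G (x₀ (Rw ρ w y₀)))
    {o : Obj H k} (ho : ∀ o' : Obj H k, (∃ v, Pd o' o v) → ∃ v, Pd o o' v) (o'' : Obj H k) :
    ∃ Z : Set (Matrix (Fin k) (Fin k) L), Z.Finite ∧ ∀ v, Pd o'' o v → ∃ c : L, c ≠ 0 ∧
      ∃ M ∈ Z, Mv o'' o v = c • M := by
  classical
  set D := C.Λ.D with hD
  have hD1 : 1 ≤ D := C.Λ.hD
  have hne : Nonempty (Fin k) := ⟨⟨0, hk0⟩⟩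
  -- scalars of loops
  have hscal : ∀ v, Pd o o v → ∃ b, InG G b ∧ (Mv o o v) ^ D =
      b • (1 : Matrix (Fin k) (Fin k) L) := by
    intro v hv
    obtain ⟨h1, b, hb⟩ := loop_scalar C hk hk0 hmax hρ hval hv
    obtain ⟨ν, hν⟩ := exists_eig (Mv o o v)
    have h2 : ((Mv o o v) ^ D).charpoly.IsRoot (ν ^ D) := (eig_pow _ hD1 _).2 ⟨ν, hν, rfl⟩
    rw [hb] at h2
    have h3 : b = ν ^ D := by
      have h4 : (b • (1 : Matrix (Fin k) (Fin k) L)).charpoly = (X - Polynomial.C b) ^ k := by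
        have := Matrix.charpoly_diagonal (fun _ : Fin k => b)
        have e : b • (1 : Matrix (Fin k) (Fin k) L) = Matrix.diagonal fun _ => b := by
          ext i j
          simp [Matrix.one_apply, Matrix.diagonal_apply]
        rw [e, this]; simp
      rw [h4, IsRoot, eval_pow, eval_sub, eval_X, eval_C] at h2
      exact (sub_eq_zero.1 (eq_zero_of_pow_eq_zero h2)).symm
    exact ⟨b, by rw [h3]; exact (h1 ν hν).pow D, hb⟩
  -- inverses of loops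
  have hinv : ∀ v, Pd o o v → ∃ c, InG G c ∧ ∃ w, Pd o o w ∧
      (↑(uU (Mv o o v))⁻¹ : Matrix (Fin k) (Fin k) L) = c • Mv o o w := by
    intro v hv
    obtain ⟨b, hbG, hb⟩ := hscal v hv
    obtain ⟨w, hw, hwe⟩ := Mv_pow' hmax hv (D - 1)
    refine ⟨b⁻¹, hbG.inv, w, hw, ?_⟩
    apply Units.inv_eq_of_mul_eq_one_right
    rw [uU_val hv.2, hwe, Matrix.mul_smul, ← pow_succ']
    have : D - 1 + 1 = D := by omega
    rw [this, hb, smul_smul, inv_mul_cancel₀ hbG.ne_zero, one_smul]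
  -- base points
  let SC : Obj H k → Prop := fun o' => (∃ v, Pd o o' v) ∧ ∃ v, Pd o' o v
  let Nn : Obj H k → (Matrix (Fin k) (Fin k) L)ˣ := fun o' =>
    if h : ∃ v, Pd o o' v then uU (Mv o o' h.choose) else 1
  have hNn : ∀ o', SC o' → ∃ v, Pd o o' v ∧ Nn o' = uU (Mv o o' v) := by
    intro o' h
    refine ⟨h.1.choose, h.1.choose_spec, ?_⟩
    simp only [Nn]
    rw [dif_pos h.1]
  let g : Obj H k × σ × Obj H k → (Matrix (Fin k) (Fin k) L)ˣ := fun t =>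
    if Pd t.1 t.2.2 [t.2.1] ∧ SC t.1 ∧ SC t.2.2 then
      Nn t.1 * uU (Mv t.1 t.2.2 [t.2.1]) * (Nn t.2.2)⁻¹ else 1
  set S : Subgroup (Matrix (Fin k) (Fin k) L)ˣ := Subgroup.closure (Set.range g) with hS
  have hSfg : S.FG := (Subgroup.fg_iff S).2 ⟨Set.range g, rfl, Set.finite_range g⟩
  have huU : ∀ {o₁ o₂ o₃ : Obj H k} {u v : List σ}, Pd o₁ o₂ u → Pd o₂ o₃ v →
      uU (Mv o₁ o₃ (u ++ v)) = uU (Mv o₁ o₂ u) * uU (Mv o₂ o₃ v) := by
    intro o₁ o₂ o₃ u v hu hv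
    apply Units.ext
    rw [Units.val_mul, uU_val hu.2, uU_val hv.2, uU_val (hu.append hmax hv).2,
      Mv_append hmax hu.1 hv.1]
  have hin : ∀ (v : List σ) (o₁ o₂ : Obj H k), Pd o₁ o₂ v → SC o₁ → SC o₂ →
      Nn o₁ * uU (Mv o₁ o₂ v) * (Nn o₂)⁻¹ ∈ S := by
    intro v
    induction v with
    | nil =>
      intro o₁ o₂ h _ _
      have h1 : o₁ = o₂ := Mv_nil' h.1
      subst h1
      have h2 : uU (Mv o₁ o₁ ([] : List σ)) = 1 := by
        apply Units.ext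
        rw [uU_val h.2, Mv_nil, Units.val_one]
      rw [h2, mul_one, mul_inv_cancel]
      exact S.one_mem
    | cons a v ih =>
      intro o₁ o₂ h h1 h2
      obtain ⟨o', ha, hv⟩ := h.split hmax
      have hSC : SC o' := by
        obtain ⟨⟨v1, hv1⟩, _⟩ := h1
        obtain ⟨_, ⟨v2, hv2⟩⟩ := h2
        exact ⟨⟨_, hv1.append hmax ha⟩, ⟨_, hv.append hmax hv2⟩⟩
      have e : uU (Mv o₁ o₂ (a :: v)) = uU (Mv o₁ o' [a]) * uU (Mv o' o₂ v) := huU ha hv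
      have e2 : Nn o₁ * uU (Mv o₁ o₂ (a :: v)) * (Nn o₂)⁻¹ =
          (Nn o₁ * uU (Mv o₁ o' [a]) * (Nn o')⁻¹) * (Nn o' * uU (Mv o' o₂ v) * (Nn o₂)⁻¹) := by
        rw [e]; group
      rw [e2]
      refine S.mul_mem (Subgroup.subset_closure ⟨(o₁, a, o'), ?_⟩) (ih o' o₂ hv hSC h2)
      simp only [g]
      rw [if_pos ⟨ha, h1, hSC⟩]
  have hout : ∀ X ∈ S, ∃ c, InG G c ∧ ∃ w, Pd o o w ∧
      (X : Matrix (Fin k) (Fin k) L) = c • Mv o o w := by
    intro X hX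
    induction hX using Subgroup.closure_induction with
    | mem X hX =>
      obtain ⟨⟨o₁, a, o₂⟩, rfl⟩ := hX
      by_cases hc : Pd o₁ o₂ [a] ∧ SC o₁ ∧ SC o₂
      · have e : g (o₁, a, o₂) = Nn o₁ * uU (Mv o₁ o₂ [a]) * (Nn o₂)⁻¹ := by
          simp only [g]
          rw [if_pos hc]
        obtain ⟨ha, h1, h2⟩ := hc
        obtain ⟨v1, hv1, hN1⟩ := hNn o₁ h1
        obtain ⟨v2, hv2, hN2⟩ := hNn o₂ h2
        obtain ⟨_, ⟨r, hr⟩⟩ := h2
        have hP : Pd o o (v1 ++ [a] ++ r) := (hv1.append hmax ha).append hmax hr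
        have hQ : Pd o o (v2 ++ r) := hv2.append hmax hr
        obtain ⟨c, hcG, w, hw, hwe⟩ := hinv _ hQ
        have e2 : g (o₁, a, o₂) = uU (Mv o o (v1 ++ [a] ++ r)) * (uU (Mv o o (v2 ++ r)))⁻¹ := by
          rw [e, hN1, hN2, huU (hv1.append hmax ha) hr, huU hv1 ha, huU hv2 hr]; group
        refine ⟨c, hcG, (v1 ++ [a] ++ r) ++ w, hP.append hmax hw, ?_⟩
        rw [e2, Units.val_mul, uU_val hP.2, hwe, Mv_append hmax hP.1 hw.1, Matrix.mul_smul]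
      · have e : g (o₁, a, o₂) = 1 := by
          simp only [g]
          rw [if_neg hc]
        exact ⟨1, InG.one, [], Pd_nil o, by rw [e, Mv_nil, one_smul, Units.val_one]⟩
    | one => exact ⟨1, InG.one, [], Pd_nil o, by rw [Mv_nil, one_smul, Units.val_one]⟩
    | mul X Y _ _ hX hY =>
      obtain ⟨c, hc, w, hw, he⟩ := hX
      obtain ⟨c', hc', w', hw', he'⟩ := hY
      refine ⟨c * c', hc.mul hc', w ++ w', hw.append hmax hw', ?_⟩
      rw [Units.val_mul, he, he', Mv_append hmax hw.1 hw'.1, smul_mul_smul_comm]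
    | inv X _ hX =>
      obtain ⟨c, hc, w, hw, he⟩ := hX
      obtain ⟨c', hc', w', hw', he'⟩ := hinv w hw
      refine ⟨c⁻¹ * c', hc.inv.mul hc', w', hw', ?_⟩
      apply Units.inv_eq_of_mul_eq_one_right
      have h1 : Mv o o w * (c' • Mv o o w') = 1 := by
        rw [← he', ← uU_val hw.2, uU_val hw.2]
        have := Units.mul_inv (uU (Mv o o w))
        rwa [uU_val hw.2] at this
      rw [he, mul_smul, smul_mul_smul_comm, mul_inv_cancel₀ hc.ne_zero, one_smul, h1]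
  obtain ⟨Z, hZ, hZS⟩ := hL2 S hSfg (by
    intro X hX
    obtain ⟨c, hc, w, hw, he⟩ := hout X hX
    obtain ⟨h1, b, hb⟩ := loop_scalar C hk hk0 hmax hρ hval hw
    refine ⟨fun μ hμ => ?_, c ^ D * b, ?_⟩
    · rw [he, eig_smul _ hc.ne_zero] at hμ
      obtain ⟨ν, hν, rfl⟩ := hμ
      exact hc.mul (h1 ν hν)
    · rw [he, _root_.smul_pow, hb, smul_smul])
  by_cases hpred : ∃ v, Pd o'' o v
  · have hSC : SC o'' := ⟨ho o'' hpred, hpred⟩
    have hSCo : SC o := ⟨⟨[], Pd_nil o⟩, ⟨[], Pd_nil o⟩⟩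
    refine ⟨(fun M => (↑(Nn o'')⁻¹ : Matrix (Fin k) (Fin k) L) * M *
      (Nn o : Matrix (Fin k) (Fin k) L)) '' Z, hZ.image _, fun v hv => ?_⟩
    obtain ⟨c, hc, M, hM, he⟩ := hZS _ (hin v o'' o hv hSC hSCo)
    refine ⟨c, hc, _, ⟨M, hM, rfl⟩, ?_⟩
    have e1 : uU (Mv o'' o v) = (Nn o'')⁻¹ * (Nn o'' * uU (Mv o'' o v) * (Nn o)⁻¹) * Nn o := by
      group
    have e2 := congrArg (fun X : (Matrix (Fin k) (Fin k) L)ˣ =>
      (X : Matrix (Fin k) (Fin k) L)) e1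
    rw [uU_val hv.2, Units.val_mul, Units.val_mul, he] at e2
    rw [e2, Matrix.mul_smul, Matrix.smul_mul]
  · exact ⟨∅, Set.finite_empty, fun v hv => absurd ⟨v, hv⟩ hpred⟩

/-- subspace of coordinates reached through a letter -/
noncomputable def Rsub (o : Obj H k) (p : Fin H.np) (a : σ) : Submodule L (Fin k → L) :=
  (H.A p).map (o.r ∘ₗ (ρ a).dualMap)

theorem rank_le_one [IsAlgClosed L] [FiniteDimensional L V] [Finite σ] {N : ℕ} (C : Ctx cs G N)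
    (hN : finrank L V ≤ N) (hL2 : ∀ k ≤ N, LTwo G C.Λ.D k)
    (hρ : ∀ w μ, (Rw ρ w).HasEigenvalue μ → μ = 0 ∨ InG G μ)
    (hval : ∀ w, x₀ (Rw ρ w y₀) = 0 ∨ InG G (x₀ (Rw ρ w y₀))) (H : HullData ρ x₀ y₀) :
    ∀ p q, IsEmpty (DSys (H.A p) (H.B q) 2) := by
  classical
  by_contra hcon
  push Not at hcon
  obtain ⟨p₂, q₂, ⟨d₂⟩⟩ := hcon
  let P : ℕ → Prop := fun k => ∃ p q, Nonempty (DSys (H.A p) (H.B q) k)
  have hP2 : P 2 := ⟨p₂, q₂, ⟨d₂⟩⟩
  have h2V : 2 ≤ finrank L V := d₂.le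
  obtain ⟨k, hk2, hkP, hmax⟩ : ∃ k, 2 ≤ k ∧ P k ∧
      ∀ p q, IsEmpty (DSys (H.A p) (H.B q) (k + 1)) := by
    refine ⟨Nat.findGreatest P (finrank L V), Nat.le_findGreatest h2V hP2,
      Nat.findGreatest_spec (m := 2) h2V hP2, fun p q => ⟨fun d => ?_⟩⟩
    have h0 : P (Nat.findGreatest P (finrank L V) + 1) := ⟨p, q, ⟨d⟩⟩
    have h1 := Nat.le_findGreatest d.le h0
    omega
  have hkN : k ≤ N := by
    obtain ⟨p, q, ⟨d⟩⟩ := hkP
    exact d.le.trans hN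
  have hk0 : 0 < k := by omega
  have hneObj : Nonempty (Obj H k) := by
    obtain ⟨p, q, hd⟩ := hkP
    exact ⟨⟨(p, q), hd⟩⟩
  obtain ⟨o, ho⟩ := exists_source hmax hneObj
  choose Z hZfin hZ using fun o'' : Obj H k =>
    finite_mod C hkN hk0 (hL2 k hkN) hmax hρ hval ho o''
  -- finite family of proper subspaces
  let R0 : Set (Submodule L (Fin k → L)) :=
    (⋃ o₁ : Obj H k, (fun M => (Submodule.span L {o₁.r x₀}).map (Matrix.vecMulLinear M)) '' Z o₁) ∪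
    (⋃ t : Obj H k × Fin H.np × σ, (fun M => (Rsub t.1 t.2.1 t.2.2).map (Matrix.vecMulLinear M)) ''
      Z t.1)
  have hR0fin : R0.Finite := by
    refine Set.Finite.union (Set.finite_iUnion fun o₁ => (hZfin o₁).image _)
      (Set.finite_iUnion fun t => (hZfin t.1).image _)
  let R : Set (Submodule L (Fin k → L)) := {S | S ∈ R0 ∧ S ≠ ⊤}
  have hRfin : R.Finite := hR0fin.subset fun S hS => hS.1
  have key : ∀ (w₁ w₂ : List σ) (o₁ : Obj H k), o₁.1.1 = w₁.foldl H.δ H.p0 → Pd o₁ o w₂ →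
      ∃ S ∈ R, o.r (x₀ ∘ₗ Rw ρ (w₁ ++ w₂)) ∈ S := by
    intro w₁
    induction w₁ using List.reverseRecOn with
    | nil =>
      intro w₂ o₁ h1 h2
      obtain ⟨c, hc, M, hM, he⟩ := hZ o₁ w₂ h2
      refine ⟨(Submodule.span L {o₁.r x₀}).map (Matrix.vecMulLinear M), ⟨Or.inl ?_, ?_⟩, ?_⟩
      · exact Set.mem_iUnion.2 ⟨o₁, M, hM, rfl⟩
      · intro htop
        have h3 := Submodule.finrank_map_le (Matrix.vecMulLinear M)
          (Submodule.span L {o₁.r x₀})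
        rw [htop, finrank_top, Module.finrank_fin_fun] at h3
        have h4 : finrank L (Submodule.span L {o₁.r x₀}) ≤ 1 := by
          have := finrank_span_le_card (R := L) ({o₁.r x₀} : Set (Fin k → L))
          simpa using this
        omega
      · have hx : x₀ ∈ H.A o₁.1.1 := by rw [h1]; exact H.hp0
        have h3 : x₀ ∘ₗ Rw ρ ([] ++ w₂) = x₀ ∘ₗ Rw ρ w₂ := rfl
        rw [h3, Mv_vecMul hmax h2.1 hx, he]
        refine ⟨c • o₁.r x₀, Submodule.smul_mem _ _ (Submodule.mem_span_singleton_self _), ?_⟩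
        rw [map_smul, Matrix.vecMulLinear_apply, vecMul_smul]
    | append_singleton w₁ a ih =>
      intro w₂ o₁ h1 h2
      obtain ⟨c, hc, M, hM, he⟩ := hZ o₁ w₂ h2
      rw [List.foldl_append, List.foldl_cons, List.foldl_nil] at h1
      set p' := w₁.foldl H.δ H.p0 with hp'
      have hx' : x₀ ∘ₗ Rw ρ w₁ ∈ H.A p' := H.A_mem w₁ _ H.hp0
      by_cases htop : (Rsub o₁ p' a).map (Matrix.vecMulLinear M) = ⊤
      · obtain ⟨o', ho'1, _, ho'P⟩ := exists_obj hmax (o := o) (v := a :: w₂) (p := p') (by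
            rw [List.foldl_cons, ← h1]
            exact h2.1.1) (by
            intro z
            have hz : c⁻¹ • z ∈ (Rsub o₁ p' a).map (Matrix.vecMulLinear M) := by
              rw [htop]; trivial
            obtain ⟨_, ⟨x, hx, rfl⟩, hxe⟩ := hz
            refine ⟨x, hx, ?_⟩
            have hxa : x ∘ₗ ρ a ∈ H.A o₁.1.1 := by
              rw [h1]; exact H.hδ _ _ _ hx
            have e1 : x ∘ₗ Rw ρ (a :: w₂) = (x ∘ₗ ρ a) ∘ₗ Rw ρ w₂ := by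
              rw [Rw_cons]; rfl
            rw [e1, Mv_vecMul hmax h2.1 hxa, he, vecMul_smul]
            have e2 : o₁.r (x ∘ₗ ρ a) ᵥ* M = c⁻¹ • z := hxe
            rw [e2, smul_smul, mul_inv_cancel₀ hc, one_smul])
        have := ih (a :: w₂) o' ho'1 ho'P
        rw [List.append_assoc]
        exact this
      · refine ⟨_, ⟨Or.inr (Set.mem_iUnion.2 ⟨(o₁, p', a), M, hM, rfl⟩), htop⟩, ?_⟩
        have hxa : (x₀ ∘ₗ Rw ρ w₁) ∘ₗ ρ a ∈ H.A o₁.1.1 := by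
          rw [h1]; exact H.hδ _ _ _ hx'
        have e1 : x₀ ∘ₗ Rw ρ (w₁ ++ [a] ++ w₂) = ((x₀ ∘ₗ Rw ρ w₁) ∘ₗ ρ a) ∘ₗ Rw ρ w₂ := by
          rw [Rw_append, Rw_append]
          have : Rw ρ [a] = ρ a := by simp [Rw]
          rw [this]; rfl
        rw [e1, Mv_vecMul hmax h2.1 hxa, he]
        refine ⟨c • o₁.r ((x₀ ∘ₗ Rw ρ w₁) ∘ₗ ρ a), Submodule.smul_mem _ _
          ⟨x₀ ∘ₗ Rw ρ w₁, hx', rfl⟩, ?_⟩
        rw [map_smul, Matrix.vecMulLinear_apply, vecMul_smul]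
  obtain ⟨C', ⟨S, hS, rfl⟩, hle⟩ := H.irrP o.1.1 ((fun S => S.comap o.r) '' R) (hRfin.image _) (by
    intro w hw
    obtain ⟨S, hS, hmem⟩ := key w [] o hw.symm (Pd_nil o)
    rw [List.append_nil] at hmem
    exact ⟨_, ⟨S, hS, rfl⟩, hmem⟩)
  apply hS.2
  rw [eq_top_iff]
  intro z _
  have h1 : z = ∑ i, z i • (Pi.single i (1 : L) : Fin k → L) := by
    ext j
    simp [Pi.single_apply]
  rw [h1]
  refine S.sum_mem fun i _ => S.smul_mem _ ?_
  have := hle (o.d.hx i)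
  rw [Submodule.mem_comap, Obj.r_x] at this
  exact this

end Pool.Agent.H.MP_df1c3e_lc
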