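import Pool.Agent.H.MP_df1c3e_lc.Desc
import Pool.Agent.H.MP_df1c3e_lc.Hull
import Pool.Agent.H.MP_df1c3e_lc.Grp

/-!
Reduction of the main theorem to countable fields.
-/

namespace Pool.Agent.H.MP_df1c3e_lc

open Matrix Module

section ret

variable {K L : Type*} [Field K] [Field L] [Algebra K L] {σ : Type*}

lemma isPA_of_Dsp {F : List σ → L} (hF : F ∈ Dsp K L σ) (r : L →ₗ[K] K) :
    IsPA (fun w => r (F w)) := by
  unfold Dsp at hF
  induction hF using Submodule.span_induction generalizing r with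
  | mem F hF =>
    obtain ⟨f, hf, rfl⟩ := hF
    have h1 : (fun w => r (algebraMap K L (f w))) = fun w => r 1 * f w := by
      funext w
      rw [Algebra.algebraMap_eq_smul_one, map_smul, smul_eq_mul, mul_comm]
    rw [h1]
    exact isPA_smul _ hf
  | zero => simpa using isPA_zero
  | add F F' _ _ h h' =>
    have h1 : (fun w => r ((F + F') w)) = fun w => r (F w) + r (F' w) := by
      funext w
      rw [Pi.add_apply, map_add]
    rw [h1]
    exact isPA_add (h r) (h' r)
  | smul c F _ h =>
    exact h (r ∘ₗ (LinearMap.mulLeft K c))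

lemma isPA_of_algebraMap {f : List σ → K} (hF : (fun w => algebraMap K L (f w)) ∈ Dsp K L σ) :
    IsPA f := by
  obtain ⟨r, hr⟩ := LinearMap.exists_leftInverse_of_injective (Algebra.linearMap K L)
    (LinearMap.ker_eq_bot.2 (algebraMap K L).injective)
  have h1 : (fun w => r (algebraMap K L (f w))) = f := by
    funext w
    exact LinearMap.congr_fun hr (f w)
  rw [← h1]
  exact isPA_of_Dsp hF r

lemma wmat_map {R S : Type*} [CommRing R] [CommRing S] {n : ℕ} (φ : R →+* S)
    (M : σ → Matrix (Fin n) (Fin n) R) (w : List σ) :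
    wmat (fun a => (M a).map φ) w = (wmat M w).map φ := by
  induction w with
  | nil => simp
  | cons a w ih => rw [wmat_cons, wmat_cons, ih, Matrix.map_mul]

lemma dot_map {R S : Type*} [CommRing R] [CommRing S] {n : ℕ} (φ : R →+* S)
    (I F : Fin n → R) (M : Matrix (Fin n) (Fin n) R) :
    (fun i => φ (I i)) ⬝ᵥ (M.map φ).mulVec (fun i => φ (F i)) = φ (I ⬝ᵥ M.mulVec F) := by
  simp [dotProduct, mulVec, map_sum, Finset.mul_sum]

lemma isPA_map {f : List σ → K} (hf : IsPA f) : IsPA (fun w => algebraMap K L (f w)) := by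
  obtain ⟨n, I, F, M, C, k, h1, h2⟩ := hf
  have hind : ∀ x : K, ind (algebraMap K L x) = ind x := by
    intro x
    by_cases h : x = 0
    · simp [h]
    · rw [ind_ne h, ind_ne]
      simpa using h
  refine ⟨n, fun i => algebraMap K L (I i), fun i => algebraMap K L (F i),
    fun a => (M a).map (algebraMap K L), C, k, fun w => ?_, fun w => ?_⟩
  · rw [wmat_map, dot_map, ← h1]
  · refine le_trans (le_of_eq ?_) (h2 w)
    unfold cnt
    simp only [hind]
    congr 2
    congr 1
    funext a
    ext i j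
    simp [indM, hind]

end ret

lemma exists_WA {K σ : Type*} [Field K] {f : List σ → K} (hf : IsPA f) :
    ∃ B : WA K σ, B.PolyAmbiguous ∧ ∀ w, B.value w = f w := by
  obtain ⟨n, I, F, M, C, k, h1, h2⟩ := hf
  refine ⟨⟨n, I, F, M⟩, ⟨Polynomial.C C * (Polynomial.X + 1) ^ k, fun w => ?_⟩, fun w => ?_⟩
  · rw [card_runs]
    refine (h2 w).trans (le_of_eq ?_)
    simp
  · rw [h1]
    rfl

universe u v

theorem reduce {K : Type u} [Field K] {σ : Type v} [Finite σ] (A : WA K σ)
    (S : Finset (AlgebraicClosure K))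
    (h1 : ∀ (w : List σ) (μ : AlgebraicClosure K), (∃ v, v ≠ 0 ∧
      ((A.mat w).map (algebraMap K (AlgebraicClosure K))).mulVec v = μ • v) →
      μ ∈ Subsemigroup.closure (S : Set (AlgebraicClosure K)))
    {N : ℕ} (hN : 1 ≤ N)
    (h2 : ∀ α ∈ Subsemigroup.closure (S : Set (AlgebraicClosure K)),
      ∃ b : K, algebraMap K (AlgebraicClosure K) b = α ^ N)
    (hmain : ∀ (L : Type u) [Field L] [Countable L] [IsAlgClosed L] (K₁ : Type u) [Field K₁]
      [Algebra K₁ L] (G : Subgroup Lˣ), G.FG → ∀ (n : ℕ) (ρ : σ → Module.End L (Fin n → L)),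
      (∀ w μ, (Rw ρ w).HasEigenvalue μ → μ = 0 ∨ InG G μ) →
      (∀ w μ, (Rw ρ w).HasEigenvalue μ → ∃ b : K₁, algebraMap K₁ L b = μ ^ N) →
      ∀ (x : Module.Dual L (Fin n → L)) (y : Fin n → L),
        (fun w => x (Rw ρ w y)) ∈ Dsp K₁ L σ) :
    ∃ B : WA K σ, B.PolyAmbiguous ∧ ∀ w, B.value w = A.value w := by
  classical
  have hb : ∀ s : S, ∃ b : K, algebraMap K (AlgebraicClosure K) b = (s : AlgebraicClosure K) ^ N :=
    fun s => h2 s (Subsemigroup.subset_closure s.2)
  choose b hb using hb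
  let X : Set K := Set.range A.init ∪ Set.range A.fin ∪
    (Set.range fun p : σ × Fin A.d × Fin A.d => A.step p.1 p.2.1 p.2.2) ∪ Set.range b
  have hX : X.Countable := by
    refine Set.Countable.union (Set.Countable.union (Set.Countable.union ?_ ?_) ?_) ?_ <;>
    exact Set.countable_range _
  let K₁ : Subfield K := Subfield.closure X
  have hXK : ∀ x ∈ X, x ∈ K₁ := fun x hx => Subfield.subset_closure hx
  have hinit : ∀ i, A.init i ∈ K₁ := fun i => hXK _ (Or.inl (Or.inl (Or.inl ⟨i, rfl⟩)))
  have hfin : ∀ i, A.fin i ∈ K₁ := fun i => hXK _ (Or.inl (Or.inl (Or.inr ⟨i, rfl⟩)))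
  have hstep : ∀ a i j, A.step a i j ∈ K₁ := fun a i j => hXK _ (Or.inl (Or.inr ⟨(a, i, j), rfl⟩))
  have hbK : ∀ s, b s ∈ K₁ := fun s => hXK _ (Or.inr ⟨s, rfl⟩)
  have hK₁ : Countable K₁ := by
    rw [← Cardinal.mk_le_aleph0_iff]
    exact (Subfield.cardinalMk_closure_le_max X).trans
      (max_le (Cardinal.mk_le_aleph0_iff.2 hX.to_subtype) le_rfl)
  let L : IntermediateField K₁ (AlgebraicClosure K) := algebraicClosure K₁ (AlgebraicClosure K)
  have hLcl : IsAlgClosed L := IsAlgClosure.isAlgClosed K₁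
  have hLc : Countable L := by
    have h3 : {x : AlgebraicClosure K | IsAlgebraic K₁ x}.Countable :=
      Algebraic.countable K₁ (AlgebraicClosure K)
    have h4 : Countable {x : AlgebraicClosure K | IsAlgebraic K₁ x} := h3.to_subtype
    refine Function.Injective.countable
      (f := fun x : L => (⟨(x : AlgebraicClosure K), ?_⟩ :
        {x : AlgebraicClosure K | IsAlgebraic K₁ x})) ?_
    · exact (mem_algebraicClosure_iff).1 x.2
    · intro x y hxy
      have h5 := congrArg (fun z : {x : AlgebraicClosure K | IsAlgebraic K₁ x} =>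
        (z : AlgebraicClosure K)) hxy
      exact Subtype.ext h5
  -- powers lie in `K₁`
  have hpow : ∀ α ∈ Subsemigroup.closure (S : Set (AlgebraicClosure K)),
      ∃ c : K₁, algebraMap K₁ (AlgebraicClosure K) c = α ^ N := by
    intro α hα
    induction hα using Subsemigroup.closure_induction with
    | mem x hx => exact ⟨⟨b ⟨x, hx⟩, hbK _⟩, hb ⟨x, hx⟩⟩
    | mul x y _ _ hx hy =>
      obtain ⟨c, hc⟩ := hx
      obtain ⟨c', hc'⟩ := hy
      exact ⟨c * c', by rw [map_mul, hc, hc', mul_pow]⟩
  have hmemL : ∀ α ∈ Subsemigroup.closure (S : Set (AlgebraicClosure K)), α ∈ L := by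
    intro α hα
    obtain ⟨c, hc⟩ := hpow α hα
    refine (mem_algebraicClosure_iff).2 ?_
    have h3 : IsIntegral K₁ (α ^ N) := by rw [← hc]; exact isIntegral_algebraMap
    exact (IsIntegral.of_pow hN h3).isAlgebraic
  -- the group
  let T : Set Lˣ := {g | ((g : L) : AlgebraicClosure K) ∈ S}
  have hT : T.Finite := by
    refine Set.Finite.of_injOn (f := fun g : Lˣ => ((g : L) : AlgebraicClosure K))
      (t := (S : Set (AlgebraicClosure K))) (fun g hg => hg) ?_ S.finite_toSet
    intro g _ h _ hgh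
    exact Units.ext (Subtype.ext hgh)
  let G' : Subgroup Lˣ := Subgroup.closure T
  have hG' : G'.FG := ⟨hT.toFinset, by rw [Set.Finite.coe_toFinset]⟩
  have hInG : ∀ α ∈ Subsemigroup.closure (S : Set (AlgebraicClosure K)), ∀ x : L,
      (x : AlgebraicClosure K) = α → x = 0 ∨ InG G' x := by
    intro α hα
    induction hα using Subsemigroup.closure_induction with
    | mem s hs =>
      intro x hx
      by_cases h0 : x = 0
      · exact Or.inl h0
      · right
        refine ⟨Units.mk0 x h0, Subgroup.subset_closure ?_, rfl⟩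
        change ((Units.mk0 x h0 : L) : AlgebraicClosure K) ∈ S
        rw [Units.val_mk0, hx]
        exact hs
    | mul y z hy hz ihy ihz =>
      intro x hx
      have h3 := ihy ⟨y, hmemL y hy⟩ rfl
      have h4 := ihz ⟨z, hmemL z hz⟩ rfl
      have h5 : x = ⟨y, hmemL y hy⟩ * ⟨z, hmemL z hz⟩ := Subtype.ext hx
      rw [h5]
      rcases h3 with h3 | h3
      · left; rw [h3, zero_mul]
      · rcases h4 with h4 | h4
        · left; rw [h4, mul_zero]
        · right; exact h3.mul h4
  -- the automaton over `K₁`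
  let step₁ : σ → Matrix (Fin A.d) (Fin A.d) K₁ := fun a =>
    Matrix.of fun i j => ⟨A.step a i j, hstep a i j⟩
  let init₁ : Fin A.d → K₁ := fun i => ⟨A.init i, hinit i⟩
  let fin₁ : Fin A.d → K₁ := fun i => ⟨A.fin i, hfin i⟩
  let stepL : σ → Matrix (Fin A.d) (Fin A.d) L := fun a => (step₁ a).map (algebraMap K₁ L)
  have hmatK : ∀ w, A.mat w = (wmat step₁ w).map (algebraMap K₁ K) := by
    intro w
    rw [← wmat_map]
    rfl
  have hmatL : ∀ w, wmat stepL w = (wmat step₁ w).map (algebraMap K₁ L) := fun w => wmat_map _ _ w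
  let ρ : σ → Module.End L (Fin A.d → L) := fun a => Matrix.toLin' (stepL a)
  have hRw : ∀ w, Rw ρ w = Matrix.toLin' (wmat stepL w) := by
    intro w
    induction w with
    | nil => rw [Rw_nil, wmat_nil, Matrix.toLin'_one]; rfl
    | cons a w ih => rw [Rw_cons, wmat_cons, Matrix.toLin'_mul, ih]; rfl
  have hcomm : ∀ c : K₁, algebraMap K (AlgebraicClosure K) (algebraMap K₁ K c) =
      algebraMap L (AlgebraicClosure K) (algebraMap K₁ L c) := fun c => rfl
  have hev : ∀ w μ, (Rw ρ w).HasEigenvalue μ →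
      (μ : AlgebraicClosure K) ∈ Subsemigroup.closure (S : Set (AlgebraicClosure K)) := by
    intro w μ hμ
    obtain ⟨v, hv⟩ := hμ.exists_hasEigenvector
    have hv1 : (wmat stepL w).mulVec v = μ • v := by
      have := hv.apply_eq_smul
      rwa [hRw, Matrix.toLin'_apply] at this
    refine h1 w μ ⟨fun i => algebraMap L (AlgebraicClosure K) (v i), ?_, ?_⟩
    · intro h0
      apply hv.2
      funext i
      have := congrFun h0 i
      simpa using this
    · have h3 : (A.mat w).map (algebraMap K (AlgebraicClosure K)) =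
          (wmat stepL w).map (algebraMap L (AlgebraicClosure K)) := by
        rw [hmatK, hmatL]
        ext i j
        exact hcomm _
      rw [h3]
      funext i
      have h4 := congrArg (algebraMap L (AlgebraicClosure K)) (congrFun hv1 i)
      rw [Pi.smul_apply, smul_eq_mul, map_mul] at h4
      rw [Pi.smul_apply, smul_eq_mul]
      refine Eq.trans ?_ h4
      simp only [mulVec, dotProduct, Matrix.map_apply, map_sum, map_mul]
  have hmain' := hmain L K₁ G' hG' A.d ρ (fun w μ hμ => hInG _ (hev w μ hμ) μ rfl)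
    (fun w μ hμ => by
      obtain ⟨c, hc⟩ := hpow _ (hev w μ hμ)
      exact ⟨c, Subtype.ext hc⟩)
  let x : Module.Dual L (Fin A.d → L) := ∑ i, (algebraMap K₁ L (init₁ i)) • LinearMap.proj i
  have hx : ∀ v, x v = (fun i => algebraMap K₁ L (init₁ i)) ⬝ᵥ v := by
    intro v
    simp only [x, LinearMap.sum_apply, LinearMap.smul_apply, LinearMap.proj_apply, smul_eq_mul,
      dotProduct]
  have hPA : IsPA (fun w => init₁ ⬝ᵥ (wmat step₁ w).mulVec fin₁) := by
    apply isPA_of_algebraMap (L := L)
    have h3 := hmain' x (fun i => algebraMap K₁ L (fin₁ i))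
    have h4 : (fun w => x ((Rw ρ w) (fun i => algebraMap K₁ L (fin₁ i)))) =
        fun w => algebraMap K₁ L (init₁ ⬝ᵥ (wmat step₁ w).mulVec fin₁) := by
      funext w
      rw [hx, hRw, Matrix.toLin'_apply, hmatL, dot_map]
    rw [h4] at h3
    exact h3
  have hPA' := isPA_map (L := K) hPA
  have hval : (fun w => algebraMap K₁ K (init₁ ⬝ᵥ (wmat step₁ w).mulVec fin₁)) = A.value := by
    funext w
    rw [← dot_map, WA.value, hmatK]
    rfl
  rw [hval] at hPA'
  exact exists_WA hPA'

end Pool.Agent.H.MP_df1c3e_lc
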