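import Pool.Agent.H.MP_df1c3e_lc.Grp
import Pool.Agent.H.MP_df1c3e_lc.ExpPoly

/-!
The rigidity property and its rank one case.
-/

namespace Pool.Agent.H.MP_df1c3e_lc

open MonoidAlgebra Polynomial

variable {L : Type*} [Field L] {A : Type*} [CommRing A]

/-- Rigidity: a monic polynomial over the ring of exponential polynomials all of whose values
have their roots in `G ∪ {0}` splits, along an arithmetic progression, into linear factors with
geometric roots. -/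
def Rig (cs : CS L A) (G Γ : Subgroup Lˣ) : Prop :=
  ∀ (p : Polynomial (MonoidAlgebra A Γ)), p.Monic → ∀ (r : ℕ), p.natDegree = r → ∀ n0 : ℕ,
    (∀ n, n0 ≤ n → ∀ μ : L, (p.map (cs.ev Γ n)).IsRoot μ → μ = 0 ∨ InG G μ) →
    ∃ n1 h : ℕ, 1 ≤ h ∧ ∃ (c : Fin r → L) (g : Fin r → Γ),
      (∀ i, c i = 0 ∨ InG G (c i)) ∧
      p.map (cs.sg Γ n1 h) = ∏ i, (X - C (cs.mon Γ (g i) (c i)))

variable {cs : CS L A}

lemma CS.deg_eq_const {c : A} {a : L} {n h : ℕ} (hh : 1 ≤ h) (e : cs.sub n h c = cs.k a) :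
    c = cs.k a := by
  have h1 : cs.deg c = 0 := by rw [← cs.deg_sub_eq n h c hh, e, cs.deg_k]
  rw [cs.deg_const c h1, cs.sub_k] at e
  rw [cs.deg_const c h1, e]

lemma CS.sub_eq_zero {c : A} {n h : ℕ} (hh : 1 ≤ h) (e : cs.sub n h c = 0) : c = 0 := by
  have := cs.deg_eq_const (a := 0) hh (by rw [e, map_zero])
  rw [this, map_zero]

lemma CS.k_inj {a b : L} (h : cs.k a = cs.k b) : a = b := by
  have := congrArg (cs.e 0) h
  rwa [cs.e_k, cs.e_k] at this

/-- coefficients of a substituted element, for a torsion-free group -/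
lemma CS.coeff_sg {Γ : Subgroup Lˣ} [IsMulTorsionFree Γ] (n h : ℕ) (hh : 1 ≤ h)
    (f : MonoidAlgebra A Γ) (γ : Γ) :
    (cs.sg Γ n h f).coeff (γ ^ h) = cs.sub n h (f.coeff γ) * cs.k (((γ : Lˣ) : L) ^ n) := by
  classical
  rw [CS.sg_apply, MonoidAlgebra.coeff_finsuppSum, Finsupp.sum_apply]
  have hinj : ∀ a : Γ, a ^ h = γ ^ h ↔ a = γ := fun a =>
    ⟨fun e => IsMulTorsionFree.pow_left_injective (by omega) e, fun e => by rw [e]⟩
  simp only [MonoidAlgebra.coeff_single, Finsupp.single_apply, hinj]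
  rw [Finsupp.sum, Finset.sum_ite_eq']
  split_ifs with h
  · rfl
  · rw [Finsupp.notMem_support_iff.1 h]; simp

/-- an exponential polynomial with values in `G ∪ {0}` is geometric -/
lemma Rig.rank_one {G Γ : Subgroup Lˣ} [IsMulTorsionFree Γ] (hR : Rig cs G Γ)
    (f : MonoidAlgebra A Γ) (n0 : ℕ) (hf : ∀ n, n0 ≤ n → cs.ev Γ n f = 0 ∨ InG G (cs.ev Γ n f)) :
    f = 0 ∨ ∃ γ : Γ, f.coeff γ ≠ 0 ∧ ∀ n, cs.ev Γ (n + 1) f = ((γ : Lˣ) : L) * cs.ev Γ n f := by
  classical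
  have hnt : Nontrivial A := (cs.e 0).domain_nontrivial
  obtain ⟨n1, h, hh, c, g, hc, hp⟩ := hR (X - C f) (monic_X_sub_C f) 1 (natDegree_X_sub_C f) n0
    (by
      intro n hn μ hμ
      rw [Polynomial.map_sub, map_X, map_C, IsRoot, eval_sub, eval_X, eval_C, sub_eq_zero] at hμ
      rw [hμ]; exact hf n hn)
  rw [Polynomial.map_sub, map_X, map_C, Fin.prod_univ_one] at hp
  have h1 : cs.sg Γ n1 h f = cs.mon Γ (g 0) (c 0) := by
    have := sub_right_inj.1 hp
    exact C_injective this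
  by_cases h0 : f = 0
  · exact Or.inl h0
  right
  have hcoef : ∀ γ : Γ, f.coeff γ ≠ 0 → γ ^ h = g 0 := by
    intro γ hγ
    by_contra hne
    have h2 := cs.coeff_sg n1 h hh f γ
    rw [h1, CS.mon, MonoidAlgebra.coeff_single, Finsupp.single_apply, if_neg (Ne.symm hne)] at h2
    apply hγ
    apply cs.sub_eq_zero (n := n1) hh
    have h3 : cs.sub n1 h (f.coeff γ) * cs.k (((γ : Lˣ) : L) ^ n1) *
        cs.k ((((γ : Lˣ) : L) ^ n1)⁻¹) = 0 := by rw [← h2, zero_mul]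
    rwa [mul_assoc, ← map_mul, mul_inv_cancel₀ (pow_ne_zero _ (Units.ne_zero _)), map_one,
      mul_one] at h3
  obtain ⟨γ, hγ⟩ : ∃ γ, f.coeff γ ≠ 0 := by
    by_contra hc
    push Not at hc
    exact h0 (MonoidAlgebra.coeff_eq_zero.1 (Finsupp.ext hc))
  have huniq : ∀ γ', f.coeff γ' ≠ 0 → γ' = γ := fun γ' hγ' =>
    IsMulTorsionFree.pow_left_injective (n := h) (by omega)
      ((hcoef γ' hγ').trans (hcoef γ hγ).symm)
  have hconst : ∃ a, f.coeff γ = cs.k a := by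
    have h2 := cs.coeff_sg n1 h hh f γ
    rw [h1, CS.mon, MonoidAlgebra.coeff_single, Finsupp.single_apply,
      if_pos (hcoef γ hγ).symm] at h2
    refine ⟨c 0 * (((γ : Lˣ) : L) ^ n1)⁻¹, ?_⟩
    apply cs.deg_eq_const (n := n1) hh
    rw [map_mul, h2, mul_assoc, ← map_mul, mul_inv_cancel₀ (pow_ne_zero _ (Units.ne_zero _)),
      map_one, mul_one]
  obtain ⟨a, ha⟩ := hconst
  have hfe : f = single γ (cs.k a) := by
    ext γ'
    rw [MonoidAlgebra.coeff_single, Finsupp.single_apply]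
    split_ifs with h
    · rw [← h, ha]
    · by_contra hne
      exact h (huniq γ' hne).symm
  refine ⟨γ, hγ, fun n => ?_⟩
  rw [hfe, CS.ev_single, CS.ev_single, cs.e_k, cs.e_k]
  ring

end Pool.Agent.H.MP_df1c3e_lc
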